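import Mathlib

/-!
# Koszul complexes: definitions

A Koszul chain is a function from the subsets of the set of variables (Boolean vectors) to a vector
space on which the variables act as commuting operators.
-/

set_option autoImplicit false

namespace Pool.Agent.Perazzo

open Finset

variable {K A : Type} [Field K] [AddCommGroup A] [Module K A]

/-- The number of elements of the subset `t`. -/
def bc {r : ℕ} (t : Fin r → Bool) : ℕ := (univ.filter fun v => t v = true).card

/-- The sign of the variable `v` with respect to the subset `t`: minus one to the number of the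
elements of `t` which are larger than `v`. -/
def sgn (K : Type) [Field K] {r : ℕ} (t : Fin r → Bool) (v : Fin r) : K :=
  (-1) ^ (univ.filter fun w => v < w ∧ t w = true).card

/-- The Koszul differential: the value of the image of `g` on the subset `t` is the sum over all
variables `v` outside `t` of `± X v (g (t ∪ {v}))`. -/
def kos {r : ℕ} (X : Fin r → Module.End K A) : Module.End K ((Fin r → Bool) → A) where
  toFun g t := ∑ v, if t v = true then 0 else sgn K t v • X v (g (Function.update t v true))
  map_add' g h := by
    funext t
    simp only [Pi.add_apply]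
    rw [← Finset.sum_add_distrib]
    refine Finset.sum_congr rfl fun v _ => ?_
    split_ifs <;> simp
  map_smul' a g := by
    funext t
    simp only [Pi.smul_apply, RingHom.id_apply]
    rw [Finset.smul_sum]
    refine Finset.sum_congr rfl fun v _ => ?_
    split_ifs
    · simp
    · rw [map_smul, smul_comm]

theorem kos_apply {r : ℕ} (X : Fin r → Module.End K A) (g : (Fin r → Bool) → A)
    (t : Fin r → Bool) : kos X g t =
      ∑ v, if t v = true then 0 else sgn K t v • X v (g (Function.update t v true)) := rfl

/-- The Koszul chains of homological degree `i` and internal degree `j`: the value on a subset with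
`i` elements is of degree `j - i`. -/
def KJ {r : ℕ} (𝒜 : ℕ → Submodule K A) (i j : ℕ) : Submodule K ((Fin r → Bool) → A) :=
  Submodule.pi Set.univ fun t => if bc t = i ∧ i ≤ j then 𝒜 (j - i) else ⊥

/-- Koszul cycles. -/
def cyc {r : ℕ} (X : Fin r → Module.End K A) (𝒜 : ℕ → Submodule K A) (i j : ℕ) :
    Submodule K ((Fin r → Bool) → A) := LinearMap.ker (kos X) ⊓ KJ 𝒜 i j

/-- Koszul boundaries. -/
def bdr {r : ℕ} (X : Fin r → Module.End K A) (𝒜 : ℕ → Submodule K A) (i j : ℕ) :
    Submodule K ((Fin r → Bool) → A) := (KJ 𝒜 (i + 1) j).map (kos X)

/-- The dimension of the Koszul homology in homological degree `i` and internal degree `j`. -/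
noncomputable def betti {r : ℕ} (X : Fin r → Module.End K A) (𝒜 : ℕ → Submodule K A) (i j : ℕ) : ℕ :=
  Module.finrank K (↥(cyc X 𝒜 i j) ⧸ (bdr X 𝒜 i j).submoduleOf (cyc X 𝒜 i j))

end Pool.Agent.Perazzo
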