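import Pool.Agent.Lib.MP_44b5f4_ag.Dims

/-!
# Graded Betti numbers as dimensions of Koszul homology
-/

set_option autoImplicit false

namespace Pool.Agent.Perazzo

open Finset

variable {K A : Type} [Field K] [AddCommGroup A] [Module K A]

theorem KJ_eq {r : ℕ} (𝒜 : ℕ → Submodule K A) (i q : ℕ) :
    KJ (r := r) 𝒜 i (i + q) = KK 𝒜 i q := by
  unfold KJ KK
  congr 1
  funext t
  have e : i + q - i = q := by omega
  by_cases h : bc t = i
  · rw [if_pos ⟨h, by omega⟩, if_pos h, e]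
  · rw [if_neg (fun hh => h hh.1), if_neg h]

theorem KJ_lt {r : ℕ} (𝒜 : ℕ → Submodule K A) {i j : ℕ} (h : j < i) :
    KJ (r := r) 𝒜 i j = ⊥ := by
  unfold KJ
  rw [eq_bot_iff]
  intro g hg
  rw [Submodule.mem_pi] at hg
  rw [Submodule.mem_bot]
  funext t
  have := hg t (Set.mem_univ t)
  rw [if_neg (by omega)] at this
  exact this

theorem kos_comm {r : ℕ} (X : Fin r → Module.End K A) (Y : Module.End K A)
    (h : ∀ v, X v * Y = Y * X v) (g : (Fin r → Bool) → A) :
    kos X (fun t => Y (g t)) = fun t => Y (kos X g t) := by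
  funext t
  rw [kos_apply, kos_apply, map_sum]
  refine Finset.sum_congr rfl fun v _ => ?_
  split_ifs
  · rw [map_zero]
  · rw [map_smul]
    congr 1
    exact LinearMap.congr_fun (h v) _

/-- The Koszul differential has square zero. -/
theorem kos_kos {r : ℕ} (X : Fin r → Module.End K A) (h : ∀ v w, X v * X w = X w * X v)
    (g : (Fin r → Bool) → A) : kos X (kos X g) = 0 := by
  induction r with
  | zero =>
    funext t
    rw [kos_apply]
    simp
  | succ r ih =>
    apply (dbl K A r).injective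
    have ih' := ih (fun v => X v.castSucc) (fun v w => h _ _)
    rw [dbl_kos, dbl_kos, map_zero]
    refine Prod.ext ?_ ?_
    · simp only [map_add, ih', zero_add]
      have h1 := kos_comm (fun v => X v.castSucc) (X (Fin.last r)) (fun v => h _ _)
        (dbl K A r g).2
      rw [h1]
      funext t
      simp
    · simp only [map_neg, ih', neg_zero]
      rfl

variable [FiniteDimensional K A]

theorem finrank_quot {r : ℕ} {Zc Bd : Submodule K ((Fin r → Bool) → A)} (h : Bd ≤ Zc) :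
    Module.finrank K (↥Zc ⧸ Bd.submoduleOf Zc) + Module.finrank K Bd = Module.finrank K Zc := by
  have h1 := Submodule.finrank_quotient_add_finrank (Bd.submoduleOf Zc)
  rwa [(Submodule.submoduleOfEquivOfLe h).finrank_eq] at h1

theorem finrank_cyc {r : ℕ} (X : Fin r → Module.End K A) (𝒜 : ℕ → Submodule K A) (i q : ℕ) :
    Module.finrank K (cyc X 𝒜 i (i + q)) + rk X 𝒜 i q =
      r.choose i * Module.finrank K (𝒜 q) := by
  unfold rk
  rw [← finrank_KK (r := r) 𝒜 i q]
  have h1 := LinearMap.finrank_range_add_finrank_ker ((kos X).domRestrict (KK 𝒜 i q))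
  rw [LinearMap.range_domRestrict] at h1
  rw [← h1, add_comm]
  congr 1
  rw [← Submodule.finrank_map_subtype_eq]
  refine finrank_eq_of_eq ?_
  unfold cyc
  rw [KJ_eq]
  ext g
  constructor
  · rintro ⟨h1, h2⟩
    exact ⟨⟨g, h2⟩, h1, rfl⟩
  · rintro ⟨⟨g, h2⟩, h1, rfl⟩
    exact ⟨h1, h2⟩

theorem betti_succ {r : ℕ} (X : Fin r → Module.End K A) (hX : ∀ v w, X v * X w = X w * X v)
    {𝒜 : ℕ → Submodule K A} (hA : ∀ q v, ∀ a ∈ 𝒜 q, X v a ∈ 𝒜 (q + 1)) (i q : ℕ) :
    betti X 𝒜 i (i + (q + 1)) + rk X 𝒜 i (q + 1) + rk X 𝒜 (i + 1) q =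
      r.choose i * Module.finrank K (𝒜 (q + 1)) := by
  have e : i + (q + 1) = i + 1 + q := by omega
  have h1 : bdr X 𝒜 i (i + (q + 1)) ≤ cyc X 𝒜 i (i + (q + 1)) := by
    unfold bdr cyc
    rw [KJ_eq, e, KJ_eq]
    rintro _ ⟨g, hg, rfl⟩
    exact ⟨kos_kos X hX g, kos_mem X (hA q) hg⟩
  have h2 := finrank_quot h1
  have h3 := finrank_cyc X 𝒜 i (q + 1)
  have h4 : Module.finrank K (bdr X 𝒜 i (i + (q + 1))) = rk X 𝒜 (i + 1) q := by
    unfold bdr rk
    rw [e, KJ_eq]
  unfold betti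
  omega

theorem betti_diag {r : ℕ} (X : Fin r → Module.End K A) (𝒜 : ℕ → Submodule K A) (i : ℕ) :
    betti X 𝒜 i i + rk X 𝒜 i 0 = r.choose i * Module.finrank K (𝒜 0) := by
  have h0 : bdr X 𝒜 i i = ⊥ := by
    unfold bdr
    rw [KJ_lt _ (by omega), Submodule.map_bot]
  have h1 : bdr X 𝒜 i i ≤ cyc X 𝒜 i i := by rw [h0]; exact bot_le
  have h2 := finrank_quot h1
  rw [h0, finrank_bot] at h2
  have h3 := finrank_cyc X 𝒜 i 0
  unfold betti
  rw [h0]
  rw [add_zero] at h3 h2
  rw [h2]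
  exact h3

theorem betti_lt {r : ℕ} (X : Fin r → Module.End K A) (𝒜 : ℕ → Submodule K A) {i j : ℕ}
    (h : j < i) : betti X 𝒜 i j = 0 := by
  have h0 : cyc X 𝒜 i j = ⊥ := by
    unfold cyc
    rw [KJ_lt _ h, inf_bot_eq]
  have h1 := Submodule.finrank_quotient_add_finrank ((bdr X 𝒜 i j).submoduleOf (cyc X 𝒜 i j))
  have h2 : Module.finrank K (cyc X 𝒜 i j) = 0 := by rw [h0, finrank_bot]
  unfold betti
  omega

end Pool.Agent.Perazzo
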