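import Pool.Agent.Lib.MP_44b5f4_ag.Two

/-!
# Two variables `u`: the rank formula
-/

set_option autoImplicit false

namespace Pool.Agent.Perazzo

open Finset

namespace GA

variable {K A : Type} [Field K] [CommRing A] [Algebra K A]

/-- Dimension count for a submodule and the quotient. -/
theorem finrank_inf_add [FiniteDimensional K A] (Z V : Submodule K A) :
    Module.finrank K (Z ⊓ V : Submodule K A) + Module.finrank K (V.map Z.mkQ) =
      Module.finrank K V := by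
  have h1 := LinearMap.finrank_range_add_finrank_ker (Z.mkQ.domRestrict V)
  rw [LinearMap.range_domRestrict] at h1
  rw [← h1, add_comm]
  congr 1
  rw [← Submodule.finrank_map_subtype_eq]
  refine finrank_eq_of_eq ?_
  ext a
  constructor
  · rintro ⟨h1, h2⟩
    refine ⟨⟨a, h2⟩, ?_, rfl⟩
    show Z.mkQ a = 0
    exact (Submodule.Quotient.mk_eq_zero Z).2 h1
  · rintro ⟨⟨a, ha⟩, h, rfl⟩
    exact ⟨(Submodule.Quotient.mk_eq_zero Z).1 h, ha⟩

variable {N d : ℕ} (G : GA K A 2 N d)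

theorem Z_stable (v : Fin (2 + N)) (a : A) (ha : a ∈ G.Z) : G.X v a ∈ G.Z := G.mul_mem_Z ha _

theorem sum_choose (N k : ℕ) (f : ℕ → ℕ) (h0 : f 0 = 0) (hf : ∀ i, f (i + 3) = 0) :
    ∑ a ∈ range (k + 2 + 1), N.choose a * f (k + 2 - a) =
      N.choose (k + 1) * f 1 + N.choose k * f 2 := by
  rw [Finset.sum_range_succ, Finset.sum_range_succ, Finset.sum_range_succ]
  have h1 : ∑ a ∈ range k, N.choose a * f (k + 2 - a) = 0 := by
    refine Finset.sum_eq_zero fun a ha => ?_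
    rw [mem_range] at ha
    have : k + 2 - a = (k - a - 1) + 3 := by omega
    rw [this, hf, mul_zero]
  have e1 : k + 2 - k = 2 := by omega
  have e2 : k + 2 - (k + 1) = 1 := by omega
  have e3 : k + 2 - (k + 2) = 0 := by omega
  rw [h1, e1, e2, e3, h0]
  ring

theorem rk_u_Z_one [FiniteDimensional K A] (h1 : ∀ q, q + 2 ≤ d → G.Z ⊓ G.𝒜 (q + 1) ≤ G.E q)
    {q : ℕ} (hq : 1 ≤ q) (hqd : q + 2 ≤ d) :
    rk (fun v : Fin 2 => G.X (Fin.castAdd N v)) (fun q => G.Z ⊓ G.𝒜 q) 1 q =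
      Module.finrank K (G.Z ⊓ G.𝒜 (q + 1) : Submodule K A) := by
  rw [rk_one]
  refine finrank_eq_of_eq (le_antisymm ?_ ?_)
  · refine iSup_le fun v => ?_
    rintro _ ⟨a, ha, rfl⟩
    exact ⟨G.mul_mem_Z ha.1 _, G.mul_mem ha.2 _⟩
  · rintro z ⟨hz, hz'⟩
    obtain ⟨z0, hz0, z1, hz1, rfl⟩ := G.Z_gen h1 hq hqd hz hz'
    refine Submodule.add_mem _ ?_ ?_
    · exact Submodule.mem_iSup_of_mem 0 ⟨z0, hz0, rfl⟩
    · exact Submodule.mem_iSup_of_mem 1 ⟨z1, hz1, rfl⟩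

theorem rk_u_Z_two [FiniteDimensional K A] {q : ℕ} (hqd : q + 1 ≤ d) :
    rk (fun v : Fin 2 => G.X (Fin.castAdd N v)) (fun q => G.Z ⊓ G.𝒜 q) 2 q =
      Module.finrank K (G.Z ⊓ G.𝒜 q : Submodule K A) := by
  refine rk_top _ ?_
  intro a ha h
  refine G.socle (by omega) ha.2 fun v => ?_
  induction v using Fin.addCases with
  | left v => exact h v
  | right j => exact G.x_mul_Z j ha.1

theorem rk_u_Q_one [FiniteDimensional K A] (q : ℕ) :
    rk (fun v : Fin 2 => qop G.X G.Z_stable (Fin.castAdd N v)) (fun q => (G.𝒜 q).map G.Z.mkQ) 1 q =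
      Module.finrank K ((G.𝒜 (q + 1)).map G.Z.mkQ) := by
  rw [rk_one]
  refine finrank_eq_of_eq (le_antisymm ?_ ?_)
  · refine iSup_le fun v => ?_
    rintro _ ⟨_, ⟨a, ha, rfl⟩, rfl⟩
    exact ⟨_, G.mul_mem ha _, rfl⟩
  · rw [Submodule.map_le_iff_le_comap]
    refine G.gen_le fun v a ha => ?_
    rw [Submodule.mem_comap]
    induction v using Fin.addCases with
    | left v =>
      refine Submodule.mem_iSup_of_mem v ⟨_, ⟨a, ha, rfl⟩, ?_⟩
      rfl
    | right j =>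
      have : G.Z.mkQ (G.y (Fin.natAdd 2 j) * a) = 0 :=
        (Submodule.Quotient.mk_eq_zero G.Z).2 (G.x_mem_Z j a)
      rw [this]
      exact Submodule.zero_mem _

theorem rk_u_Q_two [FiniteDimensional K A] {q : ℕ} (hqd : q + 2 ≤ d) :
    rk (fun v : Fin 2 => qop G.X G.Z_stable (Fin.castAdd N v)) (fun q => (G.𝒜 q).map G.Z.mkQ) 2 q =
      Module.finrank K ((G.𝒜 q).map G.Z.mkQ) := by
  refine rk_top _ ?_
  rintro _ ⟨a, ha, rfl⟩ h
  refine (Submodule.Quotient.mk_eq_zero G.Z).2 ?_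
  refine G.mem_Z_of_u (by omega) ha ?_ ?_
  · exact (Submodule.Quotient.mk_eq_zero G.Z).1 (h 0)
  · exact (Submodule.Quotient.mk_eq_zero G.Z).1 (h 1)

/-- The rank formula in the middle rows. -/
theorem rk_mid [FiniteDimensional K A] (h1 : ∀ q, q + 2 ≤ d → G.Z ⊓ G.𝒜 (q + 1) ≤ G.E q)
    {q : ℕ} (hq : 1 ≤ q) (hqd : q + 2 ≤ d) (hc : G.Crux q) (k : ℕ) :
    rk G.X G.𝒜 k q = ∑ a ∈ range (k + 1), N.choose a *
      (if k - a = 1 then Module.finrank K (G.𝒜 (q + 1)) else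
        if k - a = 2 then Module.finrank K (G.𝒜 q) else 0) := by
  have hQ : QProp G.X (fun i : Fin N => G.X (Fin.natAdd 2 i)) G.Z G.𝒜 q :=
    QProp.all N (fun j a => G.x_mem_Z j a) (fun j a ha => G.x_mul_Z j ha) (fun i => ⟨i, rfl⟩)
      (G.qprop_two h1 hq hqd hc)
  rw [rk_split G.X G.Z_stable fun c hc hcE => (hQ k c hc hcE).1]
  rw [rk_trivial_all N G.X (𝒜 := fun q => G.Z ⊓ G.𝒜 q) (fun i a ha => G.x_mul_Z i ha.1) k]
  rw [rk_trivial_all N (qop G.X G.Z_stable) (𝒜 := fun q => (G.𝒜 q).map G.Z.mkQ) (q := q) (by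
    rintro i _ ⟨a, ha, rfl⟩
    exact (Submodule.Quotient.mk_eq_zero G.Z).2 (G.x_mem_Z i a)) k]
  rw [← Finset.sum_add_distrib]
  refine Finset.sum_congr rfl fun a _ => ?_
  rw [← Nat.mul_add]
  congr 1
  generalize k - a = b
  match b with
  | 0 => simp [rk_zero]
  | 1 =>
    rw [G.rk_u_Z_one h1 hq hqd, G.rk_u_Q_one, if_pos rfl, finrank_inf_add]
  | 2 =>
    rw [G.rk_u_Z_two (by omega), G.rk_u_Q_two hqd, if_neg (by omega), if_pos rfl, finrank_inf_add]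
  | b + 3 =>
    rw [rk_big _ (by omega), rk_big _ (by omega), if_neg (by omega), if_neg (by omega)]

theorem rk_mid_one [FiniteDimensional K A] (h1 : ∀ q, q + 2 ≤ d → G.Z ⊓ G.𝒜 (q + 1) ≤ G.E q)
    {q : ℕ} (hq : 1 ≤ q) (hqd : q + 2 ≤ d) (hc : G.Crux q) :
    rk G.X G.𝒜 1 q = Module.finrank K (G.𝒜 (q + 1)) := by
  rw [G.rk_mid h1 hq hqd hc, Finset.sum_range_succ, Finset.sum_range_one]
  simp

theorem rk_mid_two [FiniteDimensional K A] (h1 : ∀ q, q + 2 ≤ d → G.Z ⊓ G.𝒜 (q + 1) ≤ G.E q)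
    {q : ℕ} (hq : 1 ≤ q) (hqd : q + 2 ≤ d) (hc : G.Crux q) (k : ℕ) :
    rk G.X G.𝒜 (k + 2) q = N.choose (k + 1) * Module.finrank K (G.𝒜 (q + 1)) +
      N.choose k * Module.finrank K (G.𝒜 q) := by
  rw [G.rk_mid h1 hq hqd hc]
  have := sum_choose N k (fun b => if b = 1 then Module.finrank K (G.𝒜 (q + 1)) else
        if b = 2 then Module.finrank K (G.𝒜 q) else 0) (by simp) (fun i => by
          rw [if_neg (by omega), if_neg (by omega)])
  simpa using this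

end GA

end Pool.Agent.Perazzo
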