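import Pool.Agent.Lib.MP_44b5f4_ag.Hilb
import Pool.Agent.Lib.MP_44b5f4_ag.Rank

/-!
# The pairing of cycles for two variables `u`
-/

set_option autoImplicit false

namespace Pool.Agent.Perazzo

open Finset

namespace GA

section gen

variable {K A : Type} [Field K] [CommRing A] [Algebra K A] {m N d : ℕ} (G : GA K A m N d)
  [FiniteDimensional K A]

/-- Every linear form on a graded piece is given by the pairing. -/
theorem repr_form {p q : ℕ} (hpq : p + q = d) (f : A →ₗ[K] K) :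
    ∃ b ∈ G.𝒜 q, ∀ a ∈ G.𝒜 p, f a = G.ω (a * b) := by
  have h1 : Function.Injective (G.prp (G.𝒜 q) (G.𝒜 p)) := by
    rw [← LinearMap.ker_eq_bot, eq_bot_iff]
    rintro ⟨a, ha⟩ h
    refine Subtype.ext ?_
    exact G.perf q p (by omega) a ha fun b hb => LinearMap.congr_fun h ⟨b, hb⟩
  have h2 : Function.Surjective (G.prp (G.𝒜 q) (G.𝒜 p)) := by
    have e : Module.finrank K (G.𝒜 q) = Module.finrank K (Module.Dual K (G.𝒜 p)) := by
      rw [Subspace.dual_finrank_eq]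
      exact G.F4 (by omega)
    exact (LinearMap.injective_iff_surjective_of_finrank_eq_finrank e).1 h1
  obtain ⟨b, hb⟩ := h2 (f.domRestrict (G.𝒜 p))
  refine ⟨b.1, b.2, fun a ha => ?_⟩
  have h3 := LinearMap.congr_fun hb ⟨a, ha⟩
  rw [prp_apply] at h3
  rw [mul_comm]
  exact h3.symm

end gen

variable {K A : Type} [Field K] [CommRing A] [Algebra K A] {N d : ℕ} (G : GA K A 2 N d)
  [FiniteDimensional K A]

omit [FiniteDimensional K A] in
/-- The polynomial form of the condition on the pairing of cycles. -/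
def PCrux (q : ℕ) : Prop := ∀ φ0 ∈ PP K 2 q, ∀ φ1 ∈ PP K 2 q, ∀ β0 ∈ PP K 2 (d - q - 1),
  ∀ β1 ∈ PP K 2 (d - q - 1),
    MvPolynomial.X 0 * φ0 + MvPolynomial.X 1 * φ1 ∈ G.I (q + 1) →
    MvPolynomial.X 1 * β0 - MvPolynomial.X 0 * β1 ∈ G.I (d - q) →
    G.θ (φ0 * β0 + φ1 * β1) ∈ G.Z

omit [FiniteDimensional K A] in
theorem mem_Z_congr {a b : A} (h : a - b ∈ G.Z) : a ∈ G.Z ↔ b ∈ G.Z := by
  constructor
  · intro ha
    have := G.Z.sub_mem ha h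
    rwa [sub_sub_cancel] at this
  · intro hb
    have := G.Z.add_mem h hb
    rwa [sub_add_cancel] at this

theorem crux_of_pcrux {q : ℕ} (hq : 1 ≤ q) (hqd : q + 2 ≤ d) (hP : G.PCrux q) : G.Crux q := by
  intro c0 hc0 c1 hc1 hc j
  by_contra hcon
  let g : A →ₗ[K] A × A := LinearMap.prod (LinearMap.mulLeft K (G.u 1)) (-LinearMap.mulLeft K (G.u 0))
  have hv : (G.x j * c0, G.x j * c1) ∉ (G.Z ⊓ G.𝒜 q).map g := by
    rintro ⟨ε, hε, h⟩
    refine hcon ⟨ε, hε, ?_, ?_⟩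
    · exact (congrArg Prod.fst h).symm
    · exact (congrArg Prod.snd h).symm
  obtain ⟨f, hf, hfW⟩ := Submodule.exists_le_ker_of_notMem hv
  obtain ⟨b0, hb0, h0⟩ := G.repr_form (p := q + 1) (q := d - q - 1) (by omega)
    (f ∘ₗ LinearMap.inl K A A)
  obtain ⟨b1, hb1, h1⟩ := G.repr_form (p := q + 1) (q := d - q - 1) (by omega)
    (f ∘ₗ LinearMap.inr K A A)
  have hfab : ∀ a ∈ G.𝒜 (q + 1), ∀ b ∈ G.𝒜 (q + 1), f (a, b) = G.ω (a * b0) + G.ω (b * b1) := by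
    intro a ha b hb
    rw [← h0 a ha, ← h1 b hb, LinearMap.comp_apply, LinearMap.comp_apply, ← map_add]
    congr 1
    simp
  obtain ⟨φ0, hφ0, e0⟩ := G.lift q hc0
  obtain ⟨φ1, hφ1, e1⟩ := G.lift q hc1
  obtain ⟨β0, hβ0, g0⟩ := G.lift (d - q - 1) hb0
  obtain ⟨β1, hβ1, g1⟩ := G.lift (d - q - 1) hb1
  have hφ : MvPolynomial.X 0 * φ0 + MvPolynomial.X 1 * φ1 ∈ G.I (q + 1) := by
    rw [mem_I]
    refine ⟨Submodule.add_mem _ (X_mul_mem_PP K 0 hφ0) (X_mul_mem_PP K 1 hφ1), ?_⟩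
    refine (G.mem_Z_congr ?_).1 hc
    have h2 := G.Z.add_mem (G.mul_mem_Z e0 (G.u 0)) (G.mul_mem_Z e1 (G.u 1))
    rw [map_add, map_mul, map_mul, θ_X, θ_X]
    convert h2 using 1
    show G.u 0 * c0 + G.u 1 * c1 - (G.u 0 * G.θ φ0 + G.u 1 * G.θ φ1) = _
    ring
  have hb : G.u 1 * b0 - G.u 0 * b1 ∈ G.Z := by
    rw [mem_Z]
    intro i
    have hm : G.u 1 * b0 - G.u 0 * b1 ∈ G.𝒜 (d - q) := by
      have e : d - q = d - q - 1 + 1 := by omega
      rw [e]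
      exact Submodule.sub_mem _ (G.mul_mem hb0 _) (G.mul_mem hb1 _)
    refine G.perf (d - q + 1) (q - 1) (by omega) _ (G.mul_mem hm _) fun b hb => ?_
    have hε : G.x i * b ∈ G.Z ⊓ G.𝒜 q := by
      refine ⟨G.x_mem_Z i b, ?_⟩
      have e : q = q - 1 + 1 := by omega
      rw [e]
      exact G.mul_mem hb _
    have h3 := hfW ⟨_, hε, rfl⟩
    rw [LinearMap.mem_ker] at h3
    have h4 := hfab (G.u 1 * (G.x i * b)) (G.mul_mem hε.2 _) (- (G.u 0 * (G.x i * b)))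
      (Submodule.neg_mem _ (G.mul_mem hε.2 _))
    have h5 : f (G.u 1 * (G.x i * b), - (G.u 0 * (G.x i * b))) = 0 := h3
    rw [h5, ← map_add] at h4
    rw [h4]
    congr 1
    show G.x i * (G.u 1 * b0 - G.u 0 * b1) * b = _
    ring
  have hβ : MvPolynomial.X 1 * β0 - MvPolynomial.X 0 * β1 ∈ G.I (d - q) := by
    rw [mem_I]
    have e : d - q = d - q - 1 + 1 := by omega
    refine ⟨?_, ?_⟩
    · rw [e]
      exact Submodule.sub_mem _ (X_mul_mem_PP K 1 hβ0) (X_mul_mem_PP K 0 hβ1)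
    · refine (G.mem_Z_congr ?_).1 hb
      have h2 := G.Z.sub_mem (G.mul_mem_Z g0 (G.u 1)) (G.mul_mem_Z g1 (G.u 0))
      rw [map_sub, map_mul, map_mul, θ_X, θ_X]
      convert h2 using 1
      show G.u 1 * b0 - G.u 0 * b1 - (G.u 1 * G.θ β0 - G.u 0 * G.θ β1) = _
      ring
  have hfin := hP φ0 hφ0 φ1 hφ1 β0 hβ0 β1 hβ1 hφ hβ
  have hcb : c0 * b0 + c1 * b1 ∈ G.Z := by
    refine (G.mem_Z_congr ?_).1 hfin
    have k1 := G.mul_mem_Z e0 b0
    have k2 := G.mul_mem_Z g0 (G.θ φ0)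
    have k3 := G.mul_mem_Z e1 b1
    have k4 := G.mul_mem_Z g1 (G.θ φ1)
    have k5 := G.Z.neg_mem (G.Z.add_mem (G.Z.add_mem k1 k2) (G.Z.add_mem k3 k4))
    rw [map_add, map_mul, map_mul]
    convert k5 using 1
    ring
  apply hf
  refine (hfab (G.x j * c0) (G.mul_mem hc0 _) (G.x j * c1) (G.mul_mem hc1 _)).trans ?_
  rw [← map_add]
  have h6 : G.x j * c0 * b0 + G.x j * c1 * b1 = G.x j * (c0 * b0 + c1 * b1) := by ring
  rw [h6]
  have h7 : G.x j * (c0 * b0 + c1 * b1) = 0 := G.x_mul_Z j hcb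
  rw [h7, map_zero]

omit [FiniteDimensional K A] in
/-- One of the two ideals is zero. -/
theorem pcrux_of_bot {q : ℕ} (h : G.I (q + 1) = ⊥ ∨ G.I (d - q) = ⊥) : G.PCrux q := by
  intro φ0 _ φ1 _ β0 _ β1 _ hφ hβ
  rcases h with h | h
  · have hφ0 := hφ
    rw [h, Submodule.mem_bot] at hφ0
    obtain ⟨c, hc, hc'⟩ := syz_two (a := φ0) (b := -φ1) (by
      rw [mul_neg]; exact eq_neg_of_add_eq_zero_left hφ0)
    have hc'' : φ1 = - (MvPolynomial.X 0 * c) := by rw [← hc']; ring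
    have e : φ0 * β0 + φ1 * β1 = c * (MvPolynomial.X 1 * β0 - MvPolynomial.X 0 * β1) := by
      rw [hc, hc'']; ring
    rw [e, map_mul]
    exact G.mul_mem_Z ((G.mem_I.1 hβ).2) _
  · have hβ0 := hβ
    rw [h, Submodule.mem_bot, sub_eq_zero] at hβ0
    obtain ⟨c, hc, hc'⟩ := syz_two hβ0.symm
    have e : φ0 * β0 + φ1 * β1 = c * (MvPolynomial.X 0 * φ0 + MvPolynomial.X 1 * φ1) := by
      rw [hc', hc]; ring
    rw [e, map_mul]
    exact G.mul_mem_Z ((G.mem_I.1 hφ).2) _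

omit [FiniteDimensional K A] in
/-- Both spaces consist of multiples of one element. -/
theorem pcrux_of_mul {q : ℕ} {f0 f1 : MvPolynomial (Fin 2) K}
    (hf : G.θ (MvPolynomial.X 0 * f0 + MvPolynomial.X 1 * f1) ∈ G.Z)
    (h1 : ∀ φ ∈ G.I (q + 1), ∃ κ, φ = κ * (MvPolynomial.X 0 * f0 + MvPolynomial.X 1 * f1))
    (h2 : ∀ φ ∈ G.I (d - q), ∃ κ, φ = κ * (MvPolynomial.X 0 * f0 + MvPolynomial.X 1 * f1)) :
    G.PCrux q := by
  intro φ0 _ φ1 _ β0 _ β1 _ hφ hβ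
  obtain ⟨κ, hκ⟩ := h1 _ hφ
  obtain ⟨ψ, hψ⟩ := h2 _ hβ
  obtain ⟨α, ha, ha'⟩ := syz_two (a := φ0 - κ * f0) (b := κ * f1 - φ1) (by
    linear_combination hκ)
  obtain ⟨β, hb, hb'⟩ := syz_two (a := β1 + ψ * f0) (b := β0 - ψ * f1) (by
    linear_combination -hψ)
  have e1 : φ0 = MvPolynomial.X 1 * α + κ * f0 := by rw [← ha]; ring
  have e2 : φ1 = κ * f1 - MvPolynomial.X 0 * α := by rw [← ha']; ring
  have e3 : β0 = MvPolynomial.X 0 * β + ψ * f1 := by rw [← hb']; ring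
  have e4 : β1 = MvPolynomial.X 1 * β - ψ * f0 := by rw [← hb]; ring
  have e : φ0 * β0 + φ1 * β1 =
      (α * ψ + κ * β) * (MvPolynomial.X 0 * f0 + MvPolynomial.X 1 * f1) := by
    rw [e1, e2, e3, e4]
    ring
  rw [e, map_mul]
  exact G.mul_mem_Z hf _

end GA

end Pool.Agent.Perazzo
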