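import Pool.Agent.Lib.MP_44b5f4_ag.Base

/-!
# Perazzo forms, Perazzo algebras and their graded Betti numbers: definitions
-/

set_option autoImplicit false

namespace Pool.Agent.Perazzo

open MvPolynomial
open scoped IsMulCommutative

variable (K : Type) [Field K] (r : ℕ)

/-- The partial derivative with respect to the variable `v`, as a linear operator. -/
noncomputable def pd (v : Fin r) : Module.End K (MvPolynomial (Fin r) K) :=
  (pderiv v : Derivation K (MvPolynomial (Fin r) K) (MvPolynomial (Fin r) K)).toLinearMap

theorem pd_comm (v w : Fin r) : pd K r v * pd K r w = pd K r w * pd K r v := by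
  refine LinearMap.ext fun f => ?_
  show pderiv v (pderiv w f) = pderiv w (pderiv v f)
  ext m
  rw [coeff_pderiv, coeff_pderiv, coeff_pderiv, coeff_pderiv]
  have e : m + Finsupp.single v 1 + Finsupp.single w 1 =
      m + Finsupp.single w 1 + Finsupp.single v 1 := by
    rw [add_assoc, add_assoc, add_comm (Finsupp.single v 1)]
  rw [e]
  by_cases h : v = w
  · subst h; rfl
  · simp [h, Ne.symm h]
    ring

/-- The algebra of differential operators with constant coefficients. -/
noncomputable abbrev DO : Subalgebra K (Module.End K (MvPolynomial (Fin r) K)) :=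
  Algebra.adjoin K (Set.range (pd K r))

noncomputable instance DO_comm : IsMulCommutative (DO K r) :=
  Algebra.isMulCommutative_adjoin K (by rintro _ ⟨v, rfl⟩ _ ⟨w, rfl⟩; exact pd_comm K r v w)

/-- The differential operator `φ(∂)` obtained from the polynomial `φ` by substituting the partial
derivatives for the variables. -/
noncomputable def act : MvPolynomial (Fin r) K →ₐ[K] DO K r :=
  aeval fun v => ⟨pd K r v, Algebra.subset_adjoin ⟨v, rfl⟩⟩

variable {K r}

/-- The action `φ ∘ F` of polynomials on polynomials by differentiation. -/
noncomputable def contract (φ F : MvPolynomial (Fin r) K) : MvPolynomial (Fin r) K :=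
  (act K r φ : Module.End K (MvPolynomial (Fin r) K)) F

theorem contract_mul (φ ψ F : MvPolynomial (Fin r) K) :
    contract (φ * ψ) F = contract φ (contract ψ F) := by
  unfold contract
  rw [map_mul]
  rfl

theorem contract_add (φ ψ F : MvPolynomial (Fin r) K) :
    contract (φ + ψ) F = contract φ F + contract ψ F := by
  unfold contract
  rw [map_add]
  rfl

theorem contract_smul (c : K) (φ F : MvPolynomial (Fin r) K) :
    contract (c • φ) F = c • contract φ F := by
  unfold contract
  rw [map_smul]
  rfl

theorem contract_zero_left (F : MvPolynomial (Fin r) K) : contract 0 F = 0 := by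
  unfold contract
  rw [map_zero]
  rfl

theorem contract_zero_right (φ : MvPolynomial (Fin r) K) : contract φ 0 = 0 := map_zero _

theorem contract_add_right (φ F G : MvPolynomial (Fin r) K) :
    contract φ (F + G) = contract φ F + contract φ G := map_add _ _ _

theorem contract_X (v : Fin r) (F : MvPolynomial (Fin r) K) : contract (X v) F = pderiv v F := by
  unfold contract act
  rw [aeval_X]
  rfl

theorem contract_one (F : MvPolynomial (Fin r) K) : contract 1 F = F := by
  unfold contract
  rw [map_one]
  rfl

/-- The annihilator ideal of `F`. -/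
noncomputable def Ann (F : MvPolynomial (Fin r) K) : Ideal (MvPolynomial (Fin r) K) where
  carrier := {φ | contract φ F = 0}
  add_mem' {φ ψ} h1 h2 := by
    show contract (φ + ψ) F = 0
    have h1' : contract φ F = 0 := h1
    have h2' : contract ψ F = 0 := h2
    rw [contract_add, h1', h2', add_zero]
  zero_mem' := contract_zero_left F
  smul_mem' φ ψ h := by
    show contract (φ * ψ) F = 0
    have h' : contract ψ F = 0 := h
    rw [contract_mul, h', contract_zero_right]

theorem mem_Ann {F φ : MvPolynomial (Fin r) K} : φ ∈ Ann F ↔ contract φ F = 0 := Iff.rfl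

/-- The graded piece of degree `q` of `R / J`: the classes of the homogeneous polynomials of
degree `q`. -/
noncomputable def gr (J : Ideal (MvPolynomial (Fin r) K)) (q : ℕ) :
    Submodule K (MvPolynomial (Fin r) K ⧸ J) :=
  (homogeneousSubmodule (Fin r) K q).map (Ideal.Quotient.mkₐ K J).toLinearMap

/-- The Hilbert function of `R / J`. -/
noncomputable def hilb (J : Ideal (MvPolynomial (Fin r) K)) (q : ℕ) : ℕ :=
  Module.finrank K (gr J q)

/-- Multiplication by the class of the variable `v` on `R / J`. -/
noncomputable def mulX (J : Ideal (MvPolynomial (Fin r) K)) (v : Fin r) :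
    Module.End K (MvPolynomial (Fin r) K ⧸ J) :=
  LinearMap.mulLeft K (Ideal.Quotient.mk J (X v))

/-- The graded Betti numbers of `R / J` over the polynomial ring `R`, for a homogeneous ideal `J`:
the dimension of the Koszul homology of `R / J` with respect to the variables in homological degree
`i` and internal degree `j`, that is, of the degree `j` part of `Tor_i (R / J, K)`. -/
noncomputable def gradedBetti (J : Ideal (MvPolynomial (Fin r) K)) (i j : ℕ) : ℕ :=
  betti (mulX J) (gr J) i j

/-- Perazzo forms of degree `d` in the variables `U_1, ..., U_m` (the first `m` variables) and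
`X_0, ..., X_n` (the last `n + 1` variables). -/
def IsPerazzo {m n : ℕ} (d : ℕ) (F : MvPolynomial (Fin (m + (n + 1))) K) : Prop :=
  ∃ (p : Fin (n + 1) → MvPolynomial (Fin m) K) (G : MvPolynomial (Fin m) K),
    (∀ i, (p i).IsHomogeneous (d - 1)) ∧ G.IsHomogeneous d ∧ LinearIndependent K p ∧
    ¬ AlgebraicIndependent K p ∧
    F = ∑ i, X (Fin.natAdd m i) * rename (Fin.castAdd (n + 1)) (p i) +
      rename (Fin.castAdd (n + 1)) G

end Pool.Agent.Perazzo
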