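import Pool.Agent.Lib.MP_44b5f4_ag.Koszul2

/-!
# Duality of Koszul complexes
-/

set_option autoImplicit false

namespace Pool.Agent.Perazzo

open Finset

section LA

variable {K C D : Type} [Field K] [AddCommGroup C] [Module K C] [FiniteDimensional K C]
  [AddCommGroup D] [Module K D] [FiniteDimensional K D]

theorem adj_le (Φ : C →ₗ[K] D →ₗ[K] K) (S : Module.End K C) (T : Module.End K D) (s : K)
    (hs : s ≠ 0) (hST : ∀ g h, Φ (S g) h = s * Φ g (T h)) (V : Submodule K C) (W : Submodule K D)
    (h1 : ∀ y ∈ V.map S, (∀ h ∈ W, Φ y h = 0) → y = 0) :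
    Module.finrank K (V.map S) ≤ Module.finrank K (W.map T) := by
  let Λ : V →ₗ[K] Module.Dual K (W.map T) :=
    { toFun := fun g => (Φ g.1).domRestrict (W.map T)
      map_add' := by intro a b; ext y; simp
      map_smul' := by intro a b; ext y; simp }
  have hk : LinearMap.ker Λ = LinearMap.ker (S.domRestrict V) := by
    ext g
    rw [LinearMap.mem_ker, LinearMap.mem_ker]
    constructor
    · intro h
      have h2 : ∀ y : W.map T, Φ g.1 y.1 = 0 := fun y => by
        have := congrArg (fun f => f y) h
        exact this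
      refine h1 _ ⟨g.1, g.2, rfl⟩ fun w hw => ?_
      show Φ (S g.1) w = 0
      rw [hST, h2 ⟨T w, w, hw, rfl⟩, mul_zero]
    · intro h
      ext ⟨y, w, hw, rfl⟩
      show Φ g.1 (T w) = 0
      have h2 : S g.1 = 0 := h
      have h3 := hST g.1 w
      rw [h2, map_zero, LinearMap.zero_apply] at h3
      rcases mul_eq_zero.1 h3.symm with h4 | h4
      · exact absurd h4 hs
      · exact h4
  have e1 := LinearMap.finrank_range_add_finrank_ker Λ
  have e2 := LinearMap.finrank_range_add_finrank_ker (S.domRestrict V)
  rw [hk] at e1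
  have e3 : Module.finrank K (LinearMap.range Λ) ≤ Module.finrank K (W.map T) := by
    refine (Submodule.finrank_le _).trans ?_
    rw [Subspace.dual_finrank_eq]
  rw [LinearMap.range_domRestrict] at e2
  omega

theorem adj_eq (Φ : C →ₗ[K] D →ₗ[K] K) (S : Module.End K C) (T : Module.End K D) (s : K)
    (hs : s ≠ 0) (hST : ∀ g h, Φ (S g) h = s * Φ g (T h)) (V : Submodule K C) (W : Submodule K D)
    (h1 : ∀ y ∈ V.map S, (∀ h ∈ W, Φ y h = 0) → y = 0)
    (h2 : ∀ y ∈ W.map T, (∀ g ∈ V, Φ g y = 0) → y = 0) :
    Module.finrank K (V.map S) = Module.finrank K (W.map T) := by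
  refine le_antisymm (adj_le Φ S T s hs hST V W h1) (adj_le Φ.flip T S s⁻¹ (inv_ne_zero hs) ?_ W V h2)
  intro h g
  rw [LinearMap.flip_apply, LinearMap.flip_apply, hST, ← mul_assoc, inv_mul_cancel₀ hs, one_mul]

end LA

variable {K A B : Type} [Field K] [AddCommGroup A] [Module K A] [FiniteDimensional K A]
  [AddCommGroup B] [Module K B] [FiniteDimensional K B]

/-- The complement of a subset. -/
def cpl {r : ℕ} (t : Fin r → Bool) : Fin r → Bool := fun v => !t v

theorem cpl_cpl {r : ℕ} (t : Fin r → Bool) : cpl (cpl t) = t := by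
  funext v; simp [cpl]

theorem bc_cpl {r : ℕ} (t : Fin r → Bool) : bc (cpl t) + bc t = r := by
  unfold bc cpl
  have h := Finset.card_filter_add_card_filter_not (s := (univ : Finset (Fin r)))
    (p := fun v => t v = true)
  rw [Finset.card_univ, Fintype.card_fin] at h
  have e : (univ.filter fun v => (!t v) = true) = univ.filter fun v => ¬ t v = true := by
    ext v; simp
  rw [e]
  omega

/-- The sign of a subset. -/
def esgn (K : Type) [Field K] {r : ℕ} (t : Fin r → Bool) : K :=
  (-1) ^ (∑ v, if t v = true then (v : ℕ) else 0)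

/-- The pairing of cochains. -/
def kpair {r : ℕ} (φ : A →ₗ[K] B →ₗ[K] K) :
    ((Fin r → Bool) → A) →ₗ[K] ((Fin r → Bool) → B) →ₗ[K] K :=
  LinearMap.mk₂ K (fun g h => ∑ t, esgn K t * φ (g t) (h (cpl t)))
    (fun g g' h => by simp [mul_add, Finset.sum_add_distrib])
    (fun a g h => by simp [Finset.mul_sum, mul_left_comm])
    (fun g h h' => by simp [mul_add, Finset.sum_add_distrib])
    (fun a g h => by simp [Finset.mul_sum, mul_left_comm])

omit [FiniteDimensional K A] [FiniteDimensional K B] in
theorem kpair_apply {r : ℕ} (φ : A →ₗ[K] B →ₗ[K] K) (g : (Fin r → Bool) → A)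
    (h : (Fin r → Bool) → B) : kpair φ g h = ∑ t, esgn K t * φ (g t) (h (cpl t)) := rfl

/-- Changing the value at `v`. -/
def flp {r : ℕ} (v : Fin r) : (Fin r → Bool) ≃ (Fin r → Bool) where
  toFun t := Function.update t v (!t v)
  invFun t := Function.update t v (!t v)
  left_inv t := by simp
  right_inv t := by simp

theorem sgn_mul {r : ℕ} (t : Fin r → Bool) (v : Fin r) (hv : ¬ t v = true) :
    esgn K t * sgn K t v =
      (-1) ^ (r - 1) * (esgn K (Function.update t v true) * sgn K (cpl (Function.update t v true)) v) := by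
  unfold esgn sgn
  have e1 : (∑ w, if Function.update t v true w = true then (w : ℕ) else 0) =
      (∑ w, if t w = true then (w : ℕ) else 0) + v := by
    have h1 : ∀ w, (if Function.update t v true w = true then (w : ℕ) else 0) =
        (if t w = true then (w : ℕ) else 0) + (if w = v then (w : ℕ) else 0) := by
      intro w
      by_cases hw : w = v
      · subst hw; simp [hv]
      · simp [hw]
    rw [Finset.sum_congr rfl fun w _ => h1 w, Finset.sum_add_distrib]
    simp
  have e2 : (univ.filter fun w => v < w ∧ cpl (Function.update t v true) w = true) =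
      univ.filter fun w => v < w ∧ ¬ t w = true := by
    ext w
    simp only [mem_filter, mem_univ, true_and, cpl]
    refine and_congr_right fun hw => ?_
    rw [Function.update_of_ne hw.ne']
    simp
  have e3 : (univ.filter fun w => v < w ∧ t w = true).card +
      (univ.filter fun w => v < w ∧ ¬ t w = true).card = r - 1 - v := by
    have h := Finset.card_filter_add_card_filter_not (s := (univ : Finset (Fin r)).filter (v < ·))
      (p := fun w => t w = true)
    rw [Finset.filter_filter, Finset.filter_filter] at h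
    rw [h]
    have h2 : (univ.filter fun w : Fin r => v < w) = Finset.Ioi v := by ext w; simp
    rw [h2, Fin.card_Ioi]
  rw [e1, e2, ← pow_add, ← pow_add, ← pow_add]
  set a := ∑ w, if t w = true then (w : ℕ) else 0
  set b := (univ.filter fun w => v < w ∧ t w = true).card
  set c := (univ.filter fun w => v < w ∧ ¬ t w = true).card
  have hv2 := v.2
  have h5 : r - 1 + (a + v + c) = (a + b) + 2 * (c + v) := by omega
  rw [h5, pow_add _ (a + b), pow_mul, pow_add]
  simp

omit [FiniteDimensional K A] [FiniteDimensional K B] in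
theorem kpair_adj {r : ℕ} (φ : A →ₗ[K] B →ₗ[K] K) (X : Fin r → Module.End K A)
    (Y : Fin r → Module.End K B) (h : ∀ v a b, φ (X v a) b = φ a (Y v b))
    (g : (Fin r → Bool) → A) (f : (Fin r → Bool) → B) :
    kpair φ (kos X g) f = (-1) ^ (r - 1) * kpair φ g (kos Y f) := by
  rw [kpair_apply, kpair_apply]
  have e1 : ∀ t, esgn K t * φ (kos X g t) (f (cpl t)) =
      ∑ v, if t v = true then 0 else
        esgn K t * sgn K t v * φ (g (Function.update t v true)) (Y v (f (cpl t))) := by
    intro t
    rw [kos_apply, map_sum, LinearMap.sum_apply, Finset.mul_sum]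
    refine Finset.sum_congr rfl fun v _ => ?_
    split_ifs
    · simp
    · rw [map_smul, LinearMap.smul_apply, h, smul_eq_mul, mul_assoc]
  have e2 : ∀ t, esgn K t * φ (g t) (kos Y f (cpl t)) =
      ∑ v, if t v = true then
        esgn K t * sgn K (cpl t) v * φ (g t) (Y v (f (Function.update (cpl t) v true))) else 0 := by
    intro t
    rw [kos_apply, map_sum, Finset.mul_sum]
    refine Finset.sum_congr rfl fun v _ => ?_
    by_cases hv : t v = true
    · have hv' : ¬ cpl t v = true := by simp [cpl, hv]
      rw [if_neg hv', if_pos hv, map_smul, smul_eq_mul, mul_assoc]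
    · have hv' : cpl t v = true := by simpa [cpl] using hv
      rw [if_pos hv', if_neg hv, map_zero, mul_zero]
  rw [Finset.sum_congr rfl fun t _ => e1 t, Finset.sum_congr rfl fun t _ => e2 t]
  refine (Finset.sum_comm).trans ?_
  refine Eq.trans ?_ (congrArg (fun z => (-1 : K) ^ (r - 1) * z) Finset.sum_comm)
  rw [Finset.mul_sum]
  refine Finset.sum_congr rfl fun v _ => ?_
  rw [Finset.mul_sum]
  refine Fintype.sum_equiv (flp v) _ _ fun t => ?_
  by_cases hv : t v = true
  · rw [if_pos hv, if_neg (by simp [flp, hv]), mul_zero]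
  · have e3 : flp v t = Function.update t v true := by
      show Function.update t v (!t v) = _
      rw [Bool.not_eq_true] at hv
      rw [hv]; rfl
    rw [if_neg hv, e3, if_pos (by simp), sgn_mul t v hv]
    have e4 : Function.update (cpl (Function.update t v true)) v true = cpl t := by
      funext w
      by_cases hw : w = v
      · subst hw
        simp only [Function.update_self, cpl]
        rw [Bool.not_eq_true] at hv
        rw [hv]; rfl
      · simp [cpl, hw]
    rw [e4]
    ring

/-- Duality for the ranks of the Koszul differentials. -/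
theorem rk_dual {r : ℕ} (φ : A →ₗ[K] B →ₗ[K] K) (X : Fin r → Module.End K A)
    (Y : Fin r → Module.End K B) (h : ∀ v a b, φ (X v a) b = φ a (Y v b))
    {𝒜 : ℕ → Submodule K A} {ℬ : ℕ → Submodule K B} {D k q : ℕ} (hk : k + 1 ≤ r) (hq : q + 1 ≤ D)
    (hX : ∀ v, ∀ a ∈ 𝒜 q, X v a ∈ 𝒜 (q + 1))
    (hY : ∀ v, ∀ b ∈ ℬ (D - 1 - q), Y v b ∈ ℬ (D - q))
    (nA : ∀ a ∈ 𝒜 (q + 1), (∀ b ∈ ℬ (D - 1 - q), φ a b = 0) → a = 0)
    (nB : ∀ b ∈ ℬ (D - q), (∀ a ∈ 𝒜 q, φ a b = 0) → b = 0) :
    rk X 𝒜 (k + 1) q = rk Y ℬ (r - k) (D - 1 - q) := by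
  classical
  unfold rk
  have hs : ((-1 : K) ^ (r - 1)) ≠ 0 := pow_ne_zero _ (by simp)
  refine adj_eq (kpair φ) (kos X) (kos Y) _ hs (kpair_adj φ X Y h) _ _ ?_ ?_
  · rintro y ⟨g, hg, rfl⟩ hy
    have hm := kos_mem X hX hg
    rw [mem_KK] at hm
    funext t
    by_cases ht : bc t = k
    · refine nA _ ((hm t).1 ht) fun b hb => ?_
      have h1 := hy (fun s => if s = cpl t then b else 0) (by
        show (fun s => if s = cpl t then b else 0) ∈ KK ℬ (r - k) (D - 1 - q)
        rw [mem_KK]
        intro s
        have h2 := bc_cpl t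
        constructor
        · intro _
          by_cases hs : s = cpl t
          · rw [if_pos hs]; exact hb
          · rw [if_neg hs]; exact Submodule.zero_mem _
        · intro hs
          rw [if_neg]
          rintro rfl
          omega)
      rw [kpair_apply, Finset.sum_eq_single t] at h1
      · rw [if_pos rfl] at h1
        rcases mul_eq_zero.1 h1 with h3 | h3
        · exact absurd h3 (pow_ne_zero _ (by simp))
        · exact h3
      · intro s _ hs
        rw [if_neg, map_zero, mul_zero]
        intro h4
        apply hs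
        rw [← cpl_cpl s, h4, cpl_cpl]
      · intro h5; exact absurd (Finset.mem_univ t) h5
    · exact (hm t).2 ht
  · rintro y ⟨f, hf, rfl⟩ hy
    have e1 : r - k = (r - k - 1) + 1 := by omega
    have e2 : D - q = D - 1 - q + 1 := by omega
    have hf' : f ∈ KK ℬ ((r - k - 1) + 1) (D - 1 - q) := by rw [← e1]; exact hf
    have hm := kos_mem Y (fun v b hb => by rw [← e2]; exact hY v b hb) hf'
    rw [mem_KK] at hm
    funext t
    by_cases ht : bc t = r - k - 1
    · refine nB _ (by rw [e2]; exact (hm t).1 ht) fun a ha => ?_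
      have h1 := hy (fun s => if s = cpl t then a else 0) (by
        show (fun s => if s = cpl t then a else 0) ∈ KK 𝒜 (k + 1) q
        rw [mem_KK]
        intro s
        have h2 := bc_cpl t
        constructor
        · intro _
          by_cases hs : s = cpl t
          · rw [if_pos hs]; exact ha
          · rw [if_neg hs]; exact Submodule.zero_mem _
        · intro hs
          rw [if_neg]
          rintro rfl
          omega)
      rw [kpair_apply, Finset.sum_eq_single (cpl t)] at h1
      · rw [if_pos rfl, cpl_cpl] at h1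
        rcases mul_eq_zero.1 h1 with h3 | h3
        · exact absurd h3 (pow_ne_zero _ (by simp))
        · exact h3
      · intro s _ hs
        rw [if_neg hs, map_zero, LinearMap.zero_apply, mul_zero]
      · intro h5; exact absurd (Finset.mem_univ _) h5
    · exact (hm t).2 ht

end Pool.Agent.Perazzo
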