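import Pool.Agent.Lib.MP_44b5f4_ag.QProp
import Pool.Agent.Lib.MP_44b5f4_ag.Dual

/-!
# Dimensions and special ranks
-/

set_option autoImplicit false

namespace Pool.Agent.Perazzo

open Finset

variable {K A : Type} [Field K] [AddCommGroup A] [Module K A]

theorem bc_le {r : ℕ} (t : Fin r → Bool) : bc t ≤ r := by
  unfold bc
  refine (Finset.card_le_univ _).trans ?_
  simp

theorem KK_big {r : ℕ} {𝒜 : ℕ → Submodule K A} {k q : ℕ} (hk : r < k) :
    KK (r := r) 𝒜 k q = ⊥ := by
  rw [eq_bot_iff]
  intro g hg
  rw [mem_KK] at hg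
  rw [Submodule.mem_bot]
  funext t
  exact (hg t).2 (by have := bc_le t; omega)

theorem rk_big {r : ℕ} (X : Fin r → Module.End K A) {𝒜 : ℕ → Submodule K A} {k q : ℕ}
    (hk : r < k) : rk X 𝒜 k q = 0 := by
  unfold rk
  rw [KK_big hk, Submodule.map_bot, finrank_bot]

/-- The dimension of the parts of the Koszul complex. -/
theorem finrank_KK [FiniteDimensional K A] {r : ℕ} (𝒜 : ℕ → Submodule K A) (k q : ℕ) :
    Module.finrank K (KK (r := r) 𝒜 k q) = r.choose k * Module.finrank K (𝒜 q) := by
  induction r generalizing k with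
  | zero =>
    cases k with
    | zero =>
      rw [Nat.choose_self, one_mul]
      let e : (KK (r := 0) 𝒜 0 q) ≃ₗ[K] 𝒜 q :=
        { toFun := fun g => ⟨g.1 (fun v => v.elim0), (mem_KK.1 g.2 _).1 (by simp [bc])⟩
          map_add' := fun _ _ => rfl
          map_smul' := fun _ _ => rfl
          invFun := fun a => ⟨fun _ => a.1, mem_KK.2 fun t => ⟨fun _ => a.2, fun h =>
            absurd (by simp [bc]) h⟩⟩
          left_inv := fun g => by
            ext t
            exact congrArg g.1 (funext fun v => v.elim0)
          right_inv := fun _ => rfl }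
      exact e.finrank_eq
    | succ k =>
      rw [KK_big (by omega), finrank_bot, Nat.choose_eq_zero_of_lt (by omega), zero_mul]
  | succ r ih =>
    cases k with
    | zero =>
      rw [← LinearEquiv.finrank_map_eq (dbl K A r)]
      have h : Submodule.map (dbl K A r).toLinearMap (KK 𝒜 0 q) =
          (KK (r := r) 𝒜 0 q).prod ⊥ := by
        ext ⟨a, b⟩
        constructor
        · rintro ⟨g, hg, h⟩
          have h1 := dbl_mem_zero.1 hg
          have h2 : dbl K A r g = (a, b) := h
          rw [h2] at h1
          exact ⟨h1.1, h1.2⟩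
        · rintro ⟨h1, h2⟩
          have h2' : b = 0 := h2
          subst h2'
          exact ⟨_, dbl_symm_mem_zero h1, LinearEquiv.apply_symm_apply _ _⟩
      refine (finrank_eq_of_eq h).trans ?_
      rw [finrank_sub_prod, ih, finrank_bot]
      simp
    | succ k =>
      rw [← LinearEquiv.finrank_map_eq (dbl K A r)]
      have h : Submodule.map (dbl K A r).toLinearMap (KK 𝒜 (k + 1) q) =
          (KK (r := r) 𝒜 (k + 1) q).prod (KK 𝒜 k q) := by
        ext ⟨a, b⟩
        constructor
        · rintro ⟨g, hg, h⟩
          have h1 := dbl_mem_succ.1 hg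
          have h2 : dbl K A r g = (a, b) := h
          rw [h2] at h1
          exact h1
        · rintro ⟨h1, h2⟩
          exact ⟨_, dbl_symm_mem_succ h1 h2, LinearEquiv.apply_symm_apply _ _⟩
      refine (finrank_eq_of_eq h).trans ?_
      rw [finrank_sub_prod, ih, ih, Nat.choose_succ_succ]
      ring

/-- If the differential is injective, its rank is the dimension. -/
theorem rk_eq_finrank [FiniteDimensional K A] {r : ℕ} (X : Fin r → Module.End K A)
    {𝒜 : ℕ → Submodule K A} {k q : ℕ} (h : ∀ g ∈ KK 𝒜 k q, kos X g = 0 → g = 0) :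
    rk X 𝒜 k q = r.choose k * Module.finrank K (𝒜 q) := by
  unfold rk
  rw [← finrank_KK (r := r) 𝒜 k q]
  have h1 := LinearMap.finrank_range_add_finrank_ker ((kos X).domRestrict (KK 𝒜 k q))
  rw [LinearMap.range_domRestrict] at h1
  have h2 : LinearMap.ker ((kos X).domRestrict (KK 𝒜 k q)) = ⊥ := by
    rw [eq_bot_iff]
    intro g hg
    rw [Submodule.mem_bot]
    exact Subtype.ext (h g.1 g.2 hg)
  rw [h2, finrank_bot, add_zero] at h1
  exact h1

/-- Injectivity of the differential when the variables are independent on `𝒜 q`. -/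
theorem kos_inj {r : ℕ} (X : Fin r → Module.End K A) {𝒜 : ℕ → Submodule K A} {k q : ℕ}
    (h : ∀ f : Fin r → A, (∀ v, f v ∈ 𝒜 q) → ∑ v, X v (f v) = 0 → ∀ v, f v = 0) :
    ∀ g ∈ KK 𝒜 (k + 1) q, kos X g = 0 → g = 0 := by
  intro g hg h0
  rw [mem_KK] at hg
  funext s
  by_cases hs : bc s = k + 1
  · have hex : ∃ v, s v = true := by
      by_contra hcon
      push Not at hcon
      have : bc s = 0 := by
        unfold bc
        rw [Finset.card_eq_zero, Finset.filter_eq_empty_iff]
        exact fun v _ => hcon v
      omega
    obtain ⟨v, hv⟩ := hex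
    set t := Function.update s v false with ht
    have htv : ¬ t v = true := by simp [ht]
    have hts : Function.update t v true = s := by
      rw [ht, Function.update_idem, ← hv, Function.update_eq_self]
    have hbt : bc t = k := by
      have := bc_update htv
      rw [hts] at this
      omega
    have h1 := congrFun h0 t
    rw [kos_apply] at h1
    have h2 := h (fun w => if t w = true then 0 else sgn K t w • g (Function.update t w true))
      (by
        intro w
        by_cases hw : t w = true
        · simp only [hw, if_true]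
          exact Submodule.zero_mem _
        · simp only [hw]
          exact Submodule.smul_mem _ _ ((hg _).1 (by rw [bc_update hw, hbt])))
      (by
        refine Eq.trans (Finset.sum_congr rfl fun w _ => ?_) h1
        by_cases hw : t w = true
        · simp [hw]
        · simp [hw]) v
    simp only [htv] at h2
    rw [hts] at h2
    have h3 : sgn K t v ≠ 0 := pow_ne_zero _ (by simp)
    rcases smul_eq_zero.1 h2 with h4 | h4
    · exact absurd h4 h3
    · exact h4
  · exact (hg s).2 hs

theorem bc_eq_zero {r : ℕ} {t : Fin r → Bool} : bc t = 0 ↔ t = fun _ => false := by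
  unfold bc
  rw [Finset.card_eq_zero, Finset.filter_eq_empty_iff]
  constructor
  · intro h
    funext v
    have := h (Finset.mem_univ v)
    simpa using this
  · rintro rfl
    simp

/-- The subset with the single element `v`. -/
def sng {r : ℕ} (v : Fin r) : Fin r → Bool := Function.update (fun _ => false) v true

theorem sng_inj {r : ℕ} {v w : Fin r} (h : sng v = sng w) : v = w := by
  by_contra hne
  have h1 := congrFun h v
  simp [sng, hne] at h1

theorem bc_sng {r : ℕ} (v : Fin r) : bc (sng v) = 1 := by
  unfold sng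
  rw [bc_update (by simp), bc_eq_zero.2 rfl]

theorem kos_one {r : ℕ} (X : Fin r → Module.End K A) {𝒜 : ℕ → Submodule K A} {q : ℕ}
    {g : (Fin r → Bool) → A} (hg : g ∈ KK 𝒜 1 q) :
    kos X g = LinearMap.single K (fun _ => A) (fun _ => false) (∑ v, X v (g (sng v))) := by
  classical
  funext t
  rw [kos_apply]
  by_cases ht : t = fun _ => false
  · subst ht
    rw [LinearMap.single_apply, Pi.single_eq_same]
    refine Finset.sum_congr rfl fun v _ => ?_
    have h1 : sgn K (fun _ : Fin r => false) v = 1 := by
      unfold sgn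
      simp
    simp [h1, sng]
  · rw [LinearMap.single_apply, Pi.single_eq_of_ne ht]
    refine Finset.sum_eq_zero fun v _ => ?_
    split_ifs with h
    · rfl
    · rw [((mem_KK.1 hg) _).2 (by
        rw [bc_update h]
        intro hh
        exact ht (bc_eq_zero.1 (by omega))), map_zero, smul_zero]

theorem single_mem_KK {r : ℕ} {𝒜 : ℕ → Submodule K A} {q : ℕ} [DecidableEq (Fin r → Bool)]
    (s : Fin r → Bool) {a : A} (ha : a ∈ 𝒜 q) :
    (Pi.single s a : (Fin r → Bool) → A) ∈ KK 𝒜 (bc s) q := by
  rw [mem_KK]
  intro t
  by_cases h : t = s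
  · subst h
    rw [Pi.single_eq_same]
    exact ⟨fun _ => ha, fun hh => absurd rfl hh⟩
  · rw [Pi.single_eq_of_ne h]
    exact ⟨fun _ => Submodule.zero_mem _, fun _ => rfl⟩

/-- The rank in homological degree one. -/
theorem rk_one [FiniteDimensional K A] {r : ℕ} (X : Fin r → Module.End K A)
    (𝒜 : ℕ → Submodule K A) (q : ℕ) :
    rk X 𝒜 1 q = Module.finrank K (⨆ v, (𝒜 q).map (X v) : Submodule K A) := by
  classical
  unfold rk
  set s : A →ₗ[K] ((Fin r → Bool) → A) := LinearMap.single K (fun _ => A) (fun _ => false) with hs0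
  have hs : Function.Injective s := by
    intro a b hab
    have := congrFun hab (fun _ => false)
    simpa [hs0] using this
  rw [(Submodule.equivMapOfInjective s hs (⨆ v, (𝒜 q).map (X v) : Submodule K A)).finrank_eq]
  refine finrank_eq_of_eq (le_antisymm ?_ ?_)
  · rintro _ ⟨g, hg, rfl⟩
    refine ⟨∑ v, X v (g (sng v)), ?_, (kos_one X hg).symm⟩
    refine Submodule.sum_mem _ fun v _ => ?_
    exact Submodule.mem_iSup_of_mem v ⟨_, ((mem_KK.1 hg) _).1 (bc_sng v), rfl⟩
  · rw [Submodule.map_iSup]
    refine iSup_le fun v => ?_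
    rintro _ ⟨_, ⟨a, ha, rfl⟩, rfl⟩
    have hm := single_mem_KK (K := K) (𝒜 := 𝒜) (q := q) (sng v) ha
    rw [bc_sng] at hm
    refine ⟨_, hm, ?_⟩
    rw [kos_one X hm]
    congr 1
    rw [Finset.sum_eq_single v]
    · rw [Pi.single_eq_same]
    · intro w _ hw
      rw [Pi.single_eq_of_ne (fun h => hw (sng_inj h)), map_zero]
    · intro h; exact absurd (Finset.mem_univ v) h

/-- The rank in the top homological degree, if there is no socle. -/
theorem rk_top [FiniteDimensional K A] {r : ℕ} (X : Fin r → Module.End K A)
    {𝒜 : ℕ → Submodule K A} {q : ℕ} (h : ∀ a ∈ 𝒜 q, (∀ v, X v a = 0) → a = 0) :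
    rk X 𝒜 r q = Module.finrank K (𝒜 q) := by
  have h1 : rk X 𝒜 r q = r.choose r * Module.finrank K (𝒜 q) := by
    refine rk_eq_finrank X fun g hg h0 => ?_
    have hg' := mem_KK.1 hg
    have htop : ∀ s : Fin r → Bool, bc s = r → s = fun _ => true := by
      intro s hs
      have h2 := bc_cpl s
      have h3 : bc (cpl s) = 0 := by omega
      rw [bc_eq_zero] at h3
      funext v
      have := congrFun h3 v
      simpa [cpl] using this
    funext s
    by_cases hs : bc s = r
    · have hst := htop s hs
      rw [hst] at hs ⊢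
      refine h _ ((hg' _).1 hs) fun v => ?_
      have h4 := congrFun h0 (Function.update (fun _ => true) v false)
      rw [kos_apply, Finset.sum_eq_single v] at h4
      · rw [if_neg (by simp), Function.update_idem, Function.update_eq_self_iff.2 rfl] at h4
        rcases smul_eq_zero.1 h4 with h5 | h5
        · exact absurd h5 (pow_ne_zero _ (by simp))
        · exact h5
      · intro w _ hw
        rw [if_pos]
        simp [hw]
      · intro h5; exact absurd (Finset.mem_univ v) h5
    · exact (hg' _).2 hs
  rw [h1, Nat.choose_self, one_mul]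

end Pool.Agent.Perazzo
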