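import Pool.Agent.Lib.MP_44b5f4_ag.Crux

/-!
# Extremal Hilbert functions for two variables `u`
-/

set_option autoImplicit false

namespace Pool.Agent.Perazzo

open Finset

/-! ### Arithmetic of the dimensions -/

section arith

variable {N d : ℕ} {h z e i : ℕ → ℕ}

theorem grow_iter (F6 : ∀ q, 1 ≤ i q → i q + 1 ≤ i (q + 1)) (q j : ℕ) (hi : 1 ≤ i q) :
    i q + j ≤ i (q + j) := by
  induction j with
  | zero => exact le_refl _
  | succ j ih =>
    have := F6 (q + j) (by omega)
    have e1 : q + (j + 1) = q + j + 1 := by omega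
    rw [e1]
    omega

theorem arith_min (hN : 2 ≤ N) (hNd : N ≤ d)
    (F1 : ∀ q, z q + (q + 1) = h q + i q)
    (F2 : ∀ q, q + 1 ≤ d → z q + e (d - q - 1) = h q)
    (F3 : ∀ q, e q ≤ z (q + 1))
    (F4 : ∀ p q, p + q = d → h p = h q)
    (F5 : e 0 = N)
    (F6 : ∀ q, 1 ≤ i q → i q + 1 ≤ i (q + 1))
    (hmin : ∀ q, 1 ≤ q → 2 * q ≤ d → h q = min (2 * N) (min (q + 1 + N) (d + 2)))
    {q : ℕ} (hq : 1 ≤ q) (hqd : q + 1 ≤ d) :
    i q = q + 1 - N ∧ z q = e (q - 1) ∧ h q = min (q + 1) N + min (d - q + 1) N := by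
  have top : d = N + i (d - 1) := by
    have h1 := F1 (d - 1)
    have h2 := F2 (d - 1) (by omega)
    have e1 : d - (d - 1) - 1 = 0 := by omega
    rw [e1, F5] at h2
    omega
  have bound : ∀ q, q + 1 ≤ d → 1 ≤ i q → i q + N ≤ q + 1 := by
    intro q hq hi
    have h1 := grow_iter F6 q (d - 1 - q) hi
    have e1 : q + (d - 1 - q) = d - 1 := by omega
    rw [e1] at h1
    omega
  have key : ∀ q, 1 ≤ q → 2 * q ≤ d → i q = q + 1 - N ∧ z q = e (q - 1) ∧
      h q = min (q + 1) N + min (d - q + 1) N ∧ i (d - q) = d - q + 1 - N ∧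
      z (d - q) = e (d - q - 1) := by
    intro q hq hqd
    have h1 := F1 q
    have h2 := F2 q (by omega)
    have h3 := F1 (d - q)
    have h4 := F2 (d - q) (by omega)
    have e1 : d - (d - q) - 1 = q - 1 := by omega
    rw [e1] at h4
    have h5 := F4 q (d - q) (by omega)
    have h6 := F3 (q - 1)
    have e2 : q - 1 + 1 = q := by omega
    rw [e2] at h6
    have h7 := hmin q hq hqd
    have h8 := bound q (by omega)
    have h9 := bound (d - q) (by omega)
    omega
  by_cases hc : 2 * q ≤ d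
  · obtain ⟨h1, h2, h3, -⟩ := key q hq hc
    exact ⟨h1, h2, h3⟩
  · obtain ⟨-, -, h3, h4, h5⟩ := key (d - q) (by omega) (by omega)
    have e1 : d - (d - q) = q := by omega
    have h6 := F4 q (d - q) (by omega)
    rw [e1] at h3 h4 h5
    refine ⟨h4, h5, ?_⟩
    rw [h6, h3]
    omega

theorem arith_max (hN : 3 ≤ N) (hNd : N ≤ d)
    (F1 : ∀ q, z q + (q + 1) = h q + i q)
    (F2 : ∀ q, q + 1 ≤ d → z q + e (d - q - 1) = h q)
    (F4 : ∀ p q, p + q = d → h p = h q)
    (F6 : ∀ q, 1 ≤ i q → i q + 1 ≤ i (q + 1))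
    (F7 : ∀ q, h (q + 1) ≤ (q + 2) + e q)
    (F8 : ∀ q, e q ≤ N * (q + 1))
    (hmax : ∀ q, 1 ≤ q → 2 * q ≤ d → h q = min (d + 2) (q + 1 + N * q))
    {q : ℕ} (hq : 1 ≤ q) (hqd : q + 1 ≤ d) :
    (2 * q ≤ d + 1 → i q = 0) ∧ z q = e (q - 1) := by
  have hmul : ∀ q, 3 * q ≤ N * q := fun q => Nat.mul_le_mul_right q hN
  have key : ∀ q, 1 ≤ q → 2 * q ≤ d → i q = 0 ∧ z q = e (q - 1) ∧
      z (d - q) = e (d - q - 1) ∧ (i (d - q) = d - q + 1 - N * q) := by
    intro q hq hqd
    have h1 := F1 q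
    have h2 := F2 q (by omega)
    have h3 := F1 (d - q)
    have h4 := F2 (d - q) (by omega)
    have e1 : d - (d - q) - 1 = q - 1 := by omega
    rw [e1] at h4
    have h5 := F4 q (d - q) (by omega)
    have h6 := F7 (q - 1)
    have h7 := F8 (q - 1)
    have e2 : q - 1 + 1 = q := by omega
    have e3 : q - 1 + 2 = q + 1 := by omega
    rw [e2, e3] at h6
    rw [e2] at h7
    have h8 := hmax q hq hqd
    have h9 := hmul q
    have h10 : 1 ≤ i q → i q + (d - 2 * q) ≤ i (d - q) := by
      intro hi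
      have h1 := grow_iter F6 q (d - 2 * q) hi
      have e1 : q + (d - 2 * q) = d - q := by omega
      rwa [e1] at h1
    omega
  by_cases hc : 2 * q ≤ d
  · obtain ⟨h1, h2, -⟩ := key q hq hc
    exact ⟨fun _ => h1, h2⟩
  · obtain ⟨h0, h1, h2, h3⟩ := key (d - q) (by omega) (by omega)
    have e1 : d - (d - q) = q := by omega
    rw [e1] at h2 h3
    refine ⟨fun h4 => ?_, h2⟩
    have h5 := hmul (d - q)
    omega

end arith

namespace GA

variable {K A : Type} [Field K] [CommRing A] [Algebra K A] {N d : ℕ} (G : GA K A 2 N d)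
  [FiniteDimensional K A]

omit [FiniteDimensional K A] in
/-- The Hilbert function is minimal. -/
def IsMin : Prop := ∀ q, 1 ≤ q → 2 * q ≤ d →
  Module.finrank K (G.𝒜 q) = min (2 * N) (min (q + 1 + N) (d + 2))

omit [FiniteDimensional K A] in
/-- The Hilbert function is maximal. -/
def IsMax : Prop := ∀ q, 1 ≤ q → 2 * q ≤ d →
  Module.finrank K (G.𝒜 q) = min (d + 2) (q + 1 + N * q)

omit [FiniteDimensional K A] in
theorem F6 (q : ℕ) (h : 1 ≤ Module.finrank K (G.I q)) :
    Module.finrank K (G.I q) + 1 ≤ Module.finrank K (G.I (q + 1)) := by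
  refine growth (q := q) inf_le_left ?_ (fun a ha => G.X_mul_mem_I 0 ha)
    (fun a ha => G.X_mul_mem_I 1 ha)
  intro hb
  have h2 : Module.finrank K (G.I q) = 0 := by
    rw [finrank_eq_of_eq (show G.I q = ⊥ from hb), finrank_bot]
  omega

theorem F1' (q : ℕ) : Module.finrank K (G.Z ⊓ G.𝒜 q : Submodule K A) + (q + 1) =
    Module.finrank K (G.𝒜 q) + Module.finrank K (G.I q) := by
  have := G.F1 q
  rwa [Nat.multichoose_two] at this

omit [FiniteDimensional K A] in
theorem I_bot {q : ℕ} (h : Module.finrank K (G.I q) = 0) : G.I q = ⊥ :=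
  Submodule.finrank_eq_zero.1 h

theorem min_dims (hN : 2 ≤ N) (hNd : N ≤ d) (hG : G.IsMin) {q : ℕ} (hq : 1 ≤ q) (hqd : q + 1 ≤ d) :
    Module.finrank K (G.I q) = q + 1 - N ∧
    Module.finrank K (G.Z ⊓ G.𝒜 q : Submodule K A) = Module.finrank K (G.E (q - 1)) ∧
    Module.finrank K (G.𝒜 q) = min (q + 1) N + min (d - q + 1) N :=
  arith_min (h := fun q => Module.finrank K (G.𝒜 q))
    (z := fun q => Module.finrank K (G.Z ⊓ G.𝒜 q : Submodule K A))
    (e := fun q => Module.finrank K (G.E q)) (i := fun q => Module.finrank K (G.I q))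
    hN hNd G.F1' (fun _ h => G.F2 h) G.F3 (fun _ _ h => G.F4 h) G.F5 G.F6 hG hq hqd

theorem max_dims (hN : 3 ≤ N) (hNd : N ≤ d) (hG : G.IsMax) {q : ℕ} (hq : 1 ≤ q) (hqd : q + 1 ≤ d) :
    (2 * q ≤ d + 1 → Module.finrank K (G.I q) = 0) ∧
    Module.finrank K (G.Z ⊓ G.𝒜 q : Submodule K A) = Module.finrank K (G.E (q - 1)) :=
  arith_max (h := fun q => Module.finrank K (G.𝒜 q))
    (z := fun q => Module.finrank K (G.Z ⊓ G.𝒜 q : Submodule K A))
    (e := fun q => Module.finrank K (G.E q)) (i := fun q => Module.finrank K (G.I q))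
    hN hNd G.F1' (fun _ h => G.F2 h) (fun _ _ h => G.F4 h) G.F6
    (fun q => by
      have := G.F7 q
      rw [Nat.multichoose_two] at this
      exact this)
    (fun q => by
      have := G.F8 q
      rw [Nat.multichoose_two] at this
      exact this) hG hq hqd

/-- The conditions used for the ranks. -/
structure Good : Prop where
  h1 : ∀ q, q + 2 ≤ d → G.Z ⊓ G.𝒜 (q + 1) ≤ G.E q
  hc : ∀ q, 1 ≤ q → q + 2 ≤ d → G.Crux q

theorem good_max (hN : 3 ≤ N) (hNd : N ≤ d) (hG : G.IsMax) : G.Good where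
  h1 q hq := by
    refine G.E_eq ?_
    have := (G.max_dims hN hNd hG (q := q + 1) (by omega) (by omega)).2
    exact this.le
  hc q hq hqd := by
    refine G.crux_of_pcrux hq hqd (G.pcrux_of_bot ?_)
    by_cases h : 2 * (q + 1) ≤ d + 1
    · left
      exact G.I_bot ((G.max_dims hN hNd hG (q := q + 1) (by omega) (by omega)).1 h)
    · right
      exact G.I_bot ((G.max_dims hN hNd hG (q := d - q) (by omega) (by omega)).1 (by omega))

theorem good_min (hN : 2 ≤ N) (hNd : N ≤ d) (hG : G.IsMin) : G.Good where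
  h1 q hq := by
    refine G.E_eq ?_
    have := (G.min_dims hN hNd hG (q := q + 1) (by omega) (by omega)).2.1
    exact this.le
  hc q hq hqd := by
    refine G.crux_of_pcrux hq hqd ?_
    have hdim : ∀ q, 1 ≤ q → q + 1 ≤ d → Module.finrank K (G.I q) = q + 1 - N :=
      fun q h1 h2 => (G.min_dims hN hNd hG h1 h2).1
    by_cases hlt : N + 1 ≤ d
    · have h1 := hdim N (by omega) hlt
      have h2 : Module.finrank K (G.I N) = 1 := by omega
      have hne : G.I N ≠ ⊥ := by
        intro h
        rw [h, finrank_bot] at h2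
        omega
      obtain ⟨f, hf, hfne⟩ := (Submodule.ne_bot_iff _).1 hne
      have hf' : f ∈ PP K 2 (N - 1 + 1) := by
        have e : N - 1 + 1 = N := by omega
        rw [e]
        exact hf.1
      have hdec : ∃ f0 f1 : MvPolynomial (Fin 2) K,
          f = MvPolynomial.X 0 * f0 + MvPolynomial.X 1 * f1 := by
        have h3 : PP K 2 (N - 1 + 1) ≤
            LinearMap.range (LinearMap.mulLeft K (MvPolynomial.X 0 : MvPolynomial (Fin 2) K)) ⊔
            LinearMap.range (LinearMap.mulLeft K (MvPolynomial.X 1 : MvPolynomial (Fin 2) K)) := by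
          refine PP_gen_le K fun v a ha => ?_
          fin_cases v
          · exact Submodule.mem_sup_left ⟨a, rfl⟩
          · exact Submodule.mem_sup_right ⟨a, rfl⟩
        obtain ⟨_, ⟨f0, rfl⟩, _, ⟨f1, rfl⟩, h4⟩ := Submodule.mem_sup.1 (h3 hf')
        exact ⟨f0, f1, h4.symm⟩
      obtain ⟨f0, f1, rfl⟩ := hdec
      have hall : ∀ q, 1 ≤ q → q + 1 ≤ d → ∀ φ ∈ G.I q, ∃ κ,
          φ = κ * (MvPolynomial.X 0 * f0 + MvPolynomial.X 1 * f1) := by
        intro q hq1 hq2 φ hφ
        set f := MvPolynomial.X 0 * f0 + MvPolynomial.X 1 * f1 with hfdef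
        have h5 := hdim q hq1 hq2
        by_cases hqN : N ≤ q
        · let g := LinearMap.mulLeft K f
          have hginj : Function.Injective g := fun a b hab => mul_left_cancel₀ hfne hab
          have h6 : (PP K 2 (q - N)).map g ≤ G.I q := by
            rintro _ ⟨κ, hκ, rfl⟩
            rw [mem_I]
            constructor
            · have h7 := MvPolynomial.IsHomogeneous.mul hf.1 hκ
              have e : N + (q - N) = q := by omega
              rw [e] at h7
              exact h7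
            · show G.θ (f * κ) ∈ G.Z
              rw [mul_comm, map_mul]
              exact G.mul_mem_Z hf.2 _
          have h8 : Module.finrank K ((PP K 2 (q - N)).map g) = q - N + 1 := by
            rw [← (Submodule.equivMapOfInjective g hginj _).finrank_eq, finrank_PP_two]
          have h9 := Submodule.eq_of_le_of_finrank_le h6 (by omega)
          rw [← h9] at hφ
          obtain ⟨κ, -, h10⟩ := hφ
          exact ⟨κ, by rw [← h10, mul_comm]; rfl⟩
        · have h6 := G.I_bot (q := q) (by omega)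
          rw [h6, Submodule.mem_bot] at hφ
          exact ⟨0, by rw [hφ, zero_mul]⟩
      exact G.pcrux_of_mul hf.2 (hall (q + 1) (by omega) (by omega))
        (hall (d - q) (by omega) (by omega))
    · refine G.pcrux_of_bot (Or.inl (G.I_bot ?_))
      have := hdim (q + 1) (by omega) (by omega)
      omega

end GA

end Pool.Agent.Perazzo
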