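import Pool.Agent.Lib.MP_44b5f4_ag.Ext
import Pool.Agent.Lib.MP_44b5f4_ag.Betti

/-!
# The Betti numbers for two variables `u`
-/

set_option autoImplicit false

namespace Pool.Agent.Perazzo

open Finset

namespace GA

section gen

variable {K A : Type} [Field K] [CommRing A] [Algebra K A] {m N d : ℕ} (G : GA K A m N d)
  [FiniteDimensional K A]

omit [FiniteDimensional K A] in
theorem X_comm (v w : Fin (m + N)) : G.X v * G.X w = G.X w * G.X v := by
  refine LinearMap.ext fun a => ?_
  show G.y v * (G.y w * a) = G.y w * (G.y v * a)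
  ring

theorem B_succ (i q : ℕ) : betti G.X G.𝒜 i (i + (q + 1)) + rk G.X G.𝒜 i (q + 1) +
    rk G.X G.𝒜 (i + 1) q = (m + N).choose i * Module.finrank K (G.𝒜 (q + 1)) :=
  betti_succ G.X G.X_comm (𝒜 := G.𝒜) (fun _ v _ ha => G.mul_mem ha v) i q

theorem B_diag (i : ℕ) : betti G.X G.𝒜 i i + rk G.X G.𝒜 i 0 = (m + N).choose i := by
  have := betti_diag G.X G.𝒜 i
  rwa [G.finrank_zero, mul_one] at this

theorem rk_one_eq (q : ℕ) : rk G.X G.𝒜 1 q = Module.finrank K (G.𝒜 (q + 1)) := by
  rw [rk_one, G.gen]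
  rfl

theorem rk_c {q : ℕ} (hq : q < d) : rk G.X G.𝒜 (m + N) q = Module.finrank K (G.𝒜 q) :=
  rk_top G.X fun _ ha h => G.socle hq ha h

theorem rk_ge {k q : ℕ} (hq : d ≤ q) : rk G.X G.𝒜 k q = 0 := by
  cases k with
  | zero => exact rk_zero _ _ _
  | succ k =>
    unfold rk
    rw [Submodule.finrank_eq_zero, eq_bot_iff]
    rintro _ ⟨g, hg, rfl⟩
    have h1 := kos_mem G.X (fun v a ha => G.mul_mem ha v) hg
    rw [mem_KK, G.top (q + 1) (by omega)] at h1
    rw [Submodule.mem_bot]
    funext t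
    by_cases ht : bc t = k
    · exact (Submodule.mem_bot K).1 ((h1 t).1 ht)
    · exact (h1 t).2 ht

theorem finrank_d : Module.finrank K (G.𝒜 d) = 1 := by
  rw [G.F4 (p := d) (q := 0) (by omega), G.finrank_zero]

omit [FiniteDimensional K A] in
theorem finrank_gt {q : ℕ} (hq : d < q) : Module.finrank K (G.𝒜 q) = 0 := by
  rw [G.top q hq, finrank_bot]

/-- The Betti numbers in homological degree zero. -/
theorem B_zero (q : ℕ) : betti G.X G.𝒜 0 q = if q = 0 then 1 else 0 := by
  cases q with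
  | zero =>
    have := G.B_diag 0
    rw [rk_zero] at this
    simpa using this
  | succ q =>
    have := G.B_succ 0 q
    rw [rk_zero, G.rk_one_eq, Nat.choose_zero_right] at this
    simp only [zero_add] at this
    rw [if_neg (by omega)]
    omega

/-- The Betti numbers in the last homological degree. -/
theorem B_last (hd : 1 ≤ d) (q : ℕ) :
    betti G.X G.𝒜 (m + N) (m + N + q) = if q = d then 1 else 0 := by
  cases q with
  | zero =>
    have := G.B_diag (m + N)
    rw [G.rk_c (by omega), G.finrank_zero, Nat.choose_self] at this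
    rw [if_neg (by omega), add_zero]
    omega
  | succ q =>
    have := G.B_succ (m + N) q
    rw [Nat.choose_self, one_mul, rk_big G.X (k := m + N + 1) (by omega)] at this
    rcases lt_trichotomy (q + 1) d with h | h | h
    · rw [G.rk_c h] at this
      rw [if_neg (by omega)]
      omega
    · rw [G.rk_ge (q := q + 1) (by omega), h, G.finrank_d] at this
      rw [if_pos h, h]
      omega
    · rw [G.finrank_gt h] at this
      rw [if_neg (by omega)]
      omega

/-- The Betti numbers beyond the codimension. -/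
theorem B_beyond {i : ℕ} (hi : m + N < i) (q : ℕ) : betti G.X G.𝒜 i (i + q) = 0 := by
  cases q with
  | zero =>
    have := G.B_diag i
    rw [Nat.choose_eq_zero_of_lt hi] at this
    rw [add_zero]
    omega
  | succ q =>
    have := G.B_succ i q
    rw [Nat.choose_eq_zero_of_lt hi, zero_mul] at this
    omega

/-- Row zero. -/
theorem B_row_zero (k : ℕ) : betti G.X G.𝒜 (k + 1) (k + 1) = 0 := by
  have := G.B_diag (k + 1)
  rw [G.rk_row_zero] at this
  omega

theorem rk_row_top (hd : 1 ≤ d) {k : ℕ} (hk : k < m + N) :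
    rk G.X G.𝒜 (k + 1) (d - 1) = (m + N).choose k := by
  rw [G.rk_self_dual (by omega) (by omega)]
  have e1 : d - 1 - (d - 1) = 0 := by omega
  have e2 : m + N - k = m + N - k - 1 + 1 := by omega
  rw [e1, e2, G.rk_row_zero]
  have e3 : m + N - k - 1 + 1 = m + N - k := by omega
  rw [e3, Nat.choose_symm hk.le]

/-- Rows from `d` on. -/
theorem B_row_ge (hd : 1 ≤ d) {i q : ℕ} (hi : i < m + N) (hq : d ≤ q) :
    betti G.X G.𝒜 i (i + q) = 0 := by
  obtain ⟨q, rfl⟩ : ∃ q', q = q' + 1 := ⟨q - 1, by omega⟩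
  have h1 := G.B_succ i q
  rcases Nat.lt_or_ge d (q + 1) with h | h
  · rw [G.finrank_gt h, mul_zero] at h1
    omega
  · have e : d = q + 1 := by omega
    have h2 := G.rk_row_top hd hi
    have e1 : d - 1 = q := by omega
    rw [e1] at h2
    subst e
    rw [h2, G.finrank_d, mul_one] at h1
    omega

end gen

variable {K A : Type} [Field K] [CommRing A] [Algebra K A] {N d : ℕ} (G : GA K A 2 N d)
  [FiniteDimensional K A]

/-- `C (N, k - 1)`, zero for `k = 0`. -/
def pc (N k : ℕ) : ℕ := if k = 0 then 0 else N.choose (k - 1)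

theorem choose_two (N k : ℕ) : (2 + N).choose (k + 1) = N.choose (k + 1) + 2 * N.choose k + pc N k := by
  unfold pc
  cases k with
  | zero => simp; ring
  | succ k =>
    rw [if_neg (by omega)]
    have e : 2 + N = N + 1 + 1 := by omega
    rw [e, Nat.choose_succ_succ, Nat.choose_succ_succ, Nat.choose_succ_succ (n := N) (k := k + 1)]
    simp only [Nat.succ_eq_add_one, Nat.add_sub_cancel]
    ring

theorem rk_mid' (hG : G.Good) {q : ℕ} (hq : 1 ≤ q) (hqd : q + 2 ≤ d) (k : ℕ) :
    rk G.X G.𝒜 (k + 1) q = N.choose k * Module.finrank K (G.𝒜 (q + 1)) +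
      pc N k * Module.finrank K (G.𝒜 q) := by
  unfold pc
  cases k with
  | zero => rw [G.rk_mid_one hG.h1 hq hqd (hG.hc q hq hqd)]; simp
  | succ k =>
    rw [G.rk_mid_two hG.h1 hq hqd (hG.hc q hq hqd), if_neg (by omega)]
    simp

/-- Middle rows. -/
theorem B_mid (hG : G.Good) {q : ℕ} (hq : 1 ≤ q) (hqd : q + 3 ≤ d) (k : ℕ) :
    (betti G.X G.𝒜 (k + 1) (k + 1 + (q + 1)) : ℤ) =
      N.choose k * (2 * Module.finrank K (G.𝒜 (q + 1)) - Module.finrank K (G.𝒜 q) -
        Module.finrank K (G.𝒜 (q + 2))) := by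
  have h1 := G.B_succ (k + 1) q
  rw [G.rk_mid' hG (q := q + 1) (by omega) (by omega), G.rk_mid' hG (q := q) hq (by omega),
    choose_two] at h1
  have h2 : pc N (k + 1) = N.choose k := by unfold pc; rw [if_neg (by omega)]; rfl
  rw [h2] at h1
  have h3 : q + 1 + 1 = q + 2 := rfl
  rw [h3] at h1
  zify at h1
  linear_combination h1

/-- Row one. -/
theorem B_first (hG : G.Good) (hd : 3 ≤ d) (k : ℕ) :
    (betti G.X G.𝒜 (k + 1) (k + 2) : ℤ) =
      ((2 + N).choose (k + 1) - pc N k) * Module.finrank K (G.𝒜 1) -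
      N.choose k * Module.finrank K (G.𝒜 2) - (2 + N).choose (k + 2) := by
  have h1 := G.B_succ (k + 1) 0
  rw [G.rk_mid' hG (q := 0 + 1) (by omega) (by omega), G.rk_row_zero] at h1
  have h3 : 0 + 1 + 1 = 2 := rfl
  have h4 : k + 1 + (0 + 1) = k + 2 := rfl
  have h5 : k + 1 + 1 = k + 2 := rfl
  rw [h3, h4, h5] at h1
  zify at h1
  linear_combination h1

/-- Row `d - 1`. -/
theorem B_penult (hG : G.Good) (hd : 3 ≤ d) {k : ℕ} (hk : k < 2 + N) :
    (betti G.X G.𝒜 (k + 1) (k + 1 + (d - 1)) : ℤ) =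
      (2 * N.choose k + pc N k) * Module.finrank K (G.𝒜 (d - 1)) -
      N.choose k * Module.finrank K (G.𝒜 (d - 2)) - (2 + N).choose k := by
  have h1 := G.B_succ (k + 1) (d - 2)
  have e1 : d - 2 + 1 = d - 1 := by omega
  rw [e1, G.rk_row_top (by omega) hk, G.rk_mid' hG (q := d - 2) (by omega) (by omega),
    choose_two, e1] at h1
  have h2 : pc N (k + 1) = N.choose k := by unfold pc; rw [if_neg (by omega)]; rfl
  rw [h2] at h1
  zify at h1
  linear_combination h1

end GA

end Pool.Agent.Perazzo
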