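import Pool.Agent.Lib.MP_44b5f4_ag.Mac

/-!
# Properties of Perazzo forms
-/

set_option autoImplicit false

namespace Pool.Agent.Perazzo

open MvPolynomial Finset

variable {K : Type} [Field K] {m n d : ℕ}

theorem pderiv_rename_zero {N : ℕ} (j : Fin N) (p : MvPolynomial (Fin m) K) :
    pderiv (Fin.natAdd m j) (rename (Fin.castAdd N) p) = 0 := by
  classical
  refine pderiv_eq_zero_of_notMem_vars fun h => ?_
  have h1 := vars_rename (Fin.castAdd N) p h
  rw [Finset.mem_image] at h1
  obtain ⟨v, _, hv⟩ := h1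
  have := congrArg Fin.val hv
  simp at this
  omega

theorem pderiv_form (p : Fin (n + 1) → MvPolynomial (Fin m) K) (G : MvPolynomial (Fin m) K)
    (j : Fin (n + 1)) : pderiv (Fin.natAdd m j) (∑ i, X (Fin.natAdd m i) *
      rename (Fin.castAdd (n + 1)) (p i) + rename (Fin.castAdd (n + 1)) G) =
      rename (Fin.castAdd (n + 1)) (p j) := by
  rw [map_add, pderiv_rename_zero, add_zero, map_sum, Finset.sum_eq_single j]
  · rw [pderiv_mul, pderiv_rename_zero, pderiv_X_self, mul_zero, add_zero, one_mul]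
  · intro i _ hi
    rw [pderiv_mul, pderiv_rename_zero, mul_zero, add_zero, pderiv_X_of_ne, zero_mul]
    intro h
    apply hi
    have := congrArg Fin.val h
    simp at this
    exact Fin.ext this
  · intro h; exact absurd (Finset.mem_univ j) h

theorem IsPerazzo.hom (hd : 1 ≤ d) {F : MvPolynomial (Fin (m + (n + 1))) K}
    (hF : IsPerazzo d F) : F.IsHomogeneous d := by
  obtain ⟨p, G, hp, hG, -, -, rfl⟩ := hF
  refine IsHomogeneous.add (IsHomogeneous.sum _ _ _ fun i _ => ?_)
    (hG.rename_isHomogeneous)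
  have h1 := (isHomogeneous_X K (Fin.natAdd m i)).mul ((hp i).rename_isHomogeneous
    (f := Fin.castAdd (n + 1)))
  have e : 1 + (d - 1) = d := by omega
  rwa [e] at h1

theorem IsPerazzo.xx {F : MvPolynomial (Fin (m + (n + 1))) K}
    (hF : IsPerazzo d F) (i j : Fin (n + 1)) :
    pderiv (Fin.natAdd m i) (pderiv (Fin.natAdd m j) F) = 0 := by
  obtain ⟨p, G, hp, hG, -, -, rfl⟩ := hF
  rw [pderiv_form, pderiv_rename_zero]

theorem IsPerazzo.ne_zero {F : MvPolynomial (Fin (m + (n + 1))) K}
    (hF : IsPerazzo d F) : F ≠ 0 := by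
  obtain ⟨p, G, hp, hG, hl, -, rfl⟩ := hF
  intro h
  have h1 := pderiv_form p G 0
  rw [h, map_zero] at h1
  have h2 := hl.ne_zero 0
  apply h2
  exact rename_injective _ (Fin.castAdd_injective m (n + 1)) (by rw [← h1, map_zero])

theorem IsPerazzo.card_le {F : MvPolynomial (Fin (m + (n + 1))) K}
    (hF : IsPerazzo d F) : n + 1 ≤ m.multichoose (d - 1) := by
  obtain ⟨p, G, hp, hG, hl, -, rfl⟩ := hF
  have h1 : LinearIndependent K (fun i => (⟨p i, hp i⟩ : PP K m (d - 1))) := by
    refine LinearIndependent.of_comp (PP K m (d - 1)).subtype ?_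
    exact hl
  have h2 := h1.fintype_card_le_finrank
  rwa [Fintype.card_fin, finrank_PP] at h2

end Pool.Agent.Perazzo
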