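import Pool.Agent.Lib.MP_44b5f4_ag.Dims

/-!
# Graded Gorenstein algebras with a set of variables whose products are zero
-/

set_option autoImplicit false

namespace Pool.Agent.Perazzo

open Finset

/-- A graded Artinian Gorenstein algebra of socle degree `d` generated by `m` variables `u` and `N`
variables `x` with `x i * x j = 0`. -/
structure GA (K A : Type) [Field K] [CommRing A] [Algebra K A] (m N d : ℕ) where
  y : Fin (m + N) → A
  𝒜 : ℕ → Submodule K A
  ω : A →ₗ[K] K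
  one_ne : (1 : A) ≠ 0
  zero : 𝒜 0 = Submodule.span K {1}
  gen : ∀ q, 𝒜 (q + 1) = ⨆ v, (𝒜 q).map (LinearMap.mulLeft K (y v))
  perf : ∀ p q, p + q = d → ∀ a ∈ 𝒜 p, (∀ b ∈ 𝒜 q, ω (a * b) = 0) → a = 0
  top : ∀ q, d < q → 𝒜 q = ⊥
  lin : ∀ c : Fin (m + N) → K, ∑ v, c v • y v = 0 → ∀ v, c v = 0
  xx : ∀ i j : Fin N, y (Fin.natAdd m i) * y (Fin.natAdd m j) = 0

namespace GA

variable {K A : Type} [Field K] [CommRing A] [Algebra K A] {m N d : ℕ} (G : GA K A m N d)

/-- Multiplication by a variable. -/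
def X (v : Fin (m + N)) : Module.End K A := LinearMap.mulLeft K (G.y v)

@[simp] theorem X_apply (v : Fin (m + N)) (a : A) : G.X v a = G.y v * a := rfl

theorem mul_mem {q : ℕ} {a : A} (ha : a ∈ G.𝒜 q) (v : Fin (m + N)) : G.y v * a ∈ G.𝒜 (q + 1) := by
  rw [G.gen]
  exact Submodule.mem_iSup_of_mem v ⟨a, ha, rfl⟩

/-- Induction on the generation in degree `q + 1`. -/
theorem gen_le {q : ℕ} {V : Submodule K A} (h : ∀ v, ∀ a ∈ G.𝒜 q, G.y v * a ∈ V) :
    G.𝒜 (q + 1) ≤ V := by
  rw [G.gen]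
  refine iSup_le fun v => ?_
  rintro _ ⟨a, ha, rfl⟩
  exact h v a ha

/-- There is no socle in degrees below `d`. -/
theorem socle {q : ℕ} (hq : q < d) {a : A} (ha : a ∈ G.𝒜 q) (h : ∀ v, G.y v * a = 0) : a = 0 := by
  refine G.perf q (d - q) (by omega) a ha fun b hb => ?_
  have e : d - q = d - q - 1 + 1 := by omega
  rw [e] at hb
  have h1 : G.𝒜 (d - q - 1 + 1) ≤ LinearMap.ker (G.ω ∘ₗ LinearMap.mulLeft K a) := by
    refine G.gen_le fun v c _ => ?_
    rw [LinearMap.mem_ker]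
    show G.ω (a * (G.y v * c)) = 0
    rw [← mul_assoc, mul_comm a, h v, zero_mul, map_zero]
  exact h1 hb

theorem finrank_zero : Module.finrank K (G.𝒜 0) = 1 := by
  rw [G.zero]
  exact finrank_span_singleton G.one_ne

/-- The first row. -/
theorem rk_row_zero [FiniteDimensional K A] (k : ℕ) :
    rk G.X G.𝒜 (k + 1) 0 = (m + N).choose (k + 1) := by
  rw [rk_eq_finrank G.X (kos_inj G.X ?_), finrank_zero, mul_one]
  intro f hf h0 v
  have h1 : ∀ w, ∃ c : K, c • (1 : A) = f w := fun w => by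
    have := hf w
    rw [G.zero, Submodule.mem_span_singleton] at this
    exact this
  choose c hc using h1
  have h2 := G.lin c (by
    rw [← h0]
    refine Finset.sum_congr rfl fun w _ => ?_
    rw [X_apply, ← hc w, mul_smul_comm, mul_one]) v
  rw [← hc v, h2, zero_smul]

/-- The pairing. -/
def pair : A →ₗ[K] A →ₗ[K] K := (LinearMap.mul K A).compr₂ G.ω

@[simp] theorem pair_apply (a b : A) : G.pair a b = G.ω (a * b) := rfl

/-- Self-duality. -/
theorem rk_self_dual [FiniteDimensional K A] {k q : ℕ} (hk : k + 1 ≤ m + N) (hq : q + 1 ≤ d) :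
    rk G.X G.𝒜 (k + 1) q = rk G.X G.𝒜 (m + N - k) (d - 1 - q) := by
  refine rk_dual G.pair G.X G.X ?_ hk hq (fun v a ha => G.mul_mem ha v) ?_ ?_ ?_
  · intro v a b
    simp only [pair_apply, X_apply]
    congr 1
    ring
  · intro v b hb
    have e : d - q = d - 1 - q + 1 := by omega
    rw [e]
    exact G.mul_mem hb v
  · intro a ha h
    exact G.perf (q + 1) (d - 1 - q) (by omega) a ha h
  · intro b hb h
    refine G.perf (d - q) q (by omega) b hb fun a ha => ?_
    rw [mul_comm]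
    exact h a ha

/-- The annihilator of the variables `x`. -/
def Z : Submodule K A := ⨅ i : Fin N, LinearMap.ker (LinearMap.mulLeft K (G.y (Fin.natAdd m i)))

theorem mem_Z {a : A} : a ∈ G.Z ↔ ∀ i : Fin N, G.y (Fin.natAdd m i) * a = 0 := by
  unfold Z
  rw [Submodule.mem_iInf]
  rfl

theorem x_mem_Z (i : Fin N) (a : A) : G.y (Fin.natAdd m i) * a ∈ G.Z := by
  rw [mem_Z]
  intro j
  rw [← mul_assoc, G.xx, zero_mul]

theorem mul_mem_Z {a : A} (ha : a ∈ G.Z) (b : A) : b * a ∈ G.Z := by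
  rw [mem_Z] at ha ⊢
  intro i
  rw [mul_left_comm, ha i, mul_zero]

theorem x_mul_Z (i : Fin N) {a : A} (ha : a ∈ G.Z) : G.y (Fin.natAdd m i) * a = 0 :=
  G.mem_Z.1 ha i

/-- The degree `q + 1` part of the ideal generated by the variables `x`. -/
def E (q : ℕ) : Submodule K A := ⨆ i : Fin N, (G.𝒜 q).map (LinearMap.mulLeft K (G.y (Fin.natAdd m i)))

theorem E_le_Z (q : ℕ) : G.E q ≤ G.Z := by
  unfold E
  refine iSup_le fun i => ?_
  rintro _ ⟨a, _, rfl⟩
  exact G.x_mem_Z i a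

theorem E_le_𝒜 (q : ℕ) : G.E q ≤ G.𝒜 (q + 1) := by
  unfold E
  refine iSup_le fun i => ?_
  rintro _ ⟨a, ha, rfl⟩
  exact G.mul_mem ha _

/-- The variables `u` generate the ideal of the variables `x` in degrees at least two. -/
theorem E_succ_le (q : ℕ) : G.E (q + 1) ≤ ⨆ v : Fin m,
    (G.E q).map (LinearMap.mulLeft K (G.y (Fin.castAdd N v))) := by
  unfold E
  refine iSup_le fun i => ?_
  rintro _ ⟨a, ha, rfl⟩
  have h1 : G.𝒜 (q + 1) ≤ Submodule.comap (LinearMap.mulLeft K (G.y (Fin.natAdd m i)))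
      (⨆ v : Fin m, (G.E q).map (LinearMap.mulLeft K (G.y (Fin.castAdd N v)))) := by
    refine G.gen_le fun v b hb => ?_
    rw [Submodule.mem_comap]
    show G.y (Fin.natAdd m i) * (G.y v * b) ∈ _
    induction v using Fin.addCases with
    | left v =>
      refine Submodule.mem_iSup_of_mem v ⟨G.y (Fin.natAdd m i) * b, ?_, ?_⟩
      · exact Submodule.mem_iSup_of_mem i ⟨b, hb, rfl⟩
      · show G.y (Fin.castAdd N v) * (G.y (Fin.natAdd m i) * b) = _
        ring
    | right j =>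
      rw [← mul_assoc, G.xx, zero_mul]
      exact Submodule.zero_mem _
  exact h1 ha

end GA

end Pool.Agent.Perazzo
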