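import Pool.Agent.Lib.MP_44b5f4_ag.Poly

/-!
# Pencils of linear maps of maximal rank; powers of linear forms
-/

set_option autoImplicit false

namespace Pool.Agent.Perazzo

open Finset

section pencil

variable {K Y W : Type} [Field K] [Infinite K] [AddCommGroup Y] [Module K Y]
  [FiniteDimensional K Y] [AddCommGroup W] [Module K W] [FiniteDimensional K W]

omit [FiniteDimensional K W] in
/-- Injectivity of the first map of a pencil is inherited by a general member. -/
theorem exists_inj_add (f g : Y →ₗ[K] W) (hf : Function.Injective f) :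
    ∃ s : K, s ≠ 0 ∧ Function.Injective (f + s • g) := by
  obtain ⟨π, hπ⟩ := f.exists_leftInverse_of_injective (LinearMap.ker_eq_bot.2 hf)
  have hfin := Module.End.finite_hasEigenvalue (π ∘ₗ g : Module.End K Y)
  obtain ⟨μ, hμ⟩ := (hfin.union (Set.finite_singleton (0 : K))).infinite_compl.nonempty
  rw [Set.mem_compl_iff, Set.mem_union, not_or] at hμ
  obtain ⟨hμ1, hμ0⟩ := hμ
  have hμ0' : μ ≠ 0 := hμ0
  refine ⟨-μ⁻¹, neg_ne_zero.2 (inv_ne_zero hμ0'), ?_⟩
  rw [← LinearMap.ker_eq_bot, eq_bot_iff]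
  intro v hv
  have h1 : f v = μ⁻¹ • g v := by
    have h2 : f v + (-μ⁻¹) • g v = 0 := hv
    rw [neg_smul, add_neg_eq_zero] at h2
    exact h2
  have h2 : π (f v) = v := LinearMap.congr_fun hπ v
  rw [h1, map_smul] at h2
  have h3 : (π ∘ₗ g : Module.End K Y) v = μ • v := by
    show π (g v) = μ • v
    rw [← h2, smul_smul, mul_inv_cancel₀ hμ0', one_smul, h2]
  by_contra hv0
  exact hμ1 (Module.End.hasEigenvalue_of_hasEigenvector ⟨Module.End.mem_eigenspace_iff.2 h3, hv0⟩)

/-- The decreasing sequence of subspaces attached to a pencil. -/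
def wong (T0 T1 : Y →ₗ[K] W) : ℕ → Submodule K W
  | 0 => ⊤
  | i + 1 => ((wong T0 T1 i).comap T1).map T0

omit [Infinite K] [FiniteDimensional K Y] [FiniteDimensional K W] in
theorem wong_anti (T0 T1 : Y →ₗ[K] W) (i : ℕ) : wong T0 T1 (i + 1) ≤ wong T0 T1 i := by
  induction i with
  | zero => exact le_top
  | succ i ih => exact Submodule.map_mono (Submodule.comap_mono ih)

omit [Infinite K] [FiniteDimensional K Y] [FiniteDimensional K W] in
theorem wong_le_range (T0 T1 : Y →ₗ[K] W) (i : ℕ) : wong T0 T1 (i + 1) ≤ LinearMap.range T0 := by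
  rintro _ ⟨y, _, rfl⟩
  exact ⟨y, rfl⟩

omit [Infinite K] [FiniteDimensional K Y] in
theorem wong_stab (T0 T1 : Y →ₗ[K] W) (q : ℕ) (hq : Module.finrank K W ≤ q) :
    wong T0 T1 q = wong T0 T1 (q + 1) := by
  have key : ∀ i, wong T0 T1 i = wong T0 T1 (i + 1) ∨
      Module.finrank K (wong T0 T1 (i + 1)) + (i + 1) ≤ Module.finrank K W := by
    intro i
    induction i with
    | zero =>
      by_cases h : wong T0 T1 0 = wong T0 T1 (0 + 1)
      · exact Or.inl h
      · right
        have h1 := Submodule.finrank_lt_finrank_of_lt (lt_of_le_of_ne (wong_anti T0 T1 0) (Ne.symm h))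
        have h2 : Module.finrank K (wong T0 T1 0) = Module.finrank K W := finrank_top K W
        omega
    | succ i ih =>
      rcases ih with ih | ih
      · left
        show ((wong T0 T1 i).comap T1).map T0 = ((wong T0 T1 (i + 1)).comap T1).map T0
        rw [← ih]
      · by_cases h : wong T0 T1 (i + 1) = wong T0 T1 (i + 1 + 1)
        · exact Or.inl h
        · right
          have h1 := Submodule.finrank_lt_finrank_of_lt
            (lt_of_le_of_ne (wong_anti T0 T1 (i + 1)) (Ne.symm h))
          omega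
  rcases key q with h | h
  · exact h
  · omega

omit [Infinite K] [FiniteDimensional K Y] [FiniteDimensional K W] in
theorem wong_chain (T0 T1 : Y →ₗ[K] W) (k : ℕ) : ∀ y, T1 y ∉ wong T0 T1 k →
    (∀ s : K, s ≠ 0 → T0 y ∈ LinearMap.range (T0 + s • T1)) →
    ∃ y', T1 y' ∉ LinearMap.range T0 ∧ ∀ s : K, s ≠ 0 → T1 y' ∈ LinearMap.range (T0 + s • T1) := by
  have hE : ∀ s : K, s ≠ 0 → ∀ y, T0 y ∈ LinearMap.range (T0 + s • T1) →
      T1 y ∈ LinearMap.range (T0 + s • T1) := by
    intro s hs y hy
    have h1 : T0 y + s • T1 y ∈ LinearMap.range (T0 + s • T1) := ⟨y, rfl⟩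
    have h2 := Submodule.sub_mem _ h1 hy
    rw [add_sub_cancel_left] at h2
    have h3 := Submodule.smul_mem _ s⁻¹ h2
    rwa [smul_smul, inv_mul_cancel₀ hs, one_smul] at h3
  induction k with
  | zero =>
    intro y hy _
    exact absurd (Submodule.mem_top (x := T1 y)) hy
  | succ k ih =>
    intro y hy hyE
    by_cases h1 : T1 y ∈ LinearMap.range T0
    · obtain ⟨y', hy'⟩ := h1
      refine ih y' ?_ ?_
      · intro h2
        exact hy ⟨y', h2, hy'⟩
      · intro s hs
        rw [hy']
        exact hE s hs y (hyE s hs)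
    · exact ⟨y, h1, fun s hs => hE s hs y (hyE s hs)⟩

omit [FiniteDimensional K W] in
theorem wong_ker {T0 T1 : Y →ₗ[K] W} (hmax : ∀ s : K,
    Module.finrank K (LinearMap.range (T0 + s • T1)) ≤ Module.finrank K (LinearMap.range T0))
    {y : Y} (hy : T0 y = 0) (i : ℕ) : T1 y ∈ wong T0 T1 i := by
  by_contra hcon
  obtain ⟨y', h1, h2⟩ := wong_chain T0 T1 i y hcon (fun s _ => by
    rw [hy]; exact Submodule.zero_mem _)
  obtain ⟨C, hC⟩ := Submodule.exists_isCompl (LinearMap.ker T0)
  let f : (C × K) →ₗ[K] W := (T0.comp C.subtype).coprod (LinearMap.toSpanSingleton K W (T1 y'))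
  let g : (C × K) →ₗ[K] W := (T1.comp C.subtype).coprod 0
  have hf : Function.Injective f := by
    rw [← LinearMap.ker_eq_bot, eq_bot_iff]
    rintro ⟨c, t⟩ h
    have h3 : T0 c.1 + t • T1 y' = 0 := h
    have ht : t = 0 := by
      by_contra ht
      refine h1 ⟨-t⁻¹ • c.1, ?_⟩
      rw [map_smul, eq_neg_of_add_eq_zero_left h3, neg_smul, smul_neg, neg_neg, smul_smul,
        inv_mul_cancel₀ ht, one_smul]
    rw [ht, zero_smul, add_zero] at h3
    have h4 : c.1 ∈ LinearMap.ker T0 ⊓ C := ⟨h3, c.2⟩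
    rw [hC.inf_eq_bot, Submodule.mem_bot] at h4
    rw [Submodule.mem_bot]
    exact Prod.ext (Subtype.ext h4) ht
  obtain ⟨s, hs, hinj⟩ := exists_inj_add f g hf
  have h3 : LinearMap.range (f + s • g) ≤ LinearMap.range (T0 + s • T1) := by
    rintro _ ⟨⟨c, t⟩, rfl⟩
    show (T0 c.1 + t • T1 y') + s • (T1 c.1 + 0) ∈ _
    have e : (T0 c.1 + t • T1 y') + s • (T1 c.1 + 0) = (T0 c.1 + s • T1 c.1) + t • T1 y' := by
      rw [add_zero]; abel
    rw [e]
    exact Submodule.add_mem _ ⟨c.1, rfl⟩ (Submodule.smul_mem _ _ (h2 s hs))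
  have h4 := Submodule.finrank_mono h3
  rw [LinearMap.finrank_range_of_inj hinj, Module.finrank_prod, Module.finrank_self] at h4
  have h5 := Submodule.finrank_add_eq_of_isCompl hC
  have h6 := LinearMap.finrank_range_add_finrank_ker T0
  have h7 := hmax s
  omega

theorem wong_step {T0 T1 : Y →ₗ[K] W} (hmax : ∀ s : K,
    Module.finrank K (LinearMap.range (T0 + s • T1)) ≤ Module.finrank K (LinearMap.range T0))
    {q : ℕ} (hq : Module.finrank K W ≤ q) {y : Y} (hy : T0 y ∈ wong T0 T1 q) :
    T1 y ∈ wong T0 T1 q := by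
  rw [wong_stab T0 T1 q hq] at hy
  obtain ⟨y', h1, h2⟩ := hy
  have h3 : T0 (y - y') = 0 := by rw [map_sub, h2, sub_self]
  have h4 := wong_ker hmax h3 q
  have h5 : T1 y = T1 y' + T1 (y - y') := by rw [← map_add, add_sub_cancel]
  rw [h5]
  exact Submodule.add_mem _ h1 h4

end pencil

section powers

open MvPolynomial

variable {K : Type} [Field K] [CharZero K] {m : ℕ}

/-- The powers of linear forms span the forms (characteristic zero). -/
theorem PP_le_of_pow (q : ℕ) (R : Submodule K (MvPolynomial (Fin m) K))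
    (h : ∀ c : Fin m → K, (∑ v, c v • (X v : MvPolynomial (Fin m) K)) ^ q ∈ R) :
    PP K m q ≤ R := by
  classical
  intro φ hφ
  by_contra hφR
  obtain ⟨f, hf1, hf2⟩ := Submodule.exists_le_ker_of_notMem hφR
  have hmon : ∀ k : Fin m → ℕ, k ∈ (univ : Finset (Fin m)).piAntidiag q →
      f (monomial (Finsupp.equivFunOnFinite.symm k) 1) = 0 := by
    set P : MvPolynomial (Fin m) K := ∑ k ∈ (univ : Finset (Fin m)).piAntidiag q,
      monomial (Finsupp.equivFunOnFinite.symm k) ((Nat.multinomial univ k : K) *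
        f (monomial (Finsupp.equivFunOnFinite.symm k) 1)) with hP
    have hP0 : P = 0 := by
      refine MvPolynomial.funext fun c => ?_
      rw [map_zero]
      have h1 : f ((∑ v, c v • (X v : MvPolynomial (Fin m) K)) ^ q) = 0 := hf2 (h c)
      rw [Finset.sum_pow_eq_sum_piAntidiag, map_sum] at h1
      rw [hP, map_sum, ← h1]
      refine Finset.sum_congr rfl fun k _ => ?_
      have h2 : ∏ v, (c v • (X v : MvPolynomial (Fin m) K)) ^ k v =
          (∏ v, c v ^ k v) • monomial (Finsupp.equivFunOnFinite.symm k) 1 := by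
        simp only [smul_pow]
        rw [Finset.prod_smul]
        congr 1
        rw [monomial_eq, C_1, one_mul, Finsupp.prod_fintype _ _ (fun i => pow_zero _)]
        rfl
      rw [h2, eval_monomial, Finsupp.prod_fintype _ _ (fun i => pow_zero _)]
      have h3 : ((Nat.multinomial univ k : ℕ) : MvPolynomial (Fin m) K) *
          ((∏ v, c v ^ k v) • monomial (Finsupp.equivFunOnFinite.symm k) 1) =
          ((Nat.multinomial univ k : K) * ∏ v, c v ^ k v) •
            monomial (Finsupp.equivFunOnFinite.symm k) 1 := by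
        rw [← nsmul_eq_mul, ← Nat.cast_smul_eq_nsmul K, smul_smul]
      rw [h3, map_smul, smul_eq_mul]
      have h4 : ∀ v, (Finsupp.equivFunOnFinite.symm k) v = k v := fun v => rfl
      simp only [h4]
      ring
    intro k hk
    have h1 := congrArg (coeff (Finsupp.equivFunOnFinite.symm k)) hP0
    rw [hP, coeff_sum, coeff_zero, Finset.sum_eq_single k] at h1
    · rw [coeff_monomial, if_pos rfl] at h1
      rcases mul_eq_zero.1 h1 with h2 | h2
      · exact absurd h2 (Nat.cast_ne_zero.2 (Nat.multinomial_pos _ _).ne')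
      · exact h2
    · intro k' _ hk'
      rw [coeff_monomial, if_neg]
      intro h2
      exact hk' (Finsupp.equivFunOnFinite.symm.injective h2)
    · intro h2; exact absurd hk h2
  apply hf1
  rw [φ.as_sum, map_sum]
  refine Finset.sum_eq_zero fun s hs => ?_
  have hsd : s.degree = q := by
    by_contra hcon
    exact (mem_support_iff.1 hs) ((show φ.IsHomogeneous q from hφ).coeff_eq_zero hcon)
  have h1 : (monomial s (coeff s φ) : MvPolynomial (Fin m) K) =
      coeff s φ • monomial (Finsupp.equivFunOnFinite.symm (s : Fin m → ℕ)) 1 := by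
    rw [smul_monomial, smul_eq_mul, mul_one, Finsupp.equivFunOnFinite_symm_coe]
  rw [h1, map_smul, hmon, smul_zero]
  rw [mem_piAntidiag]
  refine ⟨?_, fun i _ => Finset.mem_univ i⟩
  rw [← hsd, Finsupp.degree_eq_sum]

end powers

end Pool.Agent.Perazzo
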