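import Pool.Agent.Lib.MP_44b5f4_ag.Split
import Pool.Agent.Lib.MP_44b5f4_ag.Pencil

/-!
# A general linear form acts surjectively on small graded pieces
-/

set_option autoImplicit false

namespace Pool.Agent.Perazzo

open Finset

namespace GA

variable {K A : Type} [Field K] [CommRing A] [Algebra K A] {m N d : ℕ} (G : GA K A m N d)

/-- The operator of the linear form with the coefficients `c`. -/
def L (c : Fin m → K) : Module.End K (A ⧸ G.Z) := ∑ v, c v • G.UQ v

theorem L_apply (c : Fin m → K) (a : A ⧸ G.Z) : G.L c a = ∑ v, c v • G.UQ v a := by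
  unfold L
  rw [LinearMap.sum_apply]
  rfl

theorem L_mem (c : Fin m → K) {q : ℕ} {a : A ⧸ G.Z} (ha : a ∈ G.𝒬 q) : G.L c a ∈ G.𝒬 (q + 1) := by
  rw [L_apply]
  exact Submodule.sum_mem _ fun v _ => Submodule.smul_mem _ _ (G.𝒬_mul ha v)

theorem L_UQ (c : Fin m → K) (v : Fin m) (a : A ⧸ G.Z) : G.L c (G.UQ v a) = G.UQ v (G.L c a) := by
  rw [L_apply, L_apply, map_sum]
  refine Finset.sum_congr rfl fun w _ => ?_
  rw [map_smul]
  congr 1
  exact LinearMap.congr_fun (G.UQ_comm w v) a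

theorem L_comm (c c' : Fin m → K) : Commute (G.L c) (G.L c') := by
  refine LinearMap.ext fun a => ?_
  show G.L c (G.L c' a) = G.L c' (G.L c a)
  rw [G.L_apply c' a, G.L_apply c' (G.L c a), map_sum]
  refine Finset.sum_congr rfl fun w _ => ?_
  rw [map_smul, G.L_UQ]

theorem L_pow_mem (c : Fin m → K) (i : ℕ) {q : ℕ} {a : A ⧸ G.Z} (ha : a ∈ G.𝒬 q) :
    (G.L c ^ i) a ∈ G.𝒬 (i + q) := by
  induction i with
  | zero => rw [zero_add]; exact ha
  | succ i ih =>
    rw [pow_succ', Module.End.mul_apply]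
    have e : i + 1 + q = i + q + 1 := by omega
    rw [e]
    exact G.L_mem c ih

/-- The multiplication by a linear form between two graded pieces. -/
def TL (q : ℕ) (c : Fin m → K) : G.𝒬 q →ₗ[K] G.𝒬 (q + 1) :=
  (G.L c).restrict fun _ ha => G.L_mem c ha

theorem TL_val (q : ℕ) (c : Fin m → K) (a : G.𝒬 q) : (G.TL q c a).1 = G.L c a.1 := rfl

theorem TL_add (q : ℕ) (c c' : Fin m → K) (s : K) : G.TL q c + s • G.TL q c' =
    G.TL q (fun v => c v + s * c' v) := by
  refine LinearMap.ext fun a => Subtype.ext ?_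
  show G.L c a.1 + s • G.L c' a.1 = G.L _ a.1
  rw [L_apply, L_apply, L_apply, Finset.smul_sum, ← Finset.sum_add_distrib]
  refine Finset.sum_congr rfl fun v _ => ?_
  rw [add_smul, mul_smul]

theorem π_pow (c : Fin m → K) (q : ℕ) :
    G.Z.mkQ (G.θ ((∑ v, c v • (MvPolynomial.X v : MvPolynomial (Fin m) K)) ^ q)) =
      (G.L c ^ q) (G.Z.mkQ 1) := by
  induction q with
  | zero => rw [pow_zero, pow_zero, map_one]; rfl
  | succ q ih =>
    rw [pow_succ', pow_succ', Module.End.mul_apply, ← ih, map_mul, L_apply, map_sum,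
      Finset.sum_mul, map_sum]
    refine Finset.sum_congr rfl fun v _ => ?_
    rw [map_smul, θ_X, smul_mul_assoc, map_smul]
    rfl

variable [FiniteDimensional K A]

/-- If the graded piece of degree `q + 1` has dimension at most `q + 1`, then some linear form maps
the piece of degree `q` onto it. -/
theorem green [CharZero K] {q : ℕ} (hq : Module.finrank K (G.𝒬 (q + 1)) ≤ q + 1) :
    ∃ c : Fin m → K, G.𝒬 (q + 1) ≤ (G.𝒬 q).map (G.L c) := by
  -- a linear form of maximal rank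
  obtain ⟨c0, hc0⟩ : ∃ c0 : Fin m → K, ∀ c, Module.finrank K (LinearMap.range (G.TL q c)) ≤
      Module.finrank K (LinearMap.range (G.TL q c0)) := by
    set S : Set ℕ := Set.range fun c : Fin m → K => Module.finrank K (LinearMap.range (G.TL q c))
    have hne : S.Nonempty := ⟨_, ⟨fun _ => 0, rfl⟩⟩
    have hbdd : BddAbove S := by
      refine ⟨Module.finrank K (G.𝒬 (q + 1)), ?_⟩
      rintro _ ⟨c, rfl⟩
      exact Submodule.finrank_le _
    obtain ⟨c0, h0⟩ := Nat.sSup_mem hne hbdd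
    refine ⟨c0, fun c => ?_⟩
    have h0' : Module.finrank K (LinearMap.range (G.TL q c0)) = sSup S := h0
    rw [h0']
    exact le_csSup hbdd ⟨c, rfl⟩
  refine ⟨c0, ?_⟩
  have key : ∀ c1 : Fin m → K, (G.L c1 ^ (q + 1)) (G.Z.mkQ 1) ∈ (G.𝒬 q).map (G.L c0) := by
    intro c1
    have hmax : ∀ s : K, Module.finrank K (LinearMap.range (G.TL q c0 + s • G.TL q c1)) ≤
        Module.finrank K (LinearMap.range (G.TL q c0)) := by
      intro s
      rw [TL_add]
      exact hc0 _
    have h1 : G.Z.mkQ 1 ∈ G.𝒬 0 := ⟨1, by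
      rw [G.zero]; exact Submodule.mem_span_singleton_self 1, rfl⟩
    -- the powers of the first form
    have hc : ∀ i, ∀ j, i + j = q + 1 → ∀ g ∈ G.𝒬 j, ∀ h : (G.L c0 ^ i) g ∈ G.𝒬 (q + 1),
        (⟨_, h⟩ : G.𝒬 (q + 1)) ∈ wong (G.TL q c0) (G.TL q c1) i := by
      intro i
      induction i with
      | zero => intro j _ g _ h; exact Submodule.mem_top
      | succ i ih =>
        intro j hij g hg h
        have hy : (G.L c0 ^ i) g ∈ G.𝒬 q := by
          have := G.L_pow_mem c0 i hg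
          have e : i + j = q := by omega
          rwa [e] at this
        refine ⟨⟨_, hy⟩, ?_, ?_⟩
        · have h2 : (G.L c0 ^ i) (G.L c1 g) ∈ G.𝒬 (q + 1) := by
            have := G.L_pow_mem c0 i (G.L_mem c1 hg)
            have e : i + (j + 1) = q + 1 := by omega
            rwa [e] at this
          have h3 := ih (j + 1) (by omega) (G.L c1 g) (G.L_mem c1 hg) h2
          have h4 : G.TL q c1 ⟨_, hy⟩ = ⟨_, h2⟩ := by
            refine Subtype.ext ?_
            show G.L c1 ((G.L c0 ^ i) g) = (G.L c0 ^ i) (G.L c1 g)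
            exact LinearMap.congr_fun ((G.L_comm c1 c0).pow_right i) g
          show G.TL q c1 ⟨_, hy⟩ ∈ wong (G.TL q c0) (G.TL q c1) i
          rw [h4]
          exact h3
        · refine Subtype.ext ?_
          show G.L c0 ((G.L c0 ^ i) g) = (G.L c0 ^ (i + 1)) g
          rw [pow_succ']
          rfl
    have hd : ∀ j, ∀ i, i + j = q + 1 →
        ∀ h : (G.L c1 ^ j) ((G.L c0 ^ i) (G.Z.mkQ 1)) ∈ G.𝒬 (q + 1),
        (⟨_, h⟩ : G.𝒬 (q + 1)) ∈ wong (G.TL q c0) (G.TL q c1) (q + 1) := by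
      intro j
      induction j with
      | zero =>
        intro i hi h
        have e : i = q + 1 := by omega
        subst e
        exact hc (q + 1) 0 (by omega) _ h1 h
      | succ j ih =>
        intro i hi h
        have hy : (G.L c1 ^ j) ((G.L c0 ^ i) (G.Z.mkQ 1)) ∈ G.𝒬 q := by
          have := G.L_pow_mem c1 j (G.L_pow_mem c0 i h1)
          have e : j + (i + 0) = q := by omega
          rwa [e] at this
        have h2 : (G.L c1 ^ j) ((G.L c0 ^ (i + 1)) (G.Z.mkQ 1)) ∈ G.𝒬 (q + 1) := by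
          have := G.L_pow_mem c1 j (G.L_pow_mem c0 (i + 1) h1)
          have e : j + (i + 1 + 0) = q + 1 := by omega
          rwa [e] at this
        have h3 := ih (i + 1) (by omega) h2
        have h4 : G.TL q c0 ⟨_, hy⟩ = ⟨_, h2⟩ := by
          refine Subtype.ext ?_
          show G.L c0 ((G.L c1 ^ j) ((G.L c0 ^ i) (G.Z.mkQ 1))) = _
          have h5 := LinearMap.congr_fun ((G.L_comm c0 c1).pow_right j)
            ((G.L c0 ^ i) (G.Z.mkQ 1))
          refine h5.trans ?_
          show (G.L c1 ^ j) (G.L c0 ((G.L c0 ^ i) (G.Z.mkQ 1))) =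
            (G.L c1 ^ j) ((G.L c0 ^ (i + 1)) (G.Z.mkQ 1))
          rw [pow_succ' (G.L c0) i]
          rfl
        rw [← h4] at h3
        have h5 := wong_step hmax hq h3
        have h6 : G.TL q c1 ⟨_, hy⟩ = ⟨_, h⟩ := by
          refine Subtype.ext ?_
          show G.L c1 ((G.L c1 ^ j) ((G.L c0 ^ i) (G.Z.mkQ 1))) =
            (G.L c1 ^ (j + 1)) ((G.L c0 ^ i) (G.Z.mkQ 1))
          rw [pow_succ']
          rfl
        rw [← h6]
        exact h5
    have h2 : (G.L c1 ^ (q + 1)) ((G.L c0 ^ 0) (G.Z.mkQ 1)) ∈ G.𝒬 (q + 1) := by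
      have := G.L_pow_mem c1 (q + 1) (G.L_pow_mem c0 0 h1)
      have e : q + 1 + (0 + 0) = q + 1 := by omega
      rwa [e] at this
    obtain ⟨y, hy⟩ := wong_le_range _ _ _ (hd (q + 1) 0 (by omega) h2)
    exact ⟨y.1, y.2, congrArg Subtype.val hy⟩
  have h1 : PP K m (q + 1) ≤ ((G.𝒬 q).map (G.L c0)).comap (G.Z.mkQ ∘ₗ G.θ.toLinearMap) := by
    refine PP_le_of_pow (q + 1) _ fun c => ?_
    rw [Submodule.mem_comap]
    show G.Z.mkQ (G.θ _) ∈ _
    rw [π_pow]
    exact key c
  unfold 𝒬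
  rw [map_mkQ]
  rintro _ ⟨φ, hφ, rfl⟩
  exact h1 hφ

end GA

end Pool.Agent.Perazzo
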