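import Pool.Agent.Lib.MP_44b5f4_ag.Poly
import Pool.Agent.Lib.MP_44b5f4_ag.Gor

/-!
# The Hilbert function of a graded Gorenstein algebra with trivial products
-/

set_option autoImplicit false

namespace Pool.Agent.Perazzo

open Finset

section LA

variable {K V W : Type} [Field K] [AddCommGroup V] [Module K V] [FiniteDimensional K V]
  [AddCommGroup W] [Module K W] [FiniteDimensional K W]

theorem finrank_range_flip (Λ : V →ₗ[K] W →ₗ[K] K) :
    Module.finrank K (LinearMap.range Λ.flip) = Module.finrank K (LinearMap.range Λ) := by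
  have h1 : ∀ {V W : Type} [AddCommGroup V] [Module K V] [FiniteDimensional K V]
      [AddCommGroup W] [Module K W] [FiniteDimensional K W] (Λ : V →ₗ[K] W →ₗ[K] K),
      Module.finrank K (LinearMap.range Λ.flip) ≤ Module.finrank K (LinearMap.range Λ) := by
    intro V W _ _ _ _ _ _ Λ
    have e : Λ.flip = (LinearMap.dualMap Λ).comp (Module.evalEquiv K W).toLinearMap := by
      ext w v
      rfl
    rw [← LinearMap.finrank_range_dualMap_eq_finrank_range Λ, e]
    exact Submodule.finrank_mono (LinearMap.range_comp_le_range _ _)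
  exact le_antisymm (h1 Λ) (h1 Λ.flip)

theorem finrank_of_perfect (Λ : V →ₗ[K] W →ₗ[K] K) (hw : ∀ w, (∀ v, Λ v w = 0) → w = 0) :
    Module.finrank K (LinearMap.ker Λ) + Module.finrank K W = Module.finrank K V := by
  have h1 := LinearMap.finrank_range_add_finrank_ker Λ
  have h2 : LinearMap.ker Λ.flip = ⊥ := by
    rw [eq_bot_iff]
    intro w hw'
    exact hw w fun v => LinearMap.congr_fun hw' v
  have h3 := LinearMap.finrank_range_add_finrank_ker Λ.flip
  rw [h2, finrank_bot, add_zero, finrank_range_flip] at h3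
  omega

end LA

namespace GA

variable {K A : Type} [Field K] [CommRing A] [Algebra K A] {m N d : ℕ} (G : GA K A m N d)

/-- The map from polynomials in the variables `u`. -/
noncomputable def θ : MvPolynomial (Fin m) K →ₐ[K] A :=
  MvPolynomial.aeval fun v => G.y (Fin.castAdd N v)

theorem θ_X (v : Fin m) : G.θ (MvPolynomial.X v) = G.y (Fin.castAdd N v) := by
  unfold θ
  rw [MvPolynomial.aeval_X]

theorem θ_mem {q : ℕ} : ∀ {φ : MvPolynomial (Fin m) K}, φ ∈ PP K m q → G.θ φ ∈ G.𝒜 q := by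
  induction q with
  | zero =>
    intro φ hφ
    have h1 : PP K m 0 = 1 := MvPolynomial.homogeneousSubmodule_zero _
    rw [h1, Submodule.mem_one] at hφ
    obtain ⟨c, rfl⟩ := hφ
    rw [AlgHom.commutes, G.zero, Submodule.mem_span_singleton]
    exact ⟨c, (Algebra.algebraMap_eq_smul_one c).symm⟩
  | succ q ih =>
    intro φ hφ
    have h1 : PP K m (q + 1) ≤ (G.𝒜 (q + 1)).comap G.θ.toLinearMap := by
      refine PP_gen_le K fun v a ha => ?_
      rw [Submodule.mem_comap]
      show G.θ (MvPolynomial.X v * a) ∈ _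
      rw [map_mul, θ_X]
      exact G.mul_mem (ih ha) _
    exact h1 hφ

theorem 𝒜_zero_le : G.𝒜 0 ≤ (PP K m 0).map G.θ.toLinearMap := by
  rw [G.zero, Submodule.span_singleton_le_iff_mem]
  exact ⟨1, MvPolynomial.isHomogeneous_one _ _, map_one G.θ⟩

theorem 𝒜_succ_le (q : ℕ) : G.𝒜 (q + 1) ≤ (PP K m (q + 1)).map G.θ.toLinearMap ⊔ G.E q := by
  induction q with
  | zero =>
    refine G.gen_le fun v a ha => ?_
    obtain ⟨φ, hφ, rfl⟩ := G.𝒜_zero_le ha
    induction v using Fin.addCases with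
    | left v =>
      refine Submodule.mem_sup_left ⟨MvPolynomial.X v * φ, X_mul_mem_PP K v hφ, ?_⟩
      show G.θ (MvPolynomial.X v * φ) = G.y (Fin.castAdd N v) * G.θ φ
      rw [map_mul, θ_X]
    | right j => exact Submodule.mem_sup_right (Submodule.mem_iSup_of_mem j ⟨_, ha, rfl⟩)
  | succ q ih =>
    refine G.gen_le fun v a ha => ?_
    induction v using Fin.addCases with
    | left v =>
      obtain ⟨_, ⟨φ, hφ, rfl⟩, e, he, rfl⟩ := Submodule.mem_sup.1 (ih ha)
      rw [mul_add]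
      refine Submodule.add_mem _ ?_ ?_
      · refine Submodule.mem_sup_left ⟨MvPolynomial.X v * φ, X_mul_mem_PP K v hφ, ?_⟩
        show G.θ (MvPolynomial.X v * φ) = G.y (Fin.castAdd N v) * G.θ φ
        rw [map_mul, θ_X]
      · refine Submodule.mem_sup_right ?_
        have h1 : G.E q ≤ (G.E (q + 1)).comap (LinearMap.mulLeft K (G.y (Fin.castAdd N v))) := by
          unfold E
          refine iSup_le fun i => ?_
          rintro _ ⟨b, hb, rfl⟩
          rw [Submodule.mem_comap]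
          refine Submodule.mem_iSup_of_mem i ⟨G.y (Fin.castAdd N v) * b, G.mul_mem hb _, ?_⟩
          show G.y (Fin.natAdd m i) * (G.y (Fin.castAdd N v) * b) =
            G.y (Fin.castAdd N v) * (G.y (Fin.natAdd m i) * b)
          ring
        exact h1 he
    | right j => exact Submodule.mem_sup_right (Submodule.mem_iSup_of_mem j ⟨_, ha, rfl⟩)

theorem lift (q : ℕ) {a : A} (ha : a ∈ G.𝒜 q) : ∃ φ ∈ PP K m q, a - G.θ φ ∈ G.Z := by
  cases q with
  | zero =>
    obtain ⟨φ, hφ, rfl⟩ := G.𝒜_zero_le ha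
    exact ⟨φ, hφ, by
      show G.θ φ - G.θ φ ∈ _
      rw [sub_self]; exact Submodule.zero_mem _⟩
  | succ q =>
    obtain ⟨_, ⟨φ, hφ, rfl⟩, e, he, rfl⟩ := Submodule.mem_sup.1 (G.𝒜_succ_le q ha)
    refine ⟨φ, hφ, ?_⟩
    show G.θ φ + e - G.θ φ ∈ _
    rw [add_sub_cancel_left]
    exact G.E_le_Z q he

/-- The polynomials of degree `q` annihilated by all variables `x`. -/
noncomputable def I (q : ℕ) : Submodule K (MvPolynomial (Fin m) K) :=
  PP K m q ⊓ G.Z.comap G.θ.toLinearMap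

theorem mem_I {q : ℕ} {φ : MvPolynomial (Fin m) K} :
    φ ∈ G.I q ↔ φ ∈ PP K m q ∧ G.θ φ ∈ G.Z := Iff.rfl

instance I_fin (q : ℕ) : FiniteDimensional K (G.I q) :=
  Submodule.finiteDimensional_of_le (inf_le_left : G.I q ≤ PP K m q)

theorem X_mul_mem_I {q : ℕ} (v : Fin m) {a : MvPolynomial (Fin m) K} (ha : a ∈ G.I q) :
    MvPolynomial.X v * a ∈ G.I (q + 1) := by
  rw [mem_I] at ha ⊢
  refine ⟨X_mul_mem_PP K v ha.1, ?_⟩
  rw [map_mul]
  exact G.mul_mem_Z ha.2 _

theorem map_mkQ (q : ℕ) : (G.𝒜 q).map G.Z.mkQ = (PP K m q).map (G.Z.mkQ ∘ₗ G.θ.toLinearMap) := by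
  apply le_antisymm
  · rintro _ ⟨a, ha, rfl⟩
    obtain ⟨φ, hφ, h⟩ := G.lift q ha
    refine ⟨φ, hφ, ?_⟩
    have h2 : G.Z.mkQ (a - G.θ φ) = 0 := (Submodule.Quotient.mk_eq_zero G.Z).2 h
    rw [map_sub, sub_eq_zero] at h2
    exact h2.symm
  · rintro _ ⟨φ, hφ, rfl⟩
    exact ⟨_, G.θ_mem hφ, rfl⟩

variable [FiniteDimensional K A]

theorem F1 (q : ℕ) : Module.finrank K (G.Z ⊓ G.𝒜 q : Submodule K A) + m.multichoose q =
    Module.finrank K (G.𝒜 q) + Module.finrank K (G.I q) := by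
  have h1 := LinearMap.finrank_range_add_finrank_ker (G.Z.mkQ.domRestrict (G.𝒜 q))
  rw [LinearMap.range_domRestrict, map_mkQ] at h1
  have h2 := LinearMap.finrank_range_add_finrank_ker
    ((G.Z.mkQ ∘ₗ G.θ.toLinearMap).domRestrict (PP K m q))
  rw [LinearMap.range_domRestrict, finrank_PP] at h2
  have h3 : Module.finrank K (LinearMap.ker (G.Z.mkQ.domRestrict (G.𝒜 q))) =
      Module.finrank K (G.Z ⊓ G.𝒜 q : Submodule K A) := by
    rw [← Submodule.finrank_map_subtype_eq]
    refine finrank_eq_of_eq ?_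
    ext a
    constructor
    · rintro ⟨⟨a, ha⟩, h, rfl⟩
      exact ⟨(Submodule.Quotient.mk_eq_zero G.Z).1 h, ha⟩
    · rintro ⟨h1, h2⟩
      exact ⟨⟨a, h2⟩, (Submodule.Quotient.mk_eq_zero G.Z).2 h1, rfl⟩
  have h4 : Module.finrank K (LinearMap.ker
      ((G.Z.mkQ ∘ₗ G.θ.toLinearMap).domRestrict (PP K m q))) = Module.finrank K (G.I q) := by
    rw [← Submodule.finrank_map_subtype_eq]
    refine finrank_eq_of_eq ?_
    ext a
    constructor
    · rintro ⟨⟨a, ha⟩, h, rfl⟩
      exact ⟨ha, (Submodule.Quotient.mk_eq_zero G.Z).1 h⟩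
    · rintro ⟨h1, h2⟩
      exact ⟨⟨a, h1⟩, (Submodule.Quotient.mk_eq_zero G.Z).2 h2, rfl⟩
  omega

/-- The pairing restricted to two graded pieces. -/
def prp (V W : Submodule K A) : V →ₗ[K] W →ₗ[K] K :=
  LinearMap.mk₂ K (fun a b => G.ω (a.1 * b.1))
    (fun a a' b => by simp [add_mul])
    (fun c a b => by simp)
    (fun a b b' => by simp [mul_add])
    (fun c a b => by simp)

omit [FiniteDimensional K A] in
theorem prp_apply (V W : Submodule K A) (a : V) (b : W) : G.prp V W a b = G.ω (a.1 * b.1) := rfl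

theorem F2 {q : ℕ} (hq : q + 1 ≤ d) : Module.finrank K (G.Z ⊓ G.𝒜 q : Submodule K A) +
    Module.finrank K (G.E (d - q - 1)) = Module.finrank K (G.𝒜 q) := by
  have h1 := finrank_of_perfect (G.prp (G.𝒜 q) (G.E (d - q - 1))) (by
    rintro ⟨e, he⟩ h
    refine Subtype.ext ?_
    refine G.perf (d - q) q (by omega) e ?_ fun b hb => ?_
    · have := G.E_le_𝒜 _ he
      have e2 : d - q - 1 + 1 = d - q := by omega
      rwa [e2] at this
    · have := h ⟨b, hb⟩
      rw [prp_apply] at this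
      rw [mul_comm]
      exact this)
  rw [← h1]
  congr 1
  rw [← Submodule.finrank_map_subtype_eq]
  refine finrank_eq_of_eq ?_
  ext a
  constructor
  · rintro ⟨hz, ha⟩
    refine ⟨⟨a, ha⟩, ?_, rfl⟩
    show G.prp (G.𝒜 q) (G.E (d - q - 1)) ⟨a, ha⟩ = 0
    ext ⟨e, he⟩
    rw [prp_apply]
    have h2 : G.E (d - q - 1) ≤ LinearMap.ker (G.ω ∘ₗ LinearMap.mulLeft K a) := by
      unfold E
      refine iSup_le fun i => ?_
      rintro _ ⟨b, _, rfl⟩
      rw [LinearMap.mem_ker]
      show G.ω (a * (G.y (Fin.natAdd m i) * b)) = 0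
      rw [← mul_assoc, mul_comm a, G.x_mul_Z i hz, zero_mul, map_zero]
    exact h2 he
  · rintro ⟨⟨a, ha⟩, h, rfl⟩
    refine ⟨G.mem_Z.2 ?_, ha⟩
    intro i
    refine G.perf (q + 1) (d - q - 1) (by omega) _ (G.mul_mem ha _) fun b hb => ?_
    have h3 : G.y (Fin.natAdd m i) * b ∈ G.E (d - q - 1) :=
      Submodule.mem_iSup_of_mem i ⟨b, hb, rfl⟩
    have h4 := LinearMap.congr_fun h ⟨_, h3⟩
    rw [prp_apply] at h4
    refine Eq.trans ?_ h4
    congr 1
    show G.y (Fin.natAdd m i) * a * b = a * (G.y (Fin.natAdd m i) * b)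
    ring

theorem F4 {p q : ℕ} (hpq : p + q = d) :
    Module.finrank K (G.𝒜 p) = Module.finrank K (G.𝒜 q) := by
  have h1 := finrank_of_perfect (G.prp (G.𝒜 p) (G.𝒜 q)) (by
    rintro ⟨b, hb⟩ h
    refine Subtype.ext ?_
    refine G.perf q p (by omega) b hb fun a ha => ?_
    have := h ⟨a, ha⟩
    rw [prp_apply] at this
    rw [mul_comm]
    exact this)
  have h2 : LinearMap.ker (G.prp (G.𝒜 p) (G.𝒜 q)) = ⊥ := by
    rw [eq_bot_iff]
    rintro ⟨a, ha⟩ h
    refine Subtype.ext ?_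
    exact G.perf p q hpq a ha fun b hb => LinearMap.congr_fun h ⟨b, hb⟩
  rw [h2, finrank_bot, zero_add] at h1
  exact h1.symm

theorem F3 (q : ℕ) : Module.finrank K (G.E q) ≤
    Module.finrank K (G.Z ⊓ G.𝒜 (q + 1) : Submodule K A) :=
  Submodule.finrank_mono (le_inf (G.E_le_Z q) (G.E_le_𝒜 q))

theorem E_eq {q : ℕ} (h : Module.finrank K (G.Z ⊓ G.𝒜 (q + 1) : Submodule K A) ≤
    Module.finrank K (G.E q)) : G.Z ⊓ G.𝒜 (q + 1) ≤ G.E q :=
  (Submodule.eq_of_le_of_finrank_le (le_inf (G.E_le_Z q) (G.E_le_𝒜 q)) h).ge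

omit [FiniteDimensional K A] in
theorem F5 : Module.finrank K (G.E 0) = N := by
  have h1 : G.E 0 = Submodule.span K (Set.range fun i : Fin N => G.y (Fin.natAdd m i)) := by
    apply le_antisymm
    · unfold E
      refine iSup_le fun i => ?_
      rintro _ ⟨a, ha, rfl⟩
      rw [G.zero] at ha
      obtain ⟨c, rfl⟩ := Submodule.mem_span_singleton.1 ha
      show G.y (Fin.natAdd m i) * (c • 1) ∈ _
      rw [mul_smul_comm, mul_one]
      exact Submodule.smul_mem _ _ (Submodule.subset_span ⟨i, rfl⟩)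
    · rw [Submodule.span_le]
      rintro _ ⟨i, rfl⟩
      refine Submodule.mem_iSup_of_mem i ⟨1, ?_, ?_⟩
      · rw [G.zero]; exact Submodule.mem_span_singleton_self 1
      · exact mul_one _
  rw [h1, finrank_span_eq_card, Fintype.card_fin]
  rw [Fintype.linearIndependent_iff]
  intro g hg i
  have h2 := G.lin (Fin.append (fun _ => 0) g) (by
    rw [Fin.sum_univ_add]
    simp only [Fin.append_left, Fin.append_right, zero_smul, Finset.sum_const_zero, zero_add]
    exact hg) (Fin.natAdd m i)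
  rwa [Fin.append_right] at h2

theorem F7 (q : ℕ) : Module.finrank K (G.𝒜 (q + 1)) ≤
    m.multichoose (q + 1) + Module.finrank K (G.E q) := by
  refine (Submodule.finrank_mono (G.𝒜_succ_le q)).trans ?_
  refine (Submodule.finrank_add_le_finrank_add_finrank _ _).trans ?_
  refine Nat.add_le_add_right ?_ _
  refine (Submodule.finrank_map_le _ _).trans ?_
  rw [finrank_PP]

omit [FiniteDimensional K A] in
theorem F8 (q : ℕ) : Module.finrank K (G.E q) ≤ N * m.multichoose q := by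
  let f : (Fin N → PP K m q) →ₗ[K] A :=
    ∑ i : Fin N, (LinearMap.mulLeft K (G.y (Fin.natAdd m i))) ∘ₗ G.θ.toLinearMap ∘ₗ
      (PP K m q).subtype ∘ₗ LinearMap.proj i
  have h1 : G.E q ≤ LinearMap.range f := by
    unfold E
    refine iSup_le fun i => ?_
    rintro _ ⟨a, ha, rfl⟩
    obtain ⟨φ, hφ, h⟩ := G.lift q ha
    refine ⟨Pi.single i ⟨φ, hφ⟩, ?_⟩
    have h2 := G.x_mul_Z i h
    rw [mul_sub, sub_eq_zero] at h2
    show f (Pi.single i ⟨φ, hφ⟩) = G.y (Fin.natAdd m i) * a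
    rw [h2]
    simp only [f, LinearMap.sum_apply, LinearMap.comp_apply, LinearMap.proj_apply]
    rw [Finset.sum_eq_single i]
    · rw [Pi.single_eq_same]
      rfl
    · intro j _ hj
      rw [Pi.single_eq_of_ne hj, map_zero, map_zero, map_zero]
    · intro h; exact absurd (Finset.mem_univ i) h
  refine (Submodule.finrank_mono h1).trans ?_
  refine (LinearMap.finrank_range_le f).trans ?_
  rw [Module.finrank_pi_fintype]
  simp [finrank_PP]

end GA

end Pool.Agent.Perazzo
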