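import Pool.Agent.Lib.MP_44b5f4_ag.Betti

/-!
# Transport of ranks
-/

set_option autoImplicit false

namespace Pool.Agent.Perazzo

open Finset

variable {K A A' : Type} [Field K] [AddCommGroup A] [Module K A] [AddCommGroup A'] [Module K A']

theorem rk_inj {r : ℕ} (ι : A' →ₗ[K] A) (hι : Function.Injective ι)
    (X' : Fin r → Module.End K A') (X : Fin r → Module.End K A)
    (hX : ∀ v a, ι (X' v a) = X v (ι a)) {𝒜' : ℕ → Submodule K A'} {𝒜 : ℕ → Submodule K A}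
    (h : ∀ q, (𝒜' q).map ι = 𝒜 q) (k q : ℕ) : rk X' 𝒜' k q = rk X 𝒜 k q := by
  let I : ((Fin r → Bool) → A') →ₗ[K] ((Fin r → Bool) → A) :=
    { toFun := fun g t => ι (g t)
      map_add' := fun _ _ => by funext t; simp
      map_smul' := fun _ _ => by funext t; simp }
  have hI : Function.Injective I := by
    intro a b hab
    funext t
    exact hι (congrFun hab t)
  have hk : ∀ g, I (kos X' g) = kos X (I g) := by
    intro g
    funext t
    show ι (kos X' g t) = _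
    rw [kos_apply, kos_apply, map_sum]
    refine Finset.sum_congr rfl fun v _ => ?_
    split_ifs
    · rw [map_zero]
    · rw [map_smul, hX]
      rfl
  unfold rk
  rw [(Submodule.equivMapOfInjective I hI ((KK 𝒜' k q).map (kos X'))).finrank_eq]
  refine finrank_eq_of_eq ?_
  ext y
  constructor
  · rintro ⟨_, ⟨g, hg, rfl⟩, rfl⟩
    refine ⟨I g, ?_, (hk g).symm⟩
    have hg' : g ∈ KK 𝒜' k q := hg
    show I g ∈ KK 𝒜 k q
    rw [mem_KK] at hg' ⊢
    intro t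
    refine ⟨fun ht => ?_, fun ht => ?_⟩
    · rw [← h q]
      exact ⟨_, (hg' t).1 ht, rfl⟩
    · show ι (g t) = 0
      rw [(hg' t).2 ht, map_zero]
  · rintro ⟨g, hg, rfl⟩
    have hg' : g ∈ KK 𝒜 k q := hg
    rw [mem_KK] at hg'
    have h1 : ∀ t, ∃ a, ((bc t = k → a ∈ 𝒜' q) ∧ (bc t ≠ k → a = 0)) ∧ ι a = g t := by
      intro t
      by_cases ht : bc t = k
      · have h2 := (hg' t).1 ht
        rw [← h q] at h2
        obtain ⟨a, ha, haa⟩ := h2
        exact ⟨a, ⟨fun _ => ha, fun hh => absurd ht hh⟩, haa⟩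
      · exact ⟨0, ⟨fun hh => absurd hh ht, fun _ => rfl⟩, by rw [map_zero, (hg' t).2 ht]⟩
    choose f hf1 hf2 using h1
    have hf : f ∈ KK 𝒜' k q := mem_KK.2 hf1
    have hIf : I f = g := funext hf2
    exact ⟨kos X' f, ⟨f, hf, rfl⟩, by rw [hk, hIf]⟩

theorem finrank_inj (ι : A' →ₗ[K] A) (hι : Function.Injective ι)
    {𝒜' : ℕ → Submodule K A'} {𝒜 : ℕ → Submodule K A}
    (h : ∀ q, (𝒜' q).map ι = 𝒜 q) (q : ℕ) :
    Module.finrank K (𝒜' q) = Module.finrank K (𝒜 q) := by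
  rw [(Submodule.equivMapOfInjective ι hι (𝒜' q)).finrank_eq, h]

/-- Vanishing homology gives exactness. -/
theorem exact_of_betti [FiniteDimensional K A] {r : ℕ} (X : Fin r → Module.End K A)
    {𝒜 : ℕ → Submodule K A} {k q : ℕ} (h : betti X 𝒜 k (k + (q + 1)) = 0)
    {c : (Fin r → Bool) → A} (hc : c ∈ KK 𝒜 k (q + 1)) (h0 : kos X c = 0) :
    ∃ c' ∈ KK 𝒜 (k + 1) q, kos X c' = c := by
  unfold betti at h
  have h1 : c ∈ cyc X 𝒜 k (k + (q + 1)) := ⟨h0, by rw [KJ_eq]; exact hc⟩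
  have h2 : Subsingleton (↥(cyc X 𝒜 k (k + (q + 1))) ⧸
      (bdr X 𝒜 k (k + (q + 1))).submoduleOf (cyc X 𝒜 k (k + (q + 1)))) :=
    Module.finrank_zero_iff.1 h
  rw [Submodule.Quotient.subsingleton_iff] at h2
  have h3 : (⟨c, h1⟩ : cyc X 𝒜 k (k + (q + 1))) ∈
      (bdr X 𝒜 k (k + (q + 1))).submoduleOf (cyc X 𝒜 k (k + (q + 1))) := by
    rw [h2]; exact Submodule.mem_top
  have h4 : c ∈ bdr X 𝒜 k (k + (q + 1)) := h3
  unfold bdr at h4
  have e : k + (q + 1) = k + 1 + q := by omega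
  rw [e, KJ_eq] at h4
  obtain ⟨c', hc', hcc⟩ := h4
  exact ⟨c', hc', hcc⟩

theorem betti_eq_zero_of_exact [FiniteDimensional K A] {r : ℕ} (X : Fin r → Module.End K A)
    {𝒜 : ℕ → Submodule K A} {k q : ℕ}
    (h : ∀ c ∈ KK 𝒜 k (q + 1), kos X c = 0 → ∃ c' ∈ KK 𝒜 (k + 1) q, kos X c' = c) :
    betti X 𝒜 k (k + (q + 1)) = 0 := by
  unfold betti
  rw [Module.finrank_zero_iff, Submodule.Quotient.subsingleton_iff, eq_top_iff]
  rintro ⟨c, h0, hc⟩ _
  rw [KJ_eq] at hc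
  obtain ⟨c', hc', hcc⟩ := h c hc h0
  show c ∈ bdr X 𝒜 k (k + (q + 1))
  unfold bdr
  have e : k + (q + 1) = k + 1 + q := by omega
  rw [e, KJ_eq]
  exact ⟨c', hc', hcc⟩

end Pool.Agent.Perazzo
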