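import Pool.Agent.Lib.MP_44b5f4_ag.Weyl
import Pool.Agent.Lib.MP_44b5f4_ag.RkMap

/-!
# Linear forms act as zero on the Koszul homology
-/

set_option autoImplicit false

namespace Pool.Agent.Perazzo

open Finset

variable {K A : Type} [Field K] [AddCommGroup A] [Module K A]

/-- The homotopy formula for commuting operators. -/
theorem homotopy0 {r : ℕ} (X Y : Fin r → Module.End K A)
    (hXY : ∀ v w, Y v * X w = X w * Y v)
    (g : (Fin r → Bool) → A) (t : Fin r → Bool) :
    kos X (low Y g) t + low Y (kos X g) t = ∑ v, X v (Y v (g t)) := by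
  induction r with
  | zero =>
    rw [kos_apply, low_apply]
    simp
  | succ r ih =>
    have ih' := ih (fun v => X v.castSucc) (fun v => Y v.castSucc) (fun v w => hXY _ _)
    have hk := dbl_kos X (low Y g)
    have hl := dbl_low Y (kos X g)
    rw [dbl_low] at hk
    rw [dbl_kos] at hl
    have hYX : ∀ v : Fin r, Y v.castSucc * X (Fin.last r) = X (Fin.last r) * Y v.castSucc :=
      fun v => hXY _ _
    have hXY' : ∀ v : Fin r, X v.castSucc * Y (Fin.last r) = Y (Fin.last r) * X v.castSucc :=
      fun v => (hXY _ _).symm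
    have hYX2 := hXY (Fin.last r) (Fin.last r)
    obtain ⟨s, b, rfl⟩ : ∃ (s : Fin r → Bool) (b : Bool), t = Fin.snoc s b :=
      ⟨Fin.init t, t (Fin.last r), (Fin.snoc_init_self (α := fun _ => Bool) t).symm⟩
    rw [Fin.sum_univ_castSucc]
    cases b with
    | false =>
      have h1 : kos X (low Y g) (Fin.snoc s false) = _ := congrFun (congrArg Prod.fst hk) s
      have h2 : low Y (kos X g) (Fin.snoc s false) = _ := congrFun (congrArg Prod.fst hl) s
      rw [h1, h2]
      simp only [Pi.add_apply, Pi.neg_apply, map_add, map_neg]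
      have h3 := congrFun (low_comm (fun v => Y v.castSucc) (X (Fin.last r)) hYX (dbl K A r g).2) s
      rw [h3]
      have h4 := ih' (dbl K A r g).1 s
      have h5 : (dbl K A r g).1 s = g (Fin.snoc s false) := rfl
      rw [h5] at h4 ⊢
      generalize ∑ v, X (Fin.castSucc v) (Y (Fin.castSucc v) (g (Fin.snoc s false))) = S at h4 ⊢
      generalize kos (fun v => X (Fin.castSucc v)) (low (fun v => Y (Fin.castSucc v))
        (dbl K A r g).1) s = a1 at h4 ⊢
      generalize low (fun v => Y (Fin.castSucc v)) (kos (fun v => X (Fin.castSucc v))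
        (dbl K A r g).1) s = a2 at h4 ⊢
      rw [← h4]
      abel
    | true =>
      have h1 : kos X (low Y g) (Fin.snoc s true) = _ := congrFun (congrArg Prod.snd hk) s
      have h2 : low Y (kos X g) (Fin.snoc s true) = _ := congrFun (congrArg Prod.snd hl) s
      rw [h1, h2]
      simp only [Pi.add_apply, Pi.neg_apply, map_add, map_neg]
      have h3 := congrFun (kos_comm (fun v => X v.castSucc) (Y (Fin.last r)) hXY' (dbl K A r g).1) s
      rw [h3]
      have h4 := ih' (dbl K A r g).2 s
      have h5 : (dbl K A r g).2 s = g (Fin.snoc s true) := rfl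
      have h6 : Y (Fin.last r) (X (Fin.last r) (g (Fin.snoc s true))) =
          X (Fin.last r) (Y (Fin.last r) (g (Fin.snoc s true))) :=
        LinearMap.congr_fun hYX2 _
      rw [h5] at h4 ⊢
      rw [h6]
      generalize ∑ v, X (Fin.castSucc v) (Y (Fin.castSucc v) (g (Fin.snoc s true))) = S at h4 ⊢
      generalize kos (fun v => X (Fin.castSucc v)) (low (fun v => Y (Fin.castSucc v))
        (dbl K A r g).2) s = a1 at h4 ⊢
      generalize low (fun v => Y (Fin.castSucc v)) (kos (fun v => X (Fin.castSucc v))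
        (dbl K A r g).2) s = a2 at h4 ⊢
      rw [← h4]
      abel

theorem low_mem0 {r : ℕ} (Y : Fin r → Module.End K A) {𝒜 : ℕ → Submodule K A} {k q : ℕ}
    (hY : ∀ v, ∀ a ∈ 𝒜 q, Y v a ∈ 𝒜 q)
    {g : (Fin r → Bool) → A} (hg : g ∈ KK 𝒜 k q) : low Y g ∈ KK 𝒜 (k + 1) q := by
  rw [mem_KK] at hg ⊢
  intro t
  rw [low_apply]
  have hb : ∀ v, t v = true → bc (Function.update t v false) + 1 = bc t := by
    intro v hv
    have h1 : ¬ (Function.update t v false) v = true := by simp
    have h2 := bc_update h1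
    rw [Function.update_idem, ← hv, Function.update_eq_self] at h2
    exact h2.symm
  constructor
  · intro ht
    refine Submodule.sum_mem _ fun v _ => ?_
    split_ifs with h
    · exact Submodule.smul_mem _ _ (hY v _ ((hg _).1 (by have := hb v h; omega)))
    · exact Submodule.zero_mem _
  · intro ht
    refine Finset.sum_eq_zero fun v _ => ?_
    split_ifs with h
    · rw [(hg _).2 (by have := hb v h; omega), map_zero, smul_zero]
    · rfl

/-- If a linear form is surjective onto degree `q + 1` and injective on degree `q + 1`, then the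
row `q + 1` of the Betti table is zero. -/
theorem row_of_form [FiniteDimensional K A] {r : ℕ} (X : Fin r → Module.End K A)
    (hX : ∀ v w, X v * X w = X w * X v) {𝒜 : ℕ → Submodule K A}
    (hm : ∀ q, ∀ v, ∀ a ∈ 𝒜 q, X v a ∈ 𝒜 (q + 1)) (c : Fin r → K) {q : ℕ}
    (hs : ∀ a ∈ 𝒜 (q + 1), ∃ b ∈ 𝒜 q, ∑ v, c v • X v b = a)
    (hi : ∀ a ∈ 𝒜 (q + 1), ∑ v, c v • X v a = 0 → a = 0) (k : ℕ) :
    betti X 𝒜 k (k + (q + 1)) = 0 := by
  refine betti_eq_zero_of_exact X fun g hg h0 => ?_
  set L : Module.End K A := ∑ v, c v • X v with hL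
  have hLa : ∀ a, L a = ∑ v, c v • X v a := by
    intro a
    rw [hL, LinearMap.sum_apply]
    rfl
  have hLX : ∀ v, X v * L = L * X v := by
    intro v
    refine LinearMap.ext fun a => ?_
    show X v (L a) = L (X v a)
    rw [hLa, hLa, map_sum]
    refine Finset.sum_congr rfl fun w _ => ?_
    rw [map_smul]
    congr 1
    exact LinearMap.congr_fun (hX v w) a
  have hg' := mem_KK.1 hg
  have hb : ∀ t, ∃ b, (bc t = k → b ∈ 𝒜 q) ∧ (bc t ≠ k → b = 0) ∧ L b = g t := by
    intro t
    by_cases ht : bc t = k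
    · obtain ⟨b, hb, hbb⟩ := hs _ ((hg' t).1 ht)
      exact ⟨b, fun _ => hb, fun h => absurd ht h, by rw [hLa, hbb]⟩
    · exact ⟨0, fun h => absurd h ht, fun _ => rfl, by rw [map_zero, (hg' t).2 ht]⟩
  choose b hb1 hb2 hb3 using hb
  have hbK : b ∈ KK 𝒜 k q := mem_KK.2 fun t => ⟨hb1 t, hb2 t⟩
  have h1 : (fun t => L (b t)) = g := funext hb3
  have h2 := kos_comm X L hLX b
  rw [h1, h0] at h2
  have h3 : kos X b = 0 := by
    cases k with
    | zero => exact kos_zero X hbK
    | succ k =>
      have h4 := mem_KK.1 (kos_mem X (hm q) hbK)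
      funext t
      by_cases ht : bc t = k
      · refine hi _ ((h4 t).1 ht) ?_
        rw [← hLa]
        exact (congrFun h2 t).symm
      · exact (h4 t).2 ht
  have hXY : ∀ v w, (fun v => c v • (1 : Module.End K A)) v * X w =
      X w * (fun v => c v • (1 : Module.End K A)) v := by
    intro v w
    simp
  refine ⟨low (fun v => c v • (1 : Module.End K A)) b,
    low_mem0 _ (fun v a ha => Submodule.smul_mem _ _ ha) hbK, ?_⟩
  funext t
  have h5 := homotopy0 X (fun v => c v • (1 : Module.End K A)) hXY b t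
  rw [h3, map_zero, Pi.zero_apply, add_zero] at h5
  rw [h5, ← hb3 t, hLa]
  refine Finset.sum_congr rfl fun v _ => ?_
  show X v (c v • b t) = _
  rw [map_smul]

end Pool.Agent.Perazzo
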