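import Pool.Agent.Lib.MP_44b5f4_ag.Base

/-!
# Koszul complexes of graded vector spaces with commuting operators

A cochain is a function from the subsets of the set of variables (Boolean vectors) to a vector space.
-/

set_option autoImplicit false

namespace Pool.Agent.Perazzo

open Finset

variable {K A : Type} [Field K] [AddCommGroup A] [Module K A]

/-- The part of the Koszul complex in homological degree `k` and internal degree `k + q`. -/
def KK {r : ℕ} (𝒜 : ℕ → Submodule K A) (k q : ℕ) : Submodule K ((Fin r → Bool) → A) :=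
  Submodule.pi Set.univ fun t => if bc t = k then 𝒜 q else ⊥

theorem mem_KK {r : ℕ} {𝒜 : ℕ → Submodule K A} {k q : ℕ} {g : (Fin r → Bool) → A} :
    g ∈ KK 𝒜 k q ↔ ∀ t, (bc t = k → g t ∈ 𝒜 q) ∧ (bc t ≠ k → g t = 0) := by
  unfold KK
  rw [Submodule.mem_pi]
  refine forall_congr' fun t => ?_
  simp only [Set.mem_univ, true_imp_iff]
  by_cases h : bc t = k <;> simp [h]

/-- The rank of the Koszul differential. -/
noncomputable def rk {r : ℕ} (X : Fin r → Module.End K A) (𝒜 : ℕ → Submodule K A) (k q : ℕ) : ℕ :=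
  Module.finrank K ((KK 𝒜 k q).map (kos X))

theorem bc_update {r : ℕ} {t : Fin r → Bool} {v : Fin r} (h : ¬ t v = true) :
    bc (Function.update t v true) = bc t + 1 := by
  unfold bc
  have e : (univ.filter fun w => Function.update t v true w = true) =
      insert v (univ.filter fun w => t w = true) := by
    ext w
    simp only [mem_filter, mem_univ, true_and, mem_insert]
    by_cases hw : w = v
    · subst hw; simp
    · simp [hw]
  rw [e, card_insert_of_notMem (by simpa using h)]

/-! ### Adding one variable at the end -/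

theorem bc_snoc {r : ℕ} (t : Fin r → Bool) (b : Bool) :
    bc (Fin.snoc t b : Fin (r + 1) → Bool) = bc t + (if b = true then 1 else 0) := by
  unfold bc
  rw [card_filter, card_filter, Fin.sum_univ_castSucc]
  simp

theorem sgn_snoc_castSucc {r : ℕ} (t : Fin r → Bool) (b : Bool) (v : Fin r) :
    sgn K (Fin.snoc t b : Fin (r + 1) → Bool) v.castSucc =
      (if b = true then -1 else 1) * sgn K t v := by
  unfold sgn
  rw [card_filter, card_filter, Fin.sum_univ_castSucc]
  simp only [Fin.castSucc_lt_castSucc_iff, Fin.snoc_castSucc, Fin.snoc_last, Fin.castSucc_lt_last,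
    true_and]
  by_cases hb : b = true
  · simp [hb, pow_succ]
  · simp [hb]

theorem sgn_snoc_last {r : ℕ} (t : Fin r → Bool) (b : Bool) :
    sgn K (Fin.snoc t b : Fin (r + 1) → Bool) (Fin.last r) = 1 := by
  unfold sgn
  have e : (univ.filter fun w : Fin (r + 1) => Fin.last r < w ∧
      (Fin.snoc t b : Fin (r + 1) → Bool) w = true) = ∅ := by
    rw [filter_eq_empty_iff]
    intro w _ hw
    exact absurd hw.1 (not_lt.2 (Fin.le_last w))
  rw [e]; simp

theorem kos_snoc_false {r : ℕ} (X : Fin (r + 1) → Module.End K A)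
    (g : (Fin (r + 1) → Bool) → A) (t : Fin r → Bool) :
    kos X g (Fin.snoc t false) = kos (fun v => X v.castSucc) (fun t => g (Fin.snoc t false)) t +
      X (Fin.last r) (g (Fin.snoc t true)) := by
  rw [kos_apply, kos_apply, Fin.sum_univ_castSucc]
  congr 1
  · refine Finset.sum_congr rfl fun v _ => ?_
    rw [sgn_snoc_castSucc, Fin.snoc_castSucc, ← Fin.snoc_update]
    simp
  · rw [sgn_snoc_last, Fin.snoc_last, Fin.update_snoc_last]
    simp

theorem kos_snoc_true {r : ℕ} (X : Fin (r + 1) → Module.End K A)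
    (g : (Fin (r + 1) → Bool) → A) (t : Fin r → Bool) :
    kos X g (Fin.snoc t true) =
      - kos (fun v => X v.castSucc) (fun t => g (Fin.snoc t true)) t := by
  rw [kos_apply, kos_apply, Fin.sum_univ_castSucc, ← Finset.sum_neg_distrib]
  simp only [Fin.snoc_last, if_true, add_zero]
  refine Finset.sum_congr rfl fun v _ => ?_
  rw [sgn_snoc_castSucc, Fin.snoc_castSucc, ← Fin.snoc_update]
  by_cases h : t v = true
  · simp [h]
  · rw [if_neg h, if_neg h, if_pos rfl, neg_one_mul, neg_smul]

/-- Cochains in one more variable are pairs of cochains. -/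
def dbl (K A : Type) [Field K] [AddCommGroup A] [Module K A] (r : ℕ) :
    ((Fin (r + 1) → Bool) → A) ≃ₗ[K] ((Fin r → Bool) → A) × ((Fin r → Bool) → A) where
  toFun g := (fun t => g (Fin.snoc t false), fun t => g (Fin.snoc t true))
  map_add' _ _ := rfl
  map_smul' _ _ := rfl
  invFun p s := if s (Fin.last r) = true then p.2 (fun v => s v.castSucc) else
    p.1 (fun v => s v.castSucc)
  left_inv g := by
    funext s
    simp only
    have h := Fin.snoc_init_self (α := fun _ => Bool) s
    by_cases hs : s (Fin.last r) = true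
    · rw [if_pos hs]
      congr 1
      rw [← hs]
      exact h
    · rw [if_neg hs]
      congr 1
      rw [Bool.not_eq_true] at hs
      rw [← hs]
      exact h
  right_inv p := by
    ext t <;> simp

theorem dbl_fst (r : ℕ) (g : (Fin (r + 1) → Bool) → A) :
    (dbl K A r g).1 = fun t => g (Fin.snoc t false) := rfl

theorem dbl_snd (r : ℕ) (g : (Fin (r + 1) → Bool) → A) :
    (dbl K A r g).2 = fun t => g (Fin.snoc t true) := rfl

theorem dbl_kos {r : ℕ} (X : Fin (r + 1) → Module.End K A) (g : (Fin (r + 1) → Bool) → A) :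
    dbl K A r (kos X g) = (kos (fun v => X v.castSucc) (dbl K A r g).1 +
      (fun t => X (Fin.last r) ((dbl K A r g).2 t)),
      - kos (fun v => X v.castSucc) (dbl K A r g).2) := by
  ext t
  · show kos X g (Fin.snoc t false) = _
    rw [kos_snoc_false]
    rfl
  · show kos X g (Fin.snoc t true) = _
    rw [kos_snoc_true]
    rfl

theorem dbl_mem_succ {r : ℕ} {𝒜 : ℕ → Submodule K A} {k q : ℕ} {g : (Fin (r + 1) → Bool) → A} :
    g ∈ KK 𝒜 (k + 1) q ↔ (dbl K A r g).1 ∈ KK 𝒜 (k + 1) q ∧ (dbl K A r g).2 ∈ KK 𝒜 k q := by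
  rw [mem_KK, mem_KK, mem_KK]
  constructor
  · intro h
    refine ⟨fun t => ?_, fun t => ?_⟩
    · have := h (Fin.snoc t false)
      rw [bc_snoc] at this
      simpa [dbl_fst] using this
    · have := h (Fin.snoc t true)
      rw [bc_snoc] at this
      simpa [dbl_snd] using this
  · rintro ⟨h1, h2⟩ s
    have e := Fin.snoc_init_self (α := fun _ => Bool) s
    rw [← e, bc_snoc]
    cases hs : s (Fin.last r)
    · have := h1 (Fin.init s)
      simpa [dbl_fst] using this
    · have := h2 (Fin.init s)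
      simpa [dbl_snd] using this

theorem dbl_mem_zero {r : ℕ} {𝒜 : ℕ → Submodule K A} {q : ℕ} {g : (Fin (r + 1) → Bool) → A} :
    g ∈ KK 𝒜 0 q ↔ (dbl K A r g).1 ∈ KK 𝒜 0 q ∧ (dbl K A r g).2 = 0 := by
  rw [mem_KK, mem_KK]
  constructor
  · intro h
    refine ⟨fun t => ?_, ?_⟩
    · have := h (Fin.snoc t false)
      rw [bc_snoc] at this
      simpa [dbl_fst] using this
    · funext t
      have := h (Fin.snoc t true)
      rw [bc_snoc] at this
      simpa [dbl_snd] using this
  · rintro ⟨h1, h2⟩ s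
    have e := Fin.snoc_init_self (α := fun _ => Bool) s
    rw [← e, bc_snoc]
    cases hs : s (Fin.last r)
    · have := h1 (Fin.init s)
      simpa [dbl_fst] using this
    · have := congrFun h2 (Fin.init s)
      simpa [dbl_snd] using this

theorem dbl_symm_mem_succ {r : ℕ} {𝒜 : ℕ → Submodule K A} {k q : ℕ}
    {a b : (Fin r → Bool) → A} (ha : a ∈ KK 𝒜 (k + 1) q) (hb : b ∈ KK 𝒜 k q) :
    (dbl K A r).symm (a, b) ∈ KK 𝒜 (k + 1) q := by
  rw [dbl_mem_succ, LinearEquiv.apply_symm_apply]
  exact ⟨ha, hb⟩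

theorem dbl_symm_mem_zero {r : ℕ} {𝒜 : ℕ → Submodule K A} {q : ℕ}
    {a : (Fin r → Bool) → A} (ha : a ∈ KK 𝒜 0 q) :
    (dbl K A r).symm (a, 0) ∈ KK 𝒜 0 q := by
  rw [dbl_mem_zero, LinearEquiv.apply_symm_apply]
  exact ⟨ha, rfl⟩

/-- The differential of degree zero is zero. -/
theorem kos_zero {r : ℕ} (X : Fin r → Module.End K A) {𝒜 : ℕ → Submodule K A} {q : ℕ}
    {g : (Fin r → Bool) → A} (hg : g ∈ KK 𝒜 0 q) : kos X g = 0 := by
  funext t
  rw [kos_apply]
  refine Finset.sum_eq_zero fun v _ => ?_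
  split_ifs with h
  · rfl
  · rw [mem_KK] at hg
    rw [(hg _).2 (by rw [bc_update h]; omega), map_zero, smul_zero]

theorem rk_zero {r : ℕ} (X : Fin r → Module.End K A) (𝒜 : ℕ → Submodule K A) (q : ℕ) :
    rk X 𝒜 0 q = 0 := by
  unfold rk
  have e : (KK 𝒜 0 q).map (kos X) = ⊥ := by
    rw [eq_bot_iff]
    rintro _ ⟨g, hg, rfl⟩
    rw [kos_zero X hg]
    exact Submodule.zero_mem _
  rw [e, finrank_bot]

/-- The differential maps homological degree `k + 1` to homological degree `k`. -/
theorem kos_mem {r : ℕ} (X : Fin r → Module.End K A) {𝒜 : ℕ → Submodule K A} {k q : ℕ}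
    (hX : ∀ v, ∀ a ∈ 𝒜 q, X v a ∈ 𝒜 (q + 1))
    {g : (Fin r → Bool) → A} (hg : g ∈ KK 𝒜 (k + 1) q) : kos X g ∈ KK 𝒜 k (q + 1) := by
  rw [mem_KK] at hg ⊢
  intro t
  rw [kos_apply]
  constructor
  · intro ht
    refine Submodule.sum_mem _ fun v _ => ?_
    split_ifs with h
    · exact Submodule.zero_mem _
    · exact Submodule.smul_mem _ _ (hX v _ ((hg _).1 (by rw [bc_update h, ht])))
  · intro ht
    refine Finset.sum_eq_zero fun v _ => ?_
    split_ifs with h
    · rfl
    · rw [(hg _).2 (by rw [bc_update h]; omega), map_zero, smul_zero]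

end Pool.Agent.Perazzo
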