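import Pool.Agent.Lib.MP_44b5f4_ag.Koszul

/-!
# Ranks of Koszul differentials: trivial variables, submodules and quotients
-/

set_option autoImplicit false

namespace Pool.Agent.Perazzo

open Finset

variable {K A : Type} [Field K] [AddCommGroup A] [Module K A] [FiniteDimensional K A]

omit [FiniteDimensional K A] in
theorem finrank_eq_of_eq {p q : Submodule K A} (h : p = q) :
    Module.finrank K p = Module.finrank K q := by rw [h]

omit [FiniteDimensional K A] in
theorem finrank_sub_prod {V W : Type} [AddCommGroup V] [Module K V] [AddCommGroup W] [Module K W]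
    (p : Submodule K V) (q : Submodule K W) [FiniteDimensional K p] [FiniteDimensional K q] :
    Module.finrank K (p.prod q) = Module.finrank K p + Module.finrank K q := by
  let e : (p.prod q) ≃ₗ[K] p × q :=
    { toFun := fun x => (⟨x.1.1, x.2.1⟩, ⟨x.1.2, x.2.2⟩)
      map_add' := fun _ _ => rfl
      map_smul' := fun _ _ => rfl
      invFun := fun x => ⟨(x.1.1, x.2.1), x.1.2, x.2.2⟩
      left_inv := fun _ => rfl
      right_inv := fun _ => rfl }
  rw [e.finrank_eq, Module.finrank_prod]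

/-- A variable acting as zero. -/
theorem rk_trivial {r : ℕ} (X : Fin (r + 1) → Module.End K A) {𝒜 : ℕ → Submodule K A} {q : ℕ}
    (h0 : ∀ a ∈ 𝒜 q, X (Fin.last r) a = 0) (k : ℕ) :
    rk X 𝒜 (k + 1) q = rk (fun v => X v.castSucc) 𝒜 (k + 1) q +
      rk (fun v => X v.castSucc) 𝒜 k q := by
  unfold rk
  rw [← finrank_sub_prod, ← LinearEquiv.finrank_map_eq (dbl K A r)]
  refine finrank_eq_of_eq ?_
  have key : ∀ g ∈ KK 𝒜 (k + 1) q, dbl K A r (kos X g) =
      (kos (fun v => X v.castSucc) (dbl K A r g).1, - kos (fun v => X v.castSucc) (dbl K A r g).2) := by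
    intro g hg
    rw [dbl_kos]
    refine Prod.ext ?_ rfl
    simp only
    rw [add_eq_left]
    funext t
    have h1 := (dbl_mem_succ.1 hg).2
    rw [mem_KK] at h1
    by_cases ht : bc t = k
    · exact h0 _ ((h1 t).1 ht)
    · rw [(h1 t).2 ht, map_zero]; rfl
  have h : (Submodule.map (dbl K A r).toLinearMap ((KK 𝒜 (k + 1) q).map (kos X))) =
      ((KK 𝒜 (k + 1) q).map (kos (fun v => X v.castSucc))).prod
        ((KK 𝒜 k q).map (kos (fun v => X v.castSucc))) := by
    ext ⟨a, b⟩
    constructor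
    · rintro ⟨_, ⟨g, hg, rfl⟩, h⟩
      have h2 : dbl K A r (kos X g) = (a, b) := h
      rw [key g hg, Prod.mk.injEq] at h2
      obtain ⟨h3, h4⟩ := dbl_mem_succ.1 hg
      refine ⟨⟨_, h3, h2.1⟩, ⟨- (dbl K A r g).2, Submodule.neg_mem _ h4, ?_⟩⟩
      rw [map_neg]
      exact h2.2
    · rintro ⟨⟨g0, hg0, h1⟩, ⟨g1, hg1, h2⟩⟩
      have hg : (dbl K A r).symm (g0, -g1) ∈ KK 𝒜 (k + 1) q :=
        dbl_symm_mem_succ hg0 (Submodule.neg_mem _ hg1)
      refine ⟨_, ⟨_, hg, rfl⟩, ?_⟩
      show dbl K A r (kos X _) = (a, b)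
      rw [key _ hg, LinearEquiv.apply_symm_apply]
      simp only [map_neg, neg_neg]
      exact Prod.ext h1 h2
  exact h

/-- The last `N` variables act as zero. -/
theorem rk_trivial_all {m : ℕ} (N : ℕ) (X : Fin (m + N) → Module.End K A)
    {𝒜 : ℕ → Submodule K A} {q : ℕ}
    (h0 : ∀ i : Fin N, ∀ a ∈ 𝒜 q, X (Fin.natAdd m i) a = 0) (k : ℕ) :
    rk X 𝒜 k q = ∑ a ∈ range (k + 1), N.choose a * rk (fun v => X (Fin.castAdd N v)) 𝒜 (k - a) q := by
  induction N generalizing k with
  | zero =>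
    rw [Finset.sum_eq_single 0]
    · simp only [Nat.choose_self, one_mul, Nat.sub_zero]
      rfl
    · intro b _ hb
      rw [Nat.choose_eq_zero_of_lt (by omega), zero_mul]
    · simp
  | succ N ih =>
    cases k with
    | zero => simp [rk_zero]
    | succ k =>
      have h1 := rk_trivial (r := m + N) X (𝒜 := 𝒜) (q := q)
        (fun a ha => h0 (Fin.last N) a ha) k
      have ih' := ih (fun v => X v.castSucc) (fun i a ha => h0 i.castSucc a ha)
      rw [ih' (k + 1), ih' k] at h1
      refine h1.trans ?_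
      have e : ∀ a, rk (fun v : Fin m => X (Fin.castSucc (Fin.castAdd N v))) 𝒜 a q =
          rk (fun v => X (Fin.castAdd (N + 1) v)) 𝒜 a q := fun a => rfl
      simp only [e]
      rw [Finset.sum_range_succ' (n := k + 1), Finset.sum_range_succ' (n := k + 1)]
      simp only [Nat.choose_zero_right, one_mul, Nat.sub_zero, Nat.reduceSubDiff]
      rw [add_right_comm, ← Finset.sum_add_distrib]
      congr 1
      refine Finset.sum_congr rfl fun a _ => ?_
      rw [Nat.choose_succ_succ]
      ring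

/-! ### Submodules and quotients -/

/-- Cochains with values in a submodule. -/
def CE (E : Submodule K A) (r : ℕ) : Submodule K ((Fin r → Bool) → A) :=
  Submodule.pi Set.univ fun _ => E

omit [FiniteDimensional K A] in
theorem mem_CE {E : Submodule K A} {r : ℕ} {g : (Fin r → Bool) → A} :
    g ∈ CE E r ↔ ∀ t, g t ∈ E := by
  unfold CE
  rw [Submodule.mem_pi]
  simp

omit [FiniteDimensional K A] in
theorem kos_CE {E : Submodule K A} {r : ℕ} (X : Fin r → Module.End K A)
    (hE : ∀ v, ∀ a ∈ E, X v a ∈ E) {g : (Fin r → Bool) → A} (hg : g ∈ CE E r) :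
    kos X g ∈ CE E r := by
  rw [mem_CE] at hg ⊢
  intro t
  rw [kos_apply]
  refine Submodule.sum_mem _ fun v _ => ?_
  split_ifs
  · exact Submodule.zero_mem _
  · exact Submodule.smul_mem _ _ (hE v _ (hg _))

/-- The induced operators on the quotient. -/
def qop {r : ℕ} (X : Fin r → Module.End K A) {E : Submodule K A}
    (hE : ∀ v, ∀ a ∈ E, X v a ∈ E) (v : Fin r) : Module.End K (A ⧸ E) :=
  E.mapQ E (X v) (hE v)

/-- The map on cochains induced by the quotient map. -/
def qmap (E : Submodule K A) (r : ℕ) : ((Fin r → Bool) → A) →ₗ[K] ((Fin r → Bool) → A ⧸ E) where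
  toFun g t := E.mkQ (g t)
  map_add' _ _ := by funext t; simp
  map_smul' _ _ := by funext t; simp

omit [FiniteDimensional K A] in
theorem qmap_kos {r : ℕ} (X : Fin r → Module.End K A) {E : Submodule K A}
    (hE : ∀ v, ∀ a ∈ E, X v a ∈ E) (g : (Fin r → Bool) → A) :
    qmap E r (kos X g) = kos (qop X hE) (qmap E r g) := by
  funext t
  show E.mkQ (kos X g t) = _
  rw [kos_apply, kos_apply, map_sum]
  refine Finset.sum_congr rfl fun v _ => ?_
  split_ifs
  · rw [map_zero]
  · rw [map_smul]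
    rfl

omit [FiniteDimensional K A] in
theorem qmap_KK {r : ℕ} (E : Submodule K A) (𝒜 : ℕ → Submodule K A) (k q : ℕ) :
    (KK (r := r) 𝒜 k q).map (qmap E r) = KK (fun q => (𝒜 q).map E.mkQ) k q := by
  ext g
  rw [mem_KK]
  constructor
  · rintro ⟨g, hg, rfl⟩ t
    have hg' := mem_KK.1 hg t
    refine ⟨fun ht => ⟨_, hg'.1 ht, rfl⟩, fun ht => ?_⟩
    show E.mkQ (g t) = 0
    rw [hg'.2 ht, map_zero]
  · intro hg
    have h1 : ∀ t, ∃ a, ((bc t = k → a ∈ 𝒜 q) ∧ (bc t ≠ k → a = 0)) ∧ E.mkQ a = g t := by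
      intro t
      by_cases ht : bc t = k
      · obtain ⟨a, ha, hh⟩ := (hg t).1 ht
        exact ⟨a, ⟨fun _ => ha, fun h => absurd ht h⟩, hh⟩
      · exact ⟨0, ⟨fun h => absurd h ht, fun _ => rfl⟩, by rw [map_zero, (hg t).2 ht]⟩
    choose f hf1 hf2 using h1
    exact ⟨f, mem_KK.2 hf1, funext hf2⟩

/-- Additivity of the rank, if all cochains with boundary in `E` have the boundary of a cochain
in `E`. -/
theorem rk_split {r : ℕ} (X : Fin r → Module.End K A) {E : Submodule K A}
    (hE : ∀ v, ∀ a ∈ E, X v a ∈ E) {𝒜 : ℕ → Submodule K A} {k q : ℕ}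
    (h : ∀ c ∈ KK 𝒜 k q, kos X c ∈ CE E r → ∃ e ∈ KK (fun q => E ⊓ 𝒜 q) k q, kos X c = kos X e) :
    rk X 𝒜 k q = rk X (fun q => E ⊓ 𝒜 q) k q + rk (qop X hE) (fun q => (𝒜 q).map E.mkQ) k q := by
  unfold rk
  have h1 := LinearMap.finrank_range_add_finrank_ker
    ((qmap E r).domRestrict ((KK 𝒜 k q).map (kos X)))
  rw [← h1, add_comm]
  congr 1
  · rw [← Submodule.finrank_map_subtype_eq]
    refine finrank_eq_of_eq ?_
    have e : Submodule.map (Submodule.subtype ((KK 𝒜 k q).map (kos X)))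
        (LinearMap.ker ((qmap E r).domRestrict ((KK 𝒜 k q).map (kos X)))) =
        (KK (fun q => E ⊓ 𝒜 q) k q).map (kos X) := by
      ext y
      constructor
      · rintro ⟨⟨_, ⟨c, hc, rfl⟩⟩, hk, rfl⟩
        have hk' : qmap E r (kos X c) = 0 := hk
        have hE' : kos X c ∈ CE E r := by
          rw [mem_CE]
          intro t
          have := congrFun hk' t
          exact (Submodule.Quotient.mk_eq_zero E).1 this
        obtain ⟨e, he, hee⟩ := h c hc hE'
        exact ⟨e, he, hee.symm⟩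
      · rintro ⟨e, he0, rfl⟩
        have he : e ∈ KK (fun q => E ⊓ 𝒜 q) k q := he0
        have he' : e ∈ KK 𝒜 k q := by
          rw [mem_KK] at he ⊢
          exact fun t => ⟨fun ht => ((he t).1 ht).2, (he t).2⟩
        refine ⟨⟨_, ⟨e, he', rfl⟩⟩, ?_, rfl⟩
        show qmap E r (kos X e) = 0
        funext t
        refine (Submodule.Quotient.mk_eq_zero E).2 ?_
        have h2 : e ∈ CE E r := by
          rw [mem_CE]
          rw [mem_KK] at he
          intro t
          by_cases ht : bc t = k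
          · exact ((he t).1 ht).1
          · rw [(he t).2 ht]; exact E.zero_mem
        exact mem_CE.1 (kos_CE X hE h2) t
    exact e
  · refine finrank_eq_of_eq ?_
    have e : LinearMap.range ((qmap E r).domRestrict ((KK 𝒜 k q).map (kos X))) =
        (KK (fun q => (𝒜 q).map E.mkQ) k q).map (kos (qop X hE)) := by
      rw [← qmap_KK]
      ext y
      constructor
      · rintro ⟨⟨_, ⟨c, hc, rfl⟩⟩, rfl⟩
        exact ⟨_, ⟨c, hc, rfl⟩, (qmap_kos X hE c).symm⟩
      · rintro ⟨_, ⟨c, hc, rfl⟩, rfl⟩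
        exact ⟨⟨_, ⟨c, hc, rfl⟩⟩, qmap_kos X hE c⟩
    exact e

end Pool.Agent.Perazzo
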