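import Mathlib

/-!
# Homogeneous polynomials
-/

set_option autoImplicit false

namespace Pool.Agent.Perazzo

open Finset MvPolynomial

variable (K : Type) [Field K]

/-- Homogeneous polynomials of degree `q` in `r` variables. -/
noncomputable abbrev PP (r q : ℕ) : Submodule K (MvPolynomial (Fin r) K) :=
  homogeneousSubmodule (Fin r) K q

instance PP_fin (r q : ℕ) : FiniteDimensional K (PP K r q) :=
  Module.Finite.iff_fg.2 (homogeneousSubmodule_fg (Fin r) K q)

theorem PP_succ (r q : ℕ) : PP K r (q + 1) =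
    ⨆ v, (PP K r q).map (LinearMap.mulLeft K (X v : MvPolynomial (Fin r) K)) := by
  apply le_antisymm
  · have h1 : PP K r (q + 1) = homogeneousSubmodule (Fin r) K 1 * PP K r q := by
      unfold PP
      have e1 := homogeneousSubmodule_one_pow (σ := Fin r) (R := K) (q + 1)
      have e2 := homogeneousSubmodule_one_pow (σ := Fin r) (R := K) q
      rw [← e1, ← e2, pow_succ', e2]
    rw [h1, homogeneousSubmodule_one_eq_span_X, Submodule.mul_le]
    intro a ha b hb
    induction ha using Submodule.span_induction with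
    | mem a ha =>
      obtain ⟨v, rfl⟩ := ha
      exact Submodule.mem_iSup_of_mem v ⟨b, hb, rfl⟩
    | zero => rw [zero_mul]; exact Submodule.zero_mem _
    | add a c _ _ ha hc => rw [add_mul]; exact Submodule.add_mem _ ha hc
    | smul c a _ ha => rw [smul_mul_assoc]; exact Submodule.smul_mem _ _ ha
  · refine iSup_le fun v => ?_
    rintro _ ⟨a, ha, rfl⟩
    have h2 := (isHomogeneous_X K v).mul ((mem_homogeneousSubmodule q a).1 ha)
    rw [add_comm] at h2
    exact h2

theorem PP_gen_le {r q : ℕ} {V : Submodule K (MvPolynomial (Fin r) K)}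
    (h : ∀ v, ∀ a ∈ PP K r q, X v * a ∈ V) : PP K r (q + 1) ≤ V := by
  rw [PP_succ]
  refine iSup_le fun v => ?_
  rintro _ ⟨a, ha, rfl⟩
  exact h v a ha

theorem X_mul_mem_PP {r q : ℕ} (v : Fin r) {a : MvPolynomial (Fin r) K} (ha : a ∈ PP K r q) :
    X v * a ∈ PP K r (q + 1) := by
  rw [PP_succ]
  exact Submodule.mem_iSup_of_mem v ⟨a, ha, rfl⟩

theorem finrank_PP (r q : ℕ) : Module.finrank K (PP K r q) = r.multichoose q := by
  classical
  unfold PP
  rw [homogeneousSubmodule_eq_finsupp_supported]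
  rw [(AddMonoidAlgebra.supportedEquivFinsupp {d : Fin r →₀ ℕ | d.degree = q}).finrank_eq]
  have e : {d : Fin r →₀ ℕ | d.degree = q} ≃ (univ : Finset (Fin r)).finsuppAntidiag q := by
    refine Equiv.subtypeEquivRight fun d => ?_
    rw [Set.mem_ofPred_eq, mem_finsuppAntidiag, Finsupp.degree_eq_sum]
    simp
  have : Fintype {d : Fin r →₀ ℕ | d.degree = q} := Fintype.ofEquiv _ e.symm
  rw [Module.finrank_finsupp_self, Fintype.card_congr e, Fintype.card_coe,
    Finset.card_finsuppAntidiag_nat_eq_multichoose, Finset.card_univ, Fintype.card_fin]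

theorem finrank_PP_two (q : ℕ) : Module.finrank K (PP K 2 q) = q + 1 := by
  rw [finrank_PP, Nat.multichoose_two]

variable {K}

theorem X_prime {r : ℕ} (v : Fin r) : Prime (X v : MvPolynomial (Fin r) K) := by
  refine ⟨X_ne_zero v, ?_, fun a b h => X_dvd_mul_iff.1 h⟩
  intro h
  have h1 := (MvPolynomial.isUnit_iff_totalDegree_of_isReduced.1 h).2
  rw [totalDegree_X] at h1
  exact one_ne_zero h1

/-- Syzygies of two variables. -/
theorem syz_two {a b : MvPolynomial (Fin 2) K} (h : X 0 * a = X 1 * b) :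
    ∃ c, a = X 1 * c ∧ b = X 0 * c := by
  have h1 : (X 0 : MvPolynomial (Fin 2) K) ∣ X 1 * b := ⟨a, h.symm⟩
  rcases X_dvd_mul_iff.1 h1 with h2 | ⟨c, rfl⟩
  · rw [X_dvd_X] at h2
    exact absurd h2 (by decide)
  · refine ⟨c, ?_, rfl⟩
    have h3 : X 0 * a = X 0 * (X 1 * c) := by rw [h]; ring
    exact mul_left_cancel₀ (X_ne_zero 0) h3

/-- Growth of subspaces of homogeneous polynomials in two variables. -/
theorem growth {q : ℕ} {V : Submodule K (MvPolynomial (Fin 2) K)} (hV : V ≤ PP K 2 q)
    (hne : V ≠ ⊥) {W : Submodule K (MvPolynomial (Fin 2) K)} [FiniteDimensional K W]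
    (h0 : ∀ a ∈ V, X 0 * a ∈ W) (h1 : ∀ a ∈ V, X 1 * a ∈ W) :
    Module.finrank K V + 1 ≤ Module.finrank K W := by
  have hinj : ∀ v, Function.Injective (LinearMap.mulLeft K (X v : MvPolynomial (Fin 2) K)) := by
    intro v a b hab
    exact mul_left_cancel₀ (X_ne_zero v) hab
  have : FiniteDimensional K V := Submodule.finiteDimensional_of_le hV
  have e0 : Module.finrank K (V.map (LinearMap.mulLeft K (X 0 : MvPolynomial (Fin 2) K))) =
      Module.finrank K V := (Submodule.equivMapOfInjective _ (hinj 0) V).finrank_eq.symm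
  have hle : V.map (LinearMap.mulLeft K (X 0 : MvPolynomial (Fin 2) K)) ≤ W := by
    rintro _ ⟨a, ha, rfl⟩
    exact h0 a ha
  by_contra hcon
  have h2 : Module.finrank K W ≤ Module.finrank K V := by omega
  rw [← e0] at h2
  have h3 := Submodule.eq_of_le_of_finrank_le hle h2
  have h4 : ∀ n, ∀ a ∈ V, (X 0 : MvPolynomial (Fin 2) K) ^ n ∣ a := by
    intro n
    induction n with
    | zero => intro a _; rw [pow_zero]; exact one_dvd a
    | succ n ih =>
      intro a ha
      have h5 := h1 a ha
      rw [← h3] at h5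
      obtain ⟨b, hb, hab⟩ := h5
      have hab' : X 0 * b = X 1 * a := hab
      have h6 : (X 0 : MvPolynomial (Fin 2) K) ^ (n + 1) ∣ X 1 * a := by
        rw [← hab', pow_succ, mul_comm]
        exact mul_dvd_mul_left _ (ih b hb)
      refine (X_prime (K := K) (0 : Fin 2)).pow_dvd_of_dvd_mul_left (n + 1) ?_ h6
      rw [X_dvd_X]
      decide
  obtain ⟨a, ha, hane⟩ := (Submodule.ne_bot_iff V).1 hne
  obtain ⟨c, hc⟩ := h4 (q + 1) a ha
  have hcne : c ≠ 0 := by
    rintro rfl
    rw [mul_zero] at hc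
    exact hane hc
  have h7 : a.totalDegree = q := IsHomogeneous.totalDegree (hV ha) hane
  have h8 : a.totalDegree = q + 1 + c.totalDegree := by
    rw [hc, totalDegree_mul_of_isDomain (pow_ne_zero _ (X_ne_zero 0)) hcne, totalDegree_X_pow]
  omega

end Pool.Agent.Perazzo
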