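import Pool.Agent.Lib.MP_44b5f4_ag.Defs
import Pool.Agent.Lib.MP_44b5f4_ag.Gor
import Pool.Agent.Lib.MP_44b5f4_ag.Poly

/-!
# The graded Gorenstein algebra of a form
-/

set_option autoImplicit false

namespace Pool.Agent.Perazzo

open MvPolynomial Finset

variable {K : Type} [Field K] {r : ℕ}

/-- The degree of `φ ∘ F`. -/
theorem contract_hom {F : MvPolynomial (Fin r) K} {d : ℕ} (hF : F.IsHomogeneous d) (q : ℕ) :
    ∀ φ ∈ PP K r q, (q ≤ d → (contract φ F).IsHomogeneous (d - q)) ∧
      (d < q → contract φ F = 0) := by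
  induction q with
  | zero =>
    intro φ hφ
    have h1 : PP K r 0 = 1 := homogeneousSubmodule_zero _
    rw [h1, Submodule.mem_one] at hφ
    obtain ⟨c, rfl⟩ := hφ
    refine ⟨fun _ => ?_, fun h => by omega⟩
    rw [Algebra.algebraMap_eq_smul_one, contract_smul, contract_one]
    exact (homogeneousSubmodule (Fin r) K d).smul_mem c hF
  | succ q ih =>
    intro φ hφ
    let W : Submodule K (MvPolynomial (Fin r) K) :=
      { carrier := {φ | (q + 1 ≤ d → (contract φ F).IsHomogeneous (d - (q + 1))) ∧
          (d < q + 1 → contract φ F = 0)}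
        add_mem' := fun {a b} ha hb => by
          refine ⟨fun h => ?_, fun h => ?_⟩
          · rw [contract_add]; exact (ha.1 h).add (hb.1 h)
          · rw [contract_add, ha.2 h, hb.2 h, add_zero]
        zero_mem' := by
          refine ⟨fun _ => ?_, fun _ => contract_zero_left F⟩
          rw [contract_zero_left]
          exact isHomogeneous_zero _ _ _
        smul_mem' := fun c a ha => by
          refine ⟨fun h => ?_, fun h => ?_⟩
          · rw [contract_smul]
            exact (homogeneousSubmodule (Fin r) K _).smul_mem c (ha.1 h)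
          · rw [contract_smul, ha.2 h, smul_zero] }
    have hle : PP K r (q + 1) ≤ W := by
      refine PP_gen_le K fun v a ha => ?_
      obtain ⟨h1, h2⟩ := ih a ha
      refine ⟨fun h => ?_, fun h => ?_⟩
      · rw [contract_mul, contract_X]
        have h3 := (h1 (by omega)).pderiv (i := v)
        have e : d - q - 1 = d - (q + 1) := by omega
        rwa [e] at h3
      · rw [contract_mul, contract_X]
        rcases Nat.lt_or_ge d q with h3 | h3
        · rw [h2 h3, map_zero]
        · have h4 := h1 h3
          have e : d - q = 0 := by omega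
          rw [e] at h4
          have h5 : contract a F ∈ PP K r 0 := h4
          have h6 : PP K r 0 = 1 := homogeneousSubmodule_zero _
          rw [h6, Submodule.mem_one] at h5
          obtain ⟨c, hc⟩ := h5
          rw [← hc, algebraMap_eq, pderiv_C]
    exact hle hφ

/-- A form of degree `q` which is annihilated by all operators of order `q` is zero. -/
theorem eq_zero_of_contract [CharZero K] (q : ℕ) : ∀ H : MvPolynomial (Fin r) K,
    H.IsHomogeneous q → (∀ ψ ∈ PP K r q, coeff 0 (contract ψ H) = 0) → H = 0 := by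
  induction q with
  | zero =>
    intro H hH h
    have h1 := h 1 (isHomogeneous_one _ _)
    rw [contract_one] at h1
    have h5 : H ∈ PP K r 0 := hH
    have h6 : PP K r 0 = 1 := homogeneousSubmodule_zero _
    rw [h6, Submodule.mem_one] at h5
    obtain ⟨c, hc⟩ := h5
    rw [← hc, algebraMap_eq, coeff_zero_C] at h1
    rw [← hc, h1, map_zero]
  | succ q ih =>
    intro H hH h
    have h1 : ∀ v, pderiv v H = 0 := by
      intro v
      refine ih _ ?_ fun ψ hψ => ?_
      · have := hH.pderiv (i := v)
        simpa using this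
      · rw [← contract_X, ← contract_mul, mul_comm]
        exact h _ (X_mul_mem_PP K v hψ)
    have h2 := hH.sum_X_mul_pderiv
    simp only [h1, mul_zero, Finset.sum_const_zero] at h2
    have h3 : ((q + 1 : ℕ) : K) • H = 0 := by
      rw [Nat.cast_smul_eq_nsmul]
      exact h2.symm
    rcases smul_eq_zero.1 h3 with h4 | h4
    · exact absurd h4 (Nat.cast_ne_zero.2 (by omega))
    · exact h4

/-- The algebra `R / Ann (F)`. -/
abbrev AF (F : MvPolynomial (Fin r) K) : Type := MvPolynomial (Fin r) K ⧸ Ann F

/-- The class in `R / Ann (F)`. -/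
noncomputable def cl (F : MvPolynomial (Fin r) K) : MvPolynomial (Fin r) K →ₐ[K] AF F :=
  Ideal.Quotient.mkₐ K (Ann F)

theorem cl_surj (F : MvPolynomial (Fin r) K) : Function.Surjective (cl F) :=
  Ideal.Quotient.mk_surjective

theorem cl_eq_zero {F φ : MvPolynomial (Fin r) K} : cl F φ = 0 ↔ contract φ F = 0 :=
  Ideal.Quotient.eq_zero_iff_mem

theorem mem_gr {F : MvPolynomial (Fin r) K} {q : ℕ} {a : AF F} :
    a ∈ gr (Ann F) q ↔ ∃ φ ∈ PP K r q, cl F φ = a := Iff.rfl

theorem cl_mem_gr {F : MvPolynomial (Fin r) K} {q : ℕ} {φ : MvPolynomial (Fin r) K}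
    (h : φ ∈ PP K r q) : cl F φ ∈ gr (Ann F) q := ⟨φ, h, rfl⟩

/-- The linear form on `R / Ann (F)`: the constant coefficient of `φ ∘ F`. -/
noncomputable def om (F : MvPolynomial (Fin r) K) : AF F →ₗ[K] K :=
  (Submodule.liftQ ((Ann F).restrictScalars K)
    ({ toFun := fun φ => coeff 0 (contract φ F)
       map_add' := fun a b => by rw [contract_add, coeff_add]
       map_smul' := fun c a => by rw [contract_smul, coeff_smul]; rfl } :
      MvPolynomial (Fin r) K →ₗ[K] K) (by
    intro φ hφ
    have h1 : contract φ F = 0 := hφ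
    show coeff 0 (contract φ F) = 0
    rw [h1, coeff_zero])).comp (Submodule.Quotient.restrictScalarsEquiv K (Ann F)).symm.toLinearMap

theorem om_cl (F φ : MvPolynomial (Fin r) K) : om F (cl F φ) = coeff 0 (contract φ F) := rfl

theorem gr_zero (F : MvPolynomial (Fin r) K) : gr (Ann F) 0 = Submodule.span K {1} := by
  ext a
  rw [mem_gr, Submodule.mem_span_singleton]
  have h6 : PP K r 0 = 1 := homogeneousSubmodule_zero _
  constructor
  · rintro ⟨φ, hφ, rfl⟩
    rw [h6, Submodule.mem_one] at hφ
    obtain ⟨c, rfl⟩ := hφ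
    exact ⟨c, by rw [AlgHom.commutes, Algebra.algebraMap_eq_smul_one]⟩
  · rintro ⟨c, rfl⟩
    refine ⟨algebraMap K _ c, ?_, ?_⟩
    · rw [h6, Submodule.mem_one]
      exact ⟨c, rfl⟩
    · rw [AlgHom.commutes, Algebra.algebraMap_eq_smul_one]

theorem gr_succ (F : MvPolynomial (Fin r) K) (q : ℕ) :
    gr (Ann F) (q + 1) = ⨆ v, (gr (Ann F) q).map (LinearMap.mulLeft K (cl F (X v))) := by
  have h1 : gr (Ann F) (q + 1) = (PP K r (q + 1)).map (cl F).toLinearMap := rfl
  rw [h1, PP_succ, Submodule.map_iSup]
  congr 1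
  funext v
  ext a
  constructor
  · rintro ⟨_, ⟨φ, hφ, rfl⟩, rfl⟩
    exact ⟨cl F φ, cl_mem_gr hφ, (map_mul (cl F) _ _).symm⟩
  · rintro ⟨_, ⟨φ, hφ, rfl⟩, rfl⟩
    exact ⟨_, ⟨φ, hφ, rfl⟩, map_mul (cl F) _ _⟩

theorem gr_top {F : MvPolynomial (Fin r) K} {d : ℕ} (hF : F.IsHomogeneous d) {q : ℕ} (hq : d < q) :
    gr (Ann F) q = ⊥ := by
  rw [eq_bot_iff]
  rintro _ ⟨φ, hφ, rfl⟩
  exact cl_eq_zero.2 ((contract_hom hF q φ hφ).2 hq)

theorem AF_fin {F : MvPolynomial (Fin r) K} {d : ℕ} (hF : F.IsHomogeneous d) :
    FiniteDimensional K (AF F) := by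
  classical
  have h1 : (⨆ q : Fin (d + 1), gr (Ann F) q) = ⊤ := by
    rw [eq_top_iff]
    intro a _
    obtain ⟨φ, rfl⟩ := cl_surj F a
    rw [← sum_homogeneousComponent φ, map_sum]
    refine Submodule.sum_mem _ fun i _ => ?_
    by_cases hi : i ≤ d
    · exact Submodule.mem_iSup_of_mem (⟨i, by omega⟩ : Fin (d + 1))
        (cl_mem_gr (homogeneousComponent_isHomogeneous i φ))
    · have h2 := gr_top hF (q := i) (by omega)
      have h3 : cl F (homogeneousComponent i φ) ∈ gr (Ann F) i :=
        cl_mem_gr (homogeneousComponent_isHomogeneous i φ)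
      rw [h2, Submodule.mem_bot] at h3
      rw [h3]
      exact Submodule.zero_mem _
  have h2 : ∀ q : Fin (d + 1), FiniteDimensional K (gr (Ann F) q) := by
    intro q
    have : gr (Ann F) q = (PP K r q).map (cl F).toLinearMap := rfl
    rw [this]
    infer_instance
  have h3 : FiniteDimensional K (⨆ q : Fin (d + 1), gr (Ann F) q : Submodule K (AF F)) :=
    Submodule.finiteDimensional_iSup _
  rw [h1] at h3
  exact Module.Finite.equiv (Submodule.topEquiv (R := K) (M := AF F))

/-- The graded Gorenstein algebra of a form in which the last `N` variables have trivial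
products. -/
noncomputable def mkGA [CharZero K] {m N d : ℕ} {F : MvPolynomial (Fin (m + N)) K}
    (hF : F.IsHomogeneous d) (hne : F ≠ 0)
    (hxx : ∀ i j : Fin N, pderiv (Fin.natAdd m i) (pderiv (Fin.natAdd m j) F) = 0)
    (hlin : hilb (Ann F) 1 = m + N) : GA K (AF F) m N d where
  y v := cl F (X v)
  𝒜 := gr (Ann F)
  ω := om F
  one_ne := by
    intro h
    rw [← map_one (cl F), cl_eq_zero, contract_one] at h
    exact hne h
  zero := gr_zero F
  gen := gr_succ F
  perf p q hpq a ha h := by
    obtain ⟨φ, hφ, rfl⟩ := mem_gr.1 ha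
    rw [cl_eq_zero]
    have h1 := (contract_hom hF p φ hφ).1 (by omega)
    have e : d - p = q := by omega
    rw [e] at h1
    refine eq_zero_of_contract q _ h1 fun ψ hψ => ?_
    have h2 := h _ (cl_mem_gr hψ)
    rw [← map_mul, om_cl, mul_comm, contract_mul] at h2
    exact h2
  top q hq := gr_top hF hq
  lin := by
    have h1 : Submodule.span K (Set.range fun v : Fin (m + N) => cl F (X v)) = gr (Ann F) 1 := by
      rw [gr_succ F 0]
      apply le_antisymm
      · rw [Submodule.span_le]
        rintro _ ⟨v, rfl⟩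
        refine Submodule.mem_iSup_of_mem v ⟨1, ?_, mul_one _⟩
        rw [gr_zero]
        exact Submodule.mem_span_singleton_self 1
      · refine iSup_le fun v => ?_
        rintro _ ⟨a, ha, rfl⟩
        rw [gr_zero] at ha
        obtain ⟨c, rfl⟩ := Submodule.mem_span_singleton.1 ha
        show cl F (X v) * (c • 1) ∈ _
        rw [mul_smul_comm, mul_one]
        exact Submodule.smul_mem _ _ (Submodule.subset_span ⟨v, rfl⟩)
    have h2 : LinearIndependent K (fun v : Fin (m + N) => cl F (X v)) := by
      rw [linearIndependent_iff_card_eq_finrank_span, Fintype.card_fin, Set.finrank, h1]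
      exact hlin.symm
    exact Fintype.linearIndependent_iff.1 h2
  xx i j := by
    rw [← map_mul, cl_eq_zero, contract_mul, contract_X, contract_X]
    exact hxx i j

end Pool.Agent.Perazzo
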