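import Pool.Agent.Lib.MP_44b5f4_ag.RedMain

/-!
# Families of monomials: contraction
-/

set_option autoImplicit false

namespace Pool.Agent.Perazzo

open MvPolynomial Finset

variable {K : Type} [Field K] {r : ℕ}

theorem contract_X_pow (v : Fin r) (k : ℕ) (s : Fin r →₀ ℕ) (c : K) :
    contract (X v ^ k) (monomial s c) =
      monomial (s - Finsupp.single v k) (c * ((s v).descFactorial k : K)) := by
  induction k with
  | zero => simp [contract_one]
  | succ k ih =>
    rw [pow_succ', contract_mul, ih, contract_X, pderiv_monomial]
    have e1 : s - Finsupp.single v k - Finsupp.single v 1 = s - Finsupp.single v (k + 1) := by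
      rw [tsub_tsub, ← Finsupp.single_add]
    have e2 : (s - Finsupp.single v k) v = s v - k := by
      rw [Finsupp.tsub_apply, Finsupp.single_eq_same]
    rw [e1, e2, Nat.descFactorial_succ]
    push_cast
    ring_nf

theorem contract_prod (t s : Fin r →₀ ℕ) (c : K) (S : Finset (Fin r)) :
    contract (∏ v ∈ S, X v ^ t v) (monomial s c) =
      monomial (s - ∑ v ∈ S, Finsupp.single v (t v))
        (c * ∏ v ∈ S, ((s v).descFactorial (t v) : K)) := by
  classical
  induction S using Finset.induction_on with
  | empty => simp [contract_one]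
  | insert a S ha ih =>
    rw [Finset.prod_insert ha, contract_mul, ih, contract_X_pow, Finset.sum_insert ha,
      Finset.prod_insert ha]
    have e2 : (s - ∑ v ∈ S, Finsupp.single v (t v)) a = s a := by
      rw [Finsupp.tsub_apply, Finsupp.finsetSum_apply]
      have : ∑ v ∈ S, (Finsupp.single v (t v)) a = 0 := by
        refine Finset.sum_eq_zero fun v hv => ?_
        rw [Finsupp.single_apply, if_neg]
        rintro rfl
        exact ha hv
      rw [this, Nat.sub_zero]
    rw [e2, tsub_tsub, add_comm (∑ v ∈ S, Finsupp.single v (t v))]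
    congr 1
    ring

theorem contract_monomial (t s : Fin r →₀ ℕ) (b c : K) :
    contract (monomial t b) (monomial s c) =
      monomial (s - t) (b * c * ∏ v, ((s v).descFactorial (t v) : K)) := by
  have h1 : (monomial t b : MvPolynomial (Fin r) K) = b • ∏ v, X v ^ t v := by
    rw [monomial_eq, ← smul_eq_C_mul, Finsupp.prod_fintype _ _ (fun i => pow_zero _)]
  have h2 : ∑ v, Finsupp.single v (t v) = t := by
    rw [← Finsupp.sum_fintype t (fun i a => Finsupp.single i a) (fun i => Finsupp.single_zero i)]
    exact Finsupp.sum_single t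
  rw [h1, contract_smul, contract_prod, h2, smul_monomial, smul_eq_mul, mul_assoc]

theorem degree_lt {s t : Fin r →₀ ℕ} (h : s.degree = t.degree) (hne : t ≠ s) :
    ∃ v, s v < t v := by
  by_contra hcon
  push Not at hcon
  apply hne
  have h1 : t ≤ s := fun v => hcon v
  have h2 : s.degree = (s - t).degree + t.degree := by
    rw [← map_add, tsub_add_cancel_of_le h1]
  have h3 : (s - t).degree = 0 := by omega
  rw [Finsupp.degree_eq_zero_iff] at h3
  have h4 : s = t := by
    rw [← tsub_add_cancel_of_le h1, h3, zero_add]
  exact h4.symm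

/-- Monomials of the same degree are orthogonal. -/
theorem contract_monomial_ne {s t : Fin r →₀ ℕ} (h : s.degree = t.degree) (hne : t ≠ s) (b c : K) :
    contract (monomial t b) (monomial s c) = 0 := by
  obtain ⟨v, hv⟩ := degree_lt h hne
  rw [contract_monomial, Finset.prod_eq_zero (Finset.mem_univ v), mul_zero, monomial_zero]
  rw [Nat.descFactorial_eq_zero_iff_lt.2 hv, Nat.cast_zero]

theorem coeff_contract_monomial {q : ℕ} {φ : MvPolynomial (Fin r) K} (hφ : φ.IsHomogeneous q)
    {s : Fin r →₀ ℕ} (hs : s.degree = q) :
    contract φ (monomial s 1) = C (coeff s φ * ∏ v, ((s v).factorial : K)) := by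
  classical
  conv_lhs => rw [φ.as_sum]
  rw [contract_sum, Finset.sum_eq_single s]
  · have e : ∏ v, ((s v).descFactorial (s v) : K) = ∏ v, ((s v).factorial : K) :=
      Finset.prod_congr rfl fun v _ => by rw [Nat.descFactorial_self]
    rw [contract_monomial, tsub_self, mul_one, e]
    rfl
  · intro t ht hne
    refine contract_monomial_ne ?_ hne _ _
    rw [hs]
    exact (hφ.degree_eq_sum_deg_support ht).symm ▸ rfl
  · intro h
    rw [notMem_support_iff.1 h, monomial_zero, contract_zero_left]

end Pool.Agent.Perazzo
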