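import Pool.Agent.Lib.MP_44b5f4_ag.ND1

/-!
# Families of monomials: the ideal, the Hilbert function, the number of generators in degree `d`
-/

set_option autoImplicit false

namespace Pool.Agent.Perazzo

open MvPolynomial Finset

section kerJ

variable {K : Type} [Field K] {m : ℕ}

/-- The chains of polynomials whose boundary has values in `J`. -/
noncomputable def kerJ (J : Ideal (MvPolynomial (Fin m) K)) (k q : ℕ) :
    Submodule K ((Fin m → Bool) → MvPolynomial (Fin m) K) :=
  KK (PP K m) k q ⊓ (CE (J.restrictScalars K) m).comap (kos (PX K m))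

theorem mem_kerJ {J : Ideal (MvPolynomial (Fin m) K)} {k q : ℕ}
    {c : (Fin m → Bool) → MvPolynomial (Fin m) K} :
    c ∈ kerJ J k q ↔ c ∈ KK (PP K m) k q ∧ ∀ t, kos (PX K m) c t ∈ J := by
  unfold kerJ
  rw [Submodule.mem_inf, Submodule.mem_comap, mem_CE]
  rfl

instance KK_fin (k q : ℕ) : FiniteDimensional K (KK (r := m) (PP K m) k q) := by
  let f : ((Fin m → Bool) → PP K m q) →ₗ[K] ((Fin m → Bool) → MvPolynomial (Fin m) K) :=
    { toFun := fun g t => (g t).1
      map_add' := fun _ _ => rfl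
      map_smul' := fun _ _ => rfl }
  have h : KK (r := m) (PP K m) k q ≤ LinearMap.range f := by
    intro g hg
    have hg' := mem_KK.1 hg
    have h1 : ∀ t, g t ∈ PP K m q := by
      intro t
      by_cases ht : bc t = k
      · exact (hg' t).1 ht
      · rw [(hg' t).2 ht]; exact Submodule.zero_mem _
    exact ⟨fun t => ⟨g t, h1 t⟩, rfl⟩
  exact Submodule.finiteDimensional_of_le h

theorem rk_kerJ (J : Ideal (MvPolynomial (Fin m) K)) (k q : ℕ) :
    rk (mulX J) (gr J) k q + Module.finrank K (kerJ J k q) =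
      Module.finrank K (KK (r := m) (PP K m) k q) := by
  let ι : MvPolynomial (Fin m) K →ₗ[K] (MvPolynomial (Fin m) K ⧸ J) :=
    (Ideal.Quotient.mkₐ K J).toLinearMap
  have hX : ∀ v a, ι (PX K m v a) = mulX J v (ι a) := by
    intro v a
    exact map_mul (Ideal.Quotient.mk J) _ _
  let Ψ : ((Fin m → Bool) → MvPolynomial (Fin m) K) →ₗ[K]
      ((Fin m → Bool) → MvPolynomial (Fin m) K ⧸ J) :=
    { toFun := fun c t => ι (kos (PX K m) c t)
      map_add' := fun a b => by funext t; simp
      map_smul' := fun a b => by funext t; simp }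
  have h1 := LinearMap.finrank_range_add_finrank_ker (Ψ.domRestrict (KK (r := m) (PP K m) k q))
  rw [LinearMap.range_domRestrict] at h1
  rw [← h1]
  congr 1
  · unfold rk
    refine finrank_eq_of_eq ?_
    ext y
    constructor
    · rintro ⟨g, hg, rfl⟩
      have hg' : g ∈ KK (gr J) k q := hg
      rw [mem_KK] at hg'
      have h2 : ∀ t, ∃ a, ((bc t = k → a ∈ PP K m q) ∧ (bc t ≠ k → a = 0)) ∧ ι a = g t := by
        intro t
        by_cases ht : bc t = k
        · obtain ⟨a, ha, haa⟩ := (hg' t).1 ht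
          exact ⟨a, ⟨fun _ => ha, fun hh => absurd ht hh⟩, haa⟩
        · exact ⟨0, ⟨fun hh => absurd hh ht, fun _ => rfl⟩, by rw [map_zero, (hg' t).2 ht]⟩
      choose f hf1 hf2 using h2
      refine ⟨f, mem_KK.2 hf1, ?_⟩
      have h3 := kos_map ι (PX K m) (mulX J) hX f
      have h4 : (fun t => ι (f t)) = g := funext hf2
      rw [h4] at h3
      exact h3.symm
    · rintro ⟨f, hf, rfl⟩
      refine ⟨fun t => ι (f t), ?_, kos_map ι (PX K m) (mulX J) hX f⟩
      have hf' : f ∈ KK (PP K m) k q := hf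
      rw [mem_KK] at hf'
      show (fun t => ι (f t)) ∈ KK (gr J) k q
      rw [mem_KK]
      intro t
      refine ⟨fun ht => ⟨f t, (hf' t).1 ht, rfl⟩, fun ht => ?_⟩
      rw [(hf' t).2 ht, map_zero]
  · rw [← Submodule.finrank_map_subtype_eq]
    refine finrank_eq_of_eq ?_
    ext c
    rw [mem_kerJ]
    constructor
    · rintro ⟨h1, h2⟩
      refine ⟨⟨c, h1⟩, ?_, rfl⟩
      show Ψ c = 0
      funext t
      exact Ideal.Quotient.eq_zero_iff_mem.2 (h2 t)
    · rintro ⟨⟨c, h1⟩, h2, rfl⟩
      refine ⟨h1, fun t => ?_⟩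
      exact Ideal.Quotient.eq_zero_iff_mem.1 (congrFun (show Ψ c = 0 from h2) t)

end kerJ

section mono

variable {K : Type} [Field K] {m n d : ℕ}

/-- The monomials of degree `d - 1` different from `a` and `b`. -/
abbrev MSet (m d : ℕ) (a b : Fin m →₀ ℕ) : Type :=
  {s : Fin m →₀ ℕ // s.degree = d - 1 ∧ s ≠ a ∧ s ≠ b}

/-- The family of monomials. -/
noncomputable def mfam (K : Type) [Field K] {a b : Fin m →₀ ℕ} (e : Fin (n + 1) ≃ MSet m d a b) :
    Fin (n + 1) → MvPolynomial (Fin m) K := fun i => monomial (e i).1 1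

variable {a b : Fin m →₀ ℕ} (e : Fin (n + 1) ≃ MSet m d a b)

theorem mfam_hom (i : Fin (n + 1)) : (mfam K e i).IsHomogeneous (d - 1) :=
  isHomogeneous_monomial _ (e i).2.1

theorem mfam_li : LinearIndependent K (mfam K e) := by
  have h := (basisMonomials (Fin m) K).linearIndependent.comp (fun i => (e i).1)
    (fun i j hij => e.injective (Subtype.ext hij))
  rw [coe_basisMonomials] at h
  exact h

theorem mfam_mem [CharZero K] {φ : MvPolynomial (Fin m) K} (hφ : φ.IsHomogeneous (d - 1)) :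
    φ ∈ AnnFam (mfam K e) ↔ ∀ s : Fin m →₀ ℕ, s ≠ a → s ≠ b → coeff s φ = 0 := by
  rw [mem_AnnFam]
  constructor
  · intro h s ha hb
    by_cases hs : s.degree = d - 1
    · have h1 := h (e.symm ⟨s, hs, ha, hb⟩)
      unfold mfam at h1
      rw [Equiv.apply_symm_apply, coeff_contract_monomial hφ hs, C_eq_zero] at h1
      rcases mul_eq_zero.1 h1 with h2 | h2
      · exact h2
      · rw [Finset.prod_eq_zero_iff] at h2
        obtain ⟨v, _, hv⟩ := h2
        exact absurd hv (Nat.cast_ne_zero.2 (Nat.factorial_ne_zero _))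
    · exact hφ.coeff_eq_zero hs
  · intro h i
    unfold mfam
    rw [coeff_contract_monomial hφ (e i).2.1, h _ (e i).2.2.1 (e i).2.2.2, zero_mul, map_zero]

/-- There are no relations in degrees up to `d - 2`. -/
theorem mfam_free [CharZero K] (hm : 3 ≤ m) (hd : 2 ≤ d) {q : ℕ} (hq : q + 2 ≤ d)
    {φ : MvPolynomial (Fin m) K} (hφ : φ.IsHomogeneous q) (h : φ ∈ AnnFam (mfam K e)) : φ = 0 := by
  -- the case of degree `d - 2`
  have key : ∀ ψ : MvPolynomial (Fin m) K, ψ.IsHomogeneous (d - 2) → ψ ∈ AnnFam (mfam K e) →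
      ψ = 0 := by
    intro ψ hψ hJ
    by_contra hne
    obtain ⟨t, ht⟩ := exists_coeff_ne_zero hne
    have h1 : ∀ v : Fin m, t + Finsupp.single v 1 = a ∨ t + Finsupp.single v 1 = b := by
      intro v
      by_contra hcon
      push Not at hcon
      have h2 : (X v * ψ).IsHomogeneous (d - 1) := by
        have := (isHomogeneous_X K v).mul hψ
        have e1 : 1 + (d - 2) = d - 1 := by omega
        rwa [e1] at this
      have h3 := (mfam_mem e h2).1 (Ideal.mul_mem_left _ _ hJ) _ hcon.1 hcon.2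
      rw [mul_comm, coeff_mul_X] at h3
      exact ht h3
    have hinj : ∀ v w : Fin m, t + Finsupp.single v 1 = t + Finsupp.single w 1 → v = w := by
      intro v w hvw
      have := add_left_cancel hvw
      exact Finsupp.single_left_injective one_ne_zero this
    have v0 := h1 ⟨0, by omega⟩
    have v1 := h1 ⟨1, by omega⟩
    have v2 := h1 ⟨2, by omega⟩
    have n01 : (⟨0, by omega⟩ : Fin m) ≠ ⟨1, by omega⟩ := by simp
    have n02 : (⟨0, by omega⟩ : Fin m) ≠ ⟨2, by omega⟩ := by simp
    have n12 : (⟨1, by omega⟩ : Fin m) ≠ ⟨2, by omega⟩ := by simp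
    rcases v0 with v0 | v0 <;> rcases v1 with v1 | v1 <;> rcases v2 with v2 | v2 <;>
      first
        | exact n01 (hinj _ _ (v0.trans v1.symm))
        | exact n02 (hinj _ _ (v0.trans v2.symm))
        | exact n12 (hinj _ _ (v1.trans v2.symm))
  have h1 : (X (⟨0, by omega⟩ : Fin m) ^ (d - 2 - q) * φ).IsHomogeneous (d - 2) := by
    have := (isHomogeneous_X_pow (R := K) (⟨0, by omega⟩ : Fin m) (d - 2 - q)).mul hφ
    have e1 : d - 2 - q + q = d - 2 := by omega
    rwa [e1] at this
  have h2 := key _ h1 (Ideal.mul_mem_left _ _ h)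
  rcases mul_eq_zero.1 h2 with h3 | h3
  · exact absurd h3 (pow_ne_zero _ (X_ne_zero _))
  · exact h3

end mono

end Pool.Agent.Perazzo
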