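import Pool.Agent.Lib.MP_44b5f4_ag.ND2

/-!
# Families of monomials: Hilbert function and generators of degree `d`
-/

set_option autoImplicit false

namespace Pool.Agent.Perazzo

open MvPolynomial Finset

variable {K : Type} [Field K] [CharZero K] {m n d : ℕ} {a b : Fin m →₀ ℕ}
  (e : Fin (n + 1) ≃ MSet m d a b)

theorem mfam_hlin (hm : 3 ≤ m) (hd : 4 ≤ d) : hilb (Ann (form (mfam K e) 0)) 1 = m + (n + 1) :=
  hlin_of_AnnFam (mfam_li e) fun _ hc => GA.sumX_ne (mfam_free e hm (by omega) (q := 1) (by omega)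
    (Submodule.sum_mem (homogeneousSubmodule (Fin m) K 1)
      fun v _ => Submodule.smul_mem _ _ (isHomogeneous_X K v)) hc)

theorem mfam_low (hm : 3 ≤ m) (hd : 4 ≤ d) : (fGA (by omega) (mfam_hom (K := K) e)
    (isHomogeneous_zero _ _ d) (mfam_li e) (mfam_hlin e hm hd)).LowFree := by
  intro q hq
  rw [eq_bot_iff]
  intro φ hφ
  exact mfam_free e hm (by omega) (by omega) (GA.mem_I _ |>.1 hφ).1
    ((fGA_mem _ _ _ _ _ φ).1 (GA.mem_I _ |>.1 hφ).2)

/-- The Hilbert function. -/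
theorem mfam_hilb (hm : 3 ≤ m) (hd : 4 ≤ d) {q : ℕ} (hq : 1 ≤ q) (hqd : 2 * q ≤ d) :
    hilb (Ann (form (mfam K e) 0)) q =
      if q = 1 then m + (n + 1) else m.multichoose q + m.multichoose (d - q) := by
  by_cases hq1 : q = 1
  · rw [if_pos hq1, hq1]
    exact mfam_hlin e hm hd
  · rw [if_neg hq1]
    have hfin := AF_fin (form_hom (K := K) (p := mfam K e) (G := 0) (by omega) (mfam_hom e)
      (isHomogeneous_zero _ _ d))
    set Γ := fGA (by omega) (mfam_hom (K := K) e) (isHomogeneous_zero _ _ d) (mfam_li e)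
      (mfam_hlin e hm hd) with hΓ
    have hlow : Γ.LowFree := mfam_low e hm hd
    have hs := Γ.split_of_low hlow
    have hI : ∀ s, s + 2 ≤ d → Module.finrank K (Γ.I s) = 0 := by
      intro s hs
      have : Γ.I s = ⊥ := by
        rw [eq_bot_iff]
        intro φ hφ
        exact mfam_free e hm (by omega) hs (GA.mem_I _ |>.1 hφ).1
          ((fGA_mem _ _ _ _ _ φ).1 (GA.mem_I _ |>.1 hφ).2)
      rw [this, finrank_bot]
    have hQ : ∀ s, s + 2 ≤ d → Module.finrank K (Γ.𝒬 s) = m.multichoose s := by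
      intro s hs
      have h1 := Γ.F1 s
      have h2 := Γ.finrank_𝒬 s
      have h3 := hI s hs
      omega
    have h1 := Γ.finrank_𝒬 q
    have h2 : Γ.Z ⊓ Γ.𝒜 q = Γ.EE q := congrFun (Γ.Z_inf_eq (by omega) (by omega) hs) q
    have h3 := Γ.finrank_EE hq (by omega)
    rw [h2, h3, hQ _ (by omega), hQ _ (by omega)] at h1
    have h4 : hilb (Ann (form (mfam K e) 0)) q = Module.finrank K (Γ.𝒜 q) := rfl
    rw [h4, ← h1, add_comm]

/-- The number of generators of degree `d`. -/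
theorem mfam_gens (hm : 3 ≤ m) (hd : 4 ≤ d) : gradedBetti (Ann (form (mfam K e) 0)) 1 d +
    rk (mulX (AnnFam (mfam K e))) (gr (AnnFam (mfam K e))) 2 (d - 2) = m * (n + 1) := by
  have hfin := AF_fin (form_hom (K := K) (p := mfam K e) (G := 0) (by omega) (mfam_hom e)
    (isHomogeneous_zero _ _ d))
  have hred := red_low (G := 0) (by omega) (mfam_hom (K := K) e) (isHomogeneous_zero _ _ d)
    (mfam_li e) (mfam_hlin e hm hd) (mfam_low e hm hd) 1 d
  set Γ := fGA (by omega) (mfam_hom (K := K) e) (isHomogeneous_zero _ _ d) (mfam_li e)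
    (mfam_hlin e hm hd) with hΓ
  have hI2 : Γ.I 2 = ⊥ := by
    rw [eq_bot_iff]
    intro φ hφ
    exact mfam_free e hm (by omega) (by omega) (GA.mem_I _ |>.1 hφ).1
      ((fGA_mem _ _ _ _ _ φ).1 (GA.mem_I _ |>.1 hφ).2)
  have hrow1 : ∀ k, gradedBetti (AnnFam (mfam K e)) k (k + 1) = 0 := by
    intro k
    rw [fam_betti (by omega) (mfam_hom e) (isHomogeneous_zero _ _ d) (mfam_li e)
      (mfam_hlin e hm hd)]
    exact Γ.row_of_I (q := 0) hI2 k
  have hB0 : gradedBetti (AnnFam (mfam K e)) 0 (d - 1) = 0 := by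
    have h1 := fam_betti (K := K) (by omega) (mfam_hom e) (isHomogeneous_zero _ _ d) (mfam_li e)
      (mfam_hlin e hm hd) 0 (d - 2 + 1)
    have h2 := betti_succ Γ.UQ Γ.UQ_comm (𝒜 := Γ.𝒬) (fun q v a ha => Γ.𝒬_mul ha v) 0 (d - 2)
    rw [rk_zero, Nat.choose_zero_right, one_mul, zero_add, zero_add] at h2
    have h3 : rk Γ.UQ Γ.𝒬 1 (d - 2) = Module.finrank K (Γ.𝒬 (d - 2 + 1)) := by
      rw [rk_one]
      refine finrank_eq_of_eq (le_antisymm ?_ ?_)
      · refine iSup_le fun v => ?_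
        rintro _ ⟨a, ha, rfl⟩
        exact Γ.𝒬_mul ha v
      · unfold GA.𝒬
        rw [Submodule.map_le_iff_le_comap]
        refine Γ.gen_le fun v a ha => ?_
        rw [Submodule.mem_comap]
        induction v using Fin.addCases with
        | left v => exact Submodule.mem_iSup_of_mem v ⟨_, ⟨a, ha, rfl⟩, rfl⟩
        | right j =>
          have : Γ.Z.mkQ (Γ.y (Fin.natAdd m j) * a) = 0 :=
            (Submodule.Quotient.mk_eq_zero Γ.Z).2 (Γ.x_mem_Z j a)
          rw [this]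
          exact Submodule.zero_mem _
    rw [zero_add] at h1
    have e1 : d - 2 + 1 = d - 1 := by omega
    rw [e1] at h1 h2 h3
    have h1' : gradedBetti (AnnFam (mfam K e)) 0 (d - 1) = betti Γ.UQ Γ.𝒬 0 (d - 1) := h1
    rw [h1']
    omega
  have hval : redTable m n d (gradedBetti (AnnFam (mfam K e))) 1 d =
      (gradedBetti (AnnFam (mfam K e)) 1 d : ℤ) := by
    unfold redTable
    rw [if_neg (by omega), if_neg (by omega), if_pos (by omega), if_neg (show ¬ d = 1 + 1 by omega),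
      if_neg (by omega), Finset.sum_range_succ, Finset.sum_range_one]
    simp only [Nat.choose_zero_right, Nat.choose_one_right, Nat.sub_zero, Nat.sub_self,
      Nat.cast_one, one_mul]
    have e1 : m + d - d = m - 1 + 1 := by omega
    have e2 : m + d - (d - 1) = m + 1 := by omega
    rw [e1, e2, hrow1, hrow1, hB0]
    simp
  rw [hval] at hred
  have hred' : gradedBetti (Ann (form (mfam K e) 0)) 1 d = gradedBetti (AnnFam (mfam K e)) 1 d := by
    exact_mod_cast hred
  rw [hred']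
  have h1 := fam_betti (K := K) (by omega) (mfam_hom e) (isHomogeneous_zero _ _ d) (mfam_li e)
    (mfam_hlin e hm hd) 1 (d - 2 + 1)
  have h2 := betti_succ Γ.UQ Γ.UQ_comm (𝒜 := Γ.𝒬) (fun q v a ha => Γ.𝒬_mul ha v) 1 (d - 2)
  have e1 : 1 + (d - 2 + 1) = d := by omega
  have e2 : d - 2 + 1 = d - 1 := by omega
  rw [e1] at h1 h2
  rw [e2] at h2
  have h3 : rk Γ.UQ Γ.𝒬 1 (d - 1) = 0 := by
    rw [rk_one, Submodule.finrank_eq_zero, iSup_eq_bot]
    intro v
    rw [eq_bot_iff]
    rintro _ ⟨a, ha, rfl⟩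
    have h4 := Γ.𝒬_mul ha v
    have e3 : d - 1 + 1 = d := by omega
    rw [e3] at h4
    obtain ⟨c, hc, hcc⟩ := h4
    rw [← hcc]
    exact (Submodule.Quotient.mk_eq_zero Γ.Z).2 (Γ.𝒜_d_le_Z hc)
  have h4 : Module.finrank K (Γ.𝒬 (d - 1)) = n + 1 := by
    have h5 := Γ.finrank_EE (q := 1) (by omega) (by omega)
    have h6 : Module.finrank K (Γ.EE 1) = n + 1 := Γ.F5
    omega
  rw [h3, h4, Nat.choose_one_right, add_zero] at h2
  rw [h1, fam_rk (by omega) (mfam_hom e) (isHomogeneous_zero _ _ d) (mfam_li e)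
    (mfam_hlin e hm hd)]
  exact h2

end Pool.Agent.Perazzo
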