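import Pool.Agent.Lib.MP_44b5f4_ag.ND3

/-!
# Two families of monomials with different numbers of generators of degree `d`
-/

set_option autoImplicit false

namespace Pool.Agent.Perazzo

open MvPolynomial Finset

section card

variable {m n d : ℕ}

theorem mset_equiv {a b : Fin m →₀ ℕ} (ha : a.degree = d - 1) (hb : b.degree = d - 1) (hab : a ≠ b)
    (hn : n + 3 = m.multichoose (d - 1)) : Nonempty (Fin (n + 1) ≃ MSet m d a b) := by
  classical
  let S : Finset (Fin m →₀ ℕ) := (((univ : Finset (Fin m)).finsuppAntidiag (d - 1)).erase a).erase b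
  have hmem : ∀ s : Fin m →₀ ℕ, s ∈ (univ : Finset (Fin m)).finsuppAntidiag (d - 1) ↔
      s.degree = d - 1 := by
    intro s
    rw [mem_finsuppAntidiag, Finsupp.degree_eq_sum]
    simp
  have hS : ∀ s, s ∈ S ↔ (s.degree = d - 1 ∧ s ≠ a ∧ s ≠ b) := by
    intro s
    show s ∈ (((univ : Finset (Fin m)).finsuppAntidiag (d - 1)).erase a).erase b ↔ _
    rw [Finset.mem_erase, Finset.mem_erase, hmem]
    tauto
  have hcard : S.card = n + 1 := by
    show ((((univ : Finset (Fin m)).finsuppAntidiag (d - 1)).erase a).erase b).card = n + 1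
    rw [Finset.card_erase_of_mem, Finset.card_erase_of_mem,
      Finset.card_finsuppAntidiag_nat_eq_multichoose, Finset.card_univ, Fintype.card_fin]
    · omega
    · rw [hmem]; exact ha
    · rw [Finset.mem_erase, hmem]
      exact ⟨hab.symm, hb⟩
  have e1 : MSet m d a b ≃ S := Equiv.subtypeEquivRight fun s => (hS s).symm
  have e2 : S ≃ Fin (n + 1) := Finset.equivFinOfCardEq hcard
  exact ⟨(e1.trans e2).symm⟩

end card

section compare

variable {K : Type} [Field K] [CharZero K] {m n d : ℕ}

/-- If there are no linear relations between the two monomials, then every chain with boundary in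
the ideal is a cycle. -/
theorem ker_gen {a b : Fin m →₀ ℕ} (e : Fin (n + 1) ≃ MSet m d a b) (hd : 2 ≤ d)
    (hab : ∀ v w, a + Finsupp.single v 1 ≠ b + Finsupp.single w 1)
    {c : (Fin m → Bool) → MvPolynomial (Fin m) K}
    (hc : c ∈ kerJ (AnnFam (mfam K e)) 2 (d - 2)) : kos (PX K m) c = 0 := by
  obtain ⟨h1, h2⟩ := mem_kerJ.1 hc
  have h3 := kos_mem (k := 1) (PX K m) (fun v a ha => X_mul_mem_PP K v ha) h1
  have e1 : d - 2 + 1 = d - 1 := by omega
  rw [e1] at h3
  have h3' := mem_KK.1 h3
  have hcomm : ∀ v w, PX K m v * PX K m w = PX K m w * PX K m v := by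
    intro v w
    refine LinearMap.ext fun f => ?_
    show X v * (X w * f) = X w * (X v * f)
    ring
  have h4 := kos_kos (PX K m) hcomm c
  rw [kos_one _ h3] at h4
  have h5 : ∑ v, X v * kos (PX K m) c (sng v) = 0 := by
    have := congrFun h4 (fun _ => false)
    rw [LinearMap.single_apply, Pi.single_eq_same] at this
    exact this
  have hy : ∀ v s, s ≠ a → s ≠ b → coeff s (kos (PX K m) c (sng v)) = 0 := fun v =>
    (mfam_mem e ((h3' _).1 (bc_sng v))).1 (h2 _)
  have hcoef : ∀ v (s : Fin m →₀ ℕ), (s = a ∨ s = b) →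
      (∀ w, w ≠ v → ∀ s', s' + Finsupp.single w 1 = s + Finsupp.single v 1 → s' ≠ a ∧ s' ≠ b) →
      coeff s (kos (PX K m) c (sng v)) = 0 := by
    intro v s _ hs
    have h6 := congrArg (coeff (s + Finsupp.single v 1)) h5
    rw [coeff_sum, coeff_zero, Finset.sum_eq_single v] at h6
    · rw [mul_comm, coeff_mul_X] at h6
      exact h6
    · intro w _ hwv
      rw [coeff_X_mul']
      split_ifs with hw
      · have h7 : s + Finsupp.single v 1 - Finsupp.single w 1 + Finsupp.single w 1 =
            s + Finsupp.single v 1 := by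
          refine tsub_add_cancel_of_le ?_
          rw [Finsupp.single_le_iff]
          exact Nat.one_le_iff_ne_zero.2 (Finsupp.mem_support_iff.1 hw)
        obtain ⟨h8, h9⟩ := hs w hwv _ h7
        exact hy w _ h8 h9
      · rfl
    · intro h; exact absurd (Finset.mem_univ v) h
  have hsing : ∀ v w : Fin m, ∀ s : Fin m →₀ ℕ, s + Finsupp.single w 1 = s + Finsupp.single v 1 →
      w = v := by
    intro v w s h
    exact Finsupp.single_left_injective one_ne_zero (add_left_cancel h)
  funext t
  by_cases ht : bc t = 1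
  · -- `t` is a singleton
    obtain ⟨v, rfl⟩ : ∃ v, t = sng v := by
      have : (univ.filter fun v => t v = true).card = 1 := ht
      rw [Finset.card_eq_one] at this
      obtain ⟨v, hv⟩ := this
      refine ⟨v, ?_⟩
      funext w
      by_cases hw : w = v
      · subst hw
        have : w ∈ univ.filter fun v => t v = true := by rw [hv]; exact Finset.mem_singleton_self w
        simp only [mem_filter] at this
        rw [this.2]
        simp [sng]
      · have : w ∉ univ.filter fun v => t v = true := by rw [hv, Finset.mem_singleton]; exact hw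
        simp only [mem_filter, mem_univ, true_and] at this
        rw [Bool.not_eq_true] at this
        rw [this]
        simp [sng, hw]
    rw [Pi.zero_apply]
    refine MvPolynomial.ext _ _ fun s => ?_
    rw [coeff_zero]
    by_cases hsa : s = a
    · subst hsa
      refine hcoef v s (Or.inl rfl) fun w hw s' hs' => ⟨?_, ?_⟩
      · rintro rfl
        exact hw (hsing v w s' hs')
      · rintro rfl
        exact hab v w hs'.symm
    · by_cases hsb : s = b
      · subst hsb
        refine hcoef v s (Or.inr rfl) fun w hw s' hs' => ⟨?_, ?_⟩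
        · rintro rfl
          exact hab w v hs'
        · rintro rfl
          exact hw (hsing v w s' hs')
      · exact hy v s hsa hsb
  · exact (h3' t).2 ht

/-- If the two monomials are `X_0^(d-1)` and `X_0^(d-2) X_1`, then there is a chain with boundary in
the ideal which is not a cycle. -/
theorem ker_spec (hm : 3 ≤ m) (hd : 4 ≤ d) {a b : Fin m →₀ ℕ}
    (ha : a = Finsupp.single (⟨0, by omega⟩ : Fin m) (d - 1))
    (hb : b = Finsupp.single (⟨0, by omega⟩ : Fin m) (d - 2) + Finsupp.single ⟨1, by omega⟩ 1)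
    (e : Fin (n + 1) ≃ MSet m d a b) :
    ∃ c ∈ kerJ (AnnFam (mfam K e)) 2 (d - 2), kos (PX K m) c ≠ 0 := by
  classical
  set v0 : Fin m := ⟨0, by omega⟩ with hv0
  set v1 : Fin m := ⟨1, by omega⟩ with hv1
  have h01 : v1 ≠ v0 := by rw [hv0, hv1]; simp
  set t01 : Fin m → Bool := Function.update (sng v0) v1 true with ht01
  have hs1 : ¬ (sng v0 : Fin m → Bool) v1 = true := by simp [sng, h01]
  have hbc : bc t01 = 2 := by rw [ht01, bc_update hs1, bc_sng]
  have hmem01 : ∀ v, t01 v = true → v = v0 ∨ v = v1 := by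
    intro v hv
    by_cases h1 : v = v1
    · right; exact h1
    · left
      rw [ht01, Function.update_of_ne h1] at hv
      by_contra h0
      simp [sng, h0] at hv
  have hJ0 : (X v0 * X v0 ^ (d - 2) : MvPolynomial (Fin m) K) ∈ AnnFam (mfam K e) := by
    have h1 : (X v0 * X v0 ^ (d - 2) : MvPolynomial (Fin m) K) = monomial a 1 := by
      have e1 : d - 2 + 1 = d - 1 := by omega
      rw [ha, ← pow_succ', X_pow_eq_monomial, e1]
    rw [h1]
    refine (mfam_mem e (isHomogeneous_monomial _ ?_)).2 fun s hsa _ => ?_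
    · rw [ha, Finsupp.degree_single]
    · rw [coeff_monomial, if_neg (Ne.symm hsa)]
  have hJ1 : (X v1 * X v0 ^ (d - 2) : MvPolynomial (Fin m) K) ∈ AnnFam (mfam K e) := by
    have h1 : (X v1 * X v0 ^ (d - 2) : MvPolynomial (Fin m) K) = monomial b 1 := by
      rw [hb, X_pow_eq_monomial, X, monomial_mul, one_mul, add_comm]
    rw [h1]
    refine (mfam_mem e (isHomogeneous_monomial _ ?_)).2 fun s _ hsb => ?_
    · rw [hb, map_add, Finsupp.degree_single, Finsupp.degree_single]
      omega
    · rw [coeff_monomial, if_neg (Ne.symm hsb)]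
  refine ⟨Pi.single t01 (X v0 ^ (d - 2)), ?_, ?_⟩
  · rw [mem_kerJ]
    constructor
    · have h1 : (X v0 ^ (d - 2) : MvPolynomial (Fin m) K) ∈ PP K m (d - 2) :=
        isHomogeneous_X_pow _ _
      have h2 := single_mem_KK (K := K) (𝒜 := PP K m) (q := d - 2) t01 h1
      rwa [hbc] at h2
    · intro t
      rw [kos_apply]
      refine Ideal.sum_mem _ fun v _ => ?_
      split_ifs with hv
      · exact Ideal.zero_mem _
      · by_cases h1 : Function.update t v true = t01
        · have h2 : t01 v = true := by rw [← h1]; simp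
          rw [h1, Pi.single_eq_same, smul_eq_C_mul]
          refine Ideal.mul_mem_left _ _ ?_
          rcases hmem01 v h2 with h3 | h3
          · rw [h3]; exact hJ0
          · rw [h3]; exact hJ1
        · rw [Pi.single_eq_of_ne h1, map_zero, smul_zero]
          exact Ideal.zero_mem _
  · intro h
    have h1 := congrFun h (sng v0)
    rw [kos_apply, Finset.sum_eq_single v1] at h1
    · rw [if_neg hs1, ← ht01, Pi.single_eq_same] at h1
      have h2 : sgn K (sng v0) v1 ≠ 0 := pow_ne_zero _ (by simp)
      rcases smul_eq_zero.1 h1 with h3 | h3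
      · exact h2 h3
      · have h4 : (X v1 * X v0 ^ (d - 2) : MvPolynomial (Fin m) K) = 0 := h3
        rcases mul_eq_zero.1 h4 with h5 | h5
        · exact X_ne_zero _ h5
        · exact pow_ne_zero _ (X_ne_zero _) h5
    · intro v _ hv
      split_ifs with h2
      · rfl
      · have h3 : Function.update (sng v0) v true ≠ t01 := by
          intro h4
          have h5 := congrFun h4 v1
          rw [Function.update_of_ne (Ne.symm hv), ht01] at h5
          simp [sng, h01] at h5
        rw [Pi.single_eq_of_ne h3, map_zero, smul_zero]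
    · intro h2; exact absurd (Finset.mem_univ v1) h2

theorem compare (hm : 3 ≤ m) (hd : 4 ≤ d) {a b a' b' : Fin m →₀ ℕ}
    (hab : ∀ v w, a + Finsupp.single v 1 ≠ b + Finsupp.single w 1)
    (ha : a' = Finsupp.single (⟨0, by omega⟩ : Fin m) (d - 1))
    (hb : b' = Finsupp.single (⟨0, by omega⟩ : Fin m) (d - 2) + Finsupp.single ⟨1, by omega⟩ 1)
    (e : Fin (n + 1) ≃ MSet m d a b) (e' : Fin (n + 1) ≃ MSet m d a' b') :
    gradedBetti (Ann (form (mfam K e) 0)) 1 d < gradedBetti (Ann (form (mfam K e') 0)) 1 d := by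
  have g1 := mfam_gens (K := K) e hm hd
  have g2 := mfam_gens (K := K) e' hm hd
  have r1 := rk_kerJ (AnnFam (mfam K e)) 2 (d - 2)
  have r2 := rk_kerJ (AnnFam (mfam K e')) 2 (d - 2)
  have hlt : kerJ (AnnFam (mfam K e)) 2 (d - 2) < kerJ (AnnFam (mfam K e')) 2 (d - 2) := by
    obtain ⟨c, hc, hc0⟩ := ker_spec (K := K) hm hd ha hb e'
    refine lt_of_le_of_ne ?_ ?_
    · intro c hc
      have h1 := ker_gen e (by omega) hab hc
      rw [mem_kerJ] at hc ⊢
      refine ⟨hc.1, fun t => ?_⟩
      rw [h1]
      exact Ideal.zero_mem _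
    · intro h
      rw [← h] at hc
      exact hc0 (ker_gen e (by omega) hab hc)
  have hfin : FiniteDimensional K (kerJ (AnnFam (mfam K e')) 2 (d - 2)) :=
    Submodule.finiteDimensional_of_le (inf_le_left : _ ≤ KK (PP K m) 2 (d - 2))
  have h3 := Submodule.finrank_lt_finrank_of_lt hlt
  omega

end compare

section perazzo

variable {K : Type} [Field K] {m n d : ℕ}

theorem mfam_perazzo (hm : 3 ≤ m) (hd : 4 ≤ d) {a b : Fin m →₀ ℕ} (ha : a ⟨2, by omega⟩ = 0)
    (hb : b ⟨2, by omega⟩ = 0) (e : Fin (n + 1) ≃ MSet m d a b) :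
    IsPerazzo d (form (mfam K e) 0) := by
  refine ⟨mfam K e, 0, mfam_hom e, isHomogeneous_zero _ _ _, mfam_li e, ?_, rfl⟩
  intro hind
  set v0 : Fin m := ⟨0, by omega⟩ with hv0
  set v2 : Fin m := ⟨2, by omega⟩ with hv2
  have h02 : v0 ≠ v2 := by rw [hv0, hv2]; simp
  have hne : ∀ s : Fin m →₀ ℕ, s v2 ≠ 0 → s ≠ a ∧ s ≠ b := by
    intro s hs
    refine ⟨?_, ?_⟩
    · rintro rfl; exact hs ha
    · rintro rfl; exact hs hb
  let s1 : Fin m →₀ ℕ := Finsupp.single v2 (d - 1)
  let s2 : Fin m →₀ ℕ := Finsupp.single v2 (d - 3) + Finsupp.single v0 2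
  let s3 : Fin m →₀ ℕ := Finsupp.single v2 (d - 2) + Finsupp.single v0 1
  have n1 : s1 v2 ≠ 0 := by simp [s1]; omega
  have n2 : s2 v2 ≠ 0 := by simp [s2, h02]; omega
  have n3 : s3 v2 ≠ 0 := by simp [s3, h02]; omega
  have d1 : s1.degree = d - 1 := Finsupp.degree_single _ _
  have d2 : s2.degree = d - 1 := by
    show (Finsupp.single v2 (d - 3) + Finsupp.single v0 2).degree = d - 1
    rw [map_add, Finsupp.degree_single, Finsupp.degree_single]
    omega
  have d3 : s3.degree = d - 1 := by
    show (Finsupp.single v2 (d - 2) + Finsupp.single v0 1).degree = d - 1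
    rw [map_add, Finsupp.degree_single, Finsupp.degree_single]
    omega
  let i1 := e.symm ⟨s1, d1, hne s1 n1⟩
  let i2 := e.symm ⟨s2, d2, hne s2 n2⟩
  let i3 := e.symm ⟨s3, d3, hne s3 n3⟩
  have p1 : mfam K e i1 = monomial s1 1 := by unfold mfam; simp [i1]
  have p2 : mfam K e i2 = monomial s2 1 := by unfold mfam; simp [i2]
  have p3 : mfam K e i3 = monomial s3 1 := by unfold mfam; simp [i3]
  have h31 : i3 ≠ i1 := by
    intro h
    have h1 := congrArg (fun x => (e x).1 v0) h
    simp [i1, i3, s1, s3, h02] at h1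
  have h32 : i3 ≠ i2 := by
    intro h
    have h1 := congrArg (fun x => (e x).1 v0) h
    simp [i2, i3, s2, s3, h02] at h1
  have hrel : aeval (mfam K e) (X i1 * X i2 : MvPolynomial (Fin (n + 1)) K) =
      aeval (mfam K e) (X i3 ^ 2 : MvPolynomial (Fin (n + 1)) K) := by
    have hs : s1 + s2 = 2 • s3 := by
      show Finsupp.single v2 (d - 1) + (Finsupp.single v2 (d - 3) + Finsupp.single v0 2) =
        2 • (Finsupp.single v2 (d - 2) + Finsupp.single v0 1)
      rw [← add_assoc, ← Finsupp.single_add, smul_add, Finsupp.smul_single, Finsupp.smul_single]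
      congr 2
      simp only [smul_eq_mul]
      omega
    rw [map_mul, map_pow, aeval_X, aeval_X, aeval_X, p1, p2, p3, monomial_mul, monomial_pow, hs,
      one_mul, one_pow]
  have h1 := hind hrel
  have h2 : (X i3 : MvPolynomial (Fin (n + 1)) K) ∣ X i1 * X i2 := by
    rw [h1, pow_two]
    exact dvd_mul_right _ _
  rcases X_dvd_mul_iff.1 h2 with h3 | h3
  · rw [X_dvd_X] at h3; exact h31 h3
  · rw [X_dvd_X] at h3; exact h32 h3

end perazzo

/-! ### Arithmetic -/

theorem mc_mono_left {m m' : ℕ} (h : m ≤ m') (q : ℕ) : m.multichoose q ≤ m'.multichoose q := by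
  rw [Nat.multichoose_eq, Nat.multichoose_eq]
  exact Nat.choose_le_choose _ (by omega)

theorem mc_growth {m q : ℕ} (hm : 3 ≤ m) :
    m.multichoose q + (q + 2) ≤ m.multichoose (q + 1) := by
  obtain ⟨m, rfl⟩ : ∃ m', m = m' + 1 := ⟨m - 1, by omega⟩
  rw [Nat.multichoose_succ_succ]
  have h1 := mc_mono_left (show 2 ≤ m by omega) (q + 1)
  rw [Nat.multichoose_two] at h1
  omega

theorem mc_two (m : ℕ) : 2 * m.multichoose 2 = m * (m + 1) := by
  rw [Nat.multichoose_eq]
  have e : m + 2 - 1 = m + 1 := by omega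
  rw [e]
  have := Nat.triangle_succ m
  rw [Nat.choose_two_right]
  have h2 : (m + 1) * (m + 1 - 1) = (m + 1) * m := by simp
  rw [h2]
  have h3 : 2 ∣ (m + 1) * m := by
    have := Nat.even_mul_succ_self m
    rw [mul_comm] at this
    exact this.two_dvd
  rw [Nat.mul_div_cancel' h3]
  ring

end Pool.Agent.Perazzo
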