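import Pool.Agent.Lib.MP_44b5f4_ag.ND4

/-!
# Families of `C (m + d - 2, m - 1) - 2` forms: the Hilbert function does not depend on the family
-/

set_option autoImplicit false

namespace Pool.Agent.Perazzo

open MvPolynomial Finset

variable {K : Type} [Field K] [CharZero K] {m n d : ℕ}
  {p : Fin (n + 1) → MvPolynomial (Fin m) K} {G : MvPolynomial (Fin m) K}

/-- There are no relations in degrees up to `d - 2`. -/
theorem fam_free (hm : 3 ≤ m) (hp : ∀ i, (p i).IsHomogeneous (d - 1))
    (hl : LinearIndependent K p) (hn : n + 3 = m.multichoose (d - 1)) {q : ℕ} (hq : q + 2 ≤ d)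
    {φ : MvPolynomial (Fin m) K} (hφ : φ.IsHomogeneous q) (h : φ ∈ AnnFam p) : φ = 0 := by
  classical
  by_contra hne
  let g : PP K m (d - 1 - q) →ₗ[K] Module.Dual K (PP K m (d - 1)) :=
    { toFun := fun χ =>
        { toFun := fun f => coeff 0 (contract (χ.1 * φ) f.1)
          map_add' := fun f f' => by
            rw [Submodule.coe_add, contract_add_right, coeff_add]
          map_smul' := fun c f => by
            have : contract (χ.1 * φ) (c • f.1) = c • contract (χ.1 * φ) f.1 := map_smul _ _ _
            rw [Submodule.coe_smul, this, coeff_smul, RingHom.id_apply] }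
      map_add' := fun χ χ' => by
        refine LinearMap.ext fun f => ?_
        show coeff 0 (contract ((χ + χ').1 * φ) f.1) = coeff 0 (contract (χ.1 * φ) f.1) +
          coeff 0 (contract (χ'.1 * φ) f.1)
        rw [Submodule.coe_add, add_mul, contract_add, coeff_add]
      map_smul' := fun c χ => by
        refine LinearMap.ext fun f => ?_
        show coeff 0 (contract ((c • χ).1 * φ) f.1) = c • coeff 0 (contract (χ.1 * φ) f.1)
        rw [Submodule.coe_smul, smul_mul_assoc, contract_smul, coeff_smul] }
  have hg : Function.Injective g := by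
    rw [← LinearMap.ker_eq_bot, eq_bot_iff]
    intro χ hχ
    have h1 : (χ.1 * φ).IsHomogeneous (d - 1) := by
      have := IsHomogeneous.mul (show χ.1.IsHomogeneous (d - 1 - q) from χ.2) hφ
      have e1 : d - 1 - q + q = d - 1 := by omega
      rwa [e1] at this
    have h2 : χ.1 * φ = 0 := by
      by_contra hne'
      obtain ⟨s, hs⟩ := exists_coeff_ne_zero hne'
      have hsd : s.degree = d - 1 := by
        by_contra hcon
        exact hs (h1.coeff_eq_zero hcon)
      have h3 := LinearMap.congr_fun (show g χ = 0 from hχ)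
        ⟨monomial s 1, isHomogeneous_monomial _ hsd⟩
      have h4 : coeff 0 (contract (χ.1 * φ) (monomial s 1)) = 0 := h3
      rw [coeff_contract_monomial h1 hsd, coeff_C, if_pos rfl] at h4
      rcases mul_eq_zero.1 h4 with h5 | h5
      · exact hs h5
      · rw [Finset.prod_eq_zero_iff] at h5
        obtain ⟨v, _, hv⟩ := h5
        exact absurd hv (Nat.cast_ne_zero.2 (Nat.factorial_ne_zero _))
    rcases mul_eq_zero.1 h2 with h3 | h3
    · exact Submodule.mem_bot K |>.2 (Subtype.ext h3)
    · exact absurd h3 hne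
  let P : Fin (n + 1) → PP K m (d - 1) := fun i => ⟨p i, hp i⟩
  have hP : LinearIndependent K P := LinearIndependent.of_comp (PP K m (d - 1)).subtype hl
  let W : Submodule K (PP K m (d - 1)) := Submodule.span K (Set.range P)
  have hW : Module.finrank K W = n + 1 := by
    rw [finrank_span_eq_card hP, Fintype.card_fin]
  have hr : LinearMap.range g ≤ W.dualAnnihilator := by
    rintro _ ⟨χ, rfl⟩
    rw [Submodule.mem_dualAnnihilator]
    intro w hw
    induction hw using Submodule.span_induction with
    | mem x hx =>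
      obtain ⟨i, rfl⟩ := hx
      show coeff 0 (contract (χ.1 * φ) (p i)) = 0
      rw [contract_mul, mem_AnnFam.1 h i, contract_zero_right, coeff_zero]
    | zero => exact map_zero _
    | add x y _ _ hx hy => rw [map_add, hx, hy, add_zero]
    | smul c x _ hx => rw [map_smul, hx, smul_zero]
  have h1 := Submodule.finrank_mono hr
  rw [LinearMap.finrank_range_of_inj hg, finrank_PP] at h1
  have h2 := Subspace.finrank_add_finrank_dualAnnihilator_eq W
  rw [hW, finrank_PP] at h2
  have h3 : m.multichoose 1 ≤ m.multichoose (d - 1 - q) := by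
    rw [← al_eq (by omega), ← al_eq (by omega)]
    exact al_mono (by omega) (by omega)
  rw [Nat.multichoose_one_right] at h3
  omega

theorem fam_hlin (hm : 3 ≤ m) (hd : 4 ≤ d) (hp : ∀ i, (p i).IsHomogeneous (d - 1))
    (hl : LinearIndependent K p) (hn : n + 3 = m.multichoose (d - 1)) :
    hilb (Ann (form p G)) 1 = m + (n + 1) :=
  hlin_of_AnnFam hl fun _ hc => GA.sumX_ne (fam_free hm hp hl hn (q := 1) (by omega)
    (Submodule.sum_mem (homogeneousSubmodule (Fin m) K 1)
      fun v _ => Submodule.smul_mem _ _ (isHomogeneous_X K v)) hc)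

/-- The Hilbert function. -/
theorem fam_hilbA (hm : 3 ≤ m) (hd : 4 ≤ d) (hp : ∀ i, (p i).IsHomogeneous (d - 1))
    (hG : G.IsHomogeneous d) (hl : LinearIndependent K p) (hn : n + 3 = m.multichoose (d - 1))
    {q : ℕ} (hq : 1 ≤ q) (hqd : 2 * q ≤ d) :
    hilb (Ann (form p G)) q =
      if q = 1 then m + (n + 1) else m.multichoose q + m.multichoose (d - q) := by
  by_cases hq1 : q = 1
  · rw [if_pos hq1, hq1]
    exact fam_hlin hm hd hp hl hn
  · rw [if_neg hq1]
    have hfin := AF_fin (form_hom (K := K) (by omega) hp hG)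
    set Γ := fGA (by omega) hp hG hl (fam_hlin (G := G) hm hd hp hl hn) with hΓ
    have hI0 : ∀ s, s + 2 ≤ d → Γ.I s = ⊥ := by
      intro s hs
      rw [eq_bot_iff]
      intro φ hφ
      exact fam_free hm hp hl hn hs (GA.mem_I _ |>.1 hφ).1
        ((fGA_mem _ _ _ _ _ φ).1 (GA.mem_I _ |>.1 hφ).2)
    have hlow : Γ.LowFree := fun s hs => hI0 s (by omega)
    have hs := Γ.split_of_low hlow
    have hI : ∀ s, s + 2 ≤ d → Module.finrank K (Γ.I s) = 0 := by
      intro s hs
      rw [hI0 s hs, finrank_bot]
    have hQ : ∀ s, s + 2 ≤ d → Module.finrank K (Γ.𝒬 s) = m.multichoose s := by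
      intro s hs
      have h1 := Γ.F1 s
      have h2 := Γ.finrank_𝒬 s
      have h3 := hI s hs
      omega
    have h1 := Γ.finrank_𝒬 q
    have h2 : Γ.Z ⊓ Γ.𝒜 q = Γ.EE q := congrFun (Γ.Z_inf_eq (by omega) (by omega) hs) q
    have h3 := Γ.finrank_EE hq (by omega)
    rw [h2, h3, hQ _ (by omega), hQ _ (by omega)] at h1
    have h4 : hilb (Ann (form p G)) q = Module.finrank K (Γ.𝒜 q) := rfl
    rw [h4, ← h1, add_comm]

end Pool.Agent.Perazzo
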