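import Pool.Agent.Lib.MP_44b5f4_ag.RedCond

/-!
# The reduction theorem
-/

set_option autoImplicit false

namespace Pool.Agent.Perazzo

open MvPolynomial Finset

variable {K : Type} [Field K] [CharZero K] {m n d : ℕ} {p : Fin (n + 1) → MvPolynomial (Fin m) K}
  {G : MvPolynomial (Fin m) K}

theorem red_main (hd : 2 ≤ d) (hp : ∀ i, (p i).IsHomogeneous (d - 1))
    (hG : G.IsHomogeneous d) (hl : LinearIndependent K p)
    (hlin : hilb (Ann (form p G)) 1 = m + (n + 1))
    (hs : (fGA (by omega) hp hG hl hlin).IsSplit) (hu : (fGA (by omega) hp hG hl hlin).UInd)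
    (hrow : ∀ q, 1 ≤ q → q + 2 ≤ d → (fGA (by omega) hp hG hl hlin).RowOK q) (i j : ℕ) :
    (gradedBetti (Ann (form p G)) i j : ℤ) = redTable m n d (gradedBetti (AnnFam p)) i j := by
  have hfin := AF_fin (form_hom (by omega) hp hG)
  set Γ := fGA (by omega) hp hG hl hlin with hΓ
  have hbet : gradedBetti (Ann (form p G)) i j = betti Γ.X Γ.𝒜 i j := rfl
  rw [hbet]
  unfold redTable
  by_cases h0 : i = 0 ∧ j = 0
  · obtain ⟨rfl, rfl⟩ := h0
    rw [if_pos ⟨rfl, rfl⟩, Γ.B_zero]
    simp
  · rw [if_neg h0]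
    by_cases h1 : i = m + n + 1 ∧ j = m + n + 1 + d
    · rw [if_pos h1]
      obtain ⟨rfl, rfl⟩ := h1
      have h2 := Γ.B_last (by omega) d
      rw [if_pos rfl] at h2
      have h3 : betti Γ.X Γ.𝒜 (m + n + 1) (m + n + 1 + d) = 1 := h2
      rw [h3]
      simp
    · rw [if_neg h1]
      by_cases h2 : i < j ∧ j < i + d
      · rw [if_pos h2]
        obtain ⟨q, rfl⟩ : ∃ q, j = i + q := ⟨j - i, by omega⟩
        have h3 := Γ.B_red (by omega) hd hs hu hrow (q := q) (by omega) (by omega) i
        have h4 : ∀ a ∈ range (i + 1), (n + 1).choose a *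
            (betti Γ.UQ Γ.𝒬 (i - a) (i - a + q) +
              if i - a ≤ m then betti Γ.UQ Γ.𝒬 (m - (i - a)) (m - (i - a) + (d - q)) else 0) =
            (n + 1).choose a * (gradedBetti (AnnFam p) (i - a) (i + q - a) +
              if i - a ≤ m then gradedBetti (AnnFam p) (m - (i - a)) (m + d - (i + q - a)) else 0) := by
          intro a ha
          rw [mem_range] at ha
          have e1 : i + q - a = i - a + q := by omega
          rw [e1, fam_betti (by omega) hp hG hl hlin]
          by_cases h5 : i - a ≤ m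
          · rw [if_pos h5, if_pos h5]
            have e2 : m + d - (i - a + q) = m - (i - a) + (d - q) := by omega
            rw [e2, fam_betti (by omega) hp hG hl hlin]
          · rw [if_neg h5, if_neg h5]
        rw [Finset.sum_congr rfl h4] at h3
        have h5 : ∑ a ∈ range (i + 1), ((n + 1).choose a : ℤ) *
            ((gradedBetti (AnnFam p) (i - a) (i + q - a) : ℤ) +
              if i - a ≤ m then (gradedBetti (AnnFam p) (m - (i - a)) (m + d - (i + q - a)) : ℤ)
                else 0) =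
            ((∑ a ∈ range (i + 1), (n + 1).choose a *
            (gradedBetti (AnnFam p) (i - a) (i + q - a) +
              if i - a ≤ m then gradedBetti (AnnFam p) (m - (i - a)) (m + d - (i + q - a))
                else 0) : ℕ) : ℤ) := by
          push_cast
          rfl
        rw [h5, ← h3]
        have c1 : (i + q = i + 1) ↔ q = 1 := by omega
        have c2 : (i + q + 1 = i + d ∧ m + 1 ≤ i ∧ i ≤ m + n + 1) ↔
            (q + 1 = d ∧ m + 1 ≤ i ∧ i ≤ m + (n + 1)) := by omega
        simp only [c1, c2]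
        push_cast
        ring
      · rw [if_neg h2]
        have h3 : betti Γ.X Γ.𝒜 i j = 0 := by
          by_cases h4 : j < i
          · exact betti_lt _ _ h4
          · obtain ⟨q, rfl⟩ : ∃ q, j = i + q := ⟨j - i, by omega⟩
            by_cases h5 : q = 0
            · subst h5
              obtain ⟨k, rfl⟩ : ∃ k, i = k + 1 := ⟨i - 1, by omega⟩
              exact Γ.B_row_zero k
            · by_cases h6 : i < m + (n + 1)
              · exact Γ.B_row_ge (by omega) h6 (by omega)
              · by_cases h7 : i = m + (n + 1)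
                · subst h7
                  rw [Γ.B_last (by omega), if_neg (by omega)]
                · exact Γ.B_beyond (by omega) q
        rw [h3]
        simp

theorem red_low (hd : 2 ≤ d) (hp : ∀ i, (p i).IsHomogeneous (d - 1))
    (hG : G.IsHomogeneous d) (hl : LinearIndependent K p)
    (hlin : hilb (Ann (form p G)) 1 = m + (n + 1))
    (hlow : (fGA (by omega) hp hG hl hlin).LowFree) (i j : ℕ) :
    (gradedBetti (Ann (form p G)) i j : ℤ) = redTable m n d (gradedBetti (AnnFam p)) i j := by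
  have hfin := AF_fin (form_hom (by omega) hp hG)
  exact red_main hd hp hG hl hlin (GA.split_of_low _ hlow)
    (GA.uind_of_I _ (hlow 1 (by omega))) (fun q h1 h2 => GA.row_of_low _ hlow h1 h2) i j

theorem red_max (hm : 1 ≤ m) (hd : 2 ≤ d) (hp : ∀ i, (p i).IsHomogeneous (d - 1))
    (hG : G.IsHomogeneous d) (hl : LinearIndependent K p)
    (hmax : ∀ q, 1 ≤ q → 2 * q ≤ d → hilb (Ann (form p G)) q =
      min (al m q + al m (d - q)) (al m q + (n + 1) * al m (q - 1)))
    (hnum : al m ((d + 1) / 2) ≤ (n + 1) * al m (d / 2 - 1)) (i j : ℕ) :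
    (gradedBetti (Ann (form p G)) i j : ℤ) = redTable m n d (gradedBetti (AnnFam p)) i j := by
  have hfin := AF_fin (form_hom (G := G) (by omega) hp hG)
  have hcard := fam_card_le hp hl
  rw [← al_eq hm] at hcard
  have hlin : hilb (Ann (form p G)) 1 = m + (n + 1) := by
    rw [hmax 1 (by omega) (by omega), al_one hm, al_zero hm]
    omega
  refine red_low hd hp hG hl hlin (GA.low_of_mid _ hm hd ?_) i j
  have h1 : hilb (Ann (form p G)) (d / 2) = _ := hmax (d / 2) (by omega) (by omega)
  have e : (d + 1) / 2 = d - d / 2 := by omega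
  rw [e] at hnum
  rw [min_eq_left (by omega), al_eq hm, al_eq hm] at h1
  exact h1

theorem red_min (hm : 1 ≤ m) (hmn : m ≤ n) (hd : 2 ≤ d) (hp : ∀ i, (p i).IsHomogeneous (d - 1))
    (hG : G.IsHomogeneous d) (hl : LinearIndependent K p)
    (hmin : ∀ q, 1 ≤ q → 2 * q ≤ d → hilb (Ann (form p G)) q =
      min (2 * (n + 1)) (min (al m q + (n + 1)) (al m q + al m (d - q))))
    (hnum : al m ((d + 1) / 2) ≤ n + 1) (i j : ℕ) :
    (gradedBetti (Ann (form p G)) i j : ℤ) = redTable m n d (gradedBetti (AnnFam p)) i j := by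
  have hfin := AF_fin (form_hom (G := G) (by omega) hp hG)
  have hcard := fam_card_le hp hl
  rw [← al_eq hm] at hcard
  have hlin : hilb (Ann (form p G)) 1 = m + (n + 1) := by
    rw [hmin 1 (by omega) (by omega), al_one hm]
    omega
  refine red_low hd hp hG hl hlin (GA.low_of_mid _ hm hd ?_) i j
  have h1 : hilb (Ann (form p G)) (d / 2) = _ := hmin (d / 2) (by omega) (by omega)
  have e : (d + 1) / 2 = d - d / 2 := by omega
  rw [e] at hnum
  have h2 : al m (d / 2) ≤ al m (d - d / 2) := al_mono hm (by omega)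
  rw [← al_eq hm, ← al_eq hm]
  refine h1.trans ?_
  omega

omit [CharZero K] in
theorem AnnFam_one (h1 : hilb (AnnFam p) 1 = m) (c : Fin m → K)
    (hc : ∑ v, c v • (X v : MvPolynomial (Fin m) K) ∈ AnnFam p) : ∀ v, c v = 0 := by
  have h2 := LinearMap.finrank_range_add_finrank_ker
    ((Ideal.Quotient.mkₐ K (AnnFam p)).toLinearMap.domRestrict (PP K m 1))
  rw [LinearMap.range_domRestrict, finrank_PP, Nat.multichoose_one_right] at h2
  have h3 : Module.finrank K ((PP K m 1).map (Ideal.Quotient.mkₐ K (AnnFam p)).toLinearMap) = m :=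
    h1
  have h4 : Module.finrank K (LinearMap.ker
      ((Ideal.Quotient.mkₐ K (AnnFam p)).toLinearMap.domRestrict (PP K m 1))) = 0 := by omega
  have h5 := Submodule.finrank_eq_zero.1 h4
  have h6 : ∑ v, c v • (X v : MvPolynomial (Fin m) K) ∈ PP K m 1 :=
    Submodule.sum_mem _ fun v _ => Submodule.smul_mem _ _ (isHomogeneous_X K v)
  have h7 : (⟨_, h6⟩ : PP K m 1) ∈ LinearMap.ker
      ((Ideal.Quotient.mkₐ K (AnnFam p)).toLinearMap.domRestrict (PP K m 1)) := by
    rw [LinearMap.mem_ker]
    exact Ideal.Quotient.eq_zero_iff_mem.2 hc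
  rw [h5, Submodule.mem_bot] at h7
  exact GA.sumX_ne (congrArg Subtype.val h7)

theorem red_split (hd : 2 ≤ d) (hp : ∀ i, (p i).IsHomogeneous (d - 1))
    (hG : G.IsHomogeneous d) (hl : LinearIndependent K p)
    (h1 : hilb (AnnFam p) 1 = m)
    (hh : ∀ q, 1 ≤ q → q + 1 ≤ d → hilb (Ann (form p G)) q =
      hilb (AnnFam p) q + hilb (AnnFam p) (d - q))
    (hrow : ∀ q, 1 ≤ q → q + 2 ≤ d → (∀ k, gradedBetti (AnnFam p) k (k + q) = 0) ∨
      (∀ k, gradedBetti (AnnFam p) k (k + (d - 1 - q)) = 0)) (i j : ℕ) :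
    (gradedBetti (Ann (form p G)) i j : ℤ) = redTable m n d (gradedBetti (AnnFam p)) i j := by
  have hfin := AF_fin (form_hom (by omega) hp hG)
  have hlin : hilb (Ann (form p G)) 1 = m + (n + 1) :=
    hlin_of_AnnFam hl fun c hc => AnnFam_one h1 c hc
  refine red_main hd hp hG hl hlin ?_ ?_ ?_ i j
  · intro q hq
    refine GA.E_eq _ ?_
    have e1 := (fGA (by omega) hp hG hl hlin).finrank_𝒬 (q + 1)
    have e2 := (fGA (by omega) hp hG hl hlin).finrank_EE (q := q + 1) (by omega) (by omega)
    have e3 := hh (q + 1) (by omega) (by omega)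
    rw [fam_hilb (by omega) hp hG hl hlin, fam_hilb (by omega) hp hG hl hlin] at e3
    have e4 : Module.finrank K ((fGA (by omega) hp hG hl hlin).𝒜 (q + 1)) =
      hilb (Ann (form p G)) (q + 1) := rfl
    have e5 : Module.finrank K ((fGA (by omega) hp hG hl hlin).EE (q + 1)) =
      Module.finrank K ((fGA (by omega) hp hG hl hlin).E q) := rfl
    omega
  · refine GA.uind_of_I _ ?_
    rw [eq_bot_iff]
    intro φ hφ
    have hmem := (fGA_mem (by omega) hp hG hl hlin φ).1 (GA.mem_I _ |>.1 hφ).2
    have h2 := LinearMap.finrank_range_add_finrank_ker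
      ((Ideal.Quotient.mkₐ K (AnnFam p)).toLinearMap.domRestrict (PP K m 1))
    rw [LinearMap.range_domRestrict, finrank_PP, Nat.multichoose_one_right] at h2
    have h3 : Module.finrank K ((PP K m 1).map
      (Ideal.Quotient.mkₐ K (AnnFam p)).toLinearMap) = m := h1
    have h4 : Module.finrank K (LinearMap.ker
        ((Ideal.Quotient.mkₐ K (AnnFam p)).toLinearMap.domRestrict (PP K m 1))) = 0 := by omega
    have h5 := Submodule.finrank_eq_zero.1 h4
    have h7 : (⟨φ, (GA.mem_I _ |>.1 hφ).1⟩ : PP K m 1) ∈ LinearMap.ker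
        ((Ideal.Quotient.mkₐ K (AnnFam p)).toLinearMap.domRestrict (PP K m 1)) := by
      rw [LinearMap.mem_ker]
      exact Ideal.Quotient.eq_zero_iff_mem.2 hmem
    rw [h5, Submodule.mem_bot] at h7
    rw [Submodule.mem_bot]
    exact congrArg Subtype.val h7
  · intro q hq1 hq2
    rcases hrow q hq1 hq2 with h | h
    · left
      intro k
      rw [← fam_betti (by omega) hp hG hl hlin]
      exact h k
    · right
      intro k
      rw [← fam_betti (by omega) hp hG hl hlin]
      exact h k

theorem red_free (hd : 2 ≤ d) (hp : ∀ i, (p i).IsHomogeneous (d - 1))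
    (hG : G.IsHomogeneous d) (hl : LinearIndependent K p)
    (hfree : ∀ q, ∀ φ : MvPolynomial (Fin m) K, 2 * q ≤ d + 1 → φ.IsHomogeneous q →
      φ ∈ AnnFam p → φ = 0) (i j : ℕ) :
    (gradedBetti (Ann (form p G)) i j : ℤ) = redTable m n d (gradedBetti (AnnFam p)) i j := by
  have hlin : hilb (Ann (form p G)) 1 = m + (n + 1) :=
    hlin_of_AnnFam hl fun c hc => GA.sumX_ne (hfree 1 _ (by omega)
      (Submodule.sum_mem (homogeneousSubmodule (Fin m) K 1)
        fun v _ => Submodule.smul_mem _ _ (isHomogeneous_X K v)) hc)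
  refine red_low hd hp hG hl hlin ?_ i j
  intro q hq
  rw [eq_bot_iff]
  intro φ hφ
  exact hfree q φ hq (GA.mem_I _ |>.1 hφ).1
    ((fGA_mem (by omega) hp hG hl hlin φ).1 (GA.mem_I _ |>.1 hφ).2)

end Pool.Agent.Perazzo
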