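import Pool.Agent.Lib.MP_44b5f4_ag.Green
import Pool.Agent.Lib.MP_44b5f4_ag.Hom0
import Pool.Agent.Lib.MP_44b5f4_ag.RedMain

/-!
# Perazzo algebras of large socle degree with small Hilbert function
-/

set_option autoImplicit false

namespace Pool.Agent.Perazzo

open Finset

namespace GA

variable {K A : Type} [Field K] [CommRing A] [Algebra K A] {m N d : ℕ} (G : GA K A m N d)

theorem 𝒬_gen_le {q : ℕ} {V : Submodule K (A ⧸ G.Z)} (h : ∀ v, ∀ a ∈ G.𝒬 q, G.UQ v a ∈ V) :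
    G.𝒬 (q + 1) ≤ V := by
  unfold 𝒬
  rw [Submodule.map_le_iff_le_comap]
  refine G.gen_le fun v a ha => ?_
  rw [Submodule.mem_comap]
  induction v using Fin.addCases with
  | left v => exact h v _ ⟨a, ha, rfl⟩
  | right j =>
    have : G.Z.mkQ (G.y (Fin.natAdd m j) * a) = 0 :=
      (Submodule.Quotient.mk_eq_zero G.Z).2 (G.x_mem_Z j a)
    rw [this]
    exact Submodule.zero_mem _

theorem surj_up {q : ℕ} {c : Fin m → K} (h : G.𝒬 (q + 1) ≤ (G.𝒬 q).map (G.L c)) (k : ℕ) :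
    G.𝒬 (q + k + 1) ≤ (G.𝒬 (q + k)).map (G.L c) := by
  induction k with
  | zero => exact h
  | succ k ih =>
    have e : q + (k + 1) + 1 = q + k + 1 + 1 := by omega
    rw [e]
    refine G.𝒬_gen_le fun v a ha => ?_
    obtain ⟨b, hb, rfl⟩ := ih ha
    refine ⟨G.UQ v b, G.𝒬_mul hb v, ?_⟩
    exact G.L_UQ c v b

variable [FiniteDimensional K A]

theorem fin_down {q : ℕ} {c : Fin m → K} (h : G.𝒬 (q + 1) ≤ (G.𝒬 q).map (G.L c)) (k : ℕ) :
    Module.finrank K (G.𝒬 (q + 1 + k)) ≤ Module.finrank K (G.𝒬 (q + 1)) := by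
  induction k with
  | zero => exact le_rfl
  | succ k ih =>
    refine le_trans ?_ ih
    have e : q + 1 + (k + 1) = q + (k + 1) + 1 := by omega
    have e' : q + 1 + k = q + (k + 1) := by omega
    rw [e, e']
    exact (Submodule.finrank_mono (G.surj_up h (k + 1))).trans (Submodule.finrank_map_le _ _)

theorem fin_last (hd : 1 ≤ d) : Module.finrank K (G.𝒬 (d - 1)) = N := by
  have h5 := G.finrank_EE (q := 1) (by omega) (by omega)
  have h6 : Module.finrank K (G.EE 1) = N := G.F5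
  omega

theorem EE_le_fin {q : ℕ} : Module.finrank K (G.EE q) ≤
    Module.finrank K (G.Z ⊓ G.𝒜 q : Submodule K A) := by
  cases q with
  | zero =>
    have : G.EE 0 = ⊥ := rfl
    rw [this, finrank_bot]
    exact Nat.zero_le _
  | succ q => exact G.F3 q

/-- The data obtained from the bound of the Hilbert function in degree `N`. -/
theorem pts [CharZero K] (hN : 1 ≤ N) (hd : 2 * N ≤ d) (h : Module.finrank K (G.𝒜 N) ≤ 2 * N) :
    ∃ c : Fin m → K, (∀ q, N ≤ q + 1 → G.𝒬 (q + 1) ≤ (G.𝒬 q).map (G.L c)) ∧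
      (∀ q, N ≤ q → q + 1 ≤ d → Module.finrank K (G.𝒬 q) = N) ∧
      (∀ q, N ≤ q → q + 2 ≤ d → ∀ a ∈ G.𝒬 q, G.L c a = 0 → a = 0) := by
  have hlast := G.fin_last (by omega)
  have h1 := G.finrank_𝒬 N
  have h2 := G.finrank_EE (q := N) hN (by omega)
  have h3 := G.EE_le_fin (q := N)
  have hNle : Module.finrank K (G.𝒬 N) ≤ N := by
    by_contra hcon
    have h4 : Module.finrank K (G.𝒬 (d - N)) + 1 ≤ N := by omega
    obtain ⟨q, hq⟩ : ∃ q, d - N = q + 1 := ⟨d - N - 1, by omega⟩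
    rw [hq] at h4
    obtain ⟨c, hc⟩ := G.green (q := q) (by omega)
    have h5 := G.fin_down hc (d - 1 - (q + 1))
    have e : q + 1 + (d - 1 - (q + 1)) = d - 1 := by omega
    rw [e] at h5
    omega
  obtain ⟨M, hM⟩ : ∃ M, N = M + 1 := ⟨N - 1, by omega⟩
  obtain ⟨c, hc⟩ : ∃ c : Fin m → K, G.𝒬 (M + 1) ≤ (G.𝒬 M).map (G.L c) :=
    G.green (by rw [← hM]; exact hNle)
  have hsurj : ∀ q, N ≤ q + 1 → G.𝒬 (q + 1) ≤ (G.𝒬 q).map (G.L c) := by
    intro q hq
    have h5 := G.surj_up hc (q - M)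
    have e : M + (q - M) = q := by omega
    rwa [e] at h5
  have hanti : ∀ q q', N ≤ q → q ≤ q' → Module.finrank K (G.𝒬 q') ≤ Module.finrank K (G.𝒬 q) := by
    intro q q' hq hqq
    obtain ⟨q, rfl⟩ : ∃ q1, q = q1 + 1 := ⟨q - 1, by omega⟩
    have h5 := G.fin_down (hsurj q hq) (q' - (q + 1))
    have e : q + 1 + (q' - (q + 1)) = q' := by omega
    rwa [e] at h5
  have hfin : ∀ q, N ≤ q → q + 1 ≤ d → Module.finrank K (G.𝒬 q) = N := by
    intro q hq hqd
    have h5 := hanti N q le_rfl hq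
    have h6 := hanti q (d - 1) hq (by omega)
    omega
  refine ⟨c, hsurj, hfin, ?_⟩
  intro q hq hqd a ha h0
  have h7 : Function.Surjective (G.TL q c) := by
    rintro ⟨b, hb⟩
    obtain ⟨a', ha', hb'⟩ := hsurj q (by omega) hb
    exact ⟨⟨a', ha'⟩, Subtype.ext hb'⟩
  have h8 : Function.Injective (G.TL q c) :=
    (LinearMap.injective_iff_surjective_of_finrank_eq_finrank (by
      rw [hfin q hq (by omega), hfin (q + 1) (by omega) (by omega)])).2 h7
  have h9 : (⟨a, ha⟩ : G.𝒬 q) = 0 := h8 (by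
    rw [map_zero]
    exact Subtype.ext h0)
  exact congrArg Subtype.val h9

omit [FiniteDimensional K A] in
/-- The variables `x` generate their annihilator. -/
theorem pts_step {c : Fin m → K} {e : ℕ} (he : 1 ≤ e)
    (hsurj : G.𝒬 e ≤ (G.𝒬 (e - 1)).map (G.L c))
    (hinj : ∀ a ∈ G.𝒬 e, G.L c a = 0 → a = 0)
    (h : G.Z ⊓ G.𝒜 e ≤ G.EE e) : G.Z ⊓ G.𝒜 (e + 1) ≤ G.EE (e + 1) := by
  set ℓ : MvPolynomial (Fin m) K := ∑ v, c v • MvPolynomial.X v with hℓ
  have hℓθ : ∀ χ : MvPolynomial (Fin m) K, G.Z.mkQ (G.θ (ℓ * χ)) = G.L c (G.Z.mkQ (G.θ χ)) := by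
    intro χ
    rw [hℓ, map_mul, map_sum, Finset.sum_mul, map_sum, L_apply]
    refine Finset.sum_congr rfl fun v _ => ?_
    rw [map_smul, θ_X, smul_mul_assoc, map_smul]
    rfl
  have hℓPP : ∀ {q : ℕ} {χ : MvPolynomial (Fin m) K}, χ ∈ PP K m q → ℓ * χ ∈ PP K m (q + 1) := by
    intro q χ hχ
    rw [hℓ, Finset.sum_mul]
    refine Submodule.sum_mem _ fun v _ => ?_
    rw [smul_mul_assoc]
    exact Submodule.smul_mem _ _ (X_mul_mem_PP K v hχ)
  -- every form of degree `e` is a multiple of `ℓ` modulo the ideal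
  have h1 : ∀ ψ ∈ PP K m e, ∃ χ ∈ PP K m (e - 1), ψ - ℓ * χ ∈ G.I e := by
    intro ψ hψ
    obtain ⟨b, hb, hbb⟩ := hsurj ⟨G.θ ψ, G.θ_mem hψ, rfl⟩
    unfold 𝒬 at hb
    rw [map_mkQ] at hb
    obtain ⟨χ, hχ, rfl⟩ := hb
    refine ⟨χ, hχ, ?_⟩
    rw [mem_I]
    constructor
    · refine Submodule.sub_mem _ hψ ?_
      have := hℓPP hχ
      have e1 : e - 1 + 1 = e := by omega
      rwa [e1] at this
    · have h2 : G.Z.mkQ (G.θ (ψ - ℓ * χ)) = 0 := by
        rw [map_sub, map_sub, hℓθ]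
        have h3 : G.L c (G.Z.mkQ (G.θ χ)) = G.Z.mkQ (G.θ ψ) := hbb
        rw [h3, sub_self]
      exact (Submodule.Quotient.mk_eq_zero G.Z).1 h2
  let J : Submodule K (MvPolynomial (Fin m) K) :=
    ⨆ v, (G.I e).map (LinearMap.mulLeft K (MvPolynomial.X v : MvPolynomial (Fin m) K))
  have hJ : ∀ v, ∀ ι ∈ G.I e, MvPolynomial.X v * ι ∈ J := fun v ι hι =>
    Submodule.mem_iSup_of_mem v ⟨ι, hι, rfl⟩
  have hℓJ : ∀ ι ∈ G.I e, ℓ * ι ∈ J := by
    intro ι hι
    rw [hℓ, Finset.sum_mul]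
    refine Submodule.sum_mem _ fun v _ => ?_
    rw [smul_mul_assoc]
    exact Submodule.smul_mem _ _ (hJ v ι hι)
  have h2 : PP K m (e + 1) ≤ (PP K m e).map (LinearMap.mulLeft K ℓ) ⊔ J := by
    refine PP_gen_le K fun v ψ hψ => ?_
    obtain ⟨χ, hχ, hι⟩ := h1 ψ hψ
    have e2 : MvPolynomial.X v * ψ = ℓ * (MvPolynomial.X v * χ) +
        MvPolynomial.X v * (ψ - ℓ * χ) := by ring
    rw [e2]
    refine Submodule.add_mem _ ?_ (Submodule.mem_sup_right (hJ v _ hι))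
    refine Submodule.mem_sup_left ⟨_, ?_, rfl⟩
    have := X_mul_mem_PP K v hχ
    have e1 : e - 1 + 1 = e := by omega
    rwa [e1] at this
  have h3 : G.I (e + 1) ≤ J := by
    intro φ hφ
    obtain ⟨_, ⟨χ, hχ, rfl⟩, ι, hι, hsum⟩ := Submodule.mem_sup.1 (h2 (G.mem_I.1 hφ).1)
    have hJI : J ≤ G.I (e + 1) := by
      refine iSup_le fun v => ?_
      rintro _ ⟨a, ha, rfl⟩
      exact G.X_mul_mem_I v ha
    have h4 : ℓ * χ ∈ G.I (e + 1) := by
      have h5 : ℓ * χ = φ - ι := by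
        rw [← hsum]
        show ℓ * χ = ℓ * χ + ι - ι
        ring
      rw [h5]
      exact Submodule.sub_mem _ hφ (hJI hι)
    have h5 : G.Z.mkQ (G.θ χ) = 0 := by
      refine hinj _ ⟨G.θ χ, G.θ_mem hχ, rfl⟩ ?_
      rw [← hℓθ]
      exact (Submodule.Quotient.mk_eq_zero G.Z).2 (G.mem_I.1 h4).2
    have h6 : χ ∈ G.I e := G.mem_I.2 ⟨hχ, (Submodule.Quotient.mk_eq_zero G.Z).1 h5⟩
    rw [← hsum]
    exact Submodule.add_mem _ (hℓJ χ h6) hι
  have h4 : J ≤ (G.EE (e + 1)).comap G.θ.toLinearMap := by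
    refine iSup_le fun v => ?_
    rintro _ ⟨ι, hι, rfl⟩
    rw [Submodule.mem_comap]
    show G.θ (MvPolynomial.X v * ι) ∈ _
    rw [map_mul, θ_X]
    exact G.EE_mul (h ⟨(G.mem_I.1 hι).2, G.θ_mem (G.mem_I.1 hι).1⟩) v
  rintro z ⟨hz1, hz2⟩
  obtain ⟨_, ⟨φ, hφ, rfl⟩, x, hx, rfl⟩ := Submodule.mem_sup.1 (G.𝒜_succ_le e hz2)
  have h5 : φ ∈ G.I (e + 1) := by
    refine G.mem_I.2 ⟨hφ, ?_⟩
    have h6 := Submodule.sub_mem _ hz1 (G.E_le_Z e hx)
    rw [add_sub_cancel_right] at h6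
    exact h6
  exact Submodule.add_mem _ (h4 (h3 h5)) hx

theorem pts_split [CharZero K] (hN : 1 ≤ N) (hd : 2 * N ≤ d)
    (h : Module.finrank K (G.𝒜 N) ≤ 2 * N) : G.IsSplit := by
  obtain ⟨c, hsurj, hfin, hinj⟩ := G.pts hN hd h
  have hup : ∀ k, N + k + 1 ≤ d → G.Z ⊓ G.𝒜 (N + k) ≤ G.EE (N + k) := by
    intro k
    induction k with
    | zero =>
      intro _
      obtain ⟨M, rfl⟩ : ∃ M, N = M + 1 := ⟨N - 1, by omega⟩
      refine G.E_eq ?_
      have h1 := G.finrank_𝒬 (M + 1)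
      have h2 := G.finrank_EE (q := M + 1) hN (by omega)
      have h3 := hfin (M + 1) le_rfl (by omega)
      have h4 := hfin (d - (M + 1)) (by omega) (by omega)
      have h5 : Module.finrank K (G.EE (M + 1)) = Module.finrank K (G.E M) := rfl
      have h6 : Module.finrank K (G.Z ⊓ G.𝒜 (M + 1) : Submodule K A) ≤ M + 1 := by omega
      have h7 : Module.finrank K (G.E M) = M + 1 := by omega
      rw [h7]
      exact h6
    | succ k ih =>
      intro hk
      have e1 : N + (k + 1) = N + k + 1 := by omega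
      rw [e1]
      refine G.pts_step (c := c) (by omega) ?_ (hinj _ (by omega) (by omega)) (ih (by omega))
      have h1 := hsurj (N + k - 1) (by omega)
      have e2 : N + k - 1 + 1 = N + k := by omega
      rwa [e2] at h1
  have hhigh : ∀ q, N ≤ q → q + 1 ≤ d → G.Z ⊓ G.𝒜 q ≤ G.EE q := by
    intro q hq hqd
    have h1 := hup (q - N) (by omega)
    have e1 : N + (q - N) = q := by omega
    rwa [e1] at h1
  intro q hq
  by_cases hqN : N ≤ q + 1
  · exact hhigh (q + 1) hqN (by omega)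
  · refine G.E_eq ?_
    have h1 := G.finrank_𝒬 (q + 1)
    have h2 := G.finrank_EE (q := q + 1) (by omega) (by omega)
    have h3 := G.finrank_𝒬 (d - (q + 1))
    have h4 := G.finrank_EE (q := d - (q + 1)) (by omega) (by omega)
    have h5 := Submodule.finrank_mono (hhigh (d - (q + 1)) (by omega) (by omega))
    have h6 := G.EE_le_fin (q := d - (q + 1))
    have h7 := G.F4 (p := q + 1) (q := d - (q + 1)) (by omega)
    have e1 : d - (d - (q + 1)) = q + 1 := by omega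
    rw [e1] at h4
    have h8 : Module.finrank K (G.EE (q + 1)) = Module.finrank K (G.E q) := rfl
    omega

theorem pts_row [CharZero K] (hN : 1 ≤ N) (hd : 2 * N ≤ d)
    (h : Module.finrank K (G.𝒜 N) ≤ 2 * N) {q : ℕ} (hq : 1 ≤ q) (hqd : q + 2 ≤ d) :
    G.RowOK q := by
  obtain ⟨c, hsurj, hfin, hinj⟩ := G.pts hN hd h
  have hrow : ∀ q, 1 ≤ q → N ≤ q → q + 2 ≤ d → ∀ k, betti G.UQ G.𝒬 k (k + q) = 0 := by
    intro q hq1 hqN hqd k
    obtain ⟨q, rfl⟩ : ∃ q', q = q' + 1 := ⟨q - 1, by omega⟩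
    have hm : ∀ q, ∀ v, ∀ a ∈ G.𝒬 q, G.UQ v a ∈ G.𝒬 (q + 1) := fun q v a ha => G.𝒬_mul ha v
    refine row_of_form (𝒜 := G.𝒬) (q := q) G.UQ G.UQ_comm hm c ?_ ?_ k
    · intro a ha
      obtain ⟨b, hb, hbb⟩ := hsurj q hqN ha
      exact ⟨b, hb, by rw [← L_apply]; exact hbb⟩
    · intro a ha h0
      exact hinj _ hqN hqd a ha (by rw [L_apply]; exact h0)
  by_cases hqN : N ≤ q
  · exact Or.inl (hrow q hq hqN hqd)
  · exact Or.inr (hrow (d - 1 - q) (by omega) (by omega) (by omega))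

end GA

open MvPolynomial

variable {K : Type} [Field K] [CharZero K] {m n d : ℕ} {p : Fin (n + 1) → MvPolynomial (Fin m) K}
  {G : MvPolynomial (Fin m) K}

theorem red_pts (hd : 2 * (n + 1) ≤ d) (hp : ∀ i, (p i).IsHomogeneous (d - 1))
    (hG : G.IsHomogeneous d) (hl : LinearIndependent K p)
    (hlin : hilb (Ann (form p G)) 1 = m + (n + 1))
    (hN : hilb (Ann (form p G)) (n + 1) ≤ 2 * (n + 1)) (i j : ℕ) :
    (gradedBetti (Ann (form p G)) i j : ℤ) = redTable m n d (gradedBetti (AnnFam p)) i j := by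
  have hfin := AF_fin (form_hom (by omega) hp hG)
  set Γ := fGA (by omega) hp hG hl hlin with hΓ
  have hN' : Module.finrank K (Γ.𝒜 (n + 1)) ≤ 2 * (n + 1) := hN
  have hs : Γ.IsSplit := Γ.pts_split (by omega) hd hN'
  refine red_main (by omega) hp hG hl hlin hs ?_
    (fun q h1 h2 => Γ.pts_row (by omega) hd hN' h1 h2) i j
  refine GA.uind_of_I _ ?_
  have h1 := Γ.F1 1
  rw [Nat.multichoose_one_right] at h1
  have h2 : Module.finrank K (Γ.𝒜 1) = m + (n + 1) := hlin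
  have h3 : Γ.Z ⊓ Γ.𝒜 1 = Γ.EE 1 := congrFun (Γ.Z_inf_eq (by omega) (by omega) hs) 1
  have h4 : Module.finrank K (Γ.EE 1) = n + 1 := Γ.F5
  rw [h3, h4, h2] at h1
  have h5 : Module.finrank K (Γ.I 1) = 0 := by omega
  exact Submodule.finrank_eq_zero.1 h5

end Pool.Agent.Perazzo
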