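import Pool.Agent.Lib.MP_44b5f4_ag.Pts

/-!
# The last row of the Betti table of the quotient
-/

set_option autoImplicit false

namespace Pool.Agent.Perazzo

open Finset

section shift

variable {K A : Type} [Field K] [AddCommGroup A] [Module K A]

/-- The ranks of the Koszul differentials do not change under an isomorphism of the pieces. -/
theorem rk_shift {r : ℕ} (X : Fin r → Module.End K A)
    (hX : ∀ v w, X v * X w = X w * X v) {𝒜 : ℕ → Submodule K A}
    (hm : ∀ q, ∀ v, ∀ a ∈ 𝒜 q, X v a ∈ 𝒜 (q + 1)) (c : Fin r → K) {q : ℕ}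
    (hs : ∀ a ∈ 𝒜 (q + 1), ∃ b ∈ 𝒜 q, ∑ v, c v • X v b = a)
    (hi : ∀ a ∈ 𝒜 (q + 1), ∑ v, c v • X v a = 0 → a = 0) (k : ℕ) :
    rk X 𝒜 k (q + 1) = rk X 𝒜 k q := by
  set L : Module.End K A := ∑ v, c v • X v with hL
  have hLa : ∀ a, L a = ∑ v, c v • X v a := by
    intro a
    rw [hL, LinearMap.sum_apply]
    rfl
  have hLX : ∀ v, X v * L = L * X v := by
    intro v
    refine LinearMap.ext fun a => ?_
    show X v (L a) = L (X v a)
    rw [hLa, hLa, map_sum]
    refine Finset.sum_congr rfl fun w _ => ?_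
    rw [map_smul]
    congr 1
    exact LinearMap.congr_fun (hX v w) a
  have hL𝒜 : ∀ q, ∀ a ∈ 𝒜 q, L a ∈ 𝒜 (q + 1) := by
    intro q a ha
    rw [hLa]
    exact Submodule.sum_mem _ fun v _ => Submodule.smul_mem _ _ (hm q v a ha)
  cases k with
  | zero => rw [rk_zero, rk_zero]
  | succ k =>
    unfold rk
    let Λ : ((Fin r → Bool) → A) →ₗ[K] ((Fin r → Bool) → A) :=
      { toFun := fun g t => L (g t)
        map_add' := fun g h => by funext t; simp
        map_smul' := fun a g => by funext t; simp }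
    have h1 : (KK 𝒜 (k + 1) (q + 1)).map (kos X) = ((KK 𝒜 (k + 1) q).map (kos X)).map Λ := by
      apply le_antisymm
      · rintro _ ⟨g, hg, rfl⟩
        have hg' := mem_KK.1 hg
        have hb : ∀ t, ∃ b, (bc t = k + 1 → b ∈ 𝒜 q) ∧ (bc t ≠ k + 1 → b = 0) ∧ L b = g t := by
          intro t
          by_cases ht : bc t = k + 1
          · obtain ⟨b, hb, hbb⟩ := hs _ ((hg' t).1 ht)
            exact ⟨b, fun _ => hb, fun h => absurd ht h, by rw [hLa, hbb]⟩
          · exact ⟨0, fun h => absurd h ht, fun _ => rfl, by rw [map_zero, (hg' t).2 ht]⟩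
        choose b hb1 hb2 hb3 using hb
        refine ⟨kos X b, ⟨b, mem_KK.2 fun t => ⟨hb1 t, hb2 t⟩, rfl⟩, ?_⟩
        have h2 := kos_comm X L hLX b
        rw [show (fun t => L (b t)) = g from funext hb3] at h2
        exact h2.symm
      · rintro _ ⟨_, ⟨g, hg, rfl⟩, rfl⟩
        have hg' := mem_KK.1 hg
        refine ⟨fun t => L (g t), mem_KK.2 fun t => ⟨fun ht => hL𝒜 _ _ ((hg' t).1 ht),
          fun ht => by rw [(hg' t).2 ht, map_zero]⟩, ?_⟩
        exact kos_comm X L hLX g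
    rw [h1]
    have h2 : (KK 𝒜 (k + 1) q).map (kos X) ≤ KK 𝒜 k (q + 1) := by
      rintro _ ⟨g, hg, rfl⟩
      exact kos_mem X (hm q) hg
    have h3 : Function.Injective (Λ.domRestrict ((KK 𝒜 (k + 1) q).map (kos X))) := by
      rw [← LinearMap.ker_eq_bot, eq_bot_iff]
      rintro ⟨g, hg⟩ h0
      have h4 := mem_KK.1 (h2 hg)
      have h5 : g = 0 := by
        funext t
        by_cases ht : bc t = k
        · refine hi _ ((h4 t).1 ht) ?_
          rw [← hLa]
          exact congrFun (show Λ g = 0 from h0) t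
        · exact (h4 t).2 ht
      rw [Submodule.mem_bot]
      exact Subtype.ext h5
    have h4 := LinearMap.finrank_range_of_inj h3
    rw [LinearMap.range_domRestrict] at h4
    exact h4

end shift

namespace GA

variable {K A : Type} [Field K] [CommRing A] [Algebra K A] {m N d : ℕ} (G : GA K A m N d)
  [FiniteDimensional K A]

/-- The vanishing rows and the last row of the quotient. -/
theorem pts_table [CharZero K] (hm : 1 ≤ m) (hN : 1 ≤ N) (hd : 2 * N ≤ d) (hd' : N + 3 ≤ d)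
    (h : Module.finrank K (G.𝒜 N) ≤ 2 * N) (k : ℕ) :
    (∀ q, N ≤ q → q + 2 ≤ d → betti G.UQ G.𝒬 k (k + q) = 0) ∧
      betti G.UQ G.𝒬 k (k + (d - 1)) + N * (m - 1).choose k = N * m.choose k := by
  obtain ⟨c, hsurj, hfin, hinj⟩ := G.pts hN hd h
  have hmul : ∀ q, ∀ v, ∀ a ∈ G.𝒬 q, G.UQ v a ∈ G.𝒬 (q + 1) := fun q v a ha => G.𝒬_mul ha v
  have hs : ∀ q, N ≤ q + 1 → ∀ a ∈ G.𝒬 (q + 1), ∃ b ∈ G.𝒬 q, ∑ v, c v • G.UQ v b = a := by
    intro q hq a ha
    obtain ⟨b, hb, hbb⟩ := hsurj q hq ha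
    exact ⟨b, hb, by rw [← L_apply]; exact hbb⟩
  have hi : ∀ q, N ≤ q → q + 2 ≤ d → ∀ a ∈ G.𝒬 q, ∑ v, c v • G.UQ v a = 0 → a = 0 :=
    fun q hq hqd a ha h0 => hinj q hq hqd a ha (by rw [L_apply]; exact h0)
  have hrow : ∀ q, N ≤ q → q + 2 ≤ d → ∀ k, betti G.UQ G.𝒬 k (k + q) = 0 := by
    intro q hqN hqd k
    obtain ⟨q, rfl⟩ : ∃ q', q = q' + 1 := ⟨q - 1, by omega⟩
    exact row_of_form (𝒜 := G.𝒬) (q := q) G.UQ G.UQ_comm hmul c (hs q hqN) (hi _ hqN hqd) k
  refine ⟨fun q h1 h2 => hrow q h1 h2 k, ?_⟩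
  have hsum : ∀ k, rk G.UQ G.𝒬 k (d - 2) + rk G.UQ G.𝒬 (k + 1) (d - 2) = m.choose k * N := by
    intro k
    have h1 := betti_succ G.UQ G.UQ_comm (𝒜 := G.𝒬) hmul k (d - 3)
    have e1 : d - 3 + 1 = d - 2 := by omega
    have h2 := rk_shift (𝒜 := G.𝒬) (q := d - 3) G.UQ G.UQ_comm hmul c
      (hs _ (by omega)) (by rw [e1]; exact hi _ (by omega) (by omega)) (k + 1)
    rw [e1] at h1 h2
    rw [hrow _ (by omega) (by omega), hfin _ (by omega) (by omega)] at h1
    omega
  have hR : ∀ k, rk G.UQ G.𝒬 (k + 1) (d - 2) = (m - 1).choose k * N := by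
    intro k
    induction k with
    | zero =>
      have h1 := hsum 0
      rw [rk_zero] at h1
      rw [Nat.choose_zero_right] at h1 ⊢
      omega
    | succ k ih =>
      have h1 := hsum (k + 1)
      rw [ih] at h1
      obtain ⟨m, rfl⟩ : ∃ m', m = m' + 1 := ⟨m - 1, by omega⟩
      rw [Nat.choose_succ_succ, add_mul] at h1
      have e1 : m + 1 - 1 = m := rfl
      rw [e1] at h1 ⊢
      have e2 : k.succ = k + 1 := rfl
      rw [e2] at h1
      omega
  have h1 := betti_succ G.UQ G.UQ_comm (𝒜 := G.𝒬) hmul k (d - 2)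
  have e1 : d - 2 + 1 = d - 1 := by omega
  rw [e1, hR, hfin _ (by omega) (by omega)] at h1
  have h2 : rk G.UQ G.𝒬 k (d - 1) = 0 := by
    have h3 : ∀ g ∈ KK G.𝒬 k (d - 1), kos G.UQ g = 0 := by
      intro g hg
      cases k with
      | zero => exact kos_zero _ hg
      | succ k =>
        have h4 := mem_KK.1 (kos_mem G.UQ (hmul (d - 1)) hg)
        funext t
        by_cases ht : bc t = k
        · have h5 := (h4 t).1 ht
          have e3 : d - 1 + 1 = d := by omega
          rw [e3] at h5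
          obtain ⟨b, hb, hbb⟩ := h5
          rw [← hbb]
          exact (Submodule.Quotient.mk_eq_zero G.Z).2 (G.𝒜_d_le_Z hb)
        · exact (h4 t).2 ht
    unfold rk
    rw [Submodule.finrank_eq_zero, eq_bot_iff]
    rintro _ ⟨g, hg, rfl⟩
    rw [h3 g hg]
    exact Submodule.zero_mem _
  rw [h2, add_zero, mul_comm ((m - 1).choose k), mul_comm (m.choose k)] at h1
  exact h1

end GA

open MvPolynomial

variable {K : Type} [Field K] [CharZero K] {m n d : ℕ} {p : Fin (n + 1) → MvPolynomial (Fin m) K}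
  {G : MvPolynomial (Fin m) K}

theorem red_pts_table (hm : 1 ≤ m) (hd : 2 * (n + 1) ≤ d) (hd' : n + 4 ≤ d)
    (hp : ∀ i, (p i).IsHomogeneous (d - 1))
    (hG : G.IsHomogeneous d) (hl : LinearIndependent K p)
    (hlin : hilb (Ann (form p G)) 1 = m + (n + 1))
    (hN : hilb (Ann (form p G)) (n + 1) ≤ 2 * (n + 1)) (k : ℕ) :
    (∀ q, n + 1 ≤ q → q + 2 ≤ d → gradedBetti (AnnFam p) k (k + q) = 0) ∧
      gradedBetti (AnnFam p) k (k + (d - 1)) + (n + 1) * (m - 1).choose k =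
        (n + 1) * m.choose k := by
  have hfin := AF_fin (form_hom (by omega) hp hG)
  have h1 := (fGA (by omega) hp hG hl hlin).pts_table hm (by omega) hd (by omega) hN k
  rw [fam_betti (by omega) hp hG hl hlin]
  refine ⟨fun q h2 h3 => ?_, h1.2⟩
  rw [fam_betti (by omega) hp hG hl hlin]
  exact h1.1 q h2 h3

end Pool.Agent.Perazzo
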