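import Pool.Agent.Lib.MP_44b5f4_ag.Koszul2

/-!
# Lifting cycles of the quotient
-/

set_option autoImplicit false

namespace Pool.Agent.Perazzo

open Finset

variable {K A : Type} [Field K] [AddCommGroup A] [Module K A]

/-- Every cycle modulo `E` can be corrected by an element of `E` to a cycle, and its multiples by
the trivial variables `z j` are boundaries in `E`. -/
def QProp {r : ℕ} {ι : Type} (X : Fin r → Module.End K A) (z : ι → Module.End K A)
    (E : Submodule K A) (𝒜 : ℕ → Submodule K A) (q : ℕ) : Prop :=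
  ∀ k, ∀ c ∈ KK 𝒜 k q, kos X c ∈ CE E r →
    (∃ e ∈ KK (fun q => E ⊓ 𝒜 q) k q, kos X c = kos X e) ∧
    ∀ j, ∃ ε ∈ KK (fun q => E ⊓ 𝒜 q) (k + 1) q, (fun t => z j (c t)) = kos X ε

theorem mem_CE_of_KK {r : ℕ} {E : Submodule K A} {𝒜 : ℕ → Submodule K A} {k q : ℕ}
    {g : (Fin r → Bool) → A} (hg : g ∈ KK (fun q => E ⊓ 𝒜 q) k q) : g ∈ CE E r := by
  rw [mem_CE]
  rw [mem_KK] at hg
  intro t
  by_cases ht : bc t = k
  · exact ((hg t).1 ht).1
  · rw [(hg t).2 ht]; exact E.zero_mem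

theorem kos_congr {r : ℕ} {X Y : Fin r → Module.End K A} (h : ∀ v, X v = Y v) : kos X = kos Y := by
  have : X = Y := funext h
  rw [this]

theorem QProp.step {r : ℕ} {ι : Type} {X : Fin (r + 1) → Module.End K A}
    {z : ι → Module.End K A} {E : Submodule K A} {𝒜 : ℕ → Submodule K A} {q : ℕ}
    (zE : ∀ j a, z j a ∈ E) (z0 : ∀ j, ∀ a ∈ E, z j a = 0) {j0 : ι} (hX : X (Fin.last r) = z j0)
    (h : QProp (fun v => X v.castSucc) z E 𝒜 q) : QProp X z E 𝒜 q := by
  intro k c hc hcE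
  have hd := dbl_kos X c
  set c0 := (dbl K A r c).1 with hc0
  set c1 := (dbl K A r c).2 with hc1
  have hE1 : kos (fun v => X v.castSucc) c1 ∈ CE E r := by
    rw [mem_CE] at hcE ⊢
    intro t
    have h1 := hcE (Fin.snoc t true)
    rw [kos_snoc_true] at h1
    have h2 := E.neg_mem h1
    rw [neg_neg] at h2
    exact h2
  have hE0 : kos (fun v => X v.castSucc) c0 ∈ CE E r := by
    rw [mem_CE] at hcE ⊢
    intro t
    have h1 := hcE (Fin.snoc t false)
    rw [kos_snoc_false, hX] at h1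
    have h2 := E.sub_mem h1 (zE j0 (c (Fin.snoc t true)))
    rw [add_sub_cancel_right] at h2
    exact h2
  have zero_E : ∀ (j : ι) {g : (Fin r → Bool) → A}, g ∈ CE E r → (fun t => z j (g t)) = 0 := by
    intro j g hg
    funext t
    exact z0 j _ (mem_CE.1 hg t)
  cases k with
  | zero =>
    obtain ⟨m0, m1⟩ := dbl_mem_zero.1 hc
    obtain ⟨-, hz⟩ := h 0 c0 m0 hE0
    refine ⟨⟨0, Submodule.zero_mem _, by rw [kos_zero X hc, map_zero]⟩, fun j => ?_⟩
    obtain ⟨ε, hε, he⟩ := hz j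
    refine ⟨(dbl K A r).symm (ε, 0), dbl_symm_mem_succ hε (Submodule.zero_mem _), ?_⟩
    apply (dbl K A r).injective
    rw [dbl_kos, LinearEquiv.apply_symm_apply]
    ext t
    · have h1 := congrFun he t
      simp only [Pi.add_apply, Pi.zero_apply, map_zero, add_zero]
      rw [← h1]
      rfl
    · simp only [map_zero, neg_zero, Pi.zero_apply]
      show z j (c1 t) = 0
      rw [hc1, m1]
      simp
  | succ k =>
    obtain ⟨m0, m1⟩ := dbl_mem_succ.1 hc
    obtain ⟨⟨e0, he0, hee0⟩, hz0⟩ := h (k + 1) c0 m0 hE0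
    obtain ⟨⟨e1, he1, hee1⟩, hz1⟩ := h k c1 m1 hE1
    refine ⟨?_, fun j => ?_⟩
    · obtain ⟨ε, hε, he⟩ := hz1 j0
      refine ⟨(dbl K A r).symm (e0 + ε, e1), dbl_symm_mem_succ (Submodule.add_mem _ he0 hε) he1, ?_⟩
      apply (dbl K A r).injective
      rw [dbl_kos, dbl_kos, LinearEquiv.apply_symm_apply, ← hc0, ← hc1, hX]
      have h1 := zero_E j0 (mem_CE_of_KK he1)
      refine Prod.ext ?_ ?_
      · simp only
        rw [map_add, hee0, add_assoc, he]
        congr 1
        rw [h1, add_zero]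
      · simp only
        rw [hee1]
    · obtain ⟨ε0, hε0, h0⟩ := hz0 j
      obtain ⟨ε1, hε1, h1⟩ := hz1 j
      refine ⟨(dbl K A r).symm (ε0, -ε1), dbl_symm_mem_succ hε0 (Submodule.neg_mem _ hε1), ?_⟩
      apply (dbl K A r).injective
      rw [dbl_kos, LinearEquiv.apply_symm_apply, hX]
      have h2 := zero_E j0 (mem_CE_of_KK (Submodule.neg_mem _ hε1))
      refine Prod.ext ?_ ?_
      · simp only
        rw [h2, add_zero, ← h0]
        rfl
      · simp only [map_neg, neg_neg]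
        rw [← h1]
        rfl

theorem QProp.all {m : ℕ} (N : ℕ) {X : Fin (m + N) → Module.End K A}
    {ι : Type} {z : ι → Module.End K A} {E : Submodule K A} {𝒜 : ℕ → Submodule K A} {q : ℕ}
    (zE : ∀ j a, z j a ∈ E) (z0 : ∀ j, ∀ a ∈ E, z j a = 0)
    (hX : ∀ i : Fin N, ∃ j, X (Fin.natAdd m i) = z j)
    (h : QProp (fun v => X (Fin.castAdd N v)) z E 𝒜 q) : QProp X z E 𝒜 q := by
  induction N with
  | zero => exact h
  | succ N ih =>
    obtain ⟨j0, hj0⟩ := hX (Fin.last N)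
    refine QProp.step (r := m + N) zE z0 hj0 ?_
    exact ih (fun i => hX i.castSucc) h

end Pool.Agent.Perazzo
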