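import Pool.Agent.Lib.MP_44b5f4_ag.RedPoly

/-!
# Numerical conditions for the reduction
-/

set_option autoImplicit false

namespace Pool.Agent.Perazzo

open Finset

theorem kos_map {K A A' : Type} [Field K] [AddCommGroup A] [Module K A] [AddCommGroup A']
    [Module K A'] {r : ℕ} (ι : A' →ₗ[K] A) (X' : Fin r → Module.End K A')
    (X : Fin r → Module.End K A) (hX : ∀ v a, ι (X' v a) = X v (ι a)) (g : (Fin r → Bool) → A') :
    kos X (fun t => ι (g t)) = fun t => ι (kos X' g t) := by
  funext t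
  rw [kos_apply, kos_apply, map_sum]
  refine Finset.sum_congr rfl fun v _ => ?_
  split_ifs
  · rw [map_zero]
  · rw [map_smul, hX]

namespace GA

variable {K A : Type} [Field K] [CommRing A] [Algebra K A] {m N d : ℕ} (G : GA K A m N d)
  [FiniteDimensional K A]

/-- The projection from the polynomials in the variables `u`. -/
noncomputable def π : MvPolynomial (Fin m) K →ₗ[K] (A ⧸ G.Z) := G.Z.mkQ ∘ₗ G.θ.toLinearMap

omit [FiniteDimensional K A] in
theorem π_X (v : Fin m) (φ : MvPolynomial (Fin m) K) :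
    G.π (PX K m v φ) = G.UQ v (G.π φ) := by
  show G.Z.mkQ (G.θ (MvPolynomial.X v * φ)) = G.Z.mkQ (G.y (Fin.castAdd N v) * G.θ φ)
  rw [map_mul, θ_X]

/-- A row of the quotient vanishes if there are no relations up to the next degree. -/
theorem row_of_I [CharZero K] {q : ℕ} (h : G.I (q + 2) = ⊥) (k : ℕ) :
    betti G.UQ G.𝒬 k (k + (q + 1)) = 0 := by
  refine betti_eq_zero_of_exact G.UQ fun c hc h0 => ?_
  have hQ : ∀ q, G.𝒬 q = (PP K m q).map G.π := G.map_mkQ
  have hc' := mem_KK.1 hc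
  have h1 : ∀ t, ∃ φ, ((bc t = k → φ ∈ PP K m (q + 1)) ∧ (bc t ≠ k → φ = 0)) ∧ G.π φ = c t := by
    intro t
    by_cases ht : bc t = k
    · have h2 := (hc' t).1 ht
      rw [hQ] at h2
      obtain ⟨φ, hφ, hh⟩ := h2
      exact ⟨φ, ⟨fun _ => hφ, fun hne => absurd ht hne⟩, hh⟩
    · exact ⟨0, ⟨fun hh => absurd hh ht, fun _ => rfl⟩, by rw [map_zero, (hc' t).2 ht]⟩
  choose f hf1 hf2 using h1
  have hf : f ∈ KK (PP K m) k (q + 1) := mem_KK.2 hf1
  have hfc : (fun t => G.π (f t)) = c := funext hf2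
  have hk0 : kos (PX K m) f = 0 := by
    cases k with
    | zero => exact kos_zero _ hf
    | succ k =>
      have h3 := mem_KK.1 (kos_mem (PX K m) (fun v a ha => X_mul_mem_PP K v ha) hf)
      funext t
      by_cases ht : bc t = k
      · have h4 : kos (PX K m) f t ∈ G.I (q + 2) := by
          rw [mem_I]
          refine ⟨(h3 t).1 ht, ?_⟩
          have h5 := congrFun (kos_map G.π (PX K m) G.UQ G.π_X f) t
          rw [hfc, h0] at h5
          exact (Submodule.Quotient.mk_eq_zero G.Z).1 h5.symm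
        rw [h] at h4
        exact (Submodule.mem_bot K).1 h4
      · exact (h3 t).2 ht
  obtain ⟨f', hf', hkf⟩ := poly_exact hf hk0
  refine ⟨fun t => G.π (f' t), ?_, ?_⟩
  · have h3 := mem_KK.1 hf'
    rw [mem_KK]
    intro t
    refine ⟨fun ht => ?_, fun ht => ?_⟩
    · rw [hQ]
      exact ⟨_, (h3 t).1 ht, rfl⟩
    · rw [(h3 t).2 ht, map_zero]
  · rw [kos_map G.π (PX K m) G.UQ G.π_X, hkf]
    exact hfc

/-- There are no relations in low degrees. -/
def LowFree : Prop := ∀ q, 2 * q ≤ d + 1 → G.I q = ⊥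

theorem split_of_low (hG : G.LowFree) : G.IsSplit := by
  have hi : ∀ q, 2 * q ≤ d + 1 → Module.finrank K (G.I q) = 0 := by
    intro q hq
    rw [hG q hq, finrank_bot]
  have key : ∀ q, 2 * (q + 1) ≤ d → Module.finrank K (G.Z ⊓ G.𝒜 (q + 1) : Submodule K A) =
      Module.finrank K (G.E q) := by
    intro q hq
    have h1 := G.F1 (q + 1)
    have h2 := G.F7 q
    have h3 := G.F3 q
    have h4 := hi (q + 1) (by omega)
    omega
  intro q hq
  refine G.E_eq ?_
  by_cases h : 2 * (q + 1) ≤ d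
  · exact (key q h).le
  · have h1 := G.F2 (q := q + 1) (by omega)
    have h2 := G.F2 (q := d - (q + 1)) (by omega)
    have e1 : d - (d - (q + 1)) - 1 = q := by omega
    rw [e1] at h2
    have h3 := G.F4 (p := q + 1) (q := d - (q + 1)) (by omega)
    have h4 := key (d - (q + 1) - 1) (by omega)
    have e2 : d - (q + 1) - 1 + 1 = d - (q + 1) := by omega
    rw [e2] at h4
    omega

omit [FiniteDimensional K A] in
theorem sumX_ne {c : Fin m → K}
    (h : ∑ v, c v • (MvPolynomial.X v : MvPolynomial (Fin m) K) = 0) : ∀ v, c v = 0 :=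
  Fintype.linearIndependent_iff.1 (MvPolynomial.linearIndependent_X (Fin m) K) c h

omit [FiniteDimensional K A] in
theorem mem_Z_congr' {a b : A} (h : a - b ∈ G.Z) : a ∈ G.Z ↔ b ∈ G.Z := by
  constructor
  · intro ha
    have := G.Z.sub_mem ha h
    rwa [sub_sub_cancel] at this
  · intro hb
    have := G.Z.add_mem h hb
    rwa [sub_add_cancel] at this

omit [FiniteDimensional K A] in
theorem uind_of_I (h : G.I 1 = ⊥) : G.UInd := by
  intro c hc
  apply sumX_ne
  have h1 : ∑ v, c v • (MvPolynomial.X v : MvPolynomial (Fin m) K) ∈ G.I 1 := by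
    rw [mem_I]
    constructor
    · refine Submodule.sum_mem _ fun v _ => Submodule.smul_mem _ _ ?_
      exact MvPolynomial.isHomogeneous_X K v
    · rw [map_sum]
      have h2 : ∑ v, G.θ (c v • (MvPolynomial.X v : MvPolynomial (Fin m) K)) =
          ∑ v, c v • G.y (Fin.castAdd N v) := by
        refine Finset.sum_congr rfl fun v _ => ?_
        rw [map_smul, θ_X]
      rw [h2]
      exact hc
  rw [h] at h1
  exact (Submodule.mem_bot K).1 h1

theorem row_of_low [CharZero K] (hG : G.LowFree) {q : ℕ} (hq : 1 ≤ q) (hqd : q + 2 ≤ d) :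
    G.RowOK q := by
  by_cases h : 2 * (q + 1) ≤ d + 1
  · left
    obtain ⟨q, rfl⟩ : ∃ q', q = q' + 1 := ⟨q - 1, by omega⟩
    exact G.row_of_I (hG _ h)
  · right
    obtain ⟨s, hs⟩ : ∃ s, d - 1 - q = s + 1 := ⟨d - 1 - q - 1, by omega⟩
    rw [hs]
    exact G.row_of_I (hG _ (by omega))

omit [FiniteDimensional K A] in
theorem I_anti (hm : 1 ≤ m) {q q' : ℕ} (hqq : q ≤ q') (h : G.I q' = ⊥) : G.I q = ⊥ := by
  induction q' with
  | zero =>
    have : q = 0 := by omega
    rw [this]; exact h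
  | succ q' ih =>
    by_cases hc : q = q' + 1
    · rw [hc]; exact h
    · refine ih (by omega) ?_
      rw [eq_bot_iff]
      intro a ha
      have h1 := G.X_mul_mem_I (⟨0, hm⟩ : Fin m) ha
      rw [h, Submodule.mem_bot] at h1
      rw [Submodule.mem_bot]
      rcases mul_eq_zero.1 h1 with h2 | h2
      · exact absurd h2 (MvPolynomial.X_ne_zero _)
      · exact h2

/-- The middle degree. -/
theorem low_of_mid (hm : 1 ≤ m) (hd : 2 ≤ d)
    (h : Module.finrank K (G.𝒜 (d / 2)) = m.multichoose (d / 2) + m.multichoose (d - d / 2)) :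
    G.LowFree := by
  have h1 : Module.finrank K (G.I (d - d / 2)) = 0 := by
    have f1 := G.F7 (d / 2 - 1)
    have e1 : d / 2 - 1 + 1 = d / 2 := by omega
    rw [e1] at f1
    have f2 := G.F1 (d - d / 2)
    have f3 := G.F2 (q := d - d / 2) (by omega)
    have e2 : d - (d - d / 2) - 1 = d / 2 - 1 := by omega
    rw [e2] at f3
    omega
  intro q hq
  exact G.I_anti hm (q' := d - d / 2) (by omega) (Submodule.finrank_eq_zero.1 h1)

end GA

theorem al_eq {m : ℕ} (hm : 1 ≤ m) (q : ℕ) : al m q = m.multichoose q := by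
  unfold al
  rw [Nat.multichoose_eq]
  have e : m - 1 = m + q - 1 - q := by omega
  rw [e, Nat.choose_symm (by omega)]

theorem al_mono {m : ℕ} (hm : 1 ≤ m) {q q' : ℕ} (h : q ≤ q') : al m q ≤ al m q' :=
  Nat.choose_le_choose _ (by omega)

theorem al_one {m : ℕ} (hm : 1 ≤ m) : al m 1 = m := by
  rw [al_eq hm, Nat.multichoose_one_right]

theorem al_zero {m : ℕ} (hm : 1 ≤ m) : al m 0 = 1 := by
  rw [al_eq hm, Nat.multichoose_zero_right]

end Pool.Agent.Perazzo
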