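import Pool.Agent.Lib.MP_44b5f4_ag.Defs

/-!
# Reduction of the Betti numbers of a Perazzo algebra to those of a smaller algebra: definitions
-/

set_option autoImplicit false

namespace Pool.Agent.Perazzo

open MvPolynomial

variable {K : Type} [Field K] {m n : ℕ}

/-- The form `X_0 p_0 + ... + X_n p_n + G`. -/
noncomputable def form (p : Fin (n + 1) → MvPolynomial (Fin m) K) (G : MvPolynomial (Fin m) K) :
    MvPolynomial (Fin (m + (n + 1))) K :=
  ∑ i, X (Fin.natAdd m i) * rename (Fin.castAdd (n + 1)) (p i) + rename (Fin.castAdd (n + 1)) G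

/-- The ideal of the polynomials in `K[u_1, ..., u_m]` which annihilate all the `p_i`. -/
noncomputable def AnnFam (p : Fin (n + 1) → MvPolynomial (Fin m) K) :
    Ideal (MvPolynomial (Fin m) K) := ⨅ i, Ann (p i)

/-- The numbers obtained from `b` (the Betti numbers of an algebra `B` in `m` variables with
socle in degree `d - 1`): for `i < j < i + d` the value is
`∑ a, C (n + 1, a) (b (i - a) (j - a) + b (m - i + a) (m + d - j + a))`, minus `C (n + 1, i + 1)` if
`j = i + 1`, and minus `C (n + 1, i - 1 - m)` if `j = i + d - 1` and `m + 1 ≤ i ≤ m + n + 1`. -/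
def redTable (m n d : ℕ) (b : ℕ → ℕ → ℕ) (i j : ℕ) : ℤ :=
  if i = 0 ∧ j = 0 then 1
  else if i = m + n + 1 ∧ j = m + n + 1 + d then 1
  else if i < j ∧ j < i + d then
    ∑ a ∈ Finset.range (i + 1), ((n + 1).choose a : ℤ) *
      ((b (i - a) (j - a) : ℤ) + if i - a ≤ m then (b (m - (i - a)) (m + d - (j - a)) : ℤ) else 0) -
    (if j = i + 1 then ((n + 1).choose (i + 1) : ℤ) else 0) -
    (if j + 1 = i + d ∧ m + 1 ≤ i ∧ i ≤ m + n + 1 then ((n + 1).choose (i - 1 - m) : ℤ) else 0)
  else 0

/-- The dimension `C (m + q - 1, m - 1)` of the space of forms of degree `q` in `m` variables. -/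
def al (m q : ℕ) : ℕ := (m + q - 1).choose (m - 1)

end Pool.Agent.Perazzo
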