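import Pool.Agent.Lib.MP_44b5f4_ag.Split

/-!
# Vanishing rows and additivity
-/

set_option autoImplicit false

namespace Pool.Agent.Perazzo

open Finset

namespace GA

variable {K A : Type} [Field K] [CommRing A] [Algebra K A] {m N d : ℕ} (G : GA K A m N d)

theorem U_comm (v w : Fin m) : G.U v * G.U w = G.U w * G.U v := G.X_comm _ _

/-- The property of cycles, if a row of the quotient is exact. -/
theorem qprop_row {q : ℕ} (h : ∀ k, ∀ c ∈ KK G.𝒬 k (q + 1), kos G.UQ c = 0 →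
    ∃ c' ∈ KK G.𝒬 (k + 1) q, kos G.UQ c' = c) :
    QProp G.U (fun i : Fin N => G.X (Fin.natAdd m i)) G.Z G.𝒜 (q + 1) := by
  intro k c hc hcE
  have h1 : qmap G.Z m c ∈ KK G.𝒬 k (q + 1) := by
    unfold 𝒬
    rw [← qmap_KK]
    exact ⟨c, hc, rfl⟩
  have h2 : kos G.UQ (qmap G.Z m c) = 0 := by
    have h3 : kos G.UQ (qmap G.Z m c) = qmap G.Z m (kos G.U c) :=
      (qmap_kos G.U (fun v a ha => G.mul_mem_Z ha _) c).symm
    rw [h3]
    funext t
    exact (Submodule.Quotient.mk_eq_zero G.Z).2 (mem_CE.1 hcE t)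
  obtain ⟨cb, hcb, hkb⟩ := h k _ h1 h2
  have h3 : cb ∈ (KK (r := m) G.𝒜 (k + 1) q).map (qmap G.Z m) := by
    rw [qmap_KK]
    exact hcb
  obtain ⟨c', hc', rfl⟩ := h3
  have hkm : kos G.U c' ∈ KK G.𝒜 k (q + 1) :=
    kos_mem G.U (fun v a ha => G.mul_mem ha _) hc'
  have he : c - kos G.U c' ∈ KK (fun q => G.Z ⊓ G.𝒜 q) k (q + 1) := by
    have h4 := Submodule.sub_mem _ hc hkm
    rw [mem_KK] at h4 ⊢
    intro t
    refine ⟨fun ht => ⟨?_, (h4 t).1 ht⟩, (h4 t).2⟩
    have h5 : qmap G.Z m (c - kos G.U c') = 0 := by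
      rw [map_sub, sub_eq_zero]
      have h6 : qmap G.Z m (kos G.U c') = kos G.UQ (qmap G.Z m c') :=
        qmap_kos G.U (fun v a ha => G.mul_mem_Z ha _) c'
      rw [h6, hkb]
    exact (Submodule.Quotient.mk_eq_zero G.Z).1 (congrFun h5 t)
  refine ⟨⟨_, he, ?_⟩, fun j => ?_⟩
  · rw [map_sub, kos_kos G.U G.U_comm, sub_zero]
  · refine ⟨fun t => G.X (Fin.natAdd m j) (c' t), ?_, ?_⟩
    · have h4 := mem_KK.1 hc'
      rw [mem_KK]
      intro t
      refine ⟨fun ht => ⟨G.x_mem_Z j _, G.mul_mem ((h4 t).1 ht) _⟩, fun ht => ?_⟩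
      rw [(h4 t).2 ht, map_zero]
    · rw [kos_comm G.U (G.X (Fin.natAdd m j)) (fun v => G.X_comm _ _)]
      funext t
      have h5 : G.X (Fin.natAdd m j) ((c - kos G.U c') t) = 0 := by
        have h6 := mem_CE_of_KK he
        exact G.x_mul_Z j (mem_CE.1 h6 t)
      rw [Pi.sub_apply, map_sub, sub_eq_zero] at h5
      exact h5

/-- The property of cycles, if a row of the annihilator is exact. -/
theorem qprop_dual {q : ℕ} (h : ∀ k, ∀ c ∈ KK (fun q => G.Z ⊓ G.𝒜 q) k (q + 1), kos G.U c = 0 →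
    ∃ c' ∈ KK (fun q => G.Z ⊓ G.𝒜 q) (k + 1) q, kos G.U c' = c) :
    QProp G.U (fun i : Fin N => G.X (Fin.natAdd m i)) G.Z G.𝒜 q := by
  intro k c hc hcE
  constructor
  · cases k with
    | zero => exact ⟨0, Submodule.zero_mem _, by rw [kos_zero _ hc, map_zero]⟩
    | succ k =>
      have h1 := kos_mem G.U (fun v a ha => G.mul_mem ha _) hc
      have h2 : kos G.U c ∈ KK (fun q => G.Z ⊓ G.𝒜 q) k (q + 1) := by
        rw [mem_KK] at h1 ⊢
        intro t
        exact ⟨fun ht => ⟨mem_CE.1 hcE t, (h1 t).1 ht⟩, (h1 t).2⟩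
      obtain ⟨e, he, hee⟩ := h k _ h2 (kos_kos G.U G.U_comm c)
      exact ⟨e, he, hee.symm⟩
  · intro j
    have h1 := mem_KK.1 hc
    have h2 : (fun t => G.X (Fin.natAdd m j) (c t)) ∈ KK (fun q => G.Z ⊓ G.𝒜 q) k (q + 1) := by
      rw [mem_KK]
      intro t
      refine ⟨fun ht => ⟨G.x_mem_Z j _, G.mul_mem ((h1 t).1 ht) _⟩, fun ht => ?_⟩
      rw [(h1 t).2 ht, map_zero]
    obtain ⟨e, he, hee⟩ := h k _ h2 (by
      rw [kos_comm G.U (G.X (Fin.natAdd m j)) (fun v => G.X_comm _ _)]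
      funext t
      exact G.x_mul_Z j (mem_CE.1 hcE t))
    exact ⟨e, he, hee.symm⟩

variable [FiniteDimensional K A]

theorem betti_EE {k q : ℕ} (hk : k ≤ m) (hq : 1 ≤ q) (hqd : q + 1 ≤ d) :
    betti G.U G.EE k (k + q) = betti G.UQ G.𝒬 (m - k) (m - k + (d - q)) := by
  obtain ⟨q, rfl⟩ : ∃ q', q = q' + 1 := ⟨q - 1, by omega⟩
  have h1 := betti_succ G.U G.U_comm (𝒜 := G.EE) (fun q v a ha => G.EE_mul ha v) k q
  have h2 := betti_succ G.UQ G.UQ_comm (𝒜 := G.𝒬) (fun q v a ha => G.𝒬_mul ha v) (m - k)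
    (d - (q + 1) - 1)
  have e1 : d - (q + 1) - 1 + 1 = d - (q + 1) := by omega
  rw [e1] at h2
  have h3 := G.rk_EE_dual' hk hqd
  have h4 : rk G.U G.EE (k + 1) q = rk G.UQ G.𝒬 (m - k) (d - (q + 1)) := by
    by_cases hkm : k = m
    · subst hkm
      rw [rk_big _ (by omega), Nat.sub_self, rk_zero]
    · rw [G.rk_EE_dual (by omega) (by omega)]
      congr 1
      omega
  have h5 := G.finrank_EE (q := q + 1) (by omega) (by omega)
  have e2 : m + 1 - k = m - k + 1 := by omega
  have e3 : d - 1 - (q + 1) = d - (q + 1) - 1 := by omega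
  rw [e2, e3] at h3
  rw [h3, h4, h5] at h1
  rw [Nat.choose_symm hk] at h2
  omega

/-- The rows of the quotient used for the additivity. -/
def RowOK (q : ℕ) : Prop := (∀ k, betti G.UQ G.𝒬 k (k + q) = 0) ∨
  (∀ k, betti G.UQ G.𝒬 k (k + (d - 1 - q)) = 0)

theorem qprop_of_rowOK (hN : 1 ≤ N) (hs : G.IsSplit) {q : ℕ} (hq : 1 ≤ q) (hqd : q + 2 ≤ d)
    (h : G.RowOK q) : QProp G.U (fun i : Fin N => G.X (Fin.natAdd m i)) G.Z G.𝒜 q := by
  rcases h with h | h
  · obtain ⟨q, rfl⟩ : ∃ q', q = q' + 1 := ⟨q - 1, by omega⟩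
    exact G.qprop_row fun k c hc h0 => exact_of_betti G.UQ (h k) hc h0
  · refine G.qprop_dual ?_
    rw [G.Z_inf_eq hN (by omega) hs]
    intro k c hc h0
    by_cases hk : k ≤ m
    · refine exact_of_betti G.U ?_ hc h0
      rw [G.betti_EE hk (by omega) (by omega)]
      have e : d - (q + 1) = d - 1 - q := by omega
      rw [e]
      exact h _
    · rw [KK_big (by omega)] at hc
      have : c = 0 := (Submodule.mem_bot K).1 hc
      exact ⟨0, Submodule.zero_mem _, by rw [map_zero, this]⟩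

/-- The sum of the ranks of the two parts. -/
noncomputable def T (k q : ℕ) : ℕ := ∑ a ∈ range (k + 1), N.choose a *
  (rk G.U G.EE (k - a) q + rk G.UQ G.𝒬 (k - a) q)

theorem rk_T (hN : 1 ≤ N) (hs : G.IsSplit) {q : ℕ} (hq : 1 ≤ q) (hqd : q + 2 ≤ d)
    (h : G.RowOK q) (k : ℕ) : rk G.X G.𝒜 k q = G.T k q := by
  have hQ : QProp G.X (fun i : Fin N => G.X (Fin.natAdd m i)) G.Z G.𝒜 q :=
    QProp.all N (fun j a => G.x_mem_Z j a) (fun j a ha => G.x_mul_Z j ha) (fun i => ⟨i, rfl⟩)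
      (G.qprop_of_rowOK hN hs hq hqd h)
  rw [rk_split G.X G.Z_st fun c hc hcE => (hQ k c hc hcE).1]
  rw [rk_trivial_all N G.X (𝒜 := fun q => G.Z ⊓ G.𝒜 q) (fun i a ha => G.x_mul_Z i ha.1) k]
  rw [rk_trivial_all N (qop G.X G.Z_st) (𝒜 := fun q => (G.𝒜 q).map G.Z.mkQ) (q := q) (by
    rintro i _ ⟨a, ha, rfl⟩
    exact (Submodule.Quotient.mk_eq_zero G.Z).2 (G.x_mem_Z i a)) k]
  rw [← Finset.sum_add_distrib]
  unfold T
  refine Finset.sum_congr rfl fun a _ => ?_
  rw [← Nat.mul_add, G.Z_inf_eq hN (by omega) hs]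
  rfl

/-- The variables `u` are independent modulo the annihilator. -/
def UInd : Prop := ∀ c : Fin m → K, ∑ v, c v • G.y (Fin.castAdd N v) ∈ G.Z → ∀ v, c v = 0

theorem rk_UQ_zero (hN : 1 ≤ N) (hu : G.UInd) (k : ℕ) :
    rk G.UQ G.𝒬 k 0 = if k = 0 then 0 else m.choose k := by
  cases k with
  | zero => rw [rk_zero, if_pos rfl]
  | succ k =>
    rw [if_neg (by omega)]
    have h1 : Module.finrank K (G.𝒬 0) = 1 := by
      have := G.finrank_𝒬 0
      rw [G.Z_inf_zero hN, finrank_bot, G.finrank_zero] at this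
      omega
    rw [rk_eq_finrank G.UQ (kos_inj G.UQ ?_), h1, mul_one]
    intro f hf h0 v
    have h2 : ∀ w, ∃ c : K, G.Z.mkQ (c • (1 : A)) = f w := fun w => by
      obtain ⟨a, ha, h⟩ := hf w
      rw [G.zero] at ha
      obtain ⟨c, rfl⟩ := Submodule.mem_span_singleton.1 ha
      exact ⟨c, h⟩
    choose c hc using h2
    have h3 := hu c (by
      rw [← Submodule.Quotient.mk_eq_zero G.Z]
      have h4 : G.Z.mkQ (∑ v, c v • G.y (Fin.castAdd N v)) = 0 := by
        rw [← h0, map_sum]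
        refine Finset.sum_congr rfl fun w _ => ?_
        rw [← hc w, UQ_mk, mul_smul_comm, mul_one]
      exact h4) v
    rw [← hc v, h3, zero_smul, map_zero]

theorem vander (m N k : ℕ) : (m + N).choose k =
    ∑ a ∈ range (k + 1), N.choose a * m.choose (k - a) := by
  rw [add_comm, Nat.add_choose_eq, Finset.Nat.sum_antidiagonal_eq_sum_range_succ_mk]

theorem T_zero (hN : 1 ≤ N) (hu : G.UInd) (k : ℕ) :
    rk G.X G.𝒜 k 0 = G.T k 0 + if k = 0 then 0 else N.choose k := by
  have hE : ∀ j, rk G.U G.EE j 0 = 0 := by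
    intro j
    unfold rk
    rw [Submodule.finrank_eq_zero, eq_bot_iff]
    rintro _ ⟨g, hg, rfl⟩
    have h1 : g = 0 := by
      funext t
      by_cases ht : bc t = j
      · exact (Submodule.mem_bot K).1 ((mem_KK.1 hg t).1 ht)
      · exact (mem_KK.1 hg t).2 ht
    rw [h1, map_zero]
    exact Submodule.zero_mem _
  cases k with
  | zero =>
    unfold T
    rw [rk_zero, if_pos rfl]
    simp [rk_zero]
  | succ k =>
    rw [G.rk_row_zero, if_neg (by omega), vander]
    unfold T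
    rw [Finset.sum_range_succ, Finset.sum_range_succ (n := k + 1)]
    simp only [hE, zero_add, Nat.sub_self, Nat.choose_zero_right, rk_zero, mul_one, mul_zero,
      add_zero]
    congr 1
    refine Finset.sum_congr rfl fun a ha => ?_
    rw [mem_range] at ha
    rw [G.rk_UQ_zero hN hu, if_neg (by omega)]

theorem T_top (hN : 1 ≤ N) (hd : 1 ≤ d) (hu : G.UInd) (k : ℕ) :
    rk G.X G.𝒜 k (d - 1) = G.T k (d - 1) +
      if m + 1 ≤ k ∧ k ≤ m + N then N.choose (k - 1 - m) else 0 := by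
  have hQ : ∀ j, rk G.UQ G.𝒬 j (d - 1) = 0 := by
    intro j
    cases j with
    | zero => exact rk_zero _ _ _
    | succ j =>
      unfold rk
      rw [Submodule.finrank_eq_zero, eq_bot_iff]
      rintro _ ⟨g, hg, rfl⟩
      have h1 := kos_mem G.UQ (fun v a ha => G.𝒬_mul ha v) hg
      have e : d - 1 + 1 = d := by omega
      rw [e] at h1
      rw [Submodule.mem_bot]
      funext t
      by_cases ht : bc t = j
      · obtain ⟨a, ha, haa⟩ := (mem_KK.1 h1 t).1 ht
        rw [← haa]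
        exact (Submodule.Quotient.mk_eq_zero G.Z).2 (G.𝒜_d_le_Z ha)
      · exact (mem_KK.1 h1 t).2 ht
  have hE : ∀ j, rk G.U G.EE j (d - 1) = if 1 ≤ j ∧ j ≤ m then m.choose (j - 1) else 0 := by
    intro j
    by_cases hj : j ≤ m
    · rw [G.rk_EE_dual' hj (by omega)]
      have e : d - 1 - (d - 1) = 0 := by omega
      rw [e, G.rk_UQ_zero hN hu, if_neg (by omega)]
      by_cases hj1 : 1 ≤ j
      · rw [if_pos ⟨hj1, hj⟩]
        have e2 : m + 1 - j = m - (j - 1) := by omega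
        rw [e2, Nat.choose_symm (by omega)]
      · rw [if_neg (by omega), Nat.choose_eq_zero_of_lt (by omega)]
    · rw [rk_big _ (by omega), if_neg (by omega)]
  unfold T
  simp only [hE, hQ, add_zero]
  cases k with
  | zero =>
    rw [rk_zero, if_neg (by omega)]
    simp
  | succ k =>
    rw [Finset.sum_range_succ]
    rw [Nat.sub_self]
    have h0 : ¬ (1 ≤ 0 ∧ 0 ≤ m) := by omega
    rw [if_neg h0, mul_zero, add_zero]
    by_cases hk : k < m + N
    · rw [G.rk_row_top hd hk, vander]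
      by_cases hkm : m + 1 ≤ k + 1
      · rw [if_pos ⟨hkm, by omega⟩]
        have e1 : k + 1 - 1 - m = k - m := by omega
        rw [e1]
        -- the term `a = k - m` is missing
        have h1 : ∀ a ∈ range (k + 1), N.choose a * m.choose (k - a) =
            N.choose a * (if 1 ≤ k + 1 - a ∧ k + 1 - a ≤ m then m.choose (k + 1 - a - 1) else 0) +
            if a = k - m then N.choose (k - m) else 0 := by
          intro a ha
          rw [mem_range] at ha
          have e2 : k + 1 - a - 1 = k - a := by omega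
          rw [e2]
          by_cases h2 : a = k - m
          · subst h2
            have e3 : k - (k - m) = m := by omega
            rw [if_neg (by omega), if_pos rfl, e3, Nat.choose_self]
            omega
          · rw [if_neg h2, add_zero]
            by_cases h3 : k + 1 - a ≤ m
            · rw [if_pos ⟨by omega, h3⟩]
            · rw [if_neg (by omega), Nat.choose_eq_zero_of_lt (show m < k - a by omega)]
        rw [Finset.sum_congr rfl h1, Finset.sum_add_distrib]
        congr 1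
        rw [Finset.sum_ite_eq' (range (k + 1)) (k - m) (fun _ => N.choose (k - m)),
          if_pos (by rw [mem_range]; omega)]
      · rw [if_neg (by omega), add_zero]
        refine Finset.sum_congr rfl fun a ha => ?_
        rw [mem_range] at ha
        rw [if_pos ⟨by omega, by omega⟩]
        have e2 : k + 1 - a - 1 = k - a := by omega
        rw [e2]
    · rw [rk_big _ (by omega), if_neg (by omega), add_zero]
      symm
      refine Finset.sum_eq_zero fun a ha => ?_
      rw [mem_range] at ha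
      by_cases h3 : k + 1 - a ≤ m
      · rw [Nat.choose_eq_zero_of_lt (show N < a by omega), zero_mul]
      · rw [if_neg (by omega), mul_zero]

/-- The Betti numbers of the algebra in terms of those of the quotient. -/
theorem B_red (hN : 1 ≤ N) (hd : 2 ≤ d) (hs : G.IsSplit) (hu : G.UInd)
    (hrow : ∀ q, 1 ≤ q → q + 2 ≤ d → G.RowOK q) {q : ℕ} (hq : 1 ≤ q) (hqd : q + 1 ≤ d) (k : ℕ) :
    betti G.X G.𝒜 k (k + q) +
      (if q + 1 = d ∧ m + 1 ≤ k ∧ k ≤ m + N then N.choose (k - 1 - m) else 0) +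
      (if q = 1 then N.choose (k + 1) else 0) = ∑ a ∈ range (k + 1), N.choose a *
      (betti G.UQ G.𝒬 (k - a) (k - a + q) +
        if k - a ≤ m then betti G.UQ G.𝒬 (m - (k - a)) (m - (k - a) + (d - q)) else 0) := by
  have hr : ∀ k q, q + 1 ≤ d → rk G.X G.𝒜 k q = G.T k q +
      (if q = 0 ∧ k ≠ 0 then N.choose k else 0) +
      (if q + 1 = d ∧ m + 1 ≤ k ∧ k ≤ m + N then N.choose (k - 1 - m) else 0) := by
    intro k q hqd
    by_cases h0 : q = 0
    · subst h0
      rw [G.T_zero hN hu, if_neg (show ¬ (0 + 1 = d ∧ m + 1 ≤ k ∧ k ≤ m + N) by omega), add_zero]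
      congr 1
      by_cases hk : k = 0
      · simp [hk]
      · simp [hk]
    · rw [if_neg (show ¬ (q = 0 ∧ k ≠ 0) from fun h => h0 h.1), add_zero]
      by_cases h1 : q + 1 = d
      · have e : q = d - 1 := by omega
        rw [e, G.T_top hN (by omega) hu]
        congr 1
        have e2 : d - 1 + 1 = d := by omega
        simp [e2]
      · rw [if_neg (fun h => h1 h.1), add_zero]
        exact G.rk_T hN hs (by omega) (by omega) (hrow q (by omega) (by omega)) k
  obtain ⟨q, rfl⟩ : ∃ q', q = q' + 1 := ⟨q - 1, by omega⟩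
  have hA := G.B_succ k q
  rw [hr k (q + 1) hqd, hr (k + 1) q (by omega)] at hA
  rw [if_neg (show ¬ (q + 1 = 0 ∧ k ≠ 0) by omega),
    if_neg (show ¬ (q + 1 = d ∧ m + 1 ≤ k + 1 ∧ k + 1 ≤ m + N) by omega), add_zero, add_zero] at hA
  -- the betti numbers of the two parts
  have hB : ∀ j, (betti G.UQ G.𝒬 j (j + (q + 1)) +
      if j ≤ m then betti G.UQ G.𝒬 (m - j) (m - j + (d - (q + 1))) else 0) +
      (rk G.U G.EE j (q + 1) + rk G.UQ G.𝒬 j (q + 1)) +
      (rk G.U G.EE (j + 1) q + rk G.UQ G.𝒬 (j + 1) q) =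
      m.choose j * Module.finrank K (G.𝒜 (q + 1)) := by
    intro j
    have h1 := betti_succ G.UQ G.UQ_comm (𝒜 := G.𝒬) (fun q v a ha => G.𝒬_mul ha v) j q
    have h2 := betti_succ G.U G.U_comm (𝒜 := G.EE) (fun q v a ha => G.EE_mul ha v) j q
    have h3 := G.finrank_𝒬 (q + 1)
    have h4 : G.Z ⊓ G.𝒜 (q + 1) = G.EE (q + 1) :=
      congrFun (G.Z_inf_eq hN (by omega) hs) (q + 1)
    rw [h4] at h3
    rw [← h3, Nat.mul_add, ← h1, ← h2]
    by_cases hj : j ≤ m
    · rw [if_pos hj, ← G.betti_EE hj (by omega) hqd]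
      ring
    · rw [if_neg hj]
      have h5 : betti G.U G.EE j (j + (q + 1)) = 0 := by
        rw [Nat.choose_eq_zero_of_lt (by omega), zero_mul] at h2
        omega
      rw [h5]
      ring
  have hT1 : G.T (k + 1) q = ∑ a ∈ range (k + 1), N.choose a *
      (rk G.U G.EE (k - a + 1) q + rk G.UQ G.𝒬 (k - a + 1) q) := by
    unfold T
    rw [Finset.sum_range_succ]
    simp only [Nat.sub_self, rk_zero, add_zero, mul_zero]
    refine Finset.sum_congr rfl fun a ha => ?_
    rw [mem_range] at ha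
    have e : k + 1 - a = k - a + 1 := by omega
    rw [e]
  have hsum : ∑ a ∈ range (k + 1), N.choose a *
      (betti G.UQ G.𝒬 (k - a) (k - a + (q + 1)) +
        if k - a ≤ m then betti G.UQ G.𝒬 (m - (k - a)) (m - (k - a) + (d - (q + 1))) else 0) +
      G.T k (q + 1) + G.T (k + 1) q = (m + N).choose k * Module.finrank K (G.𝒜 (q + 1)) := by
    rw [hT1, vander, Finset.sum_mul]
    unfold T
    rw [← Finset.sum_add_distrib, ← Finset.sum_add_distrib]
    refine Finset.sum_congr rfl fun a _ => ?_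
    rw [← Nat.mul_add, ← Nat.mul_add, hB (k - a), mul_assoc]
  rw [← hsum] at hA
  have e1 : (q + 1 = 1) ↔ (q = 0 ∧ k + 1 ≠ 0) := by omega
  have e2 : (if q + 1 = 1 then N.choose (k + 1) else 0) =
      if q = 0 ∧ k + 1 ≠ 0 then N.choose (k + 1) else 0 := by
    by_cases h : q + 1 = 1
    · rw [if_pos h, if_pos (e1.1 h)]
    · rw [if_neg h, if_neg (fun hh => h (e1.2 hh))]
  rw [e2]
  omega

end GA

end Pool.Agent.Perazzo
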