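import Pool.Agent.Lib.MP_44b5f4_ag.RedDefs
import Pool.Agent.Lib.MP_44b5f4_ag.Form
import Pool.Agent.Lib.MP_44b5f4_ag.Rows

/-!
# The quotient by the annihilator of the variables `x` is the algebra of the family `p`
-/

set_option autoImplicit false

namespace Pool.Agent.Perazzo

open MvPolynomial Finset

section contract

variable {K : Type} [Field K] {m N : ℕ}

theorem contract_C {r : ℕ} (c : K) (F : MvPolynomial (Fin r) K) : contract (C c) F = c • F := by
  have h : (C c : MvPolynomial (Fin r) K) = c • 1 := by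
    rw [smul_eq_C_mul, mul_one]
  rw [h, contract_smul, contract_one]

theorem contract_rename (φ H : MvPolynomial (Fin m) K) :
    contract (rename (Fin.castAdd N) φ) (rename (Fin.castAdd N) H) =
      rename (Fin.castAdd N) (contract φ H) := by
  induction φ using MvPolynomial.induction_on generalizing H with
  | C a => rw [rename_C, contract_C, contract_C, map_smul]
  | add p q hp hq => rw [map_add, contract_add, contract_add, map_add, hp, hq]
  | mul_X p v hp =>
    rw [map_mul, rename_X, contract_mul, contract_mul, contract_X, contract_X,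
      pderiv_rename (Fin.castAdd_injective m N), hp]

theorem contract_sum {r : ℕ} {ι : Type} (s : Finset ι) (f : ι → MvPolynomial (Fin r) K)
    (F : MvPolynomial (Fin r) K) : contract (∑ i ∈ s, f i) F = ∑ i ∈ s, contract (f i) F := by
  classical
  induction s using Finset.induction_on with
  | empty => rw [Finset.sum_empty, Finset.sum_empty, contract_zero_left]
  | insert a s ha ih => rw [Finset.sum_insert ha, Finset.sum_insert ha, contract_add, ih]

end contract

variable {K : Type} [Field K] {m n d : ℕ} {p : Fin (n + 1) → MvPolynomial (Fin m) K}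
  {G : MvPolynomial (Fin m) K}

theorem mem_AnnFam {φ : MvPolynomial (Fin m) K} :
    φ ∈ AnnFam p ↔ ∀ i, contract φ (p i) = 0 := by
  unfold AnnFam
  rw [Submodule.mem_iInf]
  rfl

theorem pderiv_form' (j : Fin (n + 1)) : pderiv (Fin.natAdd m j) (form p G) =
    rename (Fin.castAdd (n + 1)) (p j) := pderiv_form p G j

theorem form_hom (hd : 1 ≤ d) (hp : ∀ i, (p i).IsHomogeneous (d - 1)) (hG : G.IsHomogeneous d) :
    (form p G).IsHomogeneous d := by
  refine IsHomogeneous.add (IsHomogeneous.sum _ _ _ fun i _ => ?_)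
    (hG.rename_isHomogeneous)
  have h1 := (isHomogeneous_X K (Fin.natAdd m i)).mul ((hp i).rename_isHomogeneous
    (f := Fin.castAdd (n + 1)))
  have e : 1 + (d - 1) = d := by omega
  rwa [e] at h1

theorem form_ne (hl : LinearIndependent K p) : form p G ≠ 0 := by
  intro h
  have h1 := pderiv_form' (p := p) (G := G) 0
  rw [h, map_zero] at h1
  apply hl.ne_zero 0
  exact rename_injective _ (Fin.castAdd_injective m (n + 1)) (by rw [← h1, map_zero])

theorem form_xx (i j : Fin (n + 1)) :
    pderiv (Fin.natAdd m i) (pderiv (Fin.natAdd m j) (form p G)) = 0 := by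
  rw [pderiv_form', pderiv_rename_zero]

theorem fam_card_le (hp : ∀ i, (p i).IsHomogeneous (d - 1)) (hl : LinearIndependent K p) :
    n + 1 ≤ m.multichoose (d - 1) := by
  have h1 : LinearIndependent K (fun i => (⟨p i, hp i⟩ : PP K m (d - 1))) :=
    LinearIndependent.of_comp (PP K m (d - 1)).subtype hl
  have h2 := h1.fintype_card_le_finrank
  rwa [Fintype.card_fin, finrank_PP] at h2

/-- A form which annihilates the form `F` up to a linear combination of the variables. -/
theorem hlin_of_AnnFam (hl : LinearIndependent K p)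
    (h1 : ∀ c : Fin m → K, ∑ v, c v • (X v : MvPolynomial (Fin m) K) ∈ AnnFam p → ∀ v, c v = 0) :
    hilb (Ann (form p G)) 1 = m + (n + 1) := by
  classical
  have hli : LinearIndependent K (fun v : Fin (m + (n + 1)) => cl (form p G) (X v)) := by
    rw [Fintype.linearIndependent_iff]
    intro c hc
    have h2 : contract (∑ v, c v • (X v : MvPolynomial (Fin (m + (n + 1))) K)) (form p G) = 0 := by
      rw [← cl_eq_zero, map_sum, ← hc]
      refine Finset.sum_congr rfl fun v _ => ?_
      rw [map_smul]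
    have h3 : ∀ v : Fin m, c (Fin.castAdd (n + 1) v) = 0 := by
      refine h1 (fun v => c (Fin.castAdd (n + 1) v)) ?_
      rw [mem_AnnFam]
      intro i
      apply rename_injective _ (Fin.castAdd_injective m (n + 1))
      rw [map_zero, ← contract_rename, map_sum, ← pderiv_form' (G := G), ← contract_X,
        ← contract_mul]
      have h4 : contract (X (Fin.natAdd m i) *
          ∑ v, c v • (X v : MvPolynomial (Fin (m + (n + 1))) K)) (form p G) = 0 := by
        rw [contract_mul, h2, contract_zero_right]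
      rw [Fin.sum_univ_add, mul_add, contract_add] at h4
      have h5 : contract (X (Fin.natAdd m i) * ∑ j : Fin (n + 1), c (Fin.natAdd m j) •
          (X (Fin.natAdd m j) : MvPolynomial (Fin (m + (n + 1))) K)) (form p G) = 0 := by
        rw [Finset.mul_sum, contract_sum]
        refine Finset.sum_eq_zero fun j _ => ?_
        rw [mul_smul_comm, contract_smul, contract_mul, contract_X, contract_X, form_xx, smul_zero]
      rw [h5, add_zero] at h4
      refine Eq.trans ?_ h4
      congr 1
      rw [mul_comm]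
      congr 1
      refine Finset.sum_congr rfl fun v _ => ?_
      rw [map_smul, rename_X]
    have h4 : ∀ j : Fin (n + 1), c (Fin.natAdd m j) = 0 := by
      rw [Fin.sum_univ_add] at h2
      simp only [h3, zero_smul, Finset.sum_const_zero, zero_add] at h2
      rw [contract_sum] at h2
      have h5 : rename (Fin.castAdd (n + 1)) (∑ j, c (Fin.natAdd m j) • p j) = 0 := by
        rw [map_sum, ← h2]
        refine Finset.sum_congr rfl fun j _ => ?_
        rw [map_smul, contract_smul, contract_X, pderiv_form']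
      have h6 : ∑ j, c (Fin.natAdd m j) • p j = 0 :=
        rename_injective _ (Fin.castAdd_injective m (n + 1)) (by rw [h5, map_zero])
      exact Fintype.linearIndependent_iff.1 hl _ h6
    intro v
    induction v using Fin.addCases with
    | left v => exact h3 v
    | right j => exact h4 j
  have h1 : Submodule.span K (Set.range fun v : Fin (m + (n + 1)) => cl (form p G) (X v)) =
      gr (Ann (form p G)) 1 := by
    rw [gr_succ (form p G) 0]
    apply le_antisymm
    · rw [Submodule.span_le]
      rintro _ ⟨v, rfl⟩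
      refine Submodule.mem_iSup_of_mem v ⟨1, ?_, mul_one _⟩
      rw [gr_zero]
      exact Submodule.mem_span_singleton_self 1
    · refine iSup_le fun v => ?_
      rintro _ ⟨a, ha, rfl⟩
      rw [gr_zero] at ha
      obtain ⟨c, rfl⟩ := Submodule.mem_span_singleton.1 ha
      show cl (form p G) (X v) * (c • 1) ∈ _
      rw [mul_smul_comm, mul_one]
      exact Submodule.smul_mem _ _ (Submodule.subset_span ⟨v, rfl⟩)
  unfold hilb
  rw [← h1, finrank_span_eq_card hli, Fintype.card_fin]

variable [CharZero K]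

/-- The graded Gorenstein algebra of the form. -/
noncomputable def fGA (hd : 1 ≤ d) (hp : ∀ i, (p i).IsHomogeneous (d - 1)) (hG : G.IsHomogeneous d)
    (hl : LinearIndependent K p) (hlin : hilb (Ann (form p G)) 1 = m + (n + 1)) :
    GA K (AF (form p G)) m (n + 1) d :=
  mkGA (form_hom hd hp hG) (form_ne hl) form_xx hlin

section

variable (hd : 1 ≤ d) (hp : ∀ i, (p i).IsHomogeneous (d - 1)) (hG : G.IsHomogeneous d)
    (hl : LinearIndependent K p) (hlin : hilb (Ann (form p G)) 1 = m + (n + 1))

theorem fGA_θ (φ : MvPolynomial (Fin m) K) : (fGA hd hp hG hl hlin).θ φ =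
    cl (form p G) (rename (Fin.castAdd (n + 1)) φ) := by
  have h : (fGA hd hp hG hl hlin).θ = (cl (form p G)).comp (rename (Fin.castAdd (n + 1))) := by
    refine MvPolynomial.algHom_ext fun v => ?_
    rw [GA.θ_X, AlgHom.comp_apply, rename_X]
    rfl
  rw [h]
  rfl

theorem fGA_mem (φ : MvPolynomial (Fin m) K) : (fGA hd hp hG hl hlin).θ φ ∈
    (fGA hd hp hG hl hlin).Z ↔ φ ∈ AnnFam p := by
  rw [GA.mem_Z, mem_AnnFam]
  refine forall_congr' fun i => ?_
  rw [fGA_θ]
  show cl (form p G) (X (Fin.natAdd m i)) * cl (form p G) _ = 0 ↔ _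
  rw [← map_mul, cl_eq_zero, mul_comm, contract_mul, contract_X, pderiv_form', contract_rename]
  constructor
  · intro h
    exact rename_injective _ (Fin.castAdd_injective m (n + 1)) (by rw [h, map_zero])
  · intro h
    rw [h, map_zero]

/-- The embedding of the algebra of the family in the quotient. -/
noncomputable def fι : (MvPolynomial (Fin m) K ⧸ AnnFam p) →ₗ[K]
    (AF (form p G) ⧸ (fGA hd hp hG hl hlin).Z) :=
  (Submodule.liftQ ((AnnFam p).restrictScalars K)
    ((fGA hd hp hG hl hlin).Z.mkQ ∘ₗ (fGA hd hp hG hl hlin).θ.toLinearMap) (by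
      intro φ hφ
      exact (Submodule.Quotient.mk_eq_zero _).2 ((fGA_mem hd hp hG hl hlin φ).2 hφ))).comp
    (Submodule.Quotient.restrictScalarsEquiv K (AnnFam p)).symm.toLinearMap

theorem fι_mk (φ : MvPolynomial (Fin m) K) : fι hd hp hG hl hlin (Ideal.Quotient.mk _ φ) =
    (fGA hd hp hG hl hlin).Z.mkQ ((fGA hd hp hG hl hlin).θ φ) := rfl

theorem fι_inj : Function.Injective (fι hd hp hG hl hlin) := by
  rw [← LinearMap.ker_eq_bot, eq_bot_iff]
  intro a ha
  obtain ⟨φ, rfl⟩ := Ideal.Quotient.mk_surjective a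
  rw [LinearMap.mem_ker, fι_mk] at ha
  rw [Submodule.mem_bot, Ideal.Quotient.eq_zero_iff_mem]
  exact (fGA_mem hd hp hG hl hlin φ).1 ((Submodule.Quotient.mk_eq_zero _).1 ha)

theorem fι_X (v : Fin m) (a : MvPolynomial (Fin m) K ⧸ AnnFam p) :
    fι hd hp hG hl hlin (mulX (AnnFam p) v a) =
      (fGA hd hp hG hl hlin).UQ v (fι hd hp hG hl hlin a) := by
  obtain ⟨φ, rfl⟩ := Ideal.Quotient.mk_surjective a
  have h1 : mulX (AnnFam p) v (Ideal.Quotient.mk _ φ) = Ideal.Quotient.mk _ (X v * φ) :=
    (map_mul (Ideal.Quotient.mk (AnnFam p)) _ _).symm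
  rw [h1, fι_mk, fι_mk, GA.UQ_mk, map_mul, GA.θ_X]

theorem fι_gr (q : ℕ) : (gr (AnnFam p) q).map (fι hd hp hG hl hlin) =
    (fGA hd hp hG hl hlin).𝒬 q := by
  unfold GA.𝒬
  rw [GA.map_mkQ]
  ext a
  constructor
  · rintro ⟨_, ⟨φ, hφ, rfl⟩, rfl⟩
    exact ⟨φ, hφ, rfl⟩
  · rintro ⟨φ, hφ, rfl⟩
    exact ⟨_, ⟨φ, hφ, rfl⟩, rfl⟩

theorem fam_rk (k q : ℕ) : rk (mulX (AnnFam p)) (gr (AnnFam p)) k q =
    rk (fGA hd hp hG hl hlin).UQ (fGA hd hp hG hl hlin).𝒬 k q :=
  rk_inj (fι hd hp hG hl hlin) (fι_inj hd hp hG hl hlin) _ _ (fι_X hd hp hG hl hlin)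
    (fι_gr hd hp hG hl hlin) k q

theorem fam_hilb (q : ℕ) : hilb (AnnFam p) q =
    Module.finrank K ((fGA hd hp hG hl hlin).𝒬 q) :=
  finrank_inj (fι hd hp hG hl hlin) (fι_inj hd hp hG hl hlin) (fι_gr hd hp hG hl hlin) q

theorem fam_betti (k q : ℕ) : gradedBetti (AnnFam p) k (k + q) =
    betti (fGA hd hp hG hl hlin).UQ (fGA hd hp hG hl hlin).𝒬 k (k + q) := by
  have hfin := AF_fin (form_hom hd hp hG)
  have hfin2 : FiniteDimensional K (MvPolynomial (Fin m) K ⧸ AnnFam p) :=
    FiniteDimensional.of_injective (fι hd hp hG hl hlin) (fι_inj hd hp hG hl hlin)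
  have hcomm : ∀ v w, mulX (AnnFam p) v * mulX (AnnFam p) w =
      mulX (AnnFam p) w * mulX (AnnFam p) v := by
    intro v w
    refine LinearMap.ext fun a => ?_
    show Ideal.Quotient.mk (AnnFam p) (X v) * (Ideal.Quotient.mk (AnnFam p) (X w) * a) =
      Ideal.Quotient.mk (AnnFam p) (X w) * (Ideal.Quotient.mk (AnnFam p) (X v) * a)
    ring
  have hmem : ∀ q v, ∀ a ∈ gr (AnnFam p) q, mulX (AnnFam p) v a ∈ gr (AnnFam p) (q + 1) := by
    rintro q v _ ⟨φ, hφ, rfl⟩
    exact ⟨X v * φ, X_mul_mem_PP K v hφ, map_mul (Ideal.Quotient.mk (AnnFam p)) _ _⟩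
  unfold gradedBetti
  cases q with
  | zero =>
    have h1 := betti_diag (mulX (AnnFam p)) (gr (AnnFam p)) k
    have h2 := betti_diag (fGA hd hp hG hl hlin).UQ (fGA hd hp hG hl hlin).𝒬 k
    have h3 := fam_hilb hd hp hG hl hlin 0
    unfold hilb at h3
    rw [fam_rk hd hp hG hl hlin, h3] at h1
    rw [add_zero]
    omega
  | succ q =>
    have h1 := betti_succ (mulX (AnnFam p)) hcomm (𝒜 := gr (AnnFam p)) hmem k q
    have h2 := betti_succ (fGA hd hp hG hl hlin).UQ (fGA hd hp hG hl hlin).UQ_comm
      (𝒜 := (fGA hd hp hG hl hlin).𝒬)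
      (fun q v a ha => (fGA hd hp hG hl hlin).𝒬_mul ha v) k q
    have h3 := fam_hilb hd hp hG hl hlin (q + 1)
    unfold hilb at h3
    rw [fam_rk hd hp hG hl hlin, fam_rk hd hp hG hl hlin, h3] at h1
    omega

end

end Pool.Agent.Perazzo
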