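import Pool.Agent.Lib.MP_44b5f4_ag.Betti
import Pool.Agent.Lib.MP_44b5f4_ag.Poly

/-!
# The Koszul complex of the polynomial ring is exact (characteristic zero)
-/

set_option autoImplicit false

namespace Pool.Agent.Perazzo

open Finset

section weyl

variable {K A : Type} [Field K] [AddCommGroup A] [Module K A]

/-- The raising operator: the value on `t` is the sum over `v ∈ t` of `± Y v (g (t \ {v}))`. -/
def low {r : ℕ} (Y : Fin r → Module.End K A) : Module.End K ((Fin r → Bool) → A) where
  toFun g t := ∑ v, if t v = true then sgn K t v • Y v (g (Function.update t v false)) else 0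
  map_add' g h := by
    funext t
    simp only [Pi.add_apply]
    rw [← Finset.sum_add_distrib]
    refine Finset.sum_congr rfl fun v _ => ?_
    split_ifs <;> simp
  map_smul' a g := by
    funext t
    simp only [Pi.smul_apply, RingHom.id_apply]
    rw [Finset.smul_sum]
    refine Finset.sum_congr rfl fun v _ => ?_
    split_ifs
    · rw [map_smul, smul_comm]
    · simp

theorem low_apply {r : ℕ} (Y : Fin r → Module.End K A) (g : (Fin r → Bool) → A)
    (t : Fin r → Bool) : low Y g t =
      ∑ v, if t v = true then sgn K t v • Y v (g (Function.update t v false)) else 0 := rfl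

theorem low_snoc_false {r : ℕ} (Y : Fin (r + 1) → Module.End K A)
    (g : (Fin (r + 1) → Bool) → A) (t : Fin r → Bool) :
    low Y g (Fin.snoc t false) = low (fun v => Y v.castSucc) (fun t => g (Fin.snoc t false)) t := by
  rw [low_apply, low_apply, Fin.sum_univ_castSucc]
  simp only [Fin.snoc_last, Bool.false_eq_true, if_false, add_zero]
  refine Finset.sum_congr rfl fun v _ => ?_
  rw [sgn_snoc_castSucc, Fin.snoc_castSucc, ← Fin.snoc_update]
  simp

theorem low_snoc_true {r : ℕ} (Y : Fin (r + 1) → Module.End K A)
    (g : (Fin (r + 1) → Bool) → A) (t : Fin r → Bool) :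
    low Y g (Fin.snoc t true) = - low (fun v => Y v.castSucc) (fun t => g (Fin.snoc t true)) t +
      Y (Fin.last r) (g (Fin.snoc t false)) := by
  rw [low_apply, low_apply, Fin.sum_univ_castSucc, ← Finset.sum_neg_distrib]
  congr 1
  · refine Finset.sum_congr rfl fun v _ => ?_
    rw [sgn_snoc_castSucc, Fin.snoc_castSucc, ← Fin.snoc_update]
    by_cases h : t v = true
    · rw [if_pos h, if_pos h, if_pos rfl, neg_one_mul, neg_smul]
    · simp [h]
  · rw [sgn_snoc_last, Fin.snoc_last, Fin.update_snoc_last]
    simp

theorem dbl_low {r : ℕ} (Y : Fin (r + 1) → Module.End K A) (g : (Fin (r + 1) → Bool) → A) :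
    dbl K A r (low Y g) = (low (fun v => Y v.castSucc) (dbl K A r g).1,
      - low (fun v => Y v.castSucc) (dbl K A r g).2 +
      (fun t => Y (Fin.last r) ((dbl K A r g).1 t))) := by
  ext t
  · show low Y g (Fin.snoc t false) = _
    rw [low_snoc_false]
    rfl
  · show low Y g (Fin.snoc t true) = _
    rw [low_snoc_true]
    rfl

theorem low_comm {r : ℕ} (Y : Fin r → Module.End K A) (T : Module.End K A)
    (h : ∀ v, Y v * T = T * Y v) (g : (Fin r → Bool) → A) :
    low Y (fun t => T (g t)) = fun t => T (low Y g t) := by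
  funext t
  rw [low_apply, low_apply, map_sum]
  refine Finset.sum_congr rfl fun v _ => ?_
  split_ifs
  · rw [map_smul]
    congr 1
    exact LinearMap.congr_fun (h v) _
  · rw [map_zero]

/-- The homotopy formula. -/
theorem homotopy {r : ℕ} (X Y : Fin r → Module.End K A)
    (hXY : ∀ v w, Y v * X w = X w * Y v + if v = w then 1 else 0)
    (g : (Fin r → Bool) → A) (t : Fin r → Bool) :
    kos X (low Y g) t + low Y (kos X g) t = ∑ v, X v (Y v (g t)) + (bc t : K) • g t := by
  induction r with
  | zero =>
    rw [kos_apply, low_apply]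
    simp [bc]
  | succ r ih =>
    have ih' := ih (fun v => X v.castSucc) (fun v => Y v.castSucc) (fun v w => by
      have := hXY v.castSucc w.castSucc
      rw [this]
      simp only [Fin.castSucc_inj])
    have hk := dbl_kos X (low Y g)
    have hl := dbl_low Y (kos X g)
    rw [dbl_low] at hk
    rw [dbl_kos] at hl
    have hYX : ∀ v : Fin r, Y v.castSucc * X (Fin.last r) = X (Fin.last r) * Y v.castSucc := by
      intro v
      rw [hXY, if_neg (Fin.castSucc_lt_last v).ne, add_zero]
    have hXY' : ∀ v : Fin r, X v.castSucc * Y (Fin.last r) = Y (Fin.last r) * X v.castSucc := by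
      intro v
      rw [hXY, if_neg (Fin.castSucc_lt_last v).ne', add_zero]
    have hYX2 := hXY (Fin.last r) (Fin.last r)
    rw [if_pos rfl] at hYX2
    obtain ⟨s, b, rfl⟩ : ∃ (s : Fin r → Bool) (b : Bool), t = Fin.snoc s b :=
      ⟨Fin.init t, t (Fin.last r), (Fin.snoc_init_self (α := fun _ => Bool) t).symm⟩
    rw [Fin.sum_univ_castSucc, bc_snoc]
    cases b with
    | false =>
      have h1 : kos X (low Y g) (Fin.snoc s false) = _ := congrFun (congrArg Prod.fst hk) s
      have h2 : low Y (kos X g) (Fin.snoc s false) = _ := congrFun (congrArg Prod.fst hl) s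
      rw [h1, h2]
      simp only [Pi.add_apply, Pi.neg_apply, map_add, map_neg]
      have h3 := congrFun (low_comm (fun v => Y v.castSucc) (X (Fin.last r)) hYX (dbl K A r g).2) s
      rw [h3]
      have h4 := ih' (dbl K A r g).1 s
      simp only [Bool.false_eq_true, if_false, Nat.add_zero]
      have h5 : (dbl K A r g).1 s = g (Fin.snoc s false) := rfl
      rw [h5] at h4 ⊢
      generalize ∑ v, X (Fin.castSucc v) (Y (Fin.castSucc v) (g (Fin.snoc s false))) = S at h4 ⊢
      generalize kos (fun v => X (Fin.castSucc v)) (low (fun v => Y (Fin.castSucc v))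
        (dbl K A r g).1) s = a1 at h4 ⊢
      generalize low (fun v => Y (Fin.castSucc v)) (kos (fun v => X (Fin.castSucc v))
        (dbl K A r g).1) s = a2 at h4 ⊢
      generalize (bc s : K) • g (Fin.snoc s false) = a3 at h4 ⊢
      have h9 : S = a1 + a2 - a3 := by rw [h4]; abel
      rw [h9]
      abel
    | true =>
      have h1 : kos X (low Y g) (Fin.snoc s true) = _ := congrFun (congrArg Prod.snd hk) s
      have h2 : low Y (kos X g) (Fin.snoc s true) = _ := congrFun (congrArg Prod.snd hl) s
      rw [h1, h2]
      simp only [Pi.add_apply, Pi.neg_apply, map_add, map_neg]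
      have h3 := congrFun (kos_comm (fun v => X v.castSucc) (Y (Fin.last r)) hXY' (dbl K A r g).1) s
      rw [h3]
      have h4 := ih' (dbl K A r g).2 s
      have h5 : (dbl K A r g).2 s = g (Fin.snoc s true) := rfl
      have h6 : Y (Fin.last r) (X (Fin.last r) (g (Fin.snoc s true))) =
          X (Fin.last r) (Y (Fin.last r) (g (Fin.snoc s true))) + g (Fin.snoc s true) :=
        LinearMap.congr_fun hYX2 _
      rw [h5] at h4 ⊢
      have h7 : ((bc s + if True then 1 else 0 : ℕ) : K) • g (Fin.snoc s true) =
          (bc s : K) • g (Fin.snoc s true) + g (Fin.snoc s true) := by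
        rw [if_pos trivial, Nat.cast_add, Nat.cast_one, add_smul, one_smul]
      rw [h6, h7]
      have h8 := h4
      generalize ∑ v, X (Fin.castSucc v) (Y (Fin.castSucc v) (g (Fin.snoc s true))) = S at h8 ⊢
      generalize kos (fun v => X (Fin.castSucc v)) (low (fun v => Y (Fin.castSucc v))
        (dbl K A r g).2) s = a1 at h8 ⊢
      generalize low (fun v => Y (Fin.castSucc v)) (kos (fun v => X (Fin.castSucc v))
        (dbl K A r g).2) s = a2 at h8 ⊢
      generalize (bc s : K) • g (Fin.snoc s true) = a3 at h8 ⊢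
      have h9 : S = a1 + a2 - a3 := by rw [h8]; abel
      rw [h9]
      abel

theorem low_mem {r : ℕ} (Y : Fin r → Module.End K A) {𝒜 : ℕ → Submodule K A} {k q : ℕ}
    (hY : ∀ v, ∀ a ∈ 𝒜 (q + 1), Y v a ∈ 𝒜 q)
    {g : (Fin r → Bool) → A} (hg : g ∈ KK 𝒜 k (q + 1)) : low Y g ∈ KK 𝒜 (k + 1) q := by
  rw [mem_KK] at hg ⊢
  intro t
  rw [low_apply]
  have hb : ∀ v, t v = true → bc (Function.update t v false) + 1 = bc t := by
    intro v hv
    have h1 : ¬ (Function.update t v false) v = true := by simp
    have h2 := bc_update h1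
    rw [Function.update_idem, ← hv, Function.update_eq_self] at h2
    exact h2.symm
  constructor
  · intro ht
    refine Submodule.sum_mem _ fun v _ => ?_
    split_ifs with h
    · exact Submodule.smul_mem _ _ (hY v _ ((hg _).1 (by have := hb v h; omega)))
    · exact Submodule.zero_mem _
  · intro ht
    refine Finset.sum_eq_zero fun v _ => ?_
    split_ifs with h
    · rw [(hg _).2 (by have := hb v h; omega), map_zero, smul_zero]
    · rfl

end weyl

section poly

open MvPolynomial

variable {K : Type} [Field K] {m : ℕ}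

/-- Multiplication by a variable on polynomials. -/
noncomputable def PX (K : Type) [Field K] (m : ℕ) (v : Fin m) :
    Module.End K (MvPolynomial (Fin m) K) := LinearMap.mulLeft K (X v)

/-- Exactness of the Koszul complex of the polynomial ring. -/
theorem poly_exact [CharZero K] {k q : ℕ} {c : (Fin m → Bool) → MvPolynomial (Fin m) K}
    (hc : c ∈ KK (PP K m) k (q + 1)) (h0 : kos (PX K m) c = 0) :
    ∃ c' ∈ KK (PP K m) (k + 1) q, kos (PX K m) c' = c := by
  let Y : Fin m → Module.End K (MvPolynomial (Fin m) K) := fun v =>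
    (pderiv v : Derivation K (MvPolynomial (Fin m) K) (MvPolynomial (Fin m) K)).toLinearMap
  have hXY : ∀ v w, Y v * PX K m w = PX K m w * Y v + if v = w then 1 else 0 := by
    intro v w
    refine LinearMap.ext fun f => ?_
    have e : pderiv v (X w * f) = X w * pderiv v f + (if v = w then f else 0) := by
      rw [pderiv_mul]
      by_cases h : v = w
      · subst h
        rw [pderiv_X_self, if_pos rfl, one_mul, add_comm]
      · rw [pderiv_X_of_ne (Ne.symm h), if_neg h, zero_mul, zero_add, add_zero]
    rw [LinearMap.add_apply, Module.End.mul_apply, Module.End.mul_apply]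
    refine e.trans ?_
    congr 1
    by_cases h : v = w
    · rw [if_pos h, if_pos h]
      rfl
    · rw [if_neg h, if_neg h]
      rfl
  have hY : ∀ v, ∀ a ∈ PP K m (q + 1), Y v a ∈ PP K m q := by
    intro v a ha
    have h : (pderiv v a).IsHomogeneous (q + 1 - 1) := IsHomogeneous.pderiv (i := v) ha
    rw [Nat.add_sub_cancel] at h
    exact h
  have hl := low_mem Y hY hc
  have hne : ((k + (q + 1) : ℕ) : K) ≠ 0 := Nat.cast_ne_zero.2 (by omega)
  refine ⟨((k + (q + 1) : ℕ) : K)⁻¹ • low Y c, Submodule.smul_mem _ _ hl, ?_⟩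
  rw [map_smul]
  funext t
  rw [Pi.smul_apply, inv_smul_eq_iff₀ hne]
  have h1 := homotopy (PX K m) Y hXY c t
  rw [h0, map_zero, Pi.zero_apply, add_zero] at h1
  rw [h1]
  by_cases ht : bc t = k
  · have h2 : ∑ v, PX K m v (Y v (c t)) = (q + 1) • c t :=
      IsHomogeneous.sum_X_mul_pderiv (((mem_KK.1 hc) t).1 ht)
    rw [h2, ht, ← Nat.cast_smul_eq_nsmul K, ← add_smul]
    congr 1
    push_cast
    ring
  · rw [((mem_KK.1 hc) t).2 ht]
    simp

end poly

end Pool.Agent.Perazzo
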