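import Pool.Agent.Lib.MP_44b5f4_ag.Hilb
import Pool.Agent.Lib.MP_44b5f4_ag.Final
import Pool.Agent.Lib.MP_44b5f4_ag.Weyl
import Pool.Agent.Lib.MP_44b5f4_ag.RkMap

/-!
# The exact sequence of the ideal of the variables `x`: ranks and duality
-/

set_option autoImplicit false

namespace Pool.Agent.Perazzo

open Finset

namespace GA

variable {K A : Type} [Field K] [CommRing A] [Algebra K A] {m N d : ℕ} (G : GA K A m N d)

/-- The operators of the variables `u`. -/
def U (v : Fin m) : Module.End K A := G.X (Fin.castAdd N v)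

theorem Z_st (v : Fin (m + N)) (a : A) (ha : a ∈ G.Z) : G.X v a ∈ G.Z := G.mul_mem_Z ha _

/-- The operators of the variables `u` on the quotient. -/
def UQ (v : Fin m) : Module.End K (A ⧸ G.Z) := qop G.X G.Z_st (Fin.castAdd N v)

theorem UQ_mk (v : Fin m) (a : A) : G.UQ v (G.Z.mkQ a) = G.Z.mkQ (G.y (Fin.castAdd N v) * a) := rfl

/-- The graded pieces of the quotient. -/
def 𝒬 (q : ℕ) : Submodule K (A ⧸ G.Z) := (G.𝒜 q).map G.Z.mkQ

/-- The graded pieces of the ideal of the variables `x`. -/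
def EE : ℕ → Submodule K A
  | 0 => ⊥
  | q + 1 => G.E q

/-- The ideal of the variables `x`. -/
def XI : Submodule K A := ⨆ i : Fin N, LinearMap.range (LinearMap.mulLeft K (G.y (Fin.natAdd m i)))

theorem EE_le_XI (q : ℕ) : G.EE q ≤ G.XI := by
  cases q with
  | zero => exact bot_le
  | succ q =>
    show G.E q ≤ G.XI
    unfold E XI
    refine iSup_mono fun i => ?_
    rintro _ ⟨a, _, rfl⟩
    exact ⟨a, rfl⟩

theorem EE_le_𝒜 (q : ℕ) : G.EE q ≤ G.𝒜 q := by
  cases q with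
  | zero => exact bot_le
  | succ q => exact G.E_le_𝒜 q

theorem mul_mem_XI {a : A} (ha : a ∈ G.XI) (b : A) : b * a ∈ G.XI := by
  have h1 : G.XI ≤ G.XI.comap (LinearMap.mulLeft K b) := by
    unfold XI
    refine iSup_le fun i => ?_
    rintro _ ⟨c, rfl⟩
    rw [Submodule.mem_comap]
    refine Submodule.mem_iSup_of_mem i ⟨b * c, ?_⟩
    show G.y (Fin.natAdd m i) * (b * c) = b * (G.y (Fin.natAdd m i) * c)
    ring
  exact h1 ha

theorem XI_mul_Z {a b : A} (ha : a ∈ G.XI) (hb : b ∈ G.Z) : a * b = 0 := by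
  have h1 : G.XI ≤ LinearMap.ker (LinearMap.mulRight K b) := by
    unfold XI
    refine iSup_le fun i => ?_
    rintro _ ⟨c, rfl⟩
    rw [LinearMap.mem_ker]
    show G.y (Fin.natAdd m i) * c * b = 0
    rw [mul_right_comm, G.x_mul_Z i hb, zero_mul]
  exact h1 ha

/-- The pairing between the ideal of the variables `x` and the quotient. -/
def pairQ : ↥G.XI →ₗ[K] (A ⧸ G.Z) →ₗ[K] K :=
  (G.Z.liftQ (LinearMap.mk₂ K (fun (b : A) (e : ↥G.XI) => G.ω (e.1 * b))
    (fun b b' e => by rw [mul_add, map_add])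
    (fun c b e => by rw [mul_smul_comm, map_smul])
    (fun b e e' => by
      show G.ω ((e.1 + e'.1) * b) = _
      rw [add_mul, map_add])
    (fun c b e => by
      show G.ω ((c • e.1) * b) = _
      rw [smul_mul_assoc, map_smul])) (by
    intro b hb
    rw [LinearMap.mem_ker]
    ext e
    show G.ω (e.1 * b) = 0
    rw [G.XI_mul_Z e.2 hb, map_zero])).flip

theorem pairQ_mk (e : ↥G.XI) (b : A) : G.pairQ e (G.Z.mkQ b) = G.ω (e.1 * b) := rfl

/-- The operators on the ideal. -/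
def UI (v : Fin m) : Module.End K ↥G.XI :=
  (G.U v).restrict fun _ ha => G.mul_mem_XI ha _

theorem UI_val (v : Fin m) (e : ↥G.XI) : (G.UI v e).1 = G.y (Fin.castAdd N v) * e.1 := rfl

theorem EE_mul {q : ℕ} {a : A} (ha : a ∈ G.EE q) (v : Fin m) :
    G.y (Fin.castAdd N v) * a ∈ G.EE (q + 1) := by
  cases q with
  | zero =>
    have h : a = 0 := (Submodule.mem_bot K).1 ha
    rw [h, mul_zero]
    exact Submodule.zero_mem _
  | succ q =>
    have h1 : G.E q ≤ (G.E (q + 1)).comap (LinearMap.mulLeft K (G.y (Fin.castAdd N v))) := by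
      unfold E
      refine iSup_le fun i => ?_
      rintro _ ⟨b, hb, rfl⟩
      rw [Submodule.mem_comap]
      refine Submodule.mem_iSup_of_mem i ⟨G.y (Fin.castAdd N v) * b, G.mul_mem hb _, ?_⟩
      show G.y (Fin.natAdd m i) * (G.y (Fin.castAdd N v) * b) =
        G.y (Fin.castAdd N v) * (G.y (Fin.natAdd m i) * b)
      ring
    exact h1 ha

theorem 𝒬_mul {q : ℕ} {a : A ⧸ G.Z} (ha : a ∈ G.𝒬 q) (v : Fin m) : G.UQ v a ∈ G.𝒬 (q + 1) := by
  obtain ⟨b, hb, rfl⟩ := ha
  exact ⟨_, G.mul_mem hb _, rfl⟩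

theorem UQ_comm (v w : Fin m) : G.UQ v * G.UQ w = G.UQ w * G.UQ v := by
  refine LinearMap.ext fun a => ?_
  obtain ⟨b, rfl⟩ := G.Z.mkQ_surjective a
  show G.Z.mkQ (G.y _ * (G.y _ * b)) = G.Z.mkQ (G.y _ * (G.y _ * b))
  congr 1
  ring

variable [FiniteDimensional K A]

/-- Duality between the ideal of the variables `x` and the quotient. -/
theorem rk_EE_dual {k q : ℕ} (hk : k + 1 ≤ m) (hq : q + 1 ≤ d) :
    rk G.U G.EE (k + 1) q = rk G.UQ G.𝒬 (m - k) (d - 1 - q) := by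
  have h1 : rk G.UI (fun q => (G.EE q).comap G.XI.subtype) (k + 1) q = rk G.U G.EE (k + 1) q := by
    refine rk_inj G.XI.subtype G.XI.injective_subtype G.UI G.U (fun v a => rfl) (fun q => ?_) _ _
    rw [Submodule.map_comap_subtype]
    exact inf_eq_right.2 (G.EE_le_XI q)
  rw [← h1]
  refine rk_dual G.pairQ G.UI G.UQ ?_ hk hq ?_ ?_ ?_ ?_
  · intro v e b
    obtain ⟨b, rfl⟩ := G.Z.mkQ_surjective b
    rw [UQ_mk, pairQ_mk, pairQ_mk, UI_val]
    congr 1
    ring
  · intro v a ha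
    exact G.EE_mul ha v
  · intro v b hb
    have e : d - q = d - 1 - q + 1 := by omega
    rw [e]
    exact G.𝒬_mul hb v
  · intro a ha h
    refine Subtype.ext ?_
    refine G.perf (q + 1) (d - 1 - q) (by omega) a.1 (G.EE_le_𝒜 _ ha) fun b hb => ?_
    exact h (G.Z.mkQ b) ⟨b, hb, rfl⟩
  · rintro _ ⟨b, hb, rfl⟩ h
    refine (Submodule.Quotient.mk_eq_zero G.Z).2 ?_
    rw [mem_Z]
    intro i
    cases q with
    | zero =>
      have h2 := G.mul_mem hb (Fin.natAdd m i)
      rw [G.top _ (by omega)] at h2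
      exact (Submodule.mem_bot K).1 h2
    | succ q =>
      refine G.perf (d - (q + 1) + 1) q (by omega) _ (G.mul_mem hb _) fun c hc => ?_
      have h3 : G.y (Fin.natAdd m i) * c ∈ G.EE (q + 1) :=
        Submodule.mem_iSup_of_mem i ⟨c, hc, rfl⟩
      have h4 := h ⟨_, G.EE_le_XI _ h3⟩ h3
      rw [pairQ_mk] at h4
      refine Eq.trans ?_ h4
      congr 1
      show G.y (Fin.natAdd m i) * b * c = G.y (Fin.natAdd m i) * c * b
      ring

/-- Duality in all homological degrees up to `m`. -/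
theorem rk_EE_dual' {k q : ℕ} (hk : k ≤ m) (hq : q + 1 ≤ d) :
    rk G.U G.EE k q = rk G.UQ G.𝒬 (m + 1 - k) (d - 1 - q) := by
  cases k with
  | zero => rw [rk_zero, rk_big _ (by omega)]
  | succ k =>
    have e : m + 1 - (k + 1) = m - k := by omega
    rw [e]
    exact G.rk_EE_dual hk hq

/-- The ideal of the variables `x` is their annihilator. -/
def IsSplit : Prop := ∀ q, q + 2 ≤ d → G.Z ⊓ G.𝒜 (q + 1) ≤ G.E q

omit [FiniteDimensional K A] in
theorem Z_inf_zero (hN : 1 ≤ N) : G.Z ⊓ G.𝒜 0 = ⊥ := by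
  rw [eq_bot_iff]
  rintro a ⟨h1, h2⟩
  rw [G.zero] at h2
  obtain ⟨c, rfl⟩ := Submodule.mem_span_singleton.1 h2
  have h3 := G.x_mul_Z (⟨0, hN⟩ : Fin N) h1
  rw [mul_smul_comm, mul_one] at h3
  have h4 := G.lin (Pi.single (Fin.natAdd m (⟨0, hN⟩ : Fin N)) c) (by
    rw [Finset.sum_eq_single (Fin.natAdd m (⟨0, hN⟩ : Fin N))]
    · rw [Pi.single_eq_same]; exact h3
    · intro v _ hv
      rw [Pi.single_eq_of_ne hv, zero_smul]
    · intro h; exact absurd (Finset.mem_univ _) h) (Fin.natAdd m (⟨0, hN⟩ : Fin N))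
  rw [Pi.single_eq_same] at h4
  rw [h4, zero_smul]
  exact Submodule.zero_mem _

omit [FiniteDimensional K A] in
theorem 𝒜_d_le_Z : G.𝒜 d ≤ G.Z := by
  intro a ha
  rw [mem_Z]
  intro i
  have h2 := G.mul_mem ha (Fin.natAdd m i)
  rw [G.top _ (by omega)] at h2
  exact (Submodule.mem_bot K).1 h2

theorem Z_inf_eq (hN : 1 ≤ N) (hd : 1 ≤ d) (hs : G.IsSplit) :
    (fun q => G.Z ⊓ G.𝒜 q) = G.EE := by
  funext q
  have hle : G.EE q ≤ G.Z ⊓ G.𝒜 q := by
    cases q with
    | zero => exact bot_le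
    | succ q => exact le_inf (G.E_le_Z q) (G.E_le_𝒜 q)
  refine le_antisymm ?_ hle
  cases q with
  | zero => rw [G.Z_inf_zero hN]; exact bot_le
  | succ q =>
    rcases lt_trichotomy (q + 1) d with h | h | h
    · exact hs q (by omega)
    · refine G.E_eq ?_
      have h1 := G.F2 (q := 0) hd
      have e : d - 0 - 1 = q := by omega
      rw [G.Z_inf_zero hN, finrank_bot, e, G.finrank_zero] at h1
      have h2 : Module.finrank K (G.Z ⊓ G.𝒜 (q + 1) : Submodule K A) ≤
          Module.finrank K (G.𝒜 (q + 1)) := Submodule.finrank_mono inf_le_right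
      rw [h, G.finrank_d] at h2
      rw [h]
      omega
    · rw [G.top _ h, inf_bot_eq]
      exact bot_le

theorem finrank_𝒬 (q : ℕ) : Module.finrank K (G.Z ⊓ G.𝒜 q : Submodule K A) +
    Module.finrank K (G.𝒬 q) = Module.finrank K (G.𝒜 q) := finrank_inf_add _ _

theorem finrank_EE {q : ℕ} (hq : 1 ≤ q) (hqd : q ≤ d) :
    Module.finrank K (G.EE q) = Module.finrank K (G.𝒬 (d - q)) := by
  obtain ⟨q, rfl⟩ : ∃ q', q = q' + 1 := ⟨q - 1, by omega⟩
  show Module.finrank K (G.E q) = _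
  have h1 := G.F2 (q := d - (q + 1)) (by omega)
  have e : d - (d - (q + 1)) - 1 = q := by omega
  rw [e] at h1
  have h2 := G.finrank_𝒬 (d - (q + 1))
  omega

end GA

end Pool.Agent.Perazzo
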