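import Mathlib

/-!
# The tables of the graded Betti numbers for `m = 2`
-/

set_option autoImplicit false

namespace Pool.Agent.Perazzo

/-- The Betti numbers of a Perazzo algebra with two variables `U` and minimal Hilbert function;
the codimension is `n + 3` and the socle degree is `d`. -/
def minTable (n d i j : ℕ) : ℤ :=
  if i = 0 then (if j = 0 then 1 else 0)
  else if n + 3 ≤ i then (if i = n + 3 ∧ j = n + 3 + d then 1 else 0)
  else
    (if j = i + 1 then ((n : ℤ) + 1) * ((n + 2).choose i : ℤ) - ((n + 1).choose (i + 1) : ℤ) else 0) +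
    (if j = i + n then ((n + 1).choose (i - 1) : ℤ) else 0) +
    (if j + n = i + d then ((n + 1).choose (i - 1) : ℤ) else 0) +
    (if j + 1 = i + d then
      ((n : ℤ) + 1) * ((n + 2).choose (i - 1) : ℤ) - ((n + 1).choose (n + 4 - i) : ℤ) else 0)

/-- The Betti numbers of a Perazzo algebra with two variables `U` and maximal Hilbert function;
here `t` is the ceiling of `(d + 1) / (n + 2)` and `r = (n + 2) t - (d + 1)`. -/
def maxTable (n d i j : ℕ) : ℤ :=
  let t : ℕ := (d + n + 2) / (n + 2)
  let r : ℤ := ((n : ℤ) + 2) * t - (d + 1)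
  if i = 0 then (if j = 0 then 1 else 0)
  else if n + 3 ≤ i then (if i = n + 3 ∧ j = n + 3 + d then 1 else 0)
  else
    (if j = i + 1 then ((n : ℤ) + 1) * ((n + 1).choose i : ℤ) - ((n + 1).choose (i + 1) : ℤ) else 0) +
    (if j + 1 = i + d then
      ((n : ℤ) + 1) * ((n + 1).choose (n + 3 - i) : ℤ) - ((n + 1).choose (n + 4 - i) : ℤ) else 0) +
    ((n + 1).choose (i - 1) : ℤ) *
      (r * ((if j + 1 = i + t then 1 else 0) + (if j + t = i + d + 1 then 1 else 0)) +
        (n + 2 - r) * ((if j = i + t then 1 else 0) + (if j + t = i + d then 1 else 0)))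

end Pool.Agent.Perazzo
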