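import Pool.Agent.Lib.MP_44b5f4_ag.Final
import Pool.Agent.Lib.MP_44b5f4_ag.TableDefs

/-!
# The tables of the Betti numbers for two variables `u`
-/

set_option autoImplicit false

namespace Pool.Agent.Perazzo

open Finset

namespace GA

theorem choose_top {N k : ℕ} (hk : k ≤ N + 1) :
    (2 + N).choose k = N.choose k + 2 * pc N k + N.choose (N + 2 - k) := by
  cases k with
  | zero =>
    unfold pc
    rw [Nat.choose_eq_zero_of_lt (show N < N + 2 - 0 by omega)]
    simp
  | succ k =>
    rw [choose_two]
    have h1 : pc N (k + 1) = N.choose k := by unfold pc; rw [if_neg (by omega)]; rfl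
    rw [h1]
    congr 1
    unfold pc
    cases k with
    | zero =>
      rw [if_pos rfl, Nat.choose_eq_zero_of_lt (by omega)]
    | succ k =>
      rw [if_neg (by omega)]
      have e1 : k + 1 - 1 = k := by omega
      have e2 : N + 2 - (k + 1 + 1) = N - k := by omega
      rw [e1, e2, Nat.choose_symm (by omega)]

theorem pc_eq {N k : ℕ} (hk : k ≤ N + 1) : pc N k = N.choose (N + 1 - k) := by
  unfold pc
  cases k with
  | zero => rw [if_pos rfl, Nat.choose_eq_zero_of_lt (by omega)]
  | succ k =>
    rw [if_neg (by omega)]
    have e1 : k + 1 - 1 = k := by omega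
    have e2 : N + 1 - (k + 1) = N - k := by omega
    rw [e1, e2, Nat.choose_symm (by omega)]

variable {K A : Type} [Field K] [CommRing A] [Algebra K A] {N d : ℕ} (G : GA K A 2 N d)
  [FiniteDimensional K A]

/-- The Betti numbers in terms of the Hilbert function. -/
theorem B_all (hG : G.Good) (hd : 3 ≤ d) (h1 : Module.finrank K (G.𝒜 1) = N + 2) {k q : ℕ}
    (hk : k ≤ N) (hq : 1 ≤ q) (hqd : q + 1 ≤ d) :
    (betti G.X G.𝒜 (k + 1) (k + 1 + q) : ℤ) =
      (if q = 1 then (N : ℤ) * (N.choose (k + 1) : ℤ) - (N.choose (k + 2) : ℤ) else 0) +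
      (if q + 1 = d then (N : ℤ) * (N.choose (N + 1 - k) : ℤ) - (N.choose (N + 2 - k) : ℤ) else 0) +
      N.choose k * (2 * Module.finrank K (G.𝒜 q) - Module.finrank K (G.𝒜 (q - 1)) -
        Module.finrank K (G.𝒜 (q + 1))) := by
  have hc1 := choose_two N k
  have hc2 := choose_two N (k + 1)
  have hp1 : pc N (k + 1) = N.choose k := by unfold pc; rw [if_neg (by omega)]; rfl
  have e0 : k + 1 + 1 = k + 2 := rfl
  rw [hp1, e0] at hc2
  by_cases hq1 : q = 1
  · subst hq1
    rw [if_pos rfl, if_neg (by omega)]
    have h2 := G.B_first hG hd k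
    rw [e0, h2, h1]
    have e1 : 1 - 1 = 0 := rfl
    rw [e1, G.finrank_zero, hc1, hc2]
    push_cast
    ring
  · rw [if_neg hq1]
    by_cases hq2 : q + 1 = d
    · rw [if_pos hq2]
      have e1 : d - 1 = q := by omega
      have e2 : d - 2 = q - 1 := by omega
      have h2 := G.B_penult hG hd (k := k) (by omega)
      rw [e1, e2] at h2
      have h3 : Module.finrank K (G.𝒜 q) = N + 2 := by
        rw [← h1]
        exact G.F4 (by omega)
      rw [h2, choose_top (by omega), ← pc_eq (by omega), h3, hq2, G.finrank_d]
      push_cast
      ring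
    · rw [if_neg hq2]
      obtain ⟨q, rfl⟩ : ∃ q', q = q' + 1 := ⟨q - 1, by omega⟩
      rw [G.B_mid hG (q := q) (by omega) (by omega)]
      have e1 : q + 1 - 1 = q := rfl
      have e2 : q + 1 + 1 = q + 2 := rfl
      rw [e1, e2]
      ring

include G in
theorem N_le (hd : 1 ≤ d) : N ≤ d := by
  have h1 := G.F1' (d - 1)
  have h2 := G.F2 (q := d - 1) (by omega)
  have e1 : d - (d - 1) - 1 = 0 := by omega
  rw [e1, G.F5] at h2
  omega

end GA

variable {K A : Type} [Field K] [CommRing A] [Algebra K A] {n d : ℕ} (G : GA K A 2 (n + 1) d)
  [FiniteDimensional K A]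

theorem min_table (hn : 2 ≤ n) (hd : 2 ≤ d) (hG : G.IsMin) (i j : ℕ) :
    (betti G.X G.𝒜 i j : ℤ) = minTable n d i j := by
  have hNd := G.N_le (by omega)
  have hgood := G.good_min (by omega) hNd hG
  have hdim : ∀ q, 1 ≤ q → q + 1 ≤ d →
      Module.finrank K (G.𝒜 q) = min (q + 1) (n + 1) + min (d - q + 1) (n + 1) :=
    fun q h1 h2 => (G.min_dims (by omega) hNd hG h1 h2).2.2
  unfold minTable
  by_cases hij : j < i
  · rw [betti_lt _ _ hij]
    split_ifs <;> omega
  · obtain ⟨q, rfl⟩ : ∃ q, j = i + q := ⟨j - i, by omega⟩
    by_cases hi0 : i = 0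
    · subst hi0
      rw [if_pos rfl, zero_add, G.B_zero]
      split_ifs <;> simp
    · rw [if_neg hi0]
      by_cases hi1 : n + 3 ≤ i
      · rw [if_pos hi1]
        by_cases hi2 : i = 2 + (n + 1)
        · subst hi2
          rw [G.B_last (by omega) q]
          by_cases hq : q = d
          · subst hq
            rw [if_pos rfl, if_pos (by omega)]
            simp
          · rw [if_neg hq, if_neg (by omega)]
            simp
        · rw [G.B_beyond (by omega), if_neg (by omega)]
          simp
      · rw [if_neg hi1]
        obtain ⟨k, rfl⟩ : ∃ k, i = k + 1 := ⟨i - 1, by omega⟩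
        have e0 : k + 1 - 1 = k := rfl
        rw [e0]
        by_cases hq0 : q = 0
        · subst hq0
          rw [add_zero, G.B_row_zero, if_neg (by omega), if_neg (by omega), if_neg (by omega),
            if_neg (by omega)]
          simp
        · by_cases hqd : d ≤ q
          · rw [G.B_row_ge (by omega) (by omega) hqd, if_neg (by omega), if_neg (by omega),
              if_neg (by omega), if_neg (by omega)]
            simp
          · have hb := G.B_all hgood (by omega) (by
              rw [hdim 1 (by omega) (by omega)]; omega) (k := k) (q := q) (by omega) (by omega)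
                (by omega)
            rw [hb]
            have hD : (2 * Module.finrank K (G.𝒜 q) - Module.finrank K (G.𝒜 (q - 1)) -
                Module.finrank K (G.𝒜 (q + 1)) : ℤ) =
                (if q = 1 then ((n : ℤ) + 1) else 0) + (if q + 1 = d then ((n : ℤ) + 1) else 0) +
                (if q = n then 1 else 0) + (if q + n = d then 1 else 0) := by
              have h2 := hdim q (by omega) (by omega)
              have h3 : Module.finrank K (G.𝒜 (q - 1)) = if q = 1 then 1 else
                  min q (n + 1) + min (d - q + 2) (n + 1) := by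
                by_cases h : q = 1
                · rw [if_pos h, h]; exact G.finrank_zero
                · rw [if_neg h, hdim (q - 1) (by omega) (by omega)]
                  congr 2 <;> omega
              have h4 : Module.finrank K (G.𝒜 (q + 1)) = if q + 1 = d then 1 else
                  min (q + 2) (n + 1) + min (d - q) (n + 1) := by
                by_cases h : q + 1 = d
                · rw [if_pos h, h]; exact G.finrank_d
                · rw [if_neg h, hdim (q + 1) (by omega) (by omega)]
                  congr 2; omega
              rw [h2, h3, h4]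
              split_ifs <;> omega
            rw [hD]
            have e1 : n + 1 + 1 - k = n + 2 - k := by omega
            have e2 : n + 1 + 2 - k = n + 4 - (k + 1) := by omega
            have e3 : ((n + 2).choose (k + 1) : ℤ) = (n + 1).choose k + (n + 1).choose (k + 1) := by
              rw [Nat.choose_succ_succ]; push_cast; ring
            have e4 : ((n + 2).choose k : ℤ) = (n + 1).choose k + (n + 1).choose (n + 1 + 1 - k) := by
              rw [← GA.pc_eq (by omega)]
              unfold GA.pc
              cases k with
              | zero => simp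
              | succ k =>
                rw [if_neg (by omega), Nat.choose_succ_succ]
                push_cast
                simp only [Nat.succ_eq_add_one]
                ring
            rw [e3, e4, ← e2]
            have c1 : (k + 1 + q = k + 1 + 1) ↔ q = 1 := by omega
            have c2 : (k + 1 + q = k + 1 + n) ↔ q = n := by omega
            have c3 : (k + 1 + q + n = k + 1 + d) ↔ q + n = d := by omega
            have c4 : (k + 1 + q + 1 = k + 1 + d) ↔ q + 1 = d := by omega
            simp only [c1, c2, c3, c4]
            push_cast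
            split_ifs <;> ring

/-- Second differences of the maximal Hilbert function. -/
theorem second_diff {n d t : ℕ} {H : ℕ → ℕ} (t1 : 1 ≤ t) (t2 : 2 * t ≤ d)
    (hv : ∀ q, q ≤ d → (q < t → H q = (n + 2) * q + 1) ∧
      (t ≤ q → q + t ≤ d → H q = d + 2) ∧
      (d < q + t → H q = (n + 2) * (d - q) + 1)) {q : ℕ} (hq : 1 ≤ q) (hqd : q + 1 ≤ d) :
    (2 * H q - H (q - 1) - H (q + 1) : ℤ) =
      (((n : ℤ) + 2) * t - (d + 1)) *
        ((if q + 1 = t then 1 else 0) + (if q + t = d + 1 then 1 else 0)) +
      (n + 2 - (((n : ℤ) + 2) * t - (d + 1))) *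
        ((if q = t then 1 else 0) + (if q + t = d then 1 else 0)) := by
  obtain ⟨p, rfl⟩ : ∃ p, q = p + 1 := ⟨q - 1, by omega⟩
  have e0 : p + 1 - 1 = p := rfl
  rw [e0]
  have hlow : ∀ q, q ≤ d → q < t → (H q : ℤ) = ((n : ℤ) + 2) * q + 1 := by
    intro q h1 h2
    rw [(hv q h1).1 h2]; push_cast; ring
  have hmid : ∀ q, q ≤ d → t ≤ q → q + t ≤ d → (H q : ℤ) = d + 2 := by
    intro q h1 h2 h3
    rw [(hv q h1).2.1 h2 h3]; push_cast; ring
  have hhigh : ∀ q, q ≤ d → d < q + t → (H q : ℤ) = ((n : ℤ) + 2) * (d - q) + 1 := by
    intro q h1 h2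
    rw [(hv q h1).2.2 h2]; push_cast [Nat.cast_sub h1]; ring
  by_cases k1 : p + 1 + 1 < t
  · rw [hlow (p + 1) (by omega) (by omega), hlow p (by omega) (by omega),
      hlow (p + 1 + 1) (by omega) (by omega), if_neg (show ¬ p + 1 + 1 = t by omega),
      if_neg (show ¬ p + 1 + t = d + 1 by omega), if_neg (show ¬ p + 1 = t by omega),
      if_neg (show ¬ p + 1 + t = d by omega)]
    push_cast; ring
  · by_cases k2 : p + 1 + 1 = t
    · rw [hlow (p + 1) (by omega) (by omega), hlow p (by omega) (by omega),
        hmid (p + 1 + 1) (by omega) (by omega) (by omega), if_pos k2,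
        if_neg (show ¬ p + 1 + t = d + 1 by omega), if_neg (show ¬ p + 1 = t by omega),
        if_neg (show ¬ p + 1 + t = d by omega), ← k2]
      push_cast; ring
    · by_cases k3 : p + 1 = t
      · by_cases k4 : p + 1 + t = d
        · rw [hmid (p + 1) (by omega) (by omega) (by omega), hlow p (by omega) (by omega),
            hhigh (p + 1 + 1) (by omega) (by omega), if_neg (show ¬ p + 1 + 1 = t by omega),
            if_neg (show ¬ p + 1 + t = d + 1 by omega), if_pos k3, if_pos k4, ← k4, ← k3]
          push_cast; ring
        · rw [hmid (p + 1) (by omega) (by omega) (by omega), hlow p (by omega) (by omega),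
            hmid (p + 1 + 1) (by omega) (by omega) (by omega),
            if_neg (show ¬ p + 1 + 1 = t by omega),
            if_neg (show ¬ p + 1 + t = d + 1 by omega), if_pos k3, if_neg k4, ← k3]
          push_cast; ring
      · by_cases k4 : p + 1 + t = d
        · rw [hmid (p + 1) (by omega) (by omega) (by omega), hmid p (by omega) (by omega) (by omega),
            hhigh (p + 1 + 1) (by omega) (by omega), if_neg (show ¬ p + 1 + 1 = t by omega),
            if_neg (show ¬ p + 1 + t = d + 1 by omega), if_neg k3, if_pos k4, ← k4]
          push_cast; ring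
        · by_cases k5 : p + 1 + t = d + 1
          · have k5' : (d : ℤ) = p + t := by omega
            rw [hhigh (p + 1) (by omega) (by omega), hmid p (by omega) (by omega) (by omega),
              hhigh (p + 1 + 1) (by omega) (by omega), if_neg (show ¬ p + 1 + 1 = t by omega),
              if_pos k5, if_neg k3, if_neg k4, k5']
            push_cast; ring
          · by_cases k6 : p + 1 + t < d
            · rw [hmid (p + 1) (by omega) (by omega) (by omega),
                hmid p (by omega) (by omega) (by omega),
                hmid (p + 1 + 1) (by omega) (by omega) (by omega),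
                if_neg (show ¬ p + 1 + 1 = t by omega),
                if_neg k5, if_neg k3, if_neg k4]
              push_cast; ring
            · rw [hhigh (p + 1) (by omega) (by omega), hhigh p (by omega) (by omega),
                hhigh (p + 1 + 1) (by omega) (by omega),
                if_neg (show ¬ p + 1 + 1 = t by omega),
                if_neg k5, if_neg k3, if_neg k4]
              push_cast; ring

/-- The values of the maximal Hilbert function. -/
theorem max_values (hn : 2 ≤ n) (hd : 2 ≤ d) (hG : G.IsMax) {t : ℕ} (ht : t = (d + n + 2) / (n + 2)) :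
    1 ≤ t ∧ 2 * t ≤ d ∧ d + 1 ≤ (n + 2) * t ∧ (n + 2) * t ≤ d + n + 2 ∧
    ∀ q, q ≤ d → (q < t → Module.finrank K (G.𝒜 q) = (n + 2) * q + 1) ∧
      (t ≤ q → q + t ≤ d → Module.finrank K (G.𝒜 q) = d + 2) ∧
      (d < q + t → Module.finrank K (G.𝒜 q) = (n + 2) * (d - q) + 1) := by
  have hNd := G.N_le (by omega)
  have h1 : (n + 2) * t ≤ d + n + 2 := by rw [ht]; exact Nat.mul_div_le _ _
  have h2 : d + n + 2 < (n + 2) * (t + 1) := by rw [ht]; exact Nat.lt_mul_div_succ _ (by omega)
  have h3 : d + 1 ≤ (n + 2) * t := by rw [Nat.mul_succ] at h2; omega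
  have ht1 : 1 ≤ t := by
    rcases Nat.eq_zero_or_pos t with h | h
    · rw [h] at h3; omega
    · exact h
  have ht2 : 2 * t ≤ d := by
    by_contra hcon
    have h4 : (n + 2) * (d + 1) ≤ (n + 2) * (2 * t) := Nat.mul_le_mul_left _ (by omega)
    have h5 : (n + 2) * (2 * t) = 2 * ((n + 2) * t) := by ring
    have h6 : (n + 2) * (d + 1) = n * (d + 1) + 2 * (d + 1) := by ring
    have h7 : 2 * (d + 1) ≤ n * (d + 1) := Nat.mul_le_mul_right _ hn
    rw [h5, h6] at h4
    -- `n (d + 1) ≤ 2 n + 2`
    have h8 : n * (d + 1) ≤ 2 * n + 2 := by omega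
    have h9 : n * 4 ≤ n * (d + 1) := Nat.mul_le_mul_left _ (by omega)
    omega
  have key : ∀ q, 2 * q ≤ d → (q < t → Module.finrank K (G.𝒜 q) = (n + 2) * q + 1) ∧
      (t ≤ q → Module.finrank K (G.𝒜 q) = d + 2) := by
    intro q hq
    rcases Nat.eq_zero_or_pos q with h | h
    · subst h
      refine ⟨fun _ => by rw [G.finrank_zero]; omega, fun hh => by omega⟩
    · have h4 := hG q h hq
      have h5 : q + 1 + (n + 1) * q = (n + 2) * q + 1 := by ring
      rw [h5] at h4
      constructor
      · intro hh
        have h6 : (n + 2) * (q + 1) ≤ (n + 2) * t := Nat.mul_le_mul_left _ hh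
        rw [Nat.mul_succ] at h6
        rw [h4]
        omega
      · intro hh
        have h6 : (n + 2) * t ≤ (n + 2) * q := Nat.mul_le_mul_left _ hh
        rw [h4]
        omega
  refine ⟨ht1, ht2, h3, h1, fun q hq => ?_⟩
  by_cases hc : 2 * q ≤ d
  · refine ⟨(key q hc).1, fun h _ => (key q hc).2 h, fun h => ?_⟩
    omega
  · have h4 := key (d - q) (by omega)
    have h5 : Module.finrank K (G.𝒜 q) = Module.finrank K (G.𝒜 (d - q)) := G.F4 (by omega)
    rw [h5]
    exact ⟨fun h => by omega, fun _ _ => h4.2 (by omega), fun h => h4.1 (by omega)⟩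

theorem max_table (hn : 2 ≤ n) (hd : 2 ≤ d) (hG : G.IsMax) (i j : ℕ) :
    (betti G.X G.𝒜 i j : ℤ) = maxTable n d i j := by
  have hNd := G.N_le (by omega)
  have hgood := G.good_max (by omega) hNd hG
  unfold maxTable
  simp only
  generalize htt : (d + n + 2) / (n + 2) = t
  obtain ⟨t1, t2, t3, t4, hv⟩ := max_values G hn hd hG htt.symm
  have t3' : ((d : ℤ) + 1) ≤ ((n : ℤ) + 2) * t := by exact_mod_cast t3
  by_cases hij : j < i
  · rw [betti_lt _ _ hij]
    by_cases hi0 : i = 0
    · omega
    · rw [if_neg hi0]
      by_cases hi1 : n + 3 ≤ i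
      · rw [if_pos hi1, if_neg (by omega)]; simp
      · rw [if_neg hi1, if_neg (by omega), if_neg (by omega), if_neg (by omega), if_neg (by omega),
          if_neg (by omega), if_neg (by omega)]
        simp
  · obtain ⟨q, rfl⟩ : ∃ q, j = i + q := ⟨j - i, by omega⟩
    by_cases hi0 : i = 0
    · subst hi0
      rw [if_pos rfl, zero_add, G.B_zero]
      split_ifs <;> simp
    · rw [if_neg hi0]
      by_cases hi1 : n + 3 ≤ i
      · rw [if_pos hi1]
        by_cases hi2 : i = 2 + (n + 1)
        · subst hi2
          rw [G.B_last (by omega) q]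
          by_cases hq : q = d
          · subst hq
            rw [if_pos rfl, if_pos (by omega)]
            simp
          · rw [if_neg hq, if_neg (by omega)]
            simp
        · rw [G.B_beyond (by omega), if_neg (by omega)]
          simp
      · rw [if_neg hi1]
        obtain ⟨k, rfl⟩ : ∃ k, i = k + 1 := ⟨i - 1, by omega⟩
        have e0 : k + 1 - 1 = k := rfl
        rw [e0]
        have c1 : (k + 1 + q = k + 1 + 1) ↔ q = 1 := by omega
        have c2 : (k + 1 + q + 1 = k + 1 + d) ↔ q + 1 = d := by omega
        have c3 : (k + 1 + q + 1 = k + 1 + t) ↔ q + 1 = t := by omega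
        have c4 : (k + 1 + q + t = k + 1 + d + 1) ↔ q + t = d + 1 := by omega
        have c5 : (k + 1 + q = k + 1 + t) ↔ q = t := by omega
        have c6 : (k + 1 + q + t = k + 1 + d) ↔ q + t = d := by omega
        simp only [c1, c2, c3, c4, c5, c6]
        by_cases hq0 : q = 0
        · subst hq0
          rw [add_zero, G.B_row_zero, if_neg (show ¬ (0 = 1) by omega),
            if_neg (show ¬ (0 + 1 = d) by omega), if_neg (show ¬ (0 + t = d + 1) by omega),
            if_neg (show ¬ (0 = t) by omega), if_neg (show ¬ (0 + t = d) by omega)]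
          by_cases h : 0 + 1 = t
          · have ht : t = 1 := by omega
            subst ht
            have : ((n : ℤ) + 2) * ((1 : ℕ) : ℤ) - (d + 1) = 0 := by
              push_cast
              omega
            rw [this]
            simp
          · rw [if_neg h]
            simp
        · by_cases hqd : d ≤ q
          · rw [G.B_row_ge (by omega) (by omega) hqd, if_neg (show ¬ (q = 1) by omega),
              if_neg (show ¬ (q + 1 = d) by omega), if_neg (show ¬ (q + 1 = t) by omega),
              if_neg (show ¬ (q = t) by omega), if_neg (show ¬ (q + t = d) by omega)]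
            by_cases h : q + t = d + 1
            · have ht : t = 1 := by omega
              subst ht
              have : ((n : ℤ) + 2) * ((1 : ℕ) : ℤ) - (d + 1) = 0 := by
                push_cast
                omega
              rw [this]
              simp
            · rw [if_neg h]
              simp
          · have hH1 : Module.finrank K (G.𝒜 1) = n + 1 + 2 := by
              have := hG 1 (by omega) (by omega)
              omega
            have hb := G.B_all hgood (by omega) hH1 (k := k) (q := q) (by omega) (by omega)
                (by omega)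
            rw [hb]
            have hD : (2 * Module.finrank K (G.𝒜 q) - Module.finrank K (G.𝒜 (q - 1)) -
                Module.finrank K (G.𝒜 (q + 1)) : ℤ) =
                (((n : ℤ) + 2) * t - (d + 1)) *
                  ((if q + 1 = t then 1 else 0) + (if q + t = d + 1 then 1 else 0)) +
                (n + 2 - (((n : ℤ) + 2) * t - (d + 1))) *
                  ((if q = t then 1 else 0) + (if q + t = d then 1 else 0)) := by
              exact second_diff (H := fun q => Module.finrank K (G.𝒜 q)) t1 t2 hv (by omega)
                (by omega)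
            rw [hD]
            have e1 : n + 1 + 1 - k = n + 3 - (k + 1) := by omega
            have e2 : n + 1 + 2 - k = n + 4 - (k + 1) := by omega
            rw [e1, e2]
            push_cast
            ring

end Pool.Agent.Perazzo
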