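import Pool.Agent.Lib.MP_44b5f4_ag.Gor

/-!
# Two variables `u`: the ranks of the Koszul differentials
-/

set_option autoImplicit false

namespace Pool.Agent.Perazzo

open Finset

section two

variable {K A : Type} [Field K] [AddCommGroup A] [Module K A]

theorem vec2 (t : Fin 2 → Bool) : t = (fun _ => false) ∨ t = sng 0 ∨ t = sng 1 ∨
    t = (fun _ => true) := by
  cases h0 : t 0 <;> cases h1 : t 1
  · left; funext v; fin_cases v <;> simp [h0, h1]
  · right; right; left; funext v; fin_cases v <;> simp [h0, h1, sng]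
  · right; left; funext v; fin_cases v <;> simp [h0, h1, sng]
  · right; right; right; funext v; fin_cases v <;> simp [h0, h1]

theorem bc_tt : bc (fun _ : Fin 2 => true) = 2 := by
  simp [bc]

theorem bc_ff {r : ℕ} : bc (fun _ : Fin r => false) = 0 := bc_eq_zero.2 rfl

theorem sng_ne_ff {r : ℕ} (v : Fin r) : sng v ≠ fun _ => false := by
  intro h
  have := bc_sng v
  rw [h, bc_ff] at this
  omega

theorem sng_ne_tt (v : Fin 2) : sng v ≠ fun _ => true := by
  intro h
  have := bc_sng v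
  rw [h, bc_tt] at this
  omega

/-- The differential in degree two. -/
theorem kos_two_sng0 (X : Fin 2 → Module.End K A) (g : (Fin 2 → Bool) → A) :
    kos X g (sng 0) = X 1 (g fun _ => true) := by
  rw [kos_apply, Fin.sum_univ_two]
  have h0 : (sng 0 : Fin 2 → Bool) 0 = true := by simp [sng]
  have h1 : ¬ (sng 0 : Fin 2 → Bool) 1 = true := by simp [sng]
  rw [if_pos h0, if_neg h1, zero_add]
  have e : Function.update (sng 0 : Fin 2 → Bool) 1 true = fun _ => true := by
    funext v; fin_cases v <;> simp [sng]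
  have hs : sgn K (sng 0 : Fin 2 → Bool) 1 = 1 := by
    unfold sgn
    have : (univ.filter fun w : Fin 2 => 1 < w ∧ (sng 0 : Fin 2 → Bool) w = true) = ∅ := by
      rw [Finset.filter_eq_empty_iff]
      intro w _ hw
      have := hw.1
      fin_cases w <;> simp at this
    rw [this]; simp
  rw [e, hs, one_smul]

theorem kos_two_sng1 (X : Fin 2 → Module.End K A) (g : (Fin 2 → Bool) → A) :
    kos X g (sng 1) = - X 0 (g fun _ => true) := by
  rw [kos_apply, Fin.sum_univ_two]
  have h0 : ¬ (sng 1 : Fin 2 → Bool) 0 = true := by simp [sng]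
  have h1 : (sng 1 : Fin 2 → Bool) 1 = true := by simp [sng]
  rw [if_neg h0, if_pos h1, add_zero]
  have e : Function.update (sng 1 : Fin 2 → Bool) 0 true = fun _ => true := by
    funext v; fin_cases v <;> simp [sng]
  have hs : sgn K (sng 1 : Fin 2 → Bool) 0 = -1 := by
    unfold sgn
    have : (univ.filter fun w : Fin 2 => 0 < w ∧ (sng 1 : Fin 2 → Bool) w = true) = {1} := by
      ext w
      fin_cases w <;> simp [sng]
    rw [this]; simp
  rw [e, hs, neg_smul, one_smul]

end two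

namespace GA

variable {K A : Type} [Field K] [CommRing A] [Algebra K A] {N d : ℕ} (G : GA K A 2 N d)

/-- The variables `u`. -/
def u (v : Fin 2) : A := G.y (Fin.castAdd N v)

/-- The variables `x`. -/
def x (i : Fin N) : A := G.y (Fin.natAdd 2 i)

/-- The condition on the pairing of cycles. -/
def Crux (q : ℕ) : Prop := ∀ c0 ∈ G.𝒜 q, ∀ c1 ∈ G.𝒜 q, G.u 0 * c0 + G.u 1 * c1 ∈ G.Z →
  ∀ j, ∃ ε ∈ G.Z ⊓ G.𝒜 q, G.x j * c0 = G.u 1 * ε ∧ G.x j * c1 = - (G.u 0 * ε)

theorem Z_gen (h1 : ∀ q, q + 2 ≤ d → G.Z ⊓ G.𝒜 (q + 1) ≤ G.E q) {q : ℕ} (hq : 1 ≤ q)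
    (hqd : q + 2 ≤ d) {z : A} (hz : z ∈ G.Z) (hz' : z ∈ G.𝒜 (q + 1)) :
    ∃ z0 ∈ G.Z ⊓ G.𝒜 q, ∃ z1 ∈ G.Z ⊓ G.𝒜 q, z = G.u 0 * z0 + G.u 1 * z1 := by
  obtain ⟨q, rfl⟩ : ∃ q', q = q' + 1 := ⟨q - 1, by omega⟩
  have h2 := G.E_succ_le q (h1 (q + 1) hqd ⟨hz, hz'⟩)
  have h3 : (⨆ v : Fin 2, (G.E q).map (LinearMap.mulLeft K (G.y (Fin.castAdd N v)))) =
      (G.E q).map (LinearMap.mulLeft K (G.u 0)) ⊔ (G.E q).map (LinearMap.mulLeft K (G.u 1)) := by
    apply le_antisymm
    · refine iSup_le fun v => ?_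
      fin_cases v
      · exact le_sup_left
      · exact le_sup_right
    · refine sup_le ?_ ?_
      · exact le_iSup (fun v : Fin 2 => (G.E q).map (LinearMap.mulLeft K (G.y (Fin.castAdd N v)))) 0
      · exact le_iSup (fun v : Fin 2 => (G.E q).map (LinearMap.mulLeft K (G.y (Fin.castAdd N v)))) 1
  rw [h3, Submodule.mem_sup] at h2
  obtain ⟨_, ⟨a, ha, rfl⟩, _, ⟨b, hb, rfl⟩, h4⟩ := h2
  exact ⟨a, ⟨G.E_le_Z q ha, G.E_le_𝒜 q ha⟩, b, ⟨G.E_le_Z q hb, G.E_le_𝒜 q hb⟩, h4.symm⟩

theorem mem_Z_of_u {q : ℕ} (hq : q + 1 < d) {a : A} (ha : a ∈ G.𝒜 q) (h0 : G.u 0 * a ∈ G.Z)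
    (h1 : G.u 1 * a ∈ G.Z) : a ∈ G.Z := by
  rw [mem_Z]
  intro i
  refine G.socle hq (G.mul_mem ha _) fun v => ?_
  induction v using Fin.addCases with
  | left v =>
    fin_cases v
    · show G.u 0 * (G.y (Fin.natAdd 2 i) * a) = 0
      rw [mul_left_comm]
      exact G.x_mul_Z i h0
    · show G.u 1 * (G.y (Fin.natAdd 2 i) * a) = 0
      rw [mul_left_comm]
      exact G.x_mul_Z i h1
  | right j => rw [← mul_assoc, G.xx, zero_mul]

/-- The property of cycles for the variables `u`. -/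
theorem qprop_two (h1 : ∀ q, q + 2 ≤ d → G.Z ⊓ G.𝒜 (q + 1) ≤ G.E q) {q : ℕ} (hq : 1 ≤ q)
    (hqd : q + 2 ≤ d) (hc : G.Crux q) :
    QProp (fun v : Fin 2 => G.X (Fin.castAdd N v)) (fun i : Fin N => G.X (Fin.natAdd 2 i))
      G.Z G.𝒜 q := by
  classical
  intro k c hck hcE
  have hck' := mem_KK.1 hck
  match k, hck, hck' with
  | 0, hck, hck' =>
    refine ⟨⟨0, Submodule.zero_mem _, by rw [kos_zero _ hck, map_zero]⟩, fun j => ?_⟩
    have ha := (hck' (fun _ => false)).1 bc_ff
    obtain ⟨z0, hz0, z1, hz1, he⟩ := G.Z_gen h1 hq hqd (G.x_mem_Z j (c fun _ => false))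
      (G.mul_mem ha _)
    have hm : (Pi.single (sng 0) z0 + Pi.single (sng 1) z1 : (Fin 2 → Bool) → A) ∈
        KK (fun q => G.Z ⊓ G.𝒜 q) 1 q := by
      refine Submodule.add_mem _ ?_ ?_
      · have := single_mem_KK (K := K) (𝒜 := fun q => G.Z ⊓ G.𝒜 q) (q := q) (sng (0 : Fin 2)) hz0
        rwa [bc_sng] at this
      · have := single_mem_KK (K := K) (𝒜 := fun q => G.Z ⊓ G.𝒜 q) (q := q) (sng (1 : Fin 2)) hz1
        rwa [bc_sng] at this
    refine ⟨_, hm, ?_⟩
    rw [kos_one _ hm]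
    funext t
    by_cases ht : t = fun _ => false
    · subst ht
      rw [LinearMap.single_apply, Pi.single_eq_same, Fin.sum_univ_two]
      have h01 : (sng 0 : Fin 2 → Bool) ≠ sng 1 := fun h => by
        have := sng_inj h
        simp at this
      simp only [Pi.add_apply, Pi.single_eq_same, Pi.single_eq_of_ne h01,
        Pi.single_eq_of_ne h01.symm, add_zero, zero_add]
      exact he
    · rw [LinearMap.single_apply, Pi.single_eq_of_ne ht,
        (hck' t).2 (fun hh => ht (bc_eq_zero.1 hh)), map_zero]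
  | 1, hck, hck' =>
    have ha0 := (hck' (sng 0)).1 (bc_sng 0)
    have ha1 := (hck' (sng 1)).1 (bc_sng 1)
    have hk : G.u 0 * c (sng 0) + G.u 1 * c (sng 1) ∈ G.Z := by
      have := mem_CE.1 hcE (fun _ => false)
      rw [kos_one _ hck, LinearMap.single_apply, Pi.single_eq_same, Fin.sum_univ_two] at this
      exact this
    have hk' : G.u 0 * c (sng 0) + G.u 1 * c (sng 1) ∈ G.𝒜 (q + 1) :=
      Submodule.add_mem _ (G.mul_mem ha0 _) (G.mul_mem ha1 _)
    have h01 : (sng 0 : Fin 2 → Bool) ≠ sng 1 := fun h => by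
      have := sng_inj h
      simp at this
    constructor
    · obtain ⟨z0, hz0, z1, hz1, he⟩ := G.Z_gen h1 hq hqd hk hk'
      have hm : (Pi.single (sng 0) z0 + Pi.single (sng 1) z1 : (Fin 2 → Bool) → A) ∈
          KK (fun q => G.Z ⊓ G.𝒜 q) 1 q := by
        refine Submodule.add_mem _ ?_ ?_
        · have := single_mem_KK (K := K) (𝒜 := fun q => G.Z ⊓ G.𝒜 q) (q := q) (sng (0 : Fin 2)) hz0
          rwa [bc_sng] at this
        · have := single_mem_KK (K := K) (𝒜 := fun q => G.Z ⊓ G.𝒜 q) (q := q) (sng (1 : Fin 2)) hz1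
          rwa [bc_sng] at this
      refine ⟨_, hm, ?_⟩
      rw [kos_one _ hm, kos_one _ hck]
      congr 1
      rw [Fin.sum_univ_two, Fin.sum_univ_two]
      simp only [Pi.add_apply, Pi.single_eq_same, Pi.single_eq_of_ne h01,
        Pi.single_eq_of_ne h01.symm, add_zero, zero_add]
      exact he
    · intro j
      obtain ⟨ε, hε, e0, e1⟩ := hc _ ha0 _ ha1 hk j
      have hm : (Pi.single (fun _ => true) ε : (Fin 2 → Bool) → A) ∈
          KK (fun q => G.Z ⊓ G.𝒜 q) 2 q := by
        have := single_mem_KK (K := K) (𝒜 := fun q => G.Z ⊓ G.𝒜 q) (q := q)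
          (fun _ : Fin 2 => true) hε
        rwa [bc_tt] at this
      refine ⟨_, hm, ?_⟩
      have hm2 := kos_mem (k := 1) (fun v : Fin 2 => G.X (Fin.castAdd N v)) (𝒜 := G.𝒜) (q := q)
        (fun v a ha => G.mul_mem ha _) (g := Pi.single (fun _ => true) ε) (by
          have := single_mem_KK (K := K) (𝒜 := G.𝒜) (q := q) (fun _ : Fin 2 => true) hε.2
          rwa [bc_tt] at this)
      have hm2' := mem_KK.1 hm2
      funext t
      rcases vec2 t with rfl | rfl | rfl | rfl
      · rw [(hck' _).2 (by rw [bc_ff]; omega), map_zero, (hm2' _).2 (by rw [bc_ff]; omega)]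
      · rw [kos_two_sng0, Pi.single_eq_same]
        exact e0
      · rw [kos_two_sng1, Pi.single_eq_same]
        exact e1
      · rw [(hck' _).2 (by rw [bc_tt]; omega), map_zero, (hm2' _).2 (by rw [bc_tt]; omega)]
  | 2, hck, hck' =>
    have ha := (hck' (fun _ => true)).1 bc_tt
    have hk0 : G.u 1 * c (fun _ => true) ∈ G.Z := by
      have := mem_CE.1 hcE (sng 0)
      rw [kos_two_sng0] at this
      exact this
    have hk1 : G.u 0 * c (fun _ => true) ∈ G.Z := by
      have := mem_CE.1 hcE (sng 1)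
      rw [kos_two_sng1] at this
      have h2 := G.Z.neg_mem this
      rw [neg_neg] at h2
      exact h2
    have hZ := G.mem_Z_of_u (by omega) ha hk1 hk0
    constructor
    · refine ⟨c, ?_, rfl⟩
      rw [mem_KK]
      intro t
      refine ⟨fun ht => ⟨?_, (hck' t).1 ht⟩, (hck' t).2⟩
      rcases vec2 t with rfl | rfl | rfl | rfl
      · rw [bc_ff] at ht; omega
      · rw [bc_sng] at ht; omega
      · rw [bc_sng] at ht; omega
      · exact hZ
    · intro j
      refine ⟨0, Submodule.zero_mem _, ?_⟩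
      rw [map_zero]
      funext t
      by_cases ht : bc t = 2
      · have : t = fun _ => true := by
          rcases vec2 t with rfl | rfl | rfl | rfl
          · rw [bc_ff] at ht; omega
          · rw [bc_sng] at ht; omega
          · rw [bc_sng] at ht; omega
          · rfl
        subst this
        exact G.x_mul_Z j hZ
      · rw [(hck' t).2 ht, map_zero]
        rfl
  | k + 3, hck, hck' =>
    have h0 : c = 0 := by
      rw [KK_big (by omega)] at hck
      exact (Submodule.mem_bot K).1 hck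
    subst h0
    refine ⟨⟨0, Submodule.zero_mem _, rfl⟩, fun j => ⟨0, Submodule.zero_mem _, ?_⟩⟩
    rw [map_zero]
    funext t
    simp

end GA

end Pool.Agent.Perazzo
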